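import Pool.Agent.Lib.MP_696deb_nt.Sm.Red
import Pool.Agent.Lib.MP_696deb_nt.B2.D1

/-! From few liftable classes to the corank bound. -/

set_option autoImplicit false

open scoped Classical
open Finset Function

namespace Pool.Agent.Lib.MP_696deb_nt.Sm

/-- A finite set of exponent two that is closed under addition has two-power order. -/
theorem card_AA_le (C : Cv) {D : ℤ} (hD : D ≠ 0) {n : ℕ} (h : (C.AA D n).ncard < 16) :
    (C.AA D n).ncard ≤ 8 := by
  have h2 : ∀ c ∈ C.AA D n, 2 • c = 0 := fun c hc => funext fun g => by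
    simpa using (Box.red_Z hc).tors g
  let H : AddSubgroup (GQ → C.A) :=
    { carrier := C.AA D n
      add_mem' := Cv.add_mem_AA
      zero_mem' := ⟨0, C.isZ_zero D ∅ _, smul_zero _⟩
      neg_mem' := fun {c} hc => by
        rwa [neg_eq_of_add_eq_zero_left ((two_nsmul c).symm.trans (h2 c hc))] }
  have : Finite H := (C.finite_AA hD).subset (C.selb_anti D n.zero_le)
  have hp : IsPGroup 2 (Multiplicative H) := fun c =>
    ⟨1, Subtype.ext (h2 _ (Multiplicative.toAdd c).2)⟩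
  obtain ⟨k, hk⟩ := hp.exists_card_eq
  have h3 : (C.AA D n).ncard = 2 ^ k := hk
  rw [h3] at h ⊢
  have h4 : k < 4 := (Nat.pow_lt_pow_iff_right one_lt_two).1 h
  exact Nat.pow_le_pow_right (i := k) (j := 3) two_pos (by omega)

theorem card_Z_le (C : Cv) {D : ℤ} (hD : D ≠ 0) {n : ℕ} (h : (C.AA D n).ncard < 16) :
    ∃ c : ℕ, ∀ m, {z | C.IsZ D ∅ m z}.ncard ≤ c * 8 ^ m := by
  have hf := C.finite_AA hD
  have h8 := card_AA_le C hD h
  have key : ∀ k, {z | C.IsZ D ∅ (n + k) z}.ncard ≤ {z | C.IsZ D ∅ n z}.ncard * 8 ^ k := by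
    intro k
    induction k with
    | zero => simp
    | succ k ih =>
      have h1 := selb_le (Cv.finite_Z hf (n + k + 1)) (fun x => 2 ^ (n + k) • x)
        fun x hx => (Cv.selb_card ⟨x, hx, rfl⟩).le
      have h2 : (C.AA D (n + k)).ncard ≤ 8 := (Set.ncard_le_ncard (C.selb_anti D (n.le_add_right k))
        (hf.subset (C.selb_anti D n.zero_le))).trans h8
      rw [pow_succ, ← mul_assoc]
      exact h1.trans (Nat.mul_le_mul ih h2)
  refine ⟨_, fun m => le_trans (Set.ncard_le_ncard (fun z hz => hz.level fun g => ?_)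
    (Cv.finite_Z hf (n + m))) (key m)⟩
  rw [pow_add, mul_smul, hz.tors, smul_zero]

/-- The change of model. -/
theorem exists_model : ∃ ψ : B2.EE →+ E0.A, Injective ψ ∧ ∀ (g : GQ) (P : B2.EE),
    ψ (g • P) = E0.act g (ψ P) := by
  have h : VC (RingHom.id Qb) (W15.baseChange Qb) (E0.W Qb) 2 9 1 0 := by
    constructor <;> simp [Cv.W, E0, W15] <;> norm_num
  refine ⟨h.hom, h.hom_injective, fun g P => ?_⟩
  rcases P with _ | ⟨x, y, hP⟩
  · exact (map_zero (E0.act g)).symm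
  · obtain ⟨h', e⟩ := E0.act_some g ((h.nonsingular x y).2 hP)
    refine Eq.trans ?_ e.symm
    change WeierstrassCurve.Affine.Point.some _ _ _ = _
    congr 1 <;> simp [map_ofNat]

theorem cork_of {D : ℤ} (hD : D ≠ 0) {n : ℕ} (h : (E0.AA D n).ncard < 16) : B2.Cork D := by
  obtain ⟨c, hc⟩ := card_Z_le E0 hD h
  obtain ⟨ψ, hi, hg⟩ := exists_model
  have e1 : ∀ g, sn (chi D g) = B2.chi D g := fun g => by
    rcases F2_cases (chi D g) with k | k
    · rw [k, B2.xi_eq_zero.1 k]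
      rfl
    · rw [k, B2.xi_eq_one.1 k]
      rfl
  have e2 : ∀ g P, ψ (B2.tw D g P) = E0.tw D g (ψ P) := fun g P => by
    rw [B2.tw, Cv.tw, map_zsmul, hg, e1]
  have e3 : ∀ P, B2.tw D 1 P = P := fun P => by simp [B2.tw]
  refine ⟨c, fun m s hs => le_trans ?_ (hc m)⟩
  rw [← Set.ncard_coe_finset]
  refine Set.ncard_le_ncard_of_injOn (fun ξ g => ψ (ξ g)) (fun ξ hξ => ?_)
    (fun ξ _ ξ' _ k => funext fun g => hi (congrFun k g)) (Cv.finite_Z (E0.finite_AA hD) m)
  obtain ⟨h1, h2⟩ := hs ξ hξ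
  refine Cv.IsSel.isZ ⟨fun g => by rw [← map_nsmul, h2, map_zero],
    fun g k => by rw [h1.coc, map_add, e2], h1.sm.comp ψ, ?_⟩
  rintro v (rfl | hv)
  · obtain ⟨S, hS⟩ := h1.inf
    refine ⟨ψ S, fun g k => ?_⟩
    rw [Cv.cob, ← e2, ← map_sub]
    rcases loc_Gv0 k with rfl | rfl
    · have h3 := h1.coc 1 1
      rw [mul_one, e3, left_eq_add] at h3
      simp only [h3, e3, sub_self]
    · simp only [hS]
  · obtain ⟨S, hS⟩ := h1.loc (pl v)
    refine ⟨ψ S, fun g k => ?_⟩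
    rw [Gv_prime hv] at k
    simp only [Cv.cob, ← e2, ← map_sub, hS g k]

end Pool.Agent.Lib.MP_696deb_nt.Sm
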