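import Pool.Agent.Lib.MP_696deb_nt.Sm.Main
import Pool.Agent.Lib.MP_696deb_nt.Sm.Link

/-! Almost all twists have corank at most one. -/

set_option autoImplicit false

open scoped Classical

namespace Pool.Agent.Lib.MP_696deb_nt.Sm

theorem smith {ε : ℝ} (h : 0 < ε) : ∃ X0 : ℕ, ∀ X ≥ X0,
    (((Finset.Icc (-(X : ℤ)) X).filter fun d => Squarefree d ∧ ¬ B2.Cork d).card : ℝ) ≤ ε * X := by
  obtain ⟨n, X0, h1⟩ := smith_AA h
  refine ⟨X0, fun X hX => le_trans ?_ (h1 X hX)⟩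
  refine Nat.cast_le.2 (Finset.card_le_card fun d hd => ?_)
  rw [Finset.mem_filter] at hd ⊢
  exact ⟨hd.1, hd.2.1, not_lt.1 fun k => hd.2.2 (cork_of hd.2.1.ne_zero k)⟩

end Pool.Agent.Lib.MP_696deb_nt.Sm
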