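import Pool.Agent.Lib.MP_696deb_nt.Sm.Chi

/-! Closed subsets of a grid and labels that are equidistributed on them. -/

set_option autoImplicit false

open scoped Classical
open Finset Function

namespace Pool.Agent.Lib.MP_696deb_nt.Sm

/-- The directions of a grid: `n` small ones, the pivot and the pointer. -/
abbrev Sx (n : ℕ) := Fin n ⊕ Bool

abbrev ia {n : ℕ} : Sx n := Sum.inr true

abbrev ic {n : ℕ} : Sx n := Sum.inr false

abbrev Zg (n M : ℕ) := Sx n → Fin (M + 1)

variable {n M : ℕ}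

/-- All line sums of `a` in direction `i` are divisible by `m`. -/
def LS (m : ℕ) (a : Zg n M → ℤ) (i : Sx n) : Prop := ∀ y, (m : ℤ) ∣ ∑ s, a (update y i s)

/-- `b` represents the point `x`. -/
def Cl (m : ℕ) (b : Zg n M → ℤ) (x : Zg n M) : Prop := ∀ i, LS m (b - Pi.single x 1) i

/-- `x` lies in the closure of `Y`. -/
def InC (m : ℕ) (Y : Finset (Zg n M)) (x : Zg n M) : Prop :=
  ∃ b : Zg n M → ℤ, (∀ y, y ∉ Y → b y = 0) ∧ Cl m b x

/-- A chosen representation. -/
noncomputable def cf (m : ℕ) (Y : Finset (Zg n M)) (x : Zg n M) : Zg n M → ℤ :=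
  if h : InC m Y x then h.choose else 0

/-- The label at `x` is the one predicted by the representation `b`. -/
def Agree (Ph : Zg n M → F2) (b : Zg n M → ℤ) (x : Zg n M) : Prop :=
  Ph x = ∑ y with y ic = x ic, (b y : F2) * Ph y

/-- The points of the `k`-th closed set that are in no earlier one. -/
noncomputable def Pc (m : ℕ) {N : ℕ} (L : Fin N → Finset (Zg n M)) (k : Fin N) : Finset (Zg n M) :=
  {x | InC m (L k) x ∧ ∀ k' < k, ¬ InC m (L k') x}

/-- Labels that agree with the prediction on about half of every piece. -/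
def Good (l N : ℕ) (ε : ℝ) (Ph : Zg n M → F2) : Prop :=
  ∀ L : Fin N → Finset (Zg n M), (∀ k, (L k).card ≤ l * (n + 2) * (M + 1) ^ (n + 1)) → ∀ k,
    (({x ∈ Pc (2 ^ l) L k | Agree Ph (cf (2 ^ l) (L k) x) x} : Finset _).card : ℝ) ≤
      (Pc (2 ^ l) L k).card / 2 + ε * (M + 1) ^ (n + 2)

theorem cf_spec {m : ℕ} {Y : Finset (Zg n M)} {x : Zg n M} (h : InC m Y x) :
    (∀ y, y ∉ Y → cf m Y x y = 0) ∧ Cl m (cf m Y x) x := by
  rw [cf, dif_pos h]
  exact h.choose_spec

/-- The base point of a line. -/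
def goodPt (i : Sx n) (r : {j // j ≠ i} → Fin (M + 1)) : Zg n M :=
  (Equiv.funSplitAt i (Fin (M + 1))).symm (0, r)

theorem good_upd (i : Sx n) (r : {j // j ≠ i} → Fin (M + 1)) (s : Fin (M + 1)) :
    (Equiv.funSplitAt i (Fin (M + 1))).symm (s, r) = update (goodPt i r) i s := by
  funext j
  by_cases h : j = i
  · subst h
    simp
  · simp [goodPt, h]

theorem good_upd' (i : Sx n) (y : Zg n M) (s : Fin (M + 1)) :
    update (goodPt i fun j => y j) i s = update y i s := by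
  funext j
  by_cases h : j = i
  · subst h
    simp
  · simp [goodPt, h]

theorem LS.sum {m : ℕ} {a : Zg n M → ℤ} {i : Sx n} (h : LS m a i) {β : Type} [AddCommGroup β]
    {v : Zg n M → β} (hv : ∀ y s, v (update y i s) = v y) (hm : ∀ y, m • v y = 0) :
    ∑ y, a y • v y = 0 := by
  rw [← (Equiv.funSplitAt i (Fin (M + 1))).symm.sum_comp, Fintype.sum_prod_type_right]
  refine sum_eq_zero fun r _ => ?_
  obtain ⟨c, hc⟩ := h (goodPt i r)
  simp only [good_upd, hv]
  rw [← sum_smul, hc, mul_comm, mul_smul, natCast_zsmul, hm, smul_zero]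

theorem LS.mul {m : ℕ} {a : Zg n M → ℤ} {i : Sx n} (h : LS m a i) {w : Zg n M → ℤ}
    (hw : ∀ y s, w (update y i s) = w y) : LS m (a * w) i := by
  intro y
  simp only [Pi.mul_apply, hw]
  rw [← sum_mul]
  exact (h y).mul_right _

theorem good_gen {Q α : Type} [AddCommGroup Q] [Finite Q] (v : α → Q) (Y : Finset α) :
    ∃ Y0 ⊆ Y, 2 ^ Y0.card ≤ Nat.card (AddSubgroup.closure (v '' Y0)) ∧
      ∀ y ∈ Y, v y ∈ AddSubgroup.closure (v '' Y0) := by
  induction Y using Finset.induction_on with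
  | empty => exact ⟨∅, Subset.rfl, Nat.card_pos, fun _ h => absurd h (notMem_empty _)⟩
  | insert a Y _ ih =>
    obtain ⟨Y0, h1, h2, h3⟩ := ih
    by_cases h : v a ∈ AddSubgroup.closure (v '' Y0)
    · exact ⟨Y0, h1.trans (subset_insert _ _), h2, forall_mem_insert .. |>.2 ⟨h, h3⟩⟩
    have hle : AddSubgroup.closure (v '' Y0) ≤ AddSubgroup.closure (v '' (insert a Y0 : Finset α)) :=
      AddSubgroup.closure_mono (Set.image_mono (subset_insert a Y0))
    have ha : v a ∈ AddSubgroup.closure (v '' (insert a Y0 : Finset α)) :=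
      AddSubgroup.subset_closure ⟨a, mem_insert_self a Y0, rfl⟩
    refine ⟨insert a Y0, insert_subset_insert _ h1, ?_,
      forall_mem_insert .. |>.2 ⟨ha, fun y hy => hle (h3 y hy)⟩⟩
    obtain ⟨c, hc⟩ := AddSubgroup.card_dvd_of_le hle
    have h4 : c ≠ 1 := fun e => h (AddSubgroup.eq_of_le_of_card_ge hle (by rw [hc, e, mul_one]) ▸ ha)
    have h5 : c ≠ 0 := fun e => Nat.card_pos.ne' (by rw [hc, e, mul_zero])
    refine (Nat.pow_le_pow_right two_pos (card_insert_le a Y0)).trans ?_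
    rw [hc, pow_succ]
    exact Nat.mul_le_mul h2 (by omega)

/-- The line sums modulo `m`. -/
def goodPhi (m : ℕ) : (Zg n M → ℤ) →+ ∀ i : Sx n, ({j // j ≠ i} → Fin (M + 1)) → ZMod m :=
  AddMonoidHom.mk' (fun a i r => ((∑ s, a (update (goodPt i r) i s) : ℤ) : ZMod m)) fun a b => by
    funext i r
    simp only [Pi.add_apply, sum_add_distrib, Int.cast_add]

/-- Every set has a small subset with the same closure. -/
theorem exists_gen (l : ℕ) (Y : Finset (Zg n M)) : ∃ Y0 ⊆ Y,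
    Y0.card ≤ l * (n + 2) * (M + 1) ^ (n + 1) ∧ ∀ y ∈ Y, InC (2 ^ l) Y0 y := by
  obtain ⟨Y0, h1, h2, h3⟩ := good_gen (fun y : Zg n M => goodPhi (2 ^ l) (Pi.single y 1)) Y
  refine ⟨Y0, h1, (Nat.pow_le_pow_iff_right one_lt_two).1
    (h2.trans ((AddSubgroup.card_le_card_addGroup _).trans_eq ?_)), fun y hy => ?_⟩
  · have e : ∀ i : Sx n, Nat.card {j // j ≠ i} = n + 1 := fun i => by
      rw [Nat.card_eq_fintype_card, Fintype.card_subtype_compl, Fintype.card_subtype_eq]
      simp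
    simp only [Nat.card_pi, e, Nat.card_zmod, prod_const, card_univ, Nat.card_fin,
      ← Nat.card_eq_fintype_card, Nat.card_sum, ← pow_mul]
    rw [Nat.card_eq_fintype_card, Fintype.card_bool, mul_right_comm]
  · have key : ∀ q ∈ AddSubgroup.closure ((fun y : Zg n M => goodPhi (2 ^ l) (Pi.single y 1)) '' Y0),
        ∃ b : Zg n M → ℤ, (∀ y, y ∉ Y0 → b y = 0) ∧ goodPhi (2 ^ l) b = q := by
      intro q hq
      induction hq using AddSubgroup.closure_induction with
      | mem q hq =>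
        obtain ⟨z, hz, rfl⟩ := hq
        exact ⟨_, fun y hy => Pi.single_eq_of_ne (ne_of_mem_of_not_mem hz hy).symm _, rfl⟩
      | zero => exact ⟨0, fun _ _ => rfl, map_zero _⟩
      | add q q' _ _ ih ih' =>
        obtain ⟨b, k1, rfl⟩ := ih
        obtain ⟨b', k2, rfl⟩ := ih'
        exact ⟨b + b', fun y hy => by rw [Pi.add_apply, k1 y hy, k2 y hy, add_zero], map_add _ _ _⟩
      | neg q _ ih =>
        obtain ⟨b, k1, rfl⟩ := ih
        exact ⟨-b, fun y hy => by rw [Pi.neg_apply, k1 y hy, neg_zero], map_neg _ _⟩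
    obtain ⟨b, k1, k2⟩ := key _ (h3 y hy)
    refine ⟨b, k1, fun i z => (ZMod.intCast_zmod_eq_zero_iff_dvd _ _).1 ?_⟩
    rw [← sub_eq_zero, ← map_sub] at k2
    simp only [← good_upd' i z]
    exact congrFun (congrFun k2 i) fun j => z j

theorem Good.add {l N : ℕ} (hl : 1 ≤ l) {ε : ℝ} {Ph h : Zg n M → F2} (hP : Good l N ε Ph)
    {i : Sx n} (hi : i ≠ ic) (hh : ∀ y s, h (update y i s) = h y) : Good l N ε (Ph + h) := by
  intro L hL k
  refine le_of_eq_of_le (congrArg _ (congrArg _ (filter_congr fun x hx => ?_))) (hP L hL k)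
  have h1 := (((cf_spec (mem_filter.1 hx).2.1).2 i).mul (w := fun y => if y ic = x ic then 1 else 0)
    fun y s => by rw [update_of_ne hi.symm]).sum hh fun y => by
      obtain ⟨d, rfl⟩ := Nat.exists_eq_add_of_le' hl
      rw [pow_succ, mul_smul, two_nsmul, CharTwo.add_self_eq_zero, smul_zero]
  simp only [Pi.mul_apply, Pi.sub_apply, mul_ite, mul_one, mul_zero, ite_smul, zero_smul, sub_smul,
    ← sum_filter, sum_sub_distrib, zsmul_eq_mul, Pi.single_apply, one_smul] at h1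
  rw [sum_filter (· = x), sum_ite_eq', if_pos (by simp), sub_eq_zero] at h1
  simp only [Agree, Pi.add_apply, mul_add, sum_add_distrib, h1, add_left_inj]

/-- From the closure property of every colour class to the halving inequality. -/
theorem half_of_good {l N : ℕ} {ε : ℝ} {Ph : Zg n M → F2} (hP : Good l N ε Ph)
    (Y1 Y2 : Finset (Zg n M)) (col : Zg n M → Fin N)
    (h : ∀ (k : Fin N) (b : Zg n M → ℤ) (x : Zg n M), (∀ y, b y ≠ 0 → y ∈ Y1 ∧ col y = k) →
      Cl (2 ^ l) b x → x ∈ Y2 ∧ (x ∈ Y1 → Agree Ph b x)) :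
    (Y1.card : ℝ) ≤ Y2.card / 2 + N * ε * (M + 1) ^ (n + 2) := by
  choose L h1 h2 h3 using fun k => exists_gen l {y ∈ Y1 | col y = k}
  have h4 : ∀ k, ∀ x ∈ Pc (2 ^ l) L k,
      x ∈ Y2 ∧ (x ∈ Y1 → Agree Ph (cf (2 ^ l) (L k) x) x) := fun k x hx =>
    have e := cf_spec (mem_filter.1 hx).2.1
    h k _ x (fun y hy => mem_filter.1 (h1 k (by_contra fun c => hy (e.1 y c)))) e.2
  have h5 : Y1.card ≤ ∑ k, ({x ∈ Pc (2 ^ l) L k | Agree Ph (cf (2 ^ l) (L k) x) x} : Finset _).card := by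
    refine (card_le_card fun x hx => ?_).trans card_biUnion_le
    obtain ⟨k, k1, k2⟩ := (wellFounded_lt (α := Fin N)).has_min {k | InC (2 ^ l) (L k) x}
      ⟨col x, h3 _ x (mem_filter.2 ⟨hx, rfl⟩)⟩
    have e : x ∈ Pc (2 ^ l) L k := mem_filter.2 ⟨mem_univ _, k1, fun k' hk c => k2 k' c hk⟩
    exact mem_biUnion.2 ⟨k, mem_univ _, mem_filter.2 ⟨e, (h4 k x e).2 hx⟩⟩
  have h6 : ∑ k, (Pc (2 ^ l) L k).card ≤ Y2.card := by
    rw [← card_biUnion]
    · exact card_le_card (biUnion_subset.2 fun k _ x hx => (h4 k x hx).1)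
    · intro k _ k' _ hk
      refine disjoint_left.2 fun x hx hx' => ?_
      rcases lt_or_gt_of_ne hk with e | e
      · exact (mem_filter.1 hx').2.2 k e (mem_filter.1 hx).2.1
      · exact (mem_filter.1 hx).2.2 k' e (mem_filter.1 hx').2.1
  have h7 := sum_le_sum fun k (_ : k ∈ univ) => hP L h2 k
  rw [sum_add_distrib, ← sum_div, sum_const, card_univ, Fintype.card_fin, nsmul_eq_mul,
    ← Nat.cast_sum, ← Nat.cast_sum, ← mul_assoc] at h7
  have h8 := (Nat.cast_le (α := ℝ)).2 h5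
  have h9 := (Nat.cast_le (α := ℝ)).2 h6
  linarith

end Pool.Agent.Lib.MP_696deb_nt.Sm
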