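import Pool.Agent.Lib.MP_696deb_nt.Sm.EllC

/-! Selmer cocycles, relaxed conditions, counting of lifts, reciprocity. -/

set_option autoImplicit false

open scoped Classical
open Finset

namespace Pool.Agent.Lib.MP_696deb_nt.Sm

namespace Cv

variable (C : Cv)

/-- The cocycle condition for the twisted action. -/
def Coc (D : ℤ) (c : GQ → C.A) : Prop := ∀ g h, c (g * h) = c g + C.tw D g (c h)

/-- The local condition up to an unramified function with values in the two-torsion. -/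
def LocRel (p : ℕ) (D : ℤ) (c : GQ → C.A) : Prop :=
  ∃ u : GQ → C.A, (∀ g, 2 • u g = 0) ∧ u (sig p) = 0 ∧ C.Loc p D (c - u)

/-- Selmer cocycles of level `n`, relaxed at the primes in `J`. -/
structure IsZ (D : ℤ) (J : Set ℕ) (n : ℕ) (c : GQ → C.A) : Prop where
  tors : ∀ g, 2 ^ n • c g = 0
  coc : C.Coc D c
  lc : LC c
  loc : ∀ v : ℕ, v = 0 ∨ (v.Prime ∧ (v : ℤ) ∣ 30 * D) → v ∉ J → C.Loc v D c
  rel : ∀ v ∈ J, C.LocRel v D c
  unr : ∀ p : ℕ, p.Prime → ¬ (p : ℤ) ∣ 30 * D → c (sig p) = 0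

/-- The cocycles that represent the classical Selmer group of level `2 ^ n`. -/
structure IsSel (D : ℤ) (n : ℕ) (c : GQ → C.A) : Prop where
  tors : ∀ g, 2 ^ n • c g = 0
  coc : C.Coc D c
  lc : LC c
  loc : ∀ v : ℕ, v = 0 ∨ v.Prime → C.Loc v D c

/-- The level one cocycles that lift to level `n + 1`. -/
def AA (D : ℤ) (n : ℕ) : Set (GQ → C.A) := {a | ∃ c, C.IsZ D ∅ (n + 1) c ∧ 2 ^ n • c = a}

/-- The lifts of `a` to level `n + 1`. -/
def Om (D : ℤ) (n : ℕ) (a : GQ → C.A) : Set (GQ → C.A) :=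
  {c | C.IsZ D ∅ (n + 1) c ∧ 2 ^ n • c = a}

variable {C} {D : ℤ} {J : Set ℕ} {n : ℕ} {c c' : GQ → C.A}

theorem IsSel.isZ (h : C.IsSel D n c) : C.IsZ D ∅ n c := by
  exact ⟨h.tors, h.coc, h.lc, fun v hv _ => h.loc v (hv.imp_right And.left),
    fun _ hv => hv.elim, fun p hp hD => C.loc_good hp hD h.tors (h.loc p (Or.inr hp))⟩

theorem Loc.rel {p : ℕ} (h : C.Loc p D c) : C.LocRel p D c := by
  exact ⟨0, fun _ => smul_zero _, rfl, by rwa [sub_zero]⟩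

theorem LocRel.add {p : ℕ} (h : C.LocRel p D c) (h' : C.LocRel p D c') :
    C.LocRel p D (c + c') := by
  obtain ⟨u, h1, h2, h3⟩ := h
  obtain ⟨u', h1', h2', h3'⟩ := h'
  refine ⟨u + u', fun g => ?_, ?_, ?_⟩
  · rw [Pi.add_apply, smul_add, h1, h1', add_zero]
  · rw [Pi.add_apply, h2, h2', add_zero]
  · rw [add_sub_add_comm]
    exact h3.add h3'

theorem LocRel.zsmul {p : ℕ} (h : C.LocRel p D c) (k : ℤ) : C.LocRel p D (k • c) := by
  obtain ⟨u, h1, h2, h3⟩ := h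
  refine ⟨k • u, fun g => ?_, ?_, ?_⟩
  · rw [Pi.smul_apply, smul_comm, h1, smul_zero]
  · rw [Pi.smul_apply, h2, smul_zero]
  · rw [← smul_sub]
    exact h3.zsmul k

theorem LocRel.congr {p : ℕ} {D' : ℤ} (h : C.LocRel p D c) (hD : ∀ g ∈ Gv p, chi D' g = chi D g)
    (hc : ∀ g ∈ Gv p, c' g = c g) : C.LocRel p D' c' := by
  obtain ⟨u, h1, h2, h3⟩ := h
  exact ⟨u, h1, h2, h3.congr hD fun g hg => by rw [Pi.sub_apply, Pi.sub_apply, hc g hg]⟩

theorem LocRel.two {p : ℕ} (h : C.LocRel p D c) : C.Loc p D (2 • c) := by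
  obtain ⟨u, h1, -, h3⟩ := h
  refine (h3.add h3).congr (fun _ _ => rfl) fun g _ => ?_
  rw [← two_nsmul, Pi.smul_apply, Pi.smul_apply, Pi.sub_apply, smul_sub, h1, sub_zero]

theorem loc_sum {ι : Type} {v : ℕ} (s : Finset ι) (k : ι → ℤ) (c : ι → GQ → C.A)
    (h : ∀ i ∈ s, k i ≠ 0 → C.Loc v D (c i)) : C.Loc v D (∑ i ∈ s, k i • c i) := by
  refine Finset.sum_induction _ (C.Loc v D) (fun _ _ => Loc.add) (C.loc_zero v D) fun i hi => ?_
  by_cases hk : k i = 0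
  · rw [hk, zero_smul]
    exact C.loc_zero v D
  · exact (h i hi hk).zsmul _

theorem locRel_sum {ι : Type} {v : ℕ} (s : Finset ι) (k : ι → ℤ) (c : ι → GQ → C.A)
    (h : ∀ i ∈ s, k i ≠ 0 → C.LocRel v D (c i)) : C.LocRel v D (∑ i ∈ s, k i • c i) := by
  refine Finset.sum_induction _ (C.LocRel v D) (fun _ _ => LocRel.add) (C.loc_zero v D).rel
    fun i hi => ?_
  by_cases hk : k i = 0
  · rw [hk, zero_smul]
    exact (C.loc_zero v D).rel
  · exact (h i hi hk).zsmul _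

theorem isZ_zero (C : Cv) (D : ℤ) (J : Set ℕ) (n : ℕ) : C.IsZ D J n 0 := by
  exact ⟨fun _ => smul_zero _, fun g _ => by simp [tw_zero], B2.Sm.const 0,
    fun v _ _ => C.loc_zero v D, fun v _ => (C.loc_zero v D).rel, fun _ _ _ => rfl⟩

theorem IsZ.add (h : C.IsZ D J n c) (h' : C.IsZ D J n c') : C.IsZ D J n (c + c') := by
  refine ⟨fun g => ?_, fun g k => ?_, lc_add h.lc h'.lc,
    fun v hv hJ => (h.loc v hv hJ).add (h'.loc v hv hJ), fun v hv => (h.rel v hv).add (h'.rel v hv),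
    fun p hp hD => ?_⟩
  · rw [Pi.add_apply, smul_add, h.tors, h'.tors, add_zero]
  · simp only [Pi.add_apply, tw_add, h.coc g k, h'.coc g k]
    abel
  · rw [Pi.add_apply, h.unr p hp hD, h'.unr p hp hD, add_zero]

theorem IsZ.zsmul (h : C.IsZ D J n c) (k : ℤ) : C.IsZ D J n (k • c) := by
  refine ⟨fun g => ?_, fun g l => ?_, h.lc.comp fun P => k • P,
    fun v hv hJ => (h.loc v hv hJ).zsmul k, fun v hv => (h.rel v hv).zsmul k, fun p hp hD => ?_⟩
  · rw [Pi.smul_apply, smul_comm, h.tors, smul_zero]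
  · simp only [Pi.smul_apply, tw_zsmul, h.coc g l, smul_add]
  · rw [Pi.smul_apply, h.unr p hp hD, smul_zero]

theorem IsZ.sub (h : C.IsZ D J n c) (h' : C.IsZ D J n c') : C.IsZ D J n (c - c') := by
  have h1 := h.add (h'.zsmul (-1))
  rwa [neg_one_zsmul, ← sub_eq_add_neg] at h1

theorem IsZ.level {m : ℕ} (h : C.IsZ D J n c) (hm : ∀ g, 2 ^ m • c g = 0) : C.IsZ D J m c :=
  ⟨hm, h.coc, h.lc, h.loc, h.rel, h.unr⟩

theorem IsZ.mono {J' : Set ℕ} (h : C.IsZ D J n c) (hJ : J ⊆ J')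
    (hJ' : ∀ v ∈ J', v.Prime ∧ (v : ℤ) ∣ 30 * D) : C.IsZ D J' n c := by
  refine ⟨h.tors, h.coc, h.lc, fun v hv hn => h.loc v hv fun k => hn (hJ k), fun v hv => ?_, h.unr⟩
  by_cases k : v ∈ J
  · exact h.rel v k
  · exact (h.loc v (Or.inr (hJ' v hv)) k).rel

theorem IsZ.two (h : C.IsZ D J (n + 1) c) : C.IsZ D ∅ n (2 • c) := by
  have h2 := h.add h
  rw [← two_nsmul] at h2
  refine ⟨fun g => ?_, h2.coc, h2.lc, fun v hv _ => ?_, fun _ hv => hv.elim, h2.unr⟩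
  · rw [Pi.smul_apply, smul_smul, ← pow_succ, h.tors]
  · by_cases k : v ∈ J
    · exact (h.rel v k).two
    · exact h2.loc v hv k

theorem IsZ.pow {k : ℕ} (h : C.IsZ D ∅ (n + k) c) : C.IsZ D ∅ n (2 ^ k • c) := by
  have h2 := h.zsmul ((2 ^ k : ℕ) : ℤ)
  rw [natCast_zsmul] at h2
  exact h2.level fun g => by rw [Pi.smul_apply, smul_smul, ← pow_add, h.tors]

theorem IsZ.kum (h : C.IsZ D J n c) (h2 : ∀ g, 2 • c g = 0) :
    ∃ d1 d2 : ℤ, Squarefree d1 ∧ Squarefree d2 ∧ c = C.kum d1 d2 := by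
  exact C.exists_kum h2 (fun g k => by rw [h.coc, C.tw_two D g (h2 k)]) h.lc

/-- A set of group elements that detects level one detects every level. -/
theorem detect {T : Set GQ} (h1 : ∀ c, C.IsZ D ∅ 1 c → (∀ g ∈ T, c g = 0) → c = 0)
    (h : C.IsZ D ∅ n c) (hT : ∀ g ∈ T, c g = 0) : c = 0 := by
  induction n generalizing c with
  | zero => exact funext fun g => by simpa using h.tors g
  | succ n ih =>
    have h2 := ih h.two fun g hg => by rw [Pi.smul_apply, hT g hg, smul_zero]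
    exact h1 c (h.level fun g => by rw [pow_one]; exact congrFun h2 g) hT

theorem AA_succ (C : Cv) (D : ℤ) (n : ℕ) : C.AA D (n + 1) ⊆ C.AA D n := by
  rintro a ⟨c, hc, rfl⟩
  exact ⟨2 • c, hc.two, by rw [smul_smul, ← pow_succ]⟩

theorem AA_zero (C : Cv) (D : ℤ) : C.AA D 0 = {c | C.IsZ D ∅ 1 c} := by
  ext a
  simp [AA]

theorem add_mem_AA (h : c ∈ C.AA D n) (h' : c' ∈ C.AA D n) : c + c' ∈ C.AA D n := by
  obtain ⟨a, ha, rfl⟩ := h
  obtain ⟨b, hb, rfl⟩ := h'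
  exact ⟨a + b, ha.add hb, smul_add _ _ _⟩

theorem del_mem_AA (C : Cv) (hD : D ≠ 0) (n : ℕ) (a b : F2) :
    C.kum (C.dl1 D a b) (C.dl2 D a b) ∈ C.AA D n := by
  have h1 : ∀ (m : ℕ) (P : C.A), ∃ Q : C.A, 2 ^ m • Q = P := fun m => by
    induction m with
    | zero => exact fun P => ⟨P, by simp⟩
    | succ m ih =>
      intro P
      obtain ⟨R, rfl⟩ := ih P
      obtain ⟨Q, rfl⟩ := C.exists_half R
      exact ⟨Q, by rw [smul_smul, pow_succ]⟩
  obtain ⟨Q, hQ⟩ := h1 (n + 1) (C.pt2 a b)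
  have h2 : ∀ g, 2 ^ (n + 1) • C.cob D Q g = 0 := fun g => by
    rw [← Pi.smul_apply, ← cob_nsmul, hQ, cob, C.tw_two D g (C.two_pt2 a b), sub_self]
  refine ⟨C.cob D Q, ⟨h2, C.cob_mul D Q, C.lc_cob D Q, fun v _ _ => C.loc_cob v D Q,
    fun _ hv => hv.elim, fun p hp hpD => C.loc_good hp hpD h2 (C.loc_cob p D Q)⟩, ?_⟩
  rw [← cob_nsmul]
  exact C.cob_half hD (by rw [smul_smul, ← pow_succ', hQ])

end Cv

end Pool.Agent.Lib.MP_696deb_nt.Sm
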