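import Pool.Agent.Lib.MP_696deb_nt.Sm.PatA
import Pool.Agent.Lib.MP_696deb_nt.Sm.Sel

/-! The Selmer group of level one in terms of patterns. -/

set_option autoImplicit false

open scoped Classical
open Finset Function

namespace Pool.Agent.Lib.MP_696deb_nt.Sm

theorem patb_eq {a b : F2} : a + b = 0 ↔ a = b := by revert a b; decide

theorem patb_dvd {d N : ℤ} (hd : Squarefree d)
    (h : ∀ p : ℕ, p.Prime → ¬ (p : ℤ) ∣ 30 * N → chi d (sig p) = 0) (p : ℕ) (hp : p.Prime)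
    (k : (p : ℤ) ∣ d) : (p : ℤ) ∣ 30 * N := by
  by_contra e
  have := Fact.mk hp
  have h2 : p ≠ 2 := by
    rintro rfl
    exact e (Dvd.dvd.mul_right (by norm_num) _)
  have h3 := h p hp e
  rw [chi_sig hp h2 hd.ne_zero] at h3
  have h4 : 1 ≤ padicValInt p d :=
    ((padicValInt_dvd_iff 1 d).1 (by rwa [pow_one])).resolve_left hd.ne_zero
  have h5 : ¬ 2 ≤ padicValInt p d := fun a => (Nat.prime_iff_prime_int.1 hp).not_isUnit
    (hd _ (by rw [← sq]; exact (padicValInt_dvd_iff 2 d).2 (Or.inr a)))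
  rw [show padicValInt p d = 1 by omega, Nat.cast_one] at h3
  exact one_ne_zero h3

namespace Cv

theorem patb_kum {C : Cv} {D : ℤ} {c : GQ → C.A} (hc : C.IsZ D ∅ 1 c) :
    ∃ d1 d2 : ℤ, Squarefree d1 ∧ Squarefree d2 ∧
      (∀ p : ℕ, p.Prime → (p : ℤ) ∣ d1 → (p : ℤ) ∣ 30 * D) ∧
      (∀ p : ℕ, p.Prime → (p : ℤ) ∣ d2 → (p : ℤ) ∣ 30 * D) ∧ c = C.kum d1 d2 := by
  obtain ⟨d1, d2, s1, s2, rfl⟩ := hc.kum fun g => by simpa using hc.tors g
  exact ⟨d1, d2, s1, s2, patb_dvd s1 fun p hp k => (C.pt2_eq_zero (hc.unr p hp k)).1,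
    patb_dvd s2 fun p hp k => (C.pt2_eq_zero (hc.unr p hp k)).2, rfl⟩

variable (C : Cv)

def A1 : ℤ := C.e2 - C.e1

def B1 : ℤ := (C.e1 - C.e2) * (C.e1 - C.e3)

def A2 : ℤ := (C.e2 - C.e1) * (C.e2 - C.e3)

def B2 : ℤ := C.e1 - C.e2

theorem const_ne : C.A1 * C.B1 * C.A2 * C.B2 ≠ 0 := by
  have h : C.e2 - C.e1 ≠ 0 := sub_ne_zero.2 (sub_ne_zero.1 C.ne12).symm
  exact mul_ne_zero (mul_ne_zero (mul_ne_zero h (mul_ne_zero C.ne12 C.ne13)) (mul_ne_zero h C.ne23))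
    C.ne12

theorem const_good : ∀ p : ℕ, p.Prime → (p : ℤ) ∣ C.A1 * C.B1 * C.A2 * C.B2 → p ∣ 30 := by
  refine fun p hp h => C.good p hp ((Nat.prime_iff_prime_int.1 hp).dvd_of_dvd_pow (n := 4)
    (h.trans ⟨((C.e1 - C.e3) * (C.e2 - C.e3)) ^ 3, ?_⟩))
  simp only [A1, B1, A2, B2]
  ring

theorem const_sq : IsSquare (-(C.A1 * C.B2)) := by
  exact ⟨C.e1 - C.e2, by simp only [A1, B2]; ring⟩

theorem finite_AA {D : ℤ} (hD : D ≠ 0) : (C.AA D 0).Finite := by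
  have h0 : 30 * D ≠ 0 := mul_ne_zero (by norm_num) hD
  have h1 : ∀ d : ℤ, Squarefree d → (∀ p : ℕ, p.Prime → (p : ℤ) ∣ d → (p : ℤ) ∣ 30 * D) →
      d ∈ Set.Icc (-|30 * D|) |30 * D| := fun d hd h => by
    have h2 : d.natAbs ∣ (30 * D).natAbs := by
      rw [← Nat.prod_primeFactors_of_squarefree (Int.squarefree_natAbs.2 hd)]
      refine (prod_dvd_prod_of_subset _ _ _ fun p hp => ?_).trans (Nat.prod_primeFactors_dvd _)
      have hp := Nat.mem_primeFactors.1 hp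
      exact Nat.mem_primeFactors.2 ⟨hp.1, Int.natCast_dvd.1 (h p hp.1 (Int.natCast_dvd.2 hp.2.1)),
        Int.natAbs_ne_zero.2 h0⟩
    exact abs_le.1 (Int.le_of_dvd (abs_pos.2 h0)
      ((abs_dvd_abs _ _).2 (Int.natAbs_dvd_natAbs.1 h2)))
  refine (((Set.finite_Icc (-|30 * D|) |30 * D|).prod (Set.finite_Icc (-|30 * D|) |30 * D|)).image
    fun d => C.kum d.1 d.2).subset fun c hc => ?_
  rw [AA_zero] at hc
  obtain ⟨d1, d2, s1, s2, k1, k2, rfl⟩ := patb_kum hc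
  exact ⟨(d1, d2), ⟨h1 d1 s1 k1, h1 d2 s2 k2⟩, rfl⟩

end Cv

namespace Box

variable (B : Box) (C : Cv)

abbrev PP := B.Pat × B.Pat

/-- The class with a given pair of patterns. -/
noncomputable def cls (x : Fin B.r → ℕ) (P : B.PP) : GQ → C.A :=
  C.kum (B.val x P.1) (B.val x P.2)

/-- The patterns of Selmer classes. -/
noncomputable def SA (a : B.Mat) : Finset B.PP :=
  {P | ∀ x ∈ B.fib a, C.IsZ (B.DD x) ∅ 1 (B.cls C x P)}

abbrev RelC (a : B.Mat) (P : B.PP) : Prop := B.Rel C.A1 C.B1 C.A2 C.B2 a P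

abbrev GenC (K : ℕ) (a : B.Mat) : Prop := B.Generic C.A1 C.B1 C.A2 C.B2 K a

/-- The patterns of the two-torsion points. -/
noncomputable def tP (s t : F2) : B.PP :=
  (s • (B.dD + B.pat C.A1) + t • B.pat C.B1, s • B.pat C.A2 + t • (B.dD + B.pat C.B2))

/-- The pattern is unramified at the index `j`. -/
def Un (P : B.PP) (j : Fin B.r) : Prop := P.1 (.inr j) = 0 ∧ P.2 (.inr j) = 0

variable {B C} {a : B.Mat} {x x' : Fin B.r → ℕ} {P P' : B.PP}

theorem tP_fst (s t : F2) (j : Fin B.r) : (B.tP C s t).1 (.inr j) = s := by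
  simp [tP, dD, pat]

theorem tP_snd (s t : F2) (j : Fin B.r) : (B.tP C s t).2 (.inr j) = t := by
  simp [tP, dD, pat]

theorem Wf.cls_add (h : B.Wf) (hx : x ∈ B.pts) (P P' : B.PP) :
    B.cls C x (P + P') = B.cls C x P + B.cls C x P' := by
  funext g
  simp only [cls, Cv.kum, Prod.fst_add, Prod.snd_add, Pi.add_apply, h.chi_val_add hx, C.pt2_add]

theorem Wf.cls_inj (h : B.Wf) (hx : x ∈ B.pts) : Injective (B.cls C x) := by
  intro P P' e
  have h1 : ∀ A A' : B.Pat, (∀ g, chi (B.val x A) g = chi (B.val x A') g) → A = A' :=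
    fun A A' k => funext fun i => patb_eq.1 (congrFun (h.chi_val_inj hx (A := A + A') fun g => by
      rw [h.chi_val_add hx, patb_eq, k]) i)
  exact Prod.ext (h1 _ _ fun g => (C.pt2_inj (congrFun e g)).1)
    (h1 _ _ fun g => (C.pt2_inj (congrFun e g)).2)

theorem Wf.cls_zero (h : B.Wf) (hx : x ∈ B.pts) : B.cls C x 0 = 0 := by
  have := h.cls_add (C := C) hx 0 0
  rwa [add_zero, left_eq_add] at this

theorem Wf.cls_tP (h : B.Wf) (hx : x ∈ B.pts) (s t : F2) :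
    B.cls C x (B.tP C s t) = C.kum (C.dl1 (B.DD x) s t) (C.dl2 (B.DD x) s t) := by
  have h0 := C.const_ne
  have hg := C.const_good
  have n4 := right_ne_zero_of_mul h0
  have n3 := right_ne_zero_of_mul (left_ne_zero_of_mul h0)
  have n2 := right_ne_zero_of_mul (left_ne_zero_of_mul (left_ne_zero_of_mul h0))
  have n1 := left_ne_zero_of_mul (left_ne_zero_of_mul (left_ne_zero_of_mul h0))
  have hD := (h.DD_sqf hx).ne_zero
  have e1 := h.chi_pat hx n1 fun p hp k => hg p hp (((k.mul_right _).mul_right _).mul_right _)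
  have e2 := h.chi_pat hx n2 fun p hp k => hg p hp (((k.mul_left _).mul_right _).mul_right _)
  have e3 := h.chi_pat hx n3 fun p hp k => hg p hp ((k.mul_left _).mul_right _)
  have e4 := h.chi_pat hx n4 fun p hp k => hg p hp (k.mul_left _)
  funext g
  simp only [cls, Cv.kum, tP, h.chi_val_add hx, h.chi_val_smul hx, h.chi_dD hx, e1, e2, e3, e4]
  change _ = C.pt2 (chi ((B.DD x * C.A1) ^ s.val * C.B1 ^ t.val) g)
    (chi (C.A2 ^ s.val * (B.DD x * C.B2) ^ t.val) g)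
  rw [chi_mul (pow_ne_zero _ (mul_ne_zero hD n1)) (pow_ne_zero _ n2),
    chi_mul (pow_ne_zero _ n3) (pow_ne_zero _ (mul_ne_zero hD n4)), chi_pow_val (mul_ne_zero hD n1),
    chi_pow_val n2, chi_pow_val n3, chi_pow_val (mul_ne_zero hD n4), chi_mul hD n1, chi_mul hD n4]

theorem Wf.cls_sig (h : B.Wf) (hx : x ∈ B.pts) (P : B.PP) (j : Fin B.r) :
    B.cls C x P (sig (x j)) = C.pt2 (P.1 (.inr j)) (P.2 (.inr j)) := by
  exact congrArg₂ C.pt2 (h.chi_val_sig hx (k := .inr j) trivial _)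
    (h.chi_val_sig hx (k := .inr j) trivial _)

theorem Wf.exists_cls (h : B.Wf) (hx : x ∈ B.pts) {c : GQ → C.A} (hc : C.IsZ (B.DD x) ∅ 1 c) :
    ∃ P, c = B.cls C x P := by
  obtain ⟨d1, d2, s1, s2, k1, k2, rfl⟩ := Cv.patb_kum hc
  obtain ⟨A, hA⟩ := h.exists_pat hx s1.ne_zero k1
  obtain ⟨A', hA'⟩ := h.exists_pat hx s2.ne_zero k2
  exact ⟨(A, A'), funext fun g => by rw [cls, Cv.kum, Cv.kum, hA, hA']⟩

/-- The local condition at a prime of the twist. -/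
theorem Wf.loc_iff (h : B.Wf) (hx : x ∈ B.fib a) {k : B.Ix} (hk : B.PI k) (P : B.PP) :
    C.Loc (B.prm x k) (B.DD x) (B.cls C x P) ↔
      B.lam a k (P.1 + P.1 k • (B.dD + B.pat C.A1) + P.2 k • B.pat C.B1) = 0 ∧
        B.lam a k (P.2 + P.1 k • B.pat C.A2 + P.2 k • (B.dD + B.pat C.B2)) = 0 := by
  have hx' := (mem_fib.1 hx).1
  obtain ⟨hp, h30, hD⟩ := h.prm_spec hx' hk
  have h2 := ellc_two h30
  have e := h.cls_tP (C := C) hx' (P.1 k) (P.2 k)
  have e1 : P.1 + P.1 k • (B.dD + B.pat C.A1) + P.2 k • B.pat C.B1 =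
      P.1 + (B.tP C (P.1 k) (P.2 k)).1 := add_assoc _ _ _
  have e2 : P.2 + P.1 k • B.pat C.A2 + P.2 k • (B.dD + B.pat C.B2) =
      P.2 + (B.tP C (P.1 k) (P.2 k)).2 := add_assoc _ _ _
  rw [e1, e2, ← h.chi_val_frb hx hk, ← h.chi_val_frb hx hk]
  constructor
  · intro hl
    have h3 := C.loc_ram hp h30 hD (C.two_kum _ _) hl (a := P.1 k) (b := P.2 k)
      (by rw [Cv.kum, h.chi_val_sig hx' hk, h.chi_val_sig hx' hk]) _ (frb_mem hp h2)
    rw [← e] at h3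
    rw [h.chi_val_add hx', h.chi_val_add hx', patb_eq, patb_eq]
    exact C.pt2_inj h3
  · rintro ⟨h3, h4⟩
    have h5 := congrFun e (sig (B.prm x k))
    rw [cls, Cv.kum, Cv.kum, C.chi_dl1_sig hp h30 hD, C.chi_dl2_sig hp h30 hD] at h5
    obtain ⟨h6, h7⟩ := C.pt2_inj h5
    have h8 := chi_Gv hp h2 (h.val_ne hx' _)
      (by rw [h.chi_val_add hx', h6, h.chi_val_sig hx' hk, patb_eq]) h3
    have h9 := chi_Gv hp h2 (h.val_ne hx' _)
      (by rw [h.chi_val_add hx', h7, h.chi_val_sig hx' hk, patb_eq]) h4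
    refine (C.loc_del _ (h.DD_sqf hx').ne_zero (P.1 k) (P.2 k)).congr (fun _ _ => rfl)
      fun g hg => ?_
    have a1 := h8 g hg
    have a2 := h9 g hg
    rw [h.chi_val_add hx', patb_eq] at a1 a2
    rw [← e, cls, cls, Cv.kum, Cv.kum, a1, a2]

theorem Wf.rel_of (h : B.Wf) (hx : x ∈ B.fib a) (hP : C.IsZ (B.DD x) ∅ 1 (B.cls C x P)) :
    B.RelC C a P := by
  intro k hk
  obtain ⟨hp, -, hD⟩ := h.prm_spec (mem_fib.1 hx).1 hk
  refine (h.loc_iff hx hk P).1 (hP.loc _ (Or.inr ⟨hp, Dvd.dvd.mul_left ?_ _⟩) id)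
  by_contra e
  rw [padicValInt.eq_zero_of_not_dvd e] at hD
  exact zero_ne_one hD

/-- The Selmer patterns depend only on the Legendre matrix. -/
theorem Wf.mem_SA (h : B.Wf) (hx : x ∈ B.fib a) (hP : C.IsZ (B.DD x) ∅ 1 (B.cls C x P)) :
    P ∈ B.SA C a := by
  refine mem_filter.2 ⟨mem_univ _, fun y hy => ?_⟩
  have hx' := (mem_fib.1 hx).1
  have hy' := (mem_fib.1 hy).1
  refine ⟨fun g => by rw [pow_one]; exact C.two_kum _ _ g, fun g k => ?_, C.lc_kum _ _,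
    fun v hv _ => ?_, fun _ hv => hv.elim, fun p hp hD => ?_⟩
  · rw [cls, C.kum_hom, C.tw_two _ _ (C.two_kum _ _ k)]
  · by_cases hs : v = 0 ∨ (v.Prime ∧ (v : ℤ) ∣ 30 * B.D0)
    · have h1 : ∀ A, ∀ g ∈ Gv v, chi (B.val y A) g = chi (B.val x A) g := fun A g hg => by
        rw [h.chi_val hx', h.chi_val hy']
        refine sum_congr rfl fun k _ => congrArg _ ?_
        rcases k with k | j
        · rfl
        · exact patb_eq.1 ((chi_mul (h.gen_ne hy' (.inr j)) (h.gen_ne hx' (.inr j)) g).symm.trans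
            (h.chi_small (mem_pts.1 hy' j) (mem_pts.1 hx' j) hs g hg))
      refine (hP.loc v (hs.imp_right fun k => ⟨k.1, ?_⟩) id).congr (fun g hg => ?_) fun g hg => ?_
      · rw [DD, ← mul_assoc]
        exact k.2.mul_right _
      · rw [← h.chi_dD hx', ← h.chi_dD hy', h1 _ g hg]
      · rw [cls, cls, Cv.kum, Cv.kum, h1 _ g hg, h1 _ g hg]
    · obtain ⟨hp, hd⟩ := hv.resolve_left fun k => hs (Or.inl k)
      have hp' := Nat.prime_iff_prime_int.1 hp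
      rw [DD, ← mul_assoc] at hd
      obtain ⟨j, -, hj⟩ := hp'.exists_mem_finset_dvd
        ((hp'.dvd_or_dvd hd).resolve_left fun k => hs (Or.inr ⟨hp, k⟩))
      obtain rfl := (Nat.prime_dvd_prime_iff_eq hp (h.prime j _ (mem_pts.1 hy' j))).1
        (Int.natCast_dvd_natCast.1 hj)
      exact (h.loc_iff hy (k := .inr j) trivial P).2 (h.rel_of hx hP (.inr j) trivial)
  · rw [cls, Cv.kum, h.chi_val_unr hy' hp hD, h.chi_val_unr hy' hp hD, C.pt2_zero]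

theorem isZ_of_mem (hP : P ∈ B.SA C a) (hx : x ∈ B.fib a) : C.IsZ (B.DD x) ∅ 1 (B.cls C x P) :=
  (mem_filter.1 hP).2 x hx

theorem Wf.add_mem_SA (h : B.Wf) (hP : P ∈ B.SA C a) (hP' : P' ∈ B.SA C a) :
    P + P' ∈ B.SA C a := by
  refine mem_filter.2 ⟨mem_univ _, fun y hy => ?_⟩
  rw [h.cls_add (mem_fib.1 hy).1]
  exact (isZ_of_mem hP hy).add (isZ_of_mem hP' hy)

theorem Wf.zero_mem_SA (h : B.Wf) : 0 ∈ B.SA C a := by
  refine mem_filter.2 ⟨mem_univ _, fun y hy => ?_⟩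
  rw [h.cls_zero (mem_fib.1 hy).1]
  exact C.isZ_zero _ _ _

theorem Wf.card_AA (h : B.Wf) (hx : x ∈ B.pts) (n : ℕ) : (C.AA (B.DD x) n).ncard =
    ({P | B.cls C x P ∈ C.AA (B.DD x) n} : Finset B.PP).card := by
  have h1 : ∀ m, C.AA (B.DD x) m ⊆ C.AA (B.DD x) 0 := fun m => by
    induction m with
    | zero => exact le_rfl
    | succ m ih => exact (C.AA_succ _ m).trans ih
  rw [← Set.ncard_coe_finset, ← Set.ncard_image_of_injective _ (h.cls_inj (C := C) hx)]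
  refine congrArg _ (Set.ext fun c => ⟨fun hc => ?_, ?_⟩)
  · have h2 := h1 n hc
    rw [Cv.AA_zero] at h2
    obtain ⟨P, rfl⟩ := h.exists_cls hx h2
    exact ⟨P, mem_filter.2 ⟨mem_univ _, hc⟩, rfl⟩
  · rintro ⟨P, hP, rfl⟩
    exact (mem_filter.1 hP).2

theorem Wf.card_SA (h : B.Wf) (hx : x ∈ B.fib a) :
    (C.AA (B.DD x) 0).ncard = (B.SA C a).card := by
  rw [h.card_AA (mem_fib.1 hx).1, Cv.AA_zero]
  exact congrArg _ (Finset.ext fun P => ⟨fun k => h.mem_SA hx (mem_filter.1 k).2,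
    fun k => mem_filter.2 ⟨mem_univ _, isZ_of_mem k hx⟩⟩)

end Box

end Pool.Agent.Lib.MP_696deb_nt.Sm
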