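import Pool.Agent.Lib.MP_696deb_nt.Sm.PatA

/-! Consequences of genericity. -/

set_option autoImplicit false

open scoped Classical
open Finset Function

namespace Pool.Agent.Lib.MP_696deb_nt.Sm

theorem patc_one {x : F2} (h : ¬ x = 0) : x = 1 := by revert x; decide

/-- The kernel of a bit-valued additive map has index at most two. -/
theorem card_le_two_ker {V : Type} [AddCommGroup V] (S : Finset V)
    (hS : ∀ u ∈ S, ∀ v ∈ S, u + v ∈ S) (f : V → F2) (hf : ∀ u v, f (u + v) = f u + f v) :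
    S.card ≤ 2 * ({u ∈ S | f u = 0} : Finset V).card := by
  rw [← card_filter_add_card_filter_not (s := S) fun u => f u = 0, two_mul]
  refine Nat.add_le_add_left ?_ _
  rcases ({u ∈ S | ¬ f u = 0} : Finset V).eq_empty_or_nonempty with h | ⟨b, hb⟩
  · simp [h]
  · obtain ⟨hb, hb'⟩ := mem_filter.1 hb
    refine card_le_card_of_injOn (· + b) (fun u hu => ?_) fun u _ v _ h => add_right_cancel h
    obtain ⟨hu, hu'⟩ := mem_filter.1 (mem_coe.1 hu)
    refine mem_coe.2 (mem_filter.2 ⟨hS u hu b hb, ?_⟩)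
    rw [hf, patc_one hu', patc_one hb']
    decide

theorem two_ker_le_card {V : Type} [AddCommGroup V] (S : Finset V)
    (hS : ∀ u ∈ S, ∀ v ∈ S, u + v ∈ S) (f : V → F2) (hf : ∀ u v, f (u + v) = f u + f v)
    {b : V} (hb : b ∈ S) (h1 : f b = 1) : 2 * ({u ∈ S | f u = 0} : Finset V).card ≤ S.card := by
  rw [← card_filter_add_card_filter_not (s := S) fun u => f u = 0, two_mul]
  refine Nat.add_le_add_left ?_ _
  refine card_le_card_of_injOn (· + b) (fun u hu => ?_) fun u _ v _ h => add_right_cancel h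
  obtain ⟨hu, hu'⟩ := mem_filter.1 (mem_coe.1 hu)
  refine mem_coe.2 (mem_filter.2 ⟨hS u hu b hb, ?_⟩)
  rw [hf, hu', h1]
  decide

theorem patc_orth {ι : Type} (S : Finset (ι → F2)) (hS : ∀ u ∈ S, ∀ v ∈ S, u + v ∈ S) (s : F2)
    (j j1 : ι) : ∑ u ∈ S, sn (u j + s * u j1) =
      if ∀ u ∈ S, u j = s * u j1 then (S.card : ℤ) else 0 := by
  split_ifs with h
  · rw [sum_congr rfl fun u hu => show sn (u j + s * u j1) = 1 by
      rw [h u hu, CharTwo.add_self_eq_zero, sn_zero]]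
    simp
  · push Not at h
    obtain ⟨b, hb, hb'⟩ := h
    have h1 : b j + s * b j1 = 1 := patc_one fun e => hb' (CharTwo.add_eq_zero.1 e)
    refine sum_involution (fun u _ => u + b) (fun u _ => ?_) (fun u _ _ e => ?_)
      (fun u hu => hS u hu b hb) fun u _ => ?_
    · rw [Pi.add_apply, Pi.add_apply, mul_add, add_add_add_comm, h1, sn_add _ 1, sn_one]
      ring
    · rw [add_eq_left.1 e] at hb'
      exact hb' (by simp)
    · rw [add_assoc, show b + b = 0 from funext fun i => CharTwo.add_self_eq_zero _, add_zero]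

/-- Fourier count of the indices with a prescribed pair of functionals. -/
theorem four_count {ι : Type} (I : Finset ι) (V1 V2 : Finset (ι → F2)) {K : ℕ} (h1 : V1.card ≤ K)
    (h2 : V2.card ≤ K) (z1 : 0 ∈ V1) (z2 : 0 ∈ V2) (a1 : ∀ u ∈ V1, ∀ v ∈ V1, u + v ∈ V1)
    (a2 : ∀ u ∈ V2, ∀ v ∈ V2, u + v ∈ V2)
    (h : ∀ u ∈ V1, ∀ v ∈ V2, ¬ (u = 0 ∧ v = 0) → 2 * K ^ 2 * |∑ j ∈ I, sn (u j + v j)| ≤ I.card)
    (s t : F2) (j1 j2 : ι) : I.card ≤ 2 * K ^ 2 *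
      ({j ∈ I | (∀ u ∈ V1, u j = s * u j1) ∧ ∀ v ∈ V2, v j = t * v j2} : Finset ι).card := by
  set N := ({j ∈ I | (∀ u ∈ V1, u j = s * u j1) ∧ ∀ v ∈ V2, v j = t * v j2} : Finset ι).card
    with hN
  have e1 : ∑ j ∈ I, (∑ u ∈ V1, sn (u j + s * u j1)) * ∑ v ∈ V2, sn (v j + t * v j2) =
      (V1.card * V2.card : ℤ) * N := by
    rw [hN, card_filter, Nat.cast_sum, mul_sum]
    refine sum_congr rfl fun j _ => ?_
    rw [patc_orth V1 a1, patc_orth V2 a2]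
    by_cases k1 : ∀ u ∈ V1, u j = s * u j1 <;> by_cases k2 : ∀ v ∈ V2, v j = t * v j2
    · rw [if_pos k1, if_pos k2, if_pos ⟨k1, k2⟩, Nat.cast_one, mul_one]
    · rw [if_neg k2, if_neg (c := _ ∧ _) fun h => k2 h.2]; simp
    · rw [if_neg k1, if_neg (c := _ ∧ _) fun h => k1 h.1]; simp
    · rw [if_neg k2, if_neg (c := _ ∧ _) fun h => k2 h.2]; simp
  have e2 : ∑ j ∈ I, (∑ u ∈ V1, sn (u j + s * u j1)) * ∑ v ∈ V2, sn (v j + t * v j2) =
      ∑ p ∈ V1 ×ˢ V2, sn (s * p.1 j1 + t * p.2 j2) * ∑ j ∈ I, sn (p.1 j + p.2 j) := by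
    simp only [sum_mul_sum]
    rw [sum_product, sum_comm]
    refine sum_congr rfl fun u _ => ?_
    rw [sum_comm]
    refine sum_congr rfl fun v _ => ?_
    rw [mul_sum]
    refine sum_congr rfl fun j _ => ?_
    simp only [sn_add]
    ring
  have z : ((0, 0) : (ι → F2) × (ι → F2)) ∈ V1 ×ˢ V2 := mem_product.2 ⟨z1, z2⟩
  have e3 := card_nsmul_le_sum ((V1 ×ˢ V2).erase (0, 0))
    (fun p => 2 * (K : ℤ) ^ 2 * (sn (s * p.1 j1 + t * p.2 j2) * ∑ j ∈ I, sn (p.1 j + p.2 j)))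
    (-(I.card : ℤ)) fun p hp => by
      obtain ⟨k0, k⟩ := mem_erase.1 hp
      have k1 := h p.1 (mem_product.1 k).1 p.2 (mem_product.1 k).2 fun k => k0 (Prod.ext k.1 k.2)
      have k2 : |sn (s * p.1 j1 + t * p.2 j2) * ∑ j ∈ I, sn (p.1 j + p.2 j)| =
          |∑ j ∈ I, sn (p.1 j + p.2 j)| := by
        rw [abs_mul, sn]
        split_ifs <;> simp
      rw [← k2] at k1
      have k3 := mul_le_mul_of_nonneg_left
        (neg_abs_le (sn (s * p.1 j1 + t * p.2 j2) * ∑ j ∈ I, sn (p.1 j + p.2 j)))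
        (show (0 : ℤ) ≤ 2 * K ^ 2 by positivity)
      linarith
  rw [e2, ← add_sum_erase _ _ z] at e1
  simp only [Pi.zero_apply, mul_zero, add_zero, sn_zero, one_mul, sum_const, nsmul_eq_mul,
    mul_one] at e1
  rw [← mul_sum, nsmul_eq_mul] at e3
  have c0 : V1.card * V2.card ≤ K ^ 2 := by rw [sq]; exact Nat.mul_le_mul h1 h2
  have c1 : (V1.card * V2.card : ℤ) ≤ K ^ 2 := by exact_mod_cast c0
  have c2 : ((((V1 ×ˢ V2).erase (0, 0)).card : ℕ) : ℤ) ≤ K ^ 2 := by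
    exact_mod_cast card_erase_le.trans ((card_product _ _).trans_le c0)
  have hK : (0 : ℤ) < K ^ 2 := by
    have : 0 < K := (card_pos.2 ⟨_, z1⟩).trans_le h1
    positivity
  have c3 : (K : ℤ) ^ 2 * I.card ≤ K ^ 2 * (2 * K ^ 2 * N) := by
    have k1 := mul_le_mul_of_nonneg_right c2 (Nat.cast_nonneg (α := ℤ) I.card)
    have k2 := mul_le_mul_of_nonneg_right c1 (show (0 : ℤ) ≤ 2 * K ^ 2 * N by positivity)
    have k3 := congrArg (2 * (K : ℤ) ^ 2 * ·) e1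
    simp only [mul_add] at k3
    linarith
  exact_mod_cast le_of_mul_le_mul_left c3 hK

namespace Box

variable {B : Box} {a : B.Mat} {A1 B1 A2 B2 : ℤ} {P P' : B.Pat × B.Pat} {K : ℕ}

theorem Rel.zero : B.Rel A1 B1 A2 B2 a 0 := by
  intro k _
  simp [lam]

theorem Rel.add (h : B.Rel A1 B1 A2 B2 a P) (h' : B.Rel A1 B1 A2 B2 a P') :
    B.Rel A1 B1 A2 B2 a (P + P') := by
  intro k hk
  have e : ∀ (A A' X Y : B.Pat) (s s' t t' : F2), A + A' + (s + s') • X + (t + t') • Y =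
      A + s • X + t • Y + (A' + s' • X + t' • Y) := fun A A' X Y s s' t t' => by
    rw [add_smul, add_smul]; abel
  simp only [Prod.fst_add, Prod.snd_add, Pi.add_apply, e, lam_add a k (_ + _ + _)]
  rw [(h k hk).1, (h k hk).2, (h' k hk).1, (h' k hk).2, add_zero]
  exact ⟨rfl, rfl⟩

theorem patc_small (hB : B.Hyp 1) {A : B.Pat} (h1 : B.lg A = 0)
    (h : ∀ j, B.lam a (.inr j) A = 0) : A = 0 := by
  have h2 : (fun g => A (.inl g)) = 0 := by
    by_contra hc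
    have k := hB.hH.trans (hB.b1 _ hc)
    rw [filter_eq_empty_iff.2 fun j _ => by rw [← lam_small a j h1, h j]; exact zero_ne_one] at k
    simp [k0] at k
  funext k
  rcases k with g | j
  · exact congrFun h2 g
  · exact congrFun h1 j

theorem Rel.fst_zero (hB : B.Hyp 1) (h : B.Rel A1 B1 A2 B2 a P) (h0 : B1 ≠ 0) (hs : IsSquare B1)
    (h1 : B.lg P.1 = 0) : P.1 = 0 := by
  refine patc_small (a := a) hB h1 fun j => ?_
  have k := (h (.inr j) trivial).1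
  rwa [show P.1 (.inr j) = 0 from congrFun h1 j, pat_of_isSquare h0 hs, zero_smul, smul_zero,
    add_zero, add_zero] at k

theorem Rel.snd_zero (hB : B.Hyp 1) (h : B.Rel A1 B1 A2 B2 a P) (h0 : A2 ≠ 0) (hs : IsSquare A2)
    (h2 : B.lg P.2 = 0) : P.2 = 0 := by
  refine patc_small (a := a) hB h2 fun j => ?_
  have k := (h (.inr j) trivial).2
  rwa [show P.2 (.inr j) = 0 from congrFun h2 j, pat_of_isSquare h0 hs, zero_smul, smul_zero,
    add_zero, add_zero] at k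

theorem Rel.eq_zero (hB : B.Hyp 1) (h : B.Rel A1 B1 A2 B2 a P) (h1 : B.lg P.1 = 0)
    (h2 : B.lg P.2 = 0) : P = 0 := by
  refine Prod.ext (patc_small (a := a) hB h1 fun j => ?_) (patc_small (a := a) hB h2 fun j => ?_)
  · have k := (h (.inr j) trivial).1
    rwa [show P.1 (.inr j) = 0 from congrFun h1 j, show P.2 (.inr j) = 0 from congrFun h2 j,
      zero_smul, zero_smul, add_zero, add_zero] at k
  · have k := (h (.inr j) trivial).2
    rwa [show P.1 (.inr j) = 0 from congrFun h1 j, show P.2 (.inr j) = 0 from congrFun h2 j,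
      zero_smul, zero_smul, add_zero, add_zero] at k

/-- A small set of indices that detects all patterns. -/
theorem exists_Jev (hB : B.Hyp 1) (hG : B.Generic A1 B1 A2 B2 K a) :
    ∃ Jev : Finset (Fin B.r), Jev.card ≤ K ∧ ∀ P, B.Rel A1 B1 A2 B2 a P →
      (∀ j ∈ Jev, P.1 (.inr j) = 0 ∧ P.2 (.inr j) = 0) → P = 0 := by
  have k : ∀ P ∈ ({P | B.Rel A1 B1 A2 B2 a P ∧ P ≠ 0} : Finset (B.Pat × B.Pat)),
      ∃ j, ¬ (P.1 (.inr j) = 0 ∧ P.2 (.inr j) = 0) := fun P hP => by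
    obtain ⟨-, h1, h2⟩ := mem_filter.1 hP
    by_contra hc
    push Not at hc
    exact h2 (h1.eq_zero hB (funext fun j => (hc j).1) (funext fun j => (hc j).2))
  choose f hf using k
  refine ⟨image (fun P => f P.1 P.2) (attach _), card_image_le.trans ?_, fun P hP h => ?_⟩
  · rw [card_attach]
    exact (card_le_card (monotone_filter_right _ fun P _ h => h.1)).trans hG.g1
  · by_contra h0
    have hm : P ∈ ({P | B.Rel A1 B1 A2 B2 a P ∧ P ≠ 0} : Finset (B.Pat × B.Pat)) :=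
      mem_filter.2 ⟨mem_univ _, hP, h0⟩
    exact hf P hm (h _ (mem_image.2 ⟨⟨P, hm⟩, mem_attach _ _, rfl⟩))

/-- Indices with a prescribed behaviour on the patterns that vanish at `j0`. -/
theorem exists_idx {m : ℕ} (hB : B.Hyp (2 * K ^ 2 * (m + 1))) (hG : B.Generic A1 B1 A2 B2 K a)
    (j0 j1 j2 : Fin B.r) (s t : F2) (k : Fin 3) (F : Finset (Fin B.r)) (hF : F.card ≤ m) :
    ∃ j ∈ B.I k, j ∉ F ∧ ∀ P, B.Rel A1 B1 A2 B2 a P → P.1 (.inr j0) = 0 → P.2 (.inr j0) = 0 →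
      P.1 (.inr j) = s * P.1 (.inr j1) ∧ P.2 (.inr j) = t * P.2 (.inr j2) := by
  obtain ⟨Z, hZ⟩ : ∃ Z : Finset (B.Pat × B.Pat), ∀ P, P ∈ Z ↔
      B.Rel A1 B1 A2 B2 a P ∧ P.1 (.inr j0) = 0 ∧ P.2 (.inr j0) = 0 :=
    ⟨univ.filter _, fun P => mem_filter_univ P⟩
  have c : Z.card ≤ K :=
    (card_le_card fun P hP => mem_filter.2 ⟨mem_univ _, ((hZ P).1 hP).1⟩).trans hG.g1
  have z : 0 ∈ Z := (hZ 0).2 ⟨Rel.zero, rfl, rfl⟩
  have ad : ∀ P ∈ Z, ∀ P' ∈ Z, P + P' ∈ Z := fun P hP P' hP' => by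
    obtain ⟨k1, k2, k3⟩ := (hZ P).1 hP
    obtain ⟨l1, l2, l3⟩ := (hZ P').1 hP'
    exact (hZ _).2 ⟨k1.add l1, by simp [k2, l2], by simp [k3, l3]⟩
  have nc : ∀ w : Fin B.r → F2, w j0 = 0 → Cst w → w = 0 := fun w h hw =>
    hw.resolve_right fun e => by rw [e] at h; exact one_ne_zero h
  have im : ∀ f : B.Pat × B.Pat → Fin B.r → F2, f 0 = 0 → (∀ P P', f (P + P') = f P + f P') →
      ∃ V : Finset (Fin B.r → F2), V.card ≤ K ∧ 0 ∈ V ∧ (∀ u ∈ V, ∀ v ∈ V, u + v ∈ V) ∧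
        ∀ u, u ∈ V ↔ ∃ P ∈ Z, f P = u := fun f f0 fa => by
    refine ⟨Z.image f, card_image_le.trans c, mem_image.2 ⟨0, z, f0⟩, fun u hu v hv => ?_,
      fun u => mem_image⟩
    obtain ⟨P, hP, rfl⟩ := mem_image.1 hu
    obtain ⟨P', hP', rfl⟩ := mem_image.1 hv
    exact mem_image.2 ⟨_, ad P hP P' hP', fa P P'⟩
  obtain ⟨V1, c1, z1, a1, m1⟩ := im (fun P => B.lg P.1) rfl fun _ _ => rfl
  obtain ⟨V2, c2, z2, a2, m2⟩ := im (fun P => B.lg P.2) rfl fun _ _ => rfl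
  have h := four_count (B.I k) V1 V2 c1 c2 z1 z2 a1 a2 (fun u hu v hv h0 => by
    obtain ⟨P, hP, rfl⟩ := (m1 u).1 hu
    obtain ⟨P', hP', rfl⟩ := (m2 v).1 hv
    exact hG.g2 P P' ((hZ P).1 hP).1 ((hZ P').1 hP').1 (fun h => h0
      ⟨nc (B.lg P.1) ((hZ P).1 hP).2.1 h.1, nc (B.lg P'.2) ((hZ P').1 hP').2.2 h.2⟩) k) s t j1 j2
  have hK : 0 < 2 * K ^ 2 := by
    have : 0 < K := (card_pos.2 ⟨_, z⟩).trans_le c
    positivity
  have h1 := Nat.le_of_mul_le_mul_left ((((Nat.le_mul_of_pos_right _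
    (Nat.succ_pos B.Q0.card)).trans hB.hH).trans (hB.win k)).trans h) hK
  obtain ⟨j, hj, hj'⟩ := exists_mem_notMem_of_card_lt_card ((Nat.lt_succ_of_le hF).trans_le h1)
  simp only [mem_filter] at hj
  obtain ⟨k1, k2, k3⟩ := hj
  exact ⟨j, k1, hj', fun P hP p1 p2 =>
    ⟨k2 _ ((m1 _).2 ⟨P, (hZ P).2 ⟨hP, p1, p2⟩, rfl⟩),
      k3 _ ((m2 _).2 ⟨P, (hZ P).2 ⟨hP, p1, p2⟩, rfl⟩)⟩⟩

/-- The directions of a grid. -/
theorem exists_dirs {n m : ℕ} (hB : B.Hyp (2 * K ^ 2 * (m + n + 3)))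
    (hG : B.Generic A1 B1 A2 B2 K a) (j0 j1 j2 j3 j4 : Fin B.r) (s t s' t' : F2)
    (F : Finset (Fin B.r)) (hF : F.card ≤ m) :
    ∃ σ : Fin n ⊕ Bool → Fin B.r, Injective σ ∧ (∀ i, σ i ∉ F) ∧ (∀ j, σ (.inl j) ∈ B.I 0) ∧
      σ (.inr false) ∈ B.I 1 ∧ σ (.inr true) ∈ B.I 2 ∧
      ∀ P, B.Rel A1 B1 A2 B2 a P → P.1 (.inr j0) = 0 → P.2 (.inr j0) = 0 →
        (∀ j, P.1 (.inr (σ (.inl j))) = 0 ∧ P.2 (.inr (σ (.inl j))) = 0) ∧
        (P.1 (.inr (σ (.inr true))) = s * P.1 (.inr j1) ∧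
          P.2 (.inr (σ (.inr true))) = t * P.2 (.inr j2)) ∧
        (P.1 (.inr (σ (.inr false))) = s' * P.1 (.inr j3) ∧
          P.2 (.inr (σ (.inr false))) = t' * P.2 (.inr j4)) := by
  have key := exists_idx (m := m + n + 2) hB hG j0
  obtain ⟨G, hGm⟩ : ∃ G : Finset (Fin B.r), ∀ j, j ∈ G ↔ j ∈ B.I 0 ∧ j ∉ F ∧
      ∀ P, B.Rel A1 B1 A2 B2 a P → P.1 (.inr j0) = 0 → P.2 (.inr j0) = 0 →
        P.1 (.inr j) = 0 ∧ P.2 (.inr j) = 0 :=
    ⟨univ.filter _, fun j => mem_filter_univ j⟩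
  have hn : n ≤ G.card := by
    by_contra hc
    obtain ⟨j, k1, k2, k3⟩ := key j0 j0 0 0 0 (F ∪ G) ((card_union_le _ _).trans (by omega))
    refine k2 (mem_union_right _ ((hGm j).2 ⟨k1, fun h => k2 (mem_union_left _ h), ?_⟩))
    simpa only [zero_mul] using k3
  have hτ := fun i => (hGm _).1 (orderEmbOfCardLe_mem G hn i)
  have inj := (orderEmbOfCardLe G hn).injective
  generalize (orderEmbOfCardLe G hn : Fin n → Fin B.r) = τ at hτ inj
  have c : (F ∪ univ.image τ).card ≤ m + n :=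
    (card_union_le _ _).trans (add_le_add hF (card_image_le.trans (by simp)))
  obtain ⟨u, u1, u2, u3⟩ := key j1 j2 s t 2 _ (c.trans (by omega))
  obtain ⟨v, v1, v2, v3⟩ := key j3 j4 s' t' 1 (insert u (F ∪ univ.image τ))
    ((card_insert_le _ _).trans (by omega))
  simp only [mem_insert, mem_union, mem_image, mem_univ, true_and, not_or, not_exists] at u2 v2
  refine ⟨Sum.elim τ fun b => cond b u v, ?_, ?_, fun j => (hτ j).1, v1, u1,
    fun P hP p1 p2 => ⟨fun j => (hτ j).2.2 P hP p1 p2, u3 P hP p1 p2, v3 P hP p1 p2⟩⟩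
  · rintro (i | _ | _) (j | _ | _) h
    · exact congrArg _ (inj h)
    · exact (v2.2.2 i h).elim
    · exact (u2.2 i h).elim
    · exact (v2.2.2 j h.symm).elim
    · rfl
    · exact (v2.1 h).elim
    · exact (u2.2 j h.symm).elim
    · exact (v2.1 h.symm).elim
    · rfl
  · rintro (i | _ | _)
    · exact (hτ i).2.1
    · exact v2.2.1
    · exact u2.1

end Box

end Pool.Agent.Lib.MP_696deb_nt.Sm
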