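import Pool.Agent.Lib.MP_696deb_nt.Sm.Sel

/-! Counting lifts. -/

set_option autoImplicit false

open scoped Classical
open Finset

namespace Pool.Agent.Lib.MP_696deb_nt.Sm

theorem selb_le {α β : Type} {s : Set α} (hs : s.Finite) (f : α → β) {k : ℕ}
    (h : ∀ x ∈ s, {y | y ∈ s ∧ f y = f x}.ncard ≤ k) : s.ncard ≤ k * (f '' s).ncard := by
  lift s to Finset α using hs
  rw [← coe_image, Set.ncard_coe_finset, Set.ncard_coe_finset]
  refine card_le_mul_card_image s k fun b hb => ?_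
  obtain ⟨x, hx, rfl⟩ := mem_image.1 hb
  rw [← Set.ncard_coe_finset, coe_filter]
  exact h x hx

theorem selb_ge {α β : Type} {s : Set α} (hs : s.Finite) (f : α → β) {k : ℕ}
    (h : ∀ x ∈ s, k ≤ {y | y ∈ s ∧ f y = f x}.ncard) : k * (f '' s).ncard ≤ s.ncard := by
  lift s to Finset α using hs
  rw [← coe_image, Set.ncard_coe_finset, Set.ncard_coe_finset]
  refine mul_card_image_le_card s k fun b hb => ?_
  obtain ⟨x, hx, rfl⟩ := mem_image.1 hb
  rw [← Set.ncard_coe_finset, coe_filter]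
  exact h x hx

namespace Cv

variable {C : Cv} {D : ℤ} {J : Set ℕ} {n : ℕ} {c c' : GQ → C.A}

theorem selb_anti (C : Cv) (D : ℤ) {m n : ℕ} (h : m ≤ n) : C.AA D n ⊆ C.AA D m :=
  antitone_nat_of_succ_le (f := C.AA D) (C.AA_succ D) h

/-- The lifts form a coset. -/
theorem selb_Om (h : c' ∈ C.Om D n c) :
    C.Om D n c = (fun z => c' + z) '' {z | C.IsZ D ∅ n z} := by
  ext x
  constructor
  · rintro ⟨h1, h2⟩
    refine ⟨x - c', (h1.sub h.1).level fun g => ?_, add_sub_cancel _ _⟩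
    rw [← Pi.smul_apply, smul_sub, h2, h.2, sub_self, Pi.zero_apply]
  · rintro ⟨z, hz, rfl⟩
    refine ⟨h.1.add (hz.level fun g => ?_), ?_⟩
    · rw [pow_succ', mul_smul, hz.tors, smul_zero]
    · rw [smul_add, h.2, show 2 ^ n • z = 0 from funext hz.tors, add_zero]

theorem selb_card (h : c ∈ C.AA D n) : (C.Om D n c).ncard = {z | C.IsZ D ∅ n z}.ncard := by
  obtain ⟨c', h'⟩ := h
  rw [selb_Om h', Set.ncard_image_of_injective _ (add_right_injective c')]

theorem finite_Z (h : (C.AA D 0).Finite) (n : ℕ) : {c | C.IsZ D ∅ n c}.Finite := by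
  induction n with
  | zero =>
    exact (Set.finite_singleton 0).subset fun c hc => funext fun g => by simpa using hc.tors g
  | succ n ih =>
    refine Set.Finite.of_finite_fibers (fun x => 2 ^ n • x)
      (h.subset (C.selb_anti D n.zero_le)) ?_
    rintro _ ⟨x, hx, rfl⟩
    exact (ih.image _).subset (selb_Om (c' := x) ⟨hx, rfl⟩).subset

theorem card_Om_zero (h : c ∈ C.AA D 0) : (C.Om D 0 c).ncard = 1 := by
  obtain ⟨x, hx, rfl⟩ := h
  refine Set.ncard_eq_one.2 ⟨x, Set.eq_singleton_iff_unique_mem.2 ⟨⟨hx, rfl⟩, fun y hy => ?_⟩⟩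
  simpa using hy.2

/-- Many lifts when the group of liftable classes is large. -/
theorem card_Om (hf : (C.AA D 0).Finite) (h : c ∈ C.AA D n) (h16 : 16 ≤ (C.AA D n).ncard) :
    16 ^ n ≤ (C.Om D n c).ncard := by
  have key : ∀ m ≤ n, 16 ^ m ≤ {z | C.IsZ D ∅ m z}.ncard := fun m hm => by
    induction m with
    | zero => exact (Set.ncard_pos (finite_Z hf 0)).2 ⟨0, C.isZ_zero D ∅ 0⟩
    | succ m ih =>
      have h1 := (Nat.le_succ m).trans hm
      have h2 : 16 ≤ (C.AA D m).ncard := h16.trans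
        (Set.ncard_le_ncard (C.selb_anti D h1) (hf.subset (C.selb_anti D m.zero_le)))
      exact (Nat.mul_le_mul (ih h1) h2).trans (selb_ge (finite_Z hf (m + 1)) (fun x => 2 ^ m • x)
        fun x hx => (selb_card ⟨x, hx, rfl⟩).ge)
  exact (key n le_rfl).trans (selb_card h).ge

theorem card_Om_succ (hf : (C.AA D 0).Finite) :
    (C.Om D (n + 1) c).ncard ≤
      (C.AA D 0).ncard * ((fun x => 2 • x) '' C.Om D (n + 1) c).ncard := by
  refine selb_le ((finite_Z hf (n + 1 + 1)).subset fun x hx => hx.1) _ fun x hx => ?_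
  rw [← Set.ncard_image_of_injective (C.AA D 0) (add_right_injective x)]
  refine Set.ncard_le_ncard (fun y hy => ⟨y - x, ?_, add_sub_cancel _ _⟩) (hf.image _)
  rw [AA_zero]
  refine (hy.1.1.sub hx.1).level fun g => ?_
  rw [pow_one, ← Pi.smul_apply, smul_sub, hy.2, sub_self, Pi.zero_apply]

end Cv

end Pool.Agent.Lib.MP_696deb_nt.Sm
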