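import Pool.Agent.Lib.MP_696deb_nt.Sm.Sel

/-! Reciprocity. -/

set_option autoImplicit false

open scoped Classical
open Finset

namespace Pool.Agent.Lib.MP_696deb_nt.Sm

theorem selC_val {D : ℤ} (hD : Squarefree D) {q : ℕ} (hq : q.Prime) (h : (q : ℤ) ∣ D) :
    padicValInt q D = 1 := by
  have := Fact.mk hq
  have h1 := ((padicValInt_dvd_iff 1 D).1 (by rwa [pow_one])).resolve_left hD.ne_zero
  refine le_antisymm (Nat.le_of_lt_succ (lt_of_not_ge fun h2 => ?_)) h1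
  have h3 := (padicValInt_dvd_iff (p := q) 2 D).2 (Or.inr h2)
  rw [sq] at h3
  exact (Nat.prime_iff_prime_int.1 hq).not_isUnit (hD _ h3)

namespace Cv

variable {C : Cv} {D : ℤ} {J : Set ℕ} {n : ℕ} {c c' : GQ → C.A}

/-- Reciprocity: a homomorphism that is Selmer up to unramified defects on `J` and at `r`,
paired with a Selmer class that is unramified on `J`. -/
theorem recip (hD : Squarefree D) {r : ℕ} {c1 c2 b1 b2 : ℤ} (h1 : c1 ≠ 0) (h2 : c2 ≠ 0)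
    (h3 : b1 ≠ 0) (h4 : b2 ≠ 0) (hJ : ∀ q ∈ insert r J, q.Prime ∧ ¬ q ∣ 30 ∧ (q : ℤ) ∣ D)
    (hc : C.IsZ D (insert r J) 1 (C.kum c1 c2)) (hb : C.IsZ D ∅ 1 (C.kum b1 b2))
    (hbJ : ∀ q ∈ J, q ≠ r → chi b1 (sig q) = 0 ∧ chi b2 (sig q) = 0)
    {u : GQ → C.A} (hu2 : ∀ g, 2 • u g = 0) (hu : u (sig r) = 0) (hl : C.Loc r D (C.kum c1 c2 - u))
    {a b : F2} (hab : u (frb r) = C.pt2 a b) : a * chi b2 (sig r) + b * chi b1 (sig r) = 0 := by
  have D0 := hD.ne_zero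
  obtain ⟨rp, r30, rD⟩ := hJ r (Set.mem_insert _ _)
  have r2 : r ≠ 2 := by rintro rfl; exact r30 (by decide)
  have rv := selC_val hD rp rD
  have lb : ∀ v : ℕ, v = 0 ∨ (v.Prime ∧ (v : ℤ) ∣ 30 * D) → C.Loc v D (C.kum b1 b2) :=
    fun v hv => hb.loc v hv (Set.notMem_empty v)
  have N0 : (2 * r * (c1 * b2) * (b1 * c2)).natAbs ≠ 0 := by
    simp [h1, h2, h3, h4, rp.ne_zero]
  have mem : ∀ p : ℕ, p.Prime → (p : ℤ) ∣ 2 * r * (c1 * b2) * (b1 * c2) →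
      p ∈ insert 0 (2 * r * (c1 * b2) * (b1 * c2)).natAbs.primeFactors := fun p hp h =>
    mem_insert_of_mem (Nat.mem_primeFactors.2 ⟨hp, Int.natCast_dvd.1 h, N0⟩)
  have hV : ∀ v ∈ insert 0 (2 * r * (c1 * b2) * (b1 * c2)).natAbs.primeFactors,
      v = 0 ∨ v.Prime := fun v hv => (mem_insert.1 hv).imp_right Nat.prime_of_mem_primeFactors
  have m2 := mem 2 Nat.prime_two (((dvd_mul_right _ _).mul_right _).mul_right _)
  have s1 := hs_sum h1 h4 _ (mem_insert_self _ _) m2 hV fun p hp h =>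
    mem p hp ((h.mul_left _).mul_right _)
  have s2 := hs_sum h3 h2 _ (mem_insert_self _ _) m2 hV fun p hp h => mem p hp (h.mul_left _)
  have s3 : hs r c1 b2 + hs r b1 c2 = 0 := by
    rw [← add_zero (0 : F2)]
    nth_rewrite 1 [← s1]
    rw [← s2, ← sum_add_distrib, sum_eq_single_of_mem r
      (mem r rp (((dvd_mul_left _ _).mul_right _).mul_right _)) fun v hv hr => ?_]
    by_cases k : v = 0 ∨ (v.Prime ∧ (v : ℤ) ∣ 30 * D)
    · by_cases k' : v ∈ insert r J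
      · obtain ⟨vp, v30, vD⟩ := hJ v k'
        obtain ⟨e1, e2⟩ := hbJ v (k'.resolve_left hr) hr
        have e3 := fun g hg => C.pt2_inj (C.loc_ram vp v30 (selC_val hD vp vD) (C.two_kum b1 b2)
          (lb v k) (a := 0) (b := 0) (by rw [kum, e1, e2]) g hg)
        simp only [dl1, dl2, ZMod.val_zero, pow_zero, mul_one, chi_one] at e3
        rw [hs_comm, hs_triv (Or.inr vp) h4 h1 fun g hg => (e3 g hg).2,
          hs_triv (Or.inr vp) h3 h2 fun g hg => (e3 g hg).1, add_zero]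
      · exact C.loc_iso (hV v hv) D0 h1 h2 h3 h4 (hc.loc v k k') (lb v k)
    · have vp := (hV v hv).resolve_left fun h => k (Or.inl h)
      have k' : ¬ (v : ℤ) ∣ 30 * D := fun h => k (Or.inr ⟨vp, h⟩)
      have v2 : v ≠ 2 := by rintro rfl; exact k' (Dvd.dvd.mul_right (by decide) _)
      obtain ⟨e1, e2⟩ := C.pt2_eq_zero (hc.unr v vp k')
      obtain ⟨e3, e4⟩ := C.pt2_eq_zero (hb.unr v vp k')
      rw [hs_odd vp v2 h1 h4, hs_odd vp v2 h3 h2, e1, e2, e3, e4]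
      simp
  have t1 := C.loc_ram rp r30 rv (c := C.kum c1 c2 - u)
    (fun g => by rw [Pi.sub_apply, smul_sub, two_kum, hu2, sub_zero]) hl
    (a := chi c1 (sig r)) (b := chi c2 (sig r)) (by rw [Pi.sub_apply, hu, sub_zero, kum])
    _ (frb_mem rp r2)
  rw [Pi.sub_apply, hab, sub_eq_iff_eq_add, kum, kum, ← pt2_add] at t1
  obtain ⟨t2, t3⟩ := C.pt2_inj t1
  have t4 := C.loc_iso (Or.inr rp) D0 (C.dl1_ne D0 _ _) (C.dl2_ne D0 _ _) h3 h4
    (C.loc_del r D0 (chi c1 (sig r)) (chi c2 (sig r))) (lb r (Or.inr ⟨rp, rD.mul_left _⟩))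
  rw [hs_odd rp r2 (C.dl1_ne D0 _ _) h4, hs_odd rp r2 h3 (C.dl2_ne D0 _ _),
    C.chi_dl1_sig rp r30 rv, C.chi_dl2_sig rp r30 rv] at t4
  rw [hs_odd rp r2 h1 h4, hs_odd rp r2 h3 h2, t2, t3] at s3
  linear_combination s3 - t4

end Cv

end Pool.Agent.Lib.MP_696deb_nt.Sm
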