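import Pool.Agent.Lib.MP_696deb_nt.Sm.Chi

/-! Boxes of primes, Legendre matrices and patterns. -/

set_option autoImplicit false

open scoped Classical
open Finset Function

namespace Pool.Agent.Lib.MP_696deb_nt.Sm

/-- A box: a fixed part, `r` sets of large primes, three windows and numerical parameters. -/
structure Box where
  r : ℕ
  D0 : ℤ
  X : Fin r → Finset ℕ
  t : Fin r → ℕ
  I : Fin 3 → Finset (Fin r)
  H : ℕ
  Y : ℕ
  θ : ℝ

namespace Box

variable (B : Box)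

/-- The small primes. -/
def Q0 : Finset ℕ := (30 * B.D0.natAbs).primeFactors

/-- Indices of the small generators: minus one and the small primes. -/
abbrev Sg := Option B.Q0

/-- Indices of all generators. -/
abbrev Ix := B.Sg ⊕ Fin B.r

abbrev Pat := B.Ix → F2

abbrev Mat := {ij : Fin B.r × Fin B.r // ij.1 < ij.2} → F2

def k0 : ℕ := B.Q0.card + 1

def sgen : B.Sg → ℤ := fun g => g.elim (-1) fun q => ((q : ℕ) : ℤ)

def gen (x : Fin B.r → ℕ) : B.Ix → ℤ := Sum.elim B.sgen fun j => (x j : ℤ)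

/-- The integer with the given pattern of generators. -/
def val (x : Fin B.r → ℕ) (A : B.Pat) : ℤ := ∏ k, B.gen x k ^ (A k).val

def DD (x : Fin B.r → ℕ) : ℤ := B.D0 * ∏ j, (x j : ℤ)

def pts : Finset (Fin B.r → ℕ) := Fintype.piFinset B.X

/-- The Legendre matrix of a point. -/
noncomputable def mat (x : Fin B.r → ℕ) : B.Mat := fun ij => aleg (x ij.1.1) (x ij.1.2)

/-- The points with a given Legendre matrix. -/
noncomputable def fib (a : B.Mat) : Finset (Fin B.r → ℕ) := {x ∈ B.pts | B.mat x = a}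

/-- A representative prime of the `j`-th set. -/
noncomputable def rep (j : Fin B.r) : ℕ := sInf (B.X j : Set ℕ)

/-- The Legendre bit at index `j` of the product of small generators with exponents `u`. -/
noncomputable def nu (u : B.Sg → F2) (j : Fin B.r) : F2 := ∑ g, u g * aleg (B.rep j) (B.sgen g)

/-- The symmetric extension of a matrix. -/
def sy (a : B.Mat) (i j : Fin B.r) : F2 :=
  if h : i < j then a ⟨(i, j), h⟩ else if h : j < i then a ⟨(j, i), h⟩ else 0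

/-- The Legendre bit of generator `k'` modulo the generator `k`, zero on the diagonal. -/
noncomputable def sym (a : B.Mat) : B.Ix → B.Ix → F2
  | .inl g, .inl g' => if g = g' then 0 else aleg (B.sgen g').natAbs (B.sgen g)
  | .inr j, .inl g' => aleg (B.sgen g').natAbs (B.rep j)
  | .inl g, .inr j => aleg (B.rep j) (B.sgen g)
  | .inr i, .inr j => B.sy a i j +
      if i < j then aleg (B.rep i) (-1) * aleg (B.rep j) (-1) else 0

noncomputable def lam (a : B.Mat) (k : B.Ix) (A : B.Pat) : F2 := ∑ k', A k' * B.sym a k' k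

/-- The small pattern of an integer. -/
noncomputable def spat (c : ℤ) : B.Sg → F2 :=
  fun g => g.elim (if c < 0 then 1 else 0) fun q => (padicValInt q c : F2)

noncomputable def pat (c : ℤ) : B.Pat := Sum.elim (B.spat c) 0

/-- The pattern of the twisting parameter. -/
noncomputable def dD : B.Pat := Sum.elim (B.spat B.D0) 1

/-- The indices of the primes that divide the twisting parameter and not 30. -/
def PI : B.Ix → Prop := Sum.elim (fun g => ∃ q : B.Q0, g = some q ∧ ¬ (q : ℕ) ∣ 30) fun _ => True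

/-- The restriction of a pattern to the large primes. -/
def lg (A : B.Pat) : Fin B.r → F2 := fun j => A (.inr j)

/-- The conditions at the primes of the twist, for the constants `A1, B1, A2, B2`. -/
def Rel (A1 B1 A2 B2 : ℤ) (a : B.Mat) (P : B.Pat × B.Pat) : Prop := ∀ k, B.PI k →
  B.lam a k (P.1 + P.1 k • (B.dD + B.pat A1) + P.2 k • B.pat B1) = 0 ∧
    B.lam a k (P.2 + P.1 k • B.pat A2 + P.2 k • (B.dD + B.pat B2)) = 0

/-- A constant vector. -/
def Cst {r : ℕ} (w : Fin r → F2) : Prop := w = 0 ∨ w = 1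

/-- Genericity of a Legendre matrix. -/
structure Generic (A1 B1 A2 B2 : ℤ) (K : ℕ) (a : B.Mat) : Prop where
  g1 : ({P | B.Rel A1 B1 A2 B2 a P} : Finset (B.Pat × B.Pat)).card ≤ K
  g2 : ∀ P P', B.Rel A1 B1 A2 B2 a P → B.Rel A1 B1 A2 B2 a P' →
    ¬ (Cst (B.lg P.1) ∧ Cst (B.lg P'.2)) → ∀ k,
      2 * K ^ 2 * |∑ j ∈ B.I k, sn (B.lg P.1 j + B.lg P'.2 j)| ≤ (B.I k).card
  g3 : B.spat A2 ≠ 0 → ∀ P, B.Rel A1 B1 A2 B2 a P → Cst (B.lg P.2) → Cst (B.lg P.1)

/-- The qualitative hypotheses on a box. -/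
structure Wf : Prop where
  sqf : Squarefree B.D0
  prime : ∀ j, ∀ p ∈ B.X j, p.Prime
  cop : ∀ j, ∀ p ∈ B.X j, ¬ (p : ℤ) ∣ 30 * B.D0
  disj : ∀ i j, ∀ p ∈ B.X i, p ∈ B.X j → i = j
  ne : ∀ j, (B.X j).Nonempty
  mod8 : ∀ j, ∀ p ∈ B.X j, p % 8 = B.rep j % 8
  leg : ∀ j, ∀ p ∈ B.X j, ∀ q ∈ B.Q0, q ≠ 2 → aleg q p = aleg q (B.rep j)

/-- The quantitative hypotheses on a box. -/
structure Hyp (c : ℕ) : Prop where
  wf : B.Wf
  rng : ∀ j, ∀ p ∈ B.X j, B.t j < p ∧ p ≤ 2 * B.t j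
  pos : 0 < B.θ
  le1 : B.θ ≤ 1
  big : ∀ j, B.θ * B.t j ≤ (B.X j).card
  hY : ∀ j, B.Y ≤ B.t j
  hc : (2 ^ ((B.r + B.k0 + 1) ^ 2) / B.θ) ^ c ≤ B.Y
  hH : c * B.k0 ≤ B.H
  b1 : ∀ u : B.Sg → F2, u ≠ 0 → B.H ≤ ({j | B.nu u j = 1} : Finset (Fin B.r)).card
  win : ∀ k, B.H ≤ (B.I k).card
  ord : ∀ k k', k < k' → ∀ j ∈ B.I k, ∀ j' ∈ B.I k', j < j' ∧ B.t j ^ c ≤ B.t j'

theorem Hyp.mono {B : Box} {c c' : ℕ} (h : B.Hyp c') (hc : c ≤ c') : B.Hyp c := by
  have h1 : (1 : ℝ) ≤ 2 ^ ((B.r + B.k0 + 1) ^ 2) / B.θ :=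
    (one_le_div h.pos).2 (h.le1.trans (one_le_pow₀ one_le_two))
  refine ⟨h.wf, h.rng, h.pos, h.le1, h.big, h.hY, (pow_le_pow_right₀ h1 hc).trans h.hc,
    (Nat.mul_le_mul_right _ hc).trans h.hH, h.b1, h.win, fun k k' hk j hj j' hj' => ?_⟩
  obtain ⟨a, b⟩ := h.ord k k' hk j hj j' hj'
  have h2 : (1 : ℝ) ≤ B.t j := ((one_le_pow₀ h1).trans h.hc).trans (Nat.cast_le.2 (h.hY j))
  exact ⟨a, (Nat.pow_le_pow_right (by exact_mod_cast h2) hc).trans b⟩

end Box

end Pool.Agent.Lib.MP_696deb_nt.Sm
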