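import Pool.Agent.Lib.MP_696deb_nt.Sm.Isog
import Pool.Agent.Lib.MP_696deb_nt.Sm.PatB
import Pool.Agent.Lib.MP_696deb_nt.Sm.PatC
import Pool.Agent.Lib.MP_696deb_nt.Sm.SelB

/-! Reduction to mixed classes by isogenies. -/

set_option autoImplicit false

open scoped Classical
open Finset Function

namespace Pool.Agent.Lib.MP_696deb_nt.Sm

theorem dvd_thirty {N : ℤ} (h : N ∣ 30 ^ 12) (p : ℕ) (hp : p.Prime) (k : (p : ℤ) ∣ N) : p ∣ 30 := by
  have := (Nat.prime_iff_prime_int.1 hp).dvd_of_dvd_pow (k.trans h)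
  exact_mod_cast this

/-- The curve of conductor fifteen. -/
def E0 : Cv := ⟨0, 25, 9, by norm_num, dvd_thirty (by norm_num)⟩

def E1 : Cv := ⟨0, -4, -64, by norm_num, dvd_thirty (by norm_num)⟩

def E2 : Cv := ⟨0, 1, 81, by norm_num, dvd_thirty (by norm_num)⟩

namespace Box

/-- Many liftable classes, one of which is mixed. -/
def Mix (B : Box) (C : Cv) (n : ℕ) (x : Fin B.r → ℕ) : Prop :=
  16 ≤ (C.AA (B.DD x) n).ncard ∧
    ∃ P : B.PP, B.cls C x P ∈ C.AA (B.DD x) n ∧ ¬ Cst (B.lg P.1) ∧ ¬ Cst (B.lg P.2)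

variable {B : Box} {C C' : Cv} {a : B.Mat} {x : Fin B.r → ℕ} {n K : ℕ}

theorem red_Z {D : ℤ} {c : GQ → C.A} (h : c ∈ C.AA D n) : C.IsZ D ∅ 1 c := by
  have h1 := C.selb_anti D n.zero_le h
  rwa [Cv.AA_zero] at h1

theorem red_eq {A A' : B.Pat} (h : A + A' = 0) : A = A' :=
  funext fun k => patb_eq.1 (congrFun h k)

theorem red_cst {r : ℕ} {w : Fin r → F2} (h : Cst w) {j : Fin r} (h0 : w j = 0) : w = 0 :=
  h.resolve_right fun k => by
    rw [k] at h0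
    exact one_ne_zero h0

theorem Wf.tP_mem (h : B.Wf) (hx : x ∈ B.pts) (n : ℕ) (s t : F2) :
    B.cls C x (B.tP C s t) ∈ C.AA (B.DD x) n := by
  rw [h.cls_tP hx]
  exact C.del_mem_AA (h.DD_sqf hx).ne_zero n s t

/-- Normalisation at an index. -/
theorem Wf.norm_mem (h : B.Wf) (hx : x ∈ B.pts) {P : B.PP} (hP : B.cls C x P ∈ C.AA (B.DD x) n)
    (j0 : Fin B.r) : B.cls C x (P + B.tP C (P.1 (.inr j0)) (P.2 (.inr j0))) ∈ C.AA (B.DD x) n ∧
      B.Un (P + B.tP C (P.1 (.inr j0)) (P.2 (.inr j0))) j0 := by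
  refine ⟨?_, ?_, ?_⟩
  · rw [h.cls_add hx]
    exact Cv.add_mem_AA hP (h.tP_mem hx n _ _)
  · rw [Prod.fst_add, Pi.add_apply, tP_fst, CharTwo.add_self_eq_zero]
  · rw [Prod.snd_add, Pi.add_apply, tP_snd, CharTwo.add_self_eq_zero]

theorem spat_ne {c : ℤ} (hc : c < 0) : B.spat c ≠ 0 := by
  intro k
  simpa [spat, hc] using congrFun k none

theorem red_iso {s t : F2} {φ : C.A →+ C'.A} (hI : Isog C C' s t φ) (h : B.Wf) (hx : x ∈ B.fib a)
    (hG : B.GenC C' K a) (hA : C'.A2 < 0) (T : Finset B.Pat) (h4 : 4 ≤ T.card) (j0 : Fin B.r)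
    (hT : ∀ A ∈ T, A (.inr j0) = 0 ∧ B.cls C x (s • A, t • A) ∈ C.AA (B.DD x) (n + 1))
    (hi : ∀ A ∈ T, ∀ A' ∈ T, B.lg A = B.lg A' → A = A') : B.Mix C' n x := by
  have hp := (mem_fib.1 hx).1
  have h1 : ∀ A : B.Pat, ∃ A' : B.Pat, A ∈ T → B.cls C' x (A, A') ∈ C'.AA (B.DD x) n := fun A => by
    by_cases hA : A ∈ T
    swap
    · exact ⟨0, fun k => (hA k).elim⟩
    obtain ⟨a', ha, hb⟩ := hI.AA (hT A hA).2 (k := chi (B.val x A)) fun g => by
      rw [cls, Cv.kum, h.chi_val_smul hp, h.chi_val_smul hp]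
    obtain ⟨⟨A1, A2⟩, rfl⟩ := h.exists_cls hp (red_Z ha)
    have h2 : A1 + A = 0 := h.chi_val_inj hp fun g => by
      obtain ⟨b, hb⟩ := hb g
      rw [h.chi_val_add hp, (C'.pt2_inj hb).1, CharTwo.add_self_eq_zero]
    obtain rfl := red_eq h2
    exact ⟨A2, fun _ => ha⟩
  choose L hL using h1
  refine ⟨?_, ?_⟩
  · rw [h.card_AA hp]
    refine le_trans ?_ (card_le_card_of_injOn (s := T ×ˢ (univ : Finset (F2 × F2)))
      (fun z => (z.1, L z.1) + B.tP C' z.2.1 z.2.2) (fun z hz => ?_) ?_)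
    · rw [card_product, card_univ, Fintype.card_prod, ZMod.card]
      omega
    · refine mem_coe.2 (mem_filter.2 ⟨mem_univ _, ?_⟩)
      rw [h.cls_add hp]
      exact Cv.add_mem_AA (hL _ (mem_product.1 hz).1) (h.tP_mem hp n _ _)
    · rintro ⟨A, s1, t1⟩ hz ⟨A', s2, t2⟩ hz' k
      have a1 := (mem_product.1 hz).1
      have a2 := (mem_product.1 hz').1
      have e1 : ∀ j, A (.inr j) + s1 = A' (.inr j) + s2 := fun j => by
        simpa [tP_fst] using congrArg (fun P : B.PP => P.1 (.inr j)) k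
      have e2 := e1 j0
      rw [(hT A a1).1, (hT A' a2).1, zero_add, zero_add] at e2
      subst e2
      obtain rfl : A = A' := hi A a1 A' a2 (funext fun j => add_right_cancel (e1 j))
      obtain rfl : t1 = t2 := by
        simpa [tP_snd] using congrArg (fun P : B.PP => P.2 (.inr j0)) k
      rfl
  · obtain ⟨A, hA1, hA2⟩ : ∃ A ∈ T, B.lg A ≠ 0 := by
      obtain ⟨A, a1, A', a2, hne⟩ := one_lt_card.1 (show 1 < T.card by omega)
      by_contra k
      have k' : ∀ A ∈ T, B.lg A = 0 := fun A hA => by_contra fun k' => k ⟨A, hA, k'⟩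
      exact hne (hi A a1 A' a2 (by rw [k' A a1, k' A' a2]))
    have h2 : ¬ Cst (B.lg A) := fun k => hA2 (red_cst k (hT A hA1).1)
    exact ⟨(A, L A), hL A hA1, h2, fun k =>
      h2 (hG.g3 (spat_ne hA) _ (h.rel_of hx (red_Z (hL A hA1))) k)⟩

/-- A group that is the union of two subgroups is one of them. -/
theorem union_two {V : Type} [AddCommGroup V] (S : Finset V) (hS : ∀ u ∈ S, ∀ v ∈ S, u + v ∈ S)
    (p q : V → Prop) (hp : ∀ u v, p (u + v) → p u → p v) (hq : ∀ u v, q (u + v) → q v → q u)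
    (h : ∀ u ∈ S, p u ∨ q u) : (∀ u ∈ S, p u) ∨ ∀ u ∈ S, q u := by
  by_contra k
  obtain ⟨k1, k2⟩ := not_or.1 k
  obtain ⟨u, hu⟩ := not_forall.1 k1
  obtain ⟨v, hv⟩ := not_forall.1 k2
  obtain ⟨u1, u2⟩ := Classical.not_imp.1 hu
  obtain ⟨v1, v2⟩ := Classical.not_imp.1 hv
  rcases h _ (hS v v1 u u1) with k3 | k3
  · exact u2 (hp v u k3 ((h v v1).resolve_right v2))
  · exact v2 (hq v u k3 ((h u u1).resolve_left u2))

theorem red_main (hB : B.Hyp 1) (hx : x ∈ B.fib a) {K1 K2 : ℕ} (h1 : B.GenC E1 K1 a)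
    (h2 : B.GenC E2 K2 a) (h : 16 ≤ (E0.AA (B.DD x) (n + 1)).ncard) :
    B.Mix E0 (n + 1) x ∨ B.Mix E1 n x ∨ B.Mix E2 n x := by
  have hw := hB.wf
  have hp := (mem_fib.1 hx).1
  obtain ⟨j0, -⟩ : (B.I 0).Nonempty := card_pos.1 (by
    have a1 := hB.win 0
    have a2 := hB.hH
    rw [k0] at a2
    omega)
  let V : Finset B.PP := {P | B.cls E0 x P ∈ E0.AA (B.DD x) (n + 1) ∧ B.Un P j0}
  have hV : ∀ P, P ∈ V ↔ B.cls E0 x P ∈ E0.AA (B.DD x) (n + 1) ∧ B.Un P j0 := fun P => by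
    simp only [V, mem_filter, mem_univ, true_and]
  have hadd : ∀ P P', B.cls E0 x P ∈ E0.AA (B.DD x) (n + 1) →
      B.cls E0 x P' ∈ E0.AA (B.DD x) (n + 1) → B.cls E0 x (P + P') ∈ E0.AA (B.DD x) (n + 1) :=
    fun P P' a1 a2 => by
      rw [hw.cls_add hp]
      exact Cv.add_mem_AA a1 a2
  have hVa : ∀ u ∈ V, ∀ v ∈ V, u + v ∈ V := fun u hu v hv => by
    obtain ⟨a1, a2, a3⟩ := (hV u).1 hu
    obtain ⟨b1, b2, b3⟩ := (hV v).1 hv
    exact (hV _).2 ⟨hadd u v a1 b1, by simp [a2, b2], by simp [a3, b3]⟩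
  have h4 : 4 ≤ V.card := by
    have a0 := hw.card_AA (C := E0) hp (n + 1)
    have a1 := card_le_two_ker ({P | B.cls E0 x P ∈ E0.AA (B.DD x) (n + 1)} : Finset B.PP)
      (fun u hu v hv => mem_filter.2 ⟨mem_univ _, hadd u v (mem_filter.1 hu).2 (mem_filter.1 hv).2⟩)
      (fun P => P.1 (.inr j0)) fun _ _ => rfl
    have a2 := card_le_two_ker
      ({P | B.cls E0 x P ∈ E0.AA (B.DD x) (n + 1) ∧ P.1 (.inr j0) = 0} : Finset B.PP)
      (fun u hu v hv => mem_filter.2 ⟨mem_univ _, hadd u v (mem_filter.1 hu).2.1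
        (mem_filter.1 hv).2.1, by simp [(mem_filter.1 hu).2.2, (mem_filter.1 hv).2.2]⟩)
      (fun P => P.2 (.inr j0)) fun _ _ => rfl
    rw [filter_filter] at a1 a2
    have a3 : V = filter (fun P : B.PP => (B.cls E0 x P ∈ E0.AA (B.DD x) (n + 1) ∧
        P.1 (.inr j0) = 0) ∧ P.2 (.inr j0) = 0) univ := by
      ext P
      simp only [hV, Un, mem_filter, mem_univ, true_and, and_assoc]
    rw [← a3] at a2
    omega
  have hrel : ∀ P ∈ V, B.RelC E0 a P := fun P hP => hw.rel_of hx (red_Z ((hV P).1 hP).1)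
  have hinj : ∀ P ∈ V, ∀ P' ∈ V, B.lg P.1 = B.lg P'.1 → B.lg P.2 = B.lg P'.2 → P = P' :=
    fun P hP P' hP' a1 a2 => by
      have a3 := Rel.eq_zero hB (hrel _ (hVa P hP P' hP'))
        (funext fun j => patb_eq.2 (congrFun a1 j)) (funext fun j => patb_eq.2 (congrFun a2 j))
      exact Prod.ext (red_eq (congrArg Prod.fst a3)) (red_eq (congrArg Prod.snd a3))
  by_cases hm : ∃ P ∈ V, ¬ Cst (B.lg P.1) ∧ ¬ Cst (B.lg P.2)
  · obtain ⟨P, a1, a2⟩ := hm
    exact Or.inl ⟨h, P, ((hV P).1 a1).1, a2⟩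
  refine Or.inr ((union_two V hVa (fun P => B.lg P.1 = 0) (fun P => B.lg P.2 = 0)
    (fun u v a1 a2 => funext fun j => ?_) (fun u v a1 a2 => funext fun j => ?_)
    fun P hP => ?_).imp (fun k => ?_) fun k => ?_)
  · have a3 : B.lg u.1 j + B.lg v.1 j = 0 := congrFun a1 j
    rwa [a2, Pi.zero_apply, zero_add] at a3
  · have a3 : B.lg u.2 j + B.lg v.2 j = 0 := congrFun a1 j
    rwa [a2, Pi.zero_apply, add_zero] at a3
  · by_contra k
    obtain ⟨k1, k2⟩ := not_or.1 k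
    exact hm ⟨P, hP, fun k => k1 (red_cst k ((hV P).1 hP).2.1),
      fun k => k2 (red_cst k ((hV P).1 hP).2.2)⟩
  · obtain ⟨φ, hφ⟩ := exists_isog1 E0 E1 rfl (by decide) (by decide)
    have a1 : ∀ P ∈ V, P.1 = 0 := fun P hP =>
      Rel.fst_zero hB (hrel P hP) (by decide) ⟨15, by decide⟩ (k P hP)
    refine red_iso hφ hw hx h1 (by decide) (V.image Prod.snd) ?_ j0 (fun A hA => ?_)
      fun A hA A' hA' e => ?_
    · rwa [card_image_of_injOn fun P hP P' hP' e =>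
        Prod.ext ((a1 P hP).trans (a1 P' hP').symm) e]
    · obtain ⟨P, hP, rfl⟩ := mem_image.1 hA
      rw [zero_smul, one_smul, ← a1 P hP]
      exact ⟨((hV P).1 hP).2.2, ((hV P).1 hP).1⟩
    · obtain ⟨P, hP, rfl⟩ := mem_image.1 hA
      obtain ⟨P', hP', rfl⟩ := mem_image.1 hA'
      rw [hinj P hP P' hP' ((k P hP).trans (k P' hP').symm) e]
  · obtain ⟨φ, hφ⟩ := exists_isog2 E0 E2 rfl (by decide) (by decide)
    have a1 : ∀ P ∈ V, P.2 = 0 := fun P hP =>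
      Rel.snd_zero hB (hrel P hP) (by decide) ⟨20, by decide⟩ (k P hP)
    refine red_iso hφ hw hx h2 (by decide) (V.image Prod.fst) ?_ j0 (fun A hA => ?_)
      fun A hA A' hA' e => ?_
    · rwa [card_image_of_injOn fun P hP P' hP' e =>
        Prod.ext e ((a1 P hP).trans (a1 P' hP').symm)]
    · obtain ⟨P, hP, rfl⟩ := mem_image.1 hA
      rw [zero_smul, one_smul, ← a1 P hP]
      exact ⟨((hV P).1 hP).2.1, ((hV P).1 hP).1⟩
    · obtain ⟨P, hP, rfl⟩ := mem_image.1 hA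
      obtain ⟨P', hP', rfl⟩ := mem_image.1 hA'
      rw [hinj P hP P' hP' e ((k P hP).trans (k P' hP').symm)]

end Box

end Pool.Agent.Lib.MP_696deb_nt.Sm
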