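import Pool.Agent.Lib.MP_696deb_nt.Sm.Chain
import Pool.Agent.Lib.MP_696deb_nt.Sm.Red

/-! Few twists have many liftable classes. -/

set_option autoImplicit false

open scoped Classical
open Finset Function

namespace Pool.Agent.Lib.MP_696deb_nt.Sm

theorem main_one {r : ℕ} {w : Fin r → F2} (h : ¬ Box.Cst w) (s : F2) : ∃ j, w j + s = 1 := by
  by_contra k
  push Not at k
  have k' : ∀ j, w j = s := fun j => by
    exact (by decide : ∀ s t : F2, t + s ≠ 1 → t = s) s _ (k j)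
  rcases F2_cases s with rfl | rfl
  · exact h (.inl (funext k'))
  · exact h (.inr (funext k'))

theorem main_fib (B : Box) (p : (Fin B.r → ℕ) → Prop) [DecidablePred p] :
    (({x ∈ B.pts | p x} : Finset _).card : ℝ) =
      ∑ a : B.Mat, (({x ∈ B.fib a | p x} : Finset _).card : ℝ) := by
  rw [← Nat.cast_sum, card_eq_sum_card_fiberwise (f := B.mat) (t := univ) fun _ _ => mem_univ _]
  congr 2
  ext a
  congr 1
  ext x
  simp only [Box.fib, mem_filter]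
  tauto

theorem mixed_fib (C : Cv) (K n : ℕ) : ∃ c : ℕ, ∀ B : Box, B.Hyp c → ∀ a : B.Mat, B.GenC C K a →
    (({x ∈ B.fib a | B.Mix C n x} : Finset _).card : ℝ) * 2 ^ n ≤ 2 * K * (B.fib a).card := by
  obtain ⟨c, hc⟩ := chain_main C K n one_pos
  refine ⟨c, fun B hB a hG => ?_⟩
  have h := hB.wf
  rcases ({x ∈ B.fib a | B.Mix C n x} : Finset _).eq_empty_or_nonempty with h0 | ⟨x0, h0⟩
  · rw [h0]; simp; positivity
  obtain ⟨hx0, -, P0, -, h0, -⟩ := mem_filter.1 h0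
  obtain ⟨j0, -⟩ := main_one h0 0
  set S : Finset B.PP := {P ∈ B.SA C a | B.Un P j0 ∧ (∃ j, P.1 (.inr j) = 1) ∧
    ∃ j, P.2 (.inr j) = 1} with hS
  have k1 : ({x ∈ B.fib a | B.Mix C n x} : Finset _) ⊆ S.biUnion fun P => {x ∈ B.fib a |
      B.cls C x P ∈ C.AA (B.DD x) n ∧ 16 ≤ (C.AA (B.DD x) n).ncard} := fun x hx => by
    obtain ⟨hx, h16, P, hP, c1, c2⟩ := mem_filter.1 hx
    obtain ⟨n1, n2⟩ := h.norm_mem (Box.mem_fib.1 hx).1 hP j0
    refine mem_biUnion.2 ⟨_, mem_filter.2 ⟨h.mem_SA hx ?_, n2, ?_, ?_⟩, mem_filter.2 ⟨hx, n1, h16⟩⟩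
    · have := C.selb_anti _ n.zero_le n1
      rwa [Cv.AA_zero] at this
    · simpa only [Prod.fst_add, Pi.add_apply, Box.tP_fst, Box.lg] using main_one c1 _
    · simpa only [Prod.snd_add, Pi.add_apply, Box.tP_snd, Box.lg] using main_one c2 _
  have k2 : ∀ P ∈ S, (({x ∈ B.fib a | B.cls C x P ∈ C.AA (B.DD x) n ∧
      16 ≤ (C.AA (B.DD x) n).ncard} : Finset _).card : ℝ) * 2 ^ n ≤ 2 * (B.fib a).card := by
    intro P hP
    obtain ⟨p1, p2, ⟨j1, p3⟩, j2, p4⟩ := mem_filter.1 hP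
    have a1 := hc B hB a hG P p1 j0 j1 j2 p2 p3 p4
    have a2 : ({x ∈ B.fib a | B.cls C x P ∈ C.AA (B.DD x) n ∧
        16 ≤ (C.AA (B.DD x) n).ncard} : Finset _).card * 16 ^ n ≤ B.ww C a n P :=
      (card_nsmul_le_sum _ _ _ fun x hx => Cv.card_Om (C.finite_AA (h.DD_sqf (Box.mem_fib.1
        (mem_filter.1 hx).1).1).ne_zero) (mem_filter.1 hx).2.1 (mem_filter.1 hx).2.2).trans
        (sum_le_sum_of_subset (filter_subset _ _))
    have a3 := (Nat.cast_le (α := ℝ).2 a2).trans a1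
    have a4 : (1 : ℝ) ≤ 8 ^ n := one_le_pow₀ (by norm_num)
    push_cast at a3
    rw [show (16 : ℝ) ^ n = 2 ^ n * 8 ^ n by rw [← mul_pow]; norm_num, ← mul_assoc] at a3
    refine le_of_mul_le_mul_right (a3.trans ?_) (show (0 : ℝ) < 8 ^ n by positivity)
    nlinarith [(Nat.cast_nonneg (B.fib a).card : (0 : ℝ) ≤ _)]
  have k3 : (S.card : ℝ) ≤ K :=
    Nat.cast_le.2 ((card_filter_le _ _).trans (h.card_SA_le hG ⟨x0, hx0⟩))
  have k4 := Nat.cast_le (α := ℝ).2 ((card_le_card k1).trans card_biUnion_le)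
  refine (mul_le_mul_of_nonneg_right k4 (by positivity)).trans ?_
  rw [Nat.cast_sum, sum_mul]
  refine (sum_le_card_nsmul _ _ _ k2).trans ?_
  rw [nsmul_eq_mul]
  nlinarith [(Nat.cast_nonneg (B.fib a).card : (0 : ℝ) ≤ _)]

theorem nongen (C : Cv) (h1 : IsSquare C.B1) (h2 : ¬ IsSquare (-C.A2)) {ε : ℝ} (hε : 0 < ε) :
    ∃ K c : ℕ, ∀ B : Box, B.Hyp c →
      (({x ∈ B.pts | ¬ B.GenC C K (B.mat x)} : Finset _).card : ℝ) ≤ ε * B.pts.card := by
  obtain ⟨K, c, hc⟩ := gen_main C.const_ne C.const_good h1 C.const_sq h2 (half_pos hε)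
  obtain ⟨c', hc'⟩ := equi_main one_pos
  refine ⟨K, max c c', fun B hB => ?_⟩
  have k1 := hc B (hB.mono (le_max_left _ _))
  have k0 : (0 : ℝ) < Fintype.card B.Mat := Nat.cast_pos.2 Fintype.card_pos
  rw [main_fib]
  refine (sum_le_sum (g := fun a => if ¬ B.GenC C K a then 2 * ((B.pts.card : ℝ) /
    Fintype.card B.Mat) else 0) fun a _ => ?_).trans ?_
  · split_ifs with ha
    · rw [filter_false_of_mem fun x hx => by rw [(Box.mem_fib.1 hx).2]; exact not_not.2 ha]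
      simp
    · have := (abs_le.1 (hc' B (hB.mono (le_max_right _ _)) a)).2
      exact (Nat.cast_le.2 (card_filter_le _ _)).trans (by linarith)
  · rw [← sum_filter, sum_const, nsmul_eq_mul]
    refine (mul_le_mul_of_nonneg_right k1 (by positivity)).trans (le_of_eq ?_)
    field_simp

theorem mixed_main (C : Cv) (K : ℕ) {ε : ℝ} (hε : 0 < ε) : ∃ n0 : ℕ, ∀ n ≥ n0, ∃ c : ℕ,
    ∀ B : Box, B.Hyp c →
      (({x ∈ B.pts | B.GenC C K (B.mat x) ∧ B.Mix C n x} : Finset _).card : ℝ) ≤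
        ε * B.pts.card := by
  obtain ⟨n0, h0⟩ := pow_unbounded_of_one_lt (2 * K / ε) (one_lt_two (α := ℝ))
  refine ⟨n0, fun n hn => ?_⟩
  obtain ⟨c, hc⟩ := mixed_fib C K n
  refine ⟨c, fun B hB => ?_⟩
  have k1 : (2 : ℝ) * K ≤ ε * 2 ^ n := by
    have := h0.le.trans (pow_le_pow_right₀ one_le_two hn)
    rwa [div_le_iff₀' hε] at this
  have k2 := main_fib B fun _ => True
  simp only [filter_true] at k2
  rw [main_fib, k2, mul_sum]
  refine sum_le_sum fun a _ => ?_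
  by_cases ha : B.GenC C K a
  · refine le_of_mul_le_mul_right ?_ (show (0 : ℝ) < 2 ^ n by positivity)
    refine (mul_le_mul_of_nonneg_right (Nat.cast_le.2 (card_le_card fun x hx => ?_))
      (by positivity)).trans ((hc B hB a ha).trans ?_)
    · exact mem_filter.2 ⟨(mem_filter.1 hx).1, (mem_filter.1 hx).2.2⟩
    · nlinarith [(Nat.cast_nonneg (B.fib a).card : (0 : ℝ) ≤ _)]
  · rw [filter_false_of_mem fun x hx => by rw [(Box.mem_fib.1 hx).2]; exact fun k => ha k.1]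
    simp; positivity

theorem box_main {ε : ℝ} (hε : 0 < ε) : ∃ n c : ℕ, ∀ B : Box, B.Hyp c →
    (({x ∈ B.pts | 16 ≤ (E0.AA (B.DD x) n).ncard} : Finset _).card : ℝ) ≤ ε * B.pts.card := by
  have p : 0 < ε / 6 := by positivity
  have ns : ∀ m : ℤ, ¬ IsSquare (m : ZMod 7) → ¬ IsSquare m := fun m => mt fun k => k.map (Int.castRingHom _)
  obtain ⟨K0, a0, g0⟩ := nongen E0 ⟨15, by decide⟩ (ns _ (by decide)) p
  obtain ⟨K1, a1, g1⟩ := nongen E1 ⟨16, by decide⟩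
    (mt (fun k => k.map (Int.castRingHom (ZMod 13))) (by decide)) p
  obtain ⟨K2, a2, g2⟩ := nongen E2 ⟨9, by decide⟩ (ns _ (by decide)) p
  obtain ⟨n0, m0⟩ := mixed_main E0 K0 p
  obtain ⟨n1, m1⟩ := mixed_main E1 K1 p
  obtain ⟨n2, m2⟩ := mixed_main E2 K2 p
  obtain ⟨b0, m0⟩ := m0 (n0 + n1 + n2 + 1) (by omega)
  obtain ⟨b1, m1⟩ := m1 (n0 + n1 + n2) (by omega)
  obtain ⟨b2, m2⟩ := m2 (n0 + n1 + n2) (by omega)
  refine ⟨n0 + n1 + n2 + 1, a0 + a1 + a2 + b0 + b1 + b2 + 1, fun B hB => ?_⟩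
  have g0 := g0 B (hB.mono (by omega))
  have g1 := g1 B (hB.mono (by omega))
  have g2 := g2 B (hB.mono (by omega))
  have m0 := m0 B (hB.mono (by omega))
  have m1 := m1 B (hB.mono (by omega))
  have m2 := m2 B (hB.mono (by omega))
  simp only [card_filter, Nat.cast_sum] at g0 g1 g2 m0 m1 m2 ⊢
  refine le_trans ?_ ((add_le_add (add_le_add (add_le_add (add_le_add (add_le_add g0 g1) g2) m0) m1)
    m2).trans (le_of_eq (by ring)))
  simp only [← sum_add_distrib, ← Nat.cast_add]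
  refine sum_le_sum fun x hx => Nat.cast_le.2 ?_
  have := Box.red_main (n := n0 + n1 + n2) (K1 := K1) (K2 := K2) (hB.mono (by omega))
    (Box.mem_fib.2 ⟨hx, rfl⟩)
  split_ifs <;> first | omega | tauto

theorem smith_AA {ε : ℝ} (hε : 0 < ε) : ∃ n X0 : ℕ, ∀ X ≥ X0,
    (({d ∈ Icc (-(X : ℤ)) X | Squarefree d ∧ 16 ≤ (E0.AA d n).ncard} : Finset ℤ).card : ℝ) ≤
      ε * X := by
  obtain ⟨n, c, hc⟩ := box_main (ε := ε / 8) (by positivity)
  obtain ⟨X0, h0⟩ := an_main c (ε := ε / 4) (by positivity)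
  refine ⟨n, X0, fun X hX => ?_⟩
  have key : ∀ s : ℤ, s = 1 ∨ s = -1 → (({m ∈ Icc 1 X | Squarefree m ∧
      16 ≤ (E0.AA (s * m) n).ncard} : Finset ℕ).card : ℝ) ≤ ε / 2 * X := fun s hs => by
    obtain ⟨N, B, k1, k2, k3⟩ := h0 X hX s hs
    have k4 : ({m ∈ Icc 1 X | Squarefree m ∧ 16 ≤ (E0.AA (s * m) n).ncard} : Finset ℕ) ⊆
        {m ∈ Icc 1 X | Squarefree m ∧ ¬ ∃ i, ∃ x ∈ (B i).pts, (B i).DD x = s * m} ∪
        univ.biUnion fun i => ({x ∈ (B i).pts | 16 ≤ (E0.AA ((B i).DD x) n).ncard} :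
          Finset _).image fun x => ((B i).DD x).natAbs := fun m hm => by
      obtain ⟨m1, m2, m3⟩ := mem_filter.1 hm
      by_cases h : ∃ i, ∃ x ∈ (B i).pts, (B i).DD x = s * m
      · obtain ⟨i, x, hx, e⟩ := h
        refine mem_union_right _ (mem_biUnion.2 ⟨i, mem_univ _, mem_image.2
          ⟨x, mem_filter.2 ⟨hx, e ▸ m3⟩, ?_⟩⟩)
        rw [e]; rcases hs with rfl | rfl <;> simp
      · exact mem_union_left _ (mem_filter.2 ⟨m1, m2, h⟩)
    have k5 := Nat.cast_le (α := ℝ).2 ((card_le_card k4).trans ((card_union_le _ _).trans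
      (Nat.add_le_add_left (card_biUnion_le.trans (sum_le_sum fun i _ => card_image_le)) _)))
    have k6 := sum_le_sum fun i (_ : i ∈ univ) => hc (B i) (k1 i)
    have k7 : ∑ i, ((B i).pts.card : ℝ) ≤ 2 * X := by exact_mod_cast k2
    rw [← mul_sum] at k6
    push_cast at k5
    nlinarith
  have k1 : ({d ∈ Icc (-(X : ℤ)) X | Squarefree d ∧ 16 ≤ (E0.AA d n).ncard} : Finset ℤ) ⊆
      ({m ∈ Icc 1 X | Squarefree m ∧ 16 ≤ (E0.AA (1 * m) n).ncard} : Finset ℕ).image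
        (fun m : ℕ => (1 : ℤ) * m) ∪
      ({m ∈ Icc 1 X | Squarefree m ∧ 16 ≤ (E0.AA (-1 * m) n).ncard} : Finset ℕ).image
        fun m : ℕ => (-1 : ℤ) * m := fun d hd => by
    obtain ⟨d1, d2, d3⟩ := mem_filter.1 hd
    have d4 : d.natAbs ∈ Icc 1 X := by
      have := d2.ne_zero
      rw [mem_Icc] at d1 ⊢
      omega
    have d5 := Int.squarefree_natAbs.2 d2
    rcases le_total 0 d with h | h
    · have e : (1 : ℤ) * d.natAbs = d := by omega
      exact mem_union_left _ (mem_image.2 ⟨_, mem_filter.2 ⟨d4, d5, e.symm ▸ d3⟩, e⟩)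
    · have e : (-1 : ℤ) * d.natAbs = d := by omega
      exact mem_union_right _ (mem_image.2 ⟨_, mem_filter.2 ⟨d4, d5, e.symm ▸ d3⟩, e⟩)
  have k2 := Nat.cast_le (α := ℝ).2 ((card_le_card k1).trans ((card_union_le _ _).trans
    (Nat.add_le_add card_image_le card_image_le)))
  push_cast at k2
  linarith [key 1 (.inl rfl), key (-1) (.inr rfl)]

end Pool.Agent.Lib.MP_696deb_nt.Sm
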