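import Pool.Agent.Lib.MP_696deb_nt.Redei
import Pool.Agent.Lib.MP_696deb_nt.B2.B4b

/-! Quadratic characters of the absolute Galois group of the rationals, Kummer theory. -/

set_option autoImplicit false

open scoped Classical

namespace Pool.Agent.Lib.MP_696deb_nt.Sm

export Pool.Agent.Lib.MP_696deb_nt.B2 (Plc Dec Ine IsFrob Gen Fx cc jC)

abbrev Qb := Pool.Agent.Lib.MP_f8d36e_nt.Qbar

abbrev GQ := Pool.Agent.Lib.MP_f8d36e_nt.Gam

abbrev F2 := ZMod 2

/-- The sign attached to a bit. -/
def sn (b : F2) : ℤ := if b = 0 then 1 else -1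

/-- A chosen square root. -/
noncomputable def rt (w : Qb) : Qb := (IsAlgClosed.exists_pow_nat_eq w two_pos).choose

/-- The bit by which `g` moves the square root of `w`. -/
noncomputable def chB (w : Qb) (g : GQ) : F2 := if g (rt w) = rt w then 0 else 1

/-- The quadratic character of an integer. -/
noncomputable def chi (d : ℤ) (g : GQ) : F2 := chB (d : Qb) g

/-- Locally constant functions. -/
abbrev LC {β : Type} (c : GQ → β) : Prop := B2.Sm ⊤ c

theorem chi_eq_xi : chi = B2.xi := rfl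

theorem rt_int (a : ℤ) : rt a = B2.rt a := rfl

theorem F2_cases (a : F2) : a = 0 ∨ a = 1 := by revert a; decide

theorem sn_zero : sn 0 = 1 := by decide

theorem sn_one : sn 1 = -1 := by decide

theorem sn_add (a b : F2) : sn (a + b) = sn a * sn b := by revert a b; decide

theorem sn_eq (b : F2) : sn b = 1 - 2 * (b.val : ℤ) := by revert b; decide

theorem rt_mul_self (w : Qb) : rt w * rt w = w := by
  rw [← sq]; exact (IsAlgClosed.exists_pow_nat_eq w two_pos).choose_spec

theorem chB_spec {w z : Qb} {g : GQ} (hz : z * z = w) (hg : g w = w) :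
    g z = (sn (chB w g) : Qb) * z := by
  have h1 : g (rt w) = rt w ∨ g (rt w) = -rt w :=
    mul_self_eq_mul_self_iff.1 (by rw [← map_mul, rt_mul_self, hg])
  have h2 : g (rt w) = (sn (chB w g) : Qb) * rt w := by
    unfold chB
    split_ifs with h
    · simp [sn_zero, h]
    · simp [sn_one, h1.resolve_left h]
  rcases mul_self_eq_mul_self_iff.1 (hz.trans (rt_mul_self w).symm) with rfl | rfl
  · exact h2
  · rw [map_neg, h2, mul_neg]

theorem sn_cast_inj {a b : F2} (h : (sn a : Qb) = sn b) : a = b := by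
  have h1 : sn a = sn b := by exact_mod_cast h
  clear h; revert a b; decide

theorem chB_eq {w z : Qb} {g : GQ} {b : F2} (hw : w ≠ 0) (hz : z * z = w)
    (h : g z = (sn b : Qb) * z) : chB w g = b := by
  have z0 : z ≠ 0 := by rintro rfl; exact hw (by simpa using hz.symm)
  have hs : (sn b : Qb) * sn b = 1 := by
    rcases F2_cases b with rfl | rfl <;> simp [sn_zero, sn_one]
  have hg : g w = w := by
    rw [← hz, map_mul, h]; linear_combination (z * z) * hs
  exact sn_cast_inj (mul_right_cancel₀ z0 ((chB_spec hz hg).symm.trans h))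

theorem chB_mul {w w' : Qb} {g : GQ} (hw : w ≠ 0) (hw' : w' ≠ 0) (hg : g w = w)
    (hg' : g w' = w') : chB (w * w') g = chB w g + chB w' g := by
  refine chB_eq (z := rt w * rt w') (mul_ne_zero hw hw') ?_ ?_
  · rw [mul_mul_mul_comm, rt_mul_self, rt_mul_self]
  · rw [map_mul, chB_spec (rt_mul_self w) hg, chB_spec (rt_mul_self w') hg', sn_add]
    push_cast; ring

theorem chB_sq {w : Qb} {g : GQ} (hg : g w = w) : chB (w * w) g = 0 := by
  by_cases hw : w = 0
  · have : rt (w * w) = 0 := mul_self_eq_zero.1 (by rw [rt_mul_self, hw, mul_zero])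
    simp [chB, this]
  · exact chB_eq (mul_ne_zero hw hw) rfl (by simp [sn_zero, hg])

theorem chB_mul_g {w : Qb} {g h : GQ} (hw : w ≠ 0) (hg : g w = w) (hh : h w = w) :
    chB w (g * h) = chB w g + chB w h := by
  refine chB_eq hw (rt_mul_self w) ?_
  rw [AlgEquiv.mul_apply, chB_spec (rt_mul_self w) hh, map_mul, map_intCast,
    chB_spec (rt_mul_self w) hg, sn_add]
  push_cast; ring

theorem chi_spec (d : ℤ) (g : GQ) : g (rt d) = (sn (chi d g) : Qb) * rt d :=
  chB_spec (rt_mul_self _) (map_intCast g d)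

theorem chi_mul {a b : ℤ} (ha : a ≠ 0) (hb : b ≠ 0) (g : GQ) :
    chi (a * b) g = chi a g + chi b g := B2.xi_mul ha hb g

theorem chi_sq (a : ℤ) (g : GQ) : chi (a * a) g = 0 := by
  rw [chi, Int.cast_mul]; exact chB_sq (map_intCast g a)

theorem chi_one (g : GQ) : chi 1 g = 0 := by simpa using chi_sq 1 g

theorem chi_pow {a : ℤ} (ha : a ≠ 0) (k : ℕ) (g : GQ) : chi (a ^ k) g = (k : F2) * chi a g :=
  B2.b4b_xi_pow ha k g

theorem chi_pow_val {a : ℤ} (ha : a ≠ 0) (b : F2) (g : GQ) : chi (a ^ b.val) g = b * chi a g := by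
  rw [chi_pow ha, ZMod.natCast_zmod_val]

theorem chi_prod {ι : Type} (s : Finset ι) (a : ι → ℤ) (ha : ∀ i ∈ s, a i ≠ 0) (g : GQ) :
    chi (∏ i ∈ s, a i) g = ∑ i ∈ s, chi (a i) g := by
  induction s using Finset.induction_on with
  | empty => simpa using chi_one g
  | insert i s hi ih =>
    have h1 : ∀ j ∈ s, a j ≠ 0 := fun j hj => ha j (Finset.mem_insert_of_mem hj)
    rw [Finset.prod_insert hi, Finset.sum_insert hi,
      chi_mul (ha i (Finset.mem_insert_self i s)) (Finset.prod_ne_zero_iff.2 h1), ih h1]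

theorem chi_mul_g (d : ℤ) (g h : GQ) : chi d (g * h) = chi d g + chi d h := B2.xi_hom d g h

theorem chi_congr {a b : ℤ} (ha : a ≠ 0) (hb : b ≠ 0) (h : IsSquare (a * b)) (g : GQ) :
    chi a g = chi b g := by
  obtain ⟨r, hr⟩ := h
  have h1 := chi_mul ha hb g
  rw [hr, chi_sq] at h1
  exact (B2.b4b_eq h1.symm).symm

theorem lc_chi (d : ℤ) : LC (chi d) := B2.sm_xi d

theorem lc_add {β : Type} [Add β] {c c' : GQ → β} (h : LC c) (h' : LC c') : LC (c + c') :=
  h.comp₂ h' (· + ·)

theorem lc_sum {ι β : Type} [AddCommMonoid β] (s : Finset ι) {c : ι → GQ → β}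
    (h : ∀ i ∈ s, LC (c i)) : LC (∑ i ∈ s, c i) :=
  Finset.sum_induction c LC (fun _ _ => lc_add) (B2.Sm.const 0) h

/-- Kummer theory for quadratic characters. -/
theorem kummer {h : GQ → F2} (hm : ∀ g g', h (g * g') = h g + h g') (hl : LC h) :
    ∃ d : ℤ, Squarefree d ∧ h = chi d := by
  obtain ⟨a, ha⟩ := B2.kum_surj (H := ⊤) isClosed_univ (m := 1) hl
    (B2.b4b_coc fun g _ k _ => hm g k)
  obtain ⟨r, rfl⟩ := B2.fx_top ha.fx.2
  have r0 : r ≠ 0 := by rintro rfl; exact ha.fx.1 (by simp)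
  have n0 : r.num * r.den ≠ 0 := mul_ne_zero (Rat.num_ne_zero.2 r0) (by exact_mod_cast r.den_ne_zero)
  obtain ⟨a, b, hab, hs⟩ := Nat.sq_mul_squarefree (r.num * r.den).natAbs
  have hd : (r.den : Qb) ≠ 0 := by exact_mod_cast r.den_ne_zero
  have e1 : r.num * r.den = (r.num * r.den).sign * a * b ^ 2 := by
    have := Int.sign_mul_natAbs (r.num * r.den)
    rw [← hab] at this; push_cast at this; linear_combination -this
  refine ⟨(r.num * r.den).sign * a, ?_, funext fun g => B2.b4b_kum (y := b / r.den) ha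
    (fun g _ => by simp) ?_ g trivial⟩
  · rw [← Int.squarefree_natAbs, Int.natAbs_mul, Int.natAbs_sign_of_ne_zero n0]
    simpa using hs
  · have e2 := congrArg (Int.cast : ℤ → Qb) e1
    push_cast at e2 ⊢
    rw [Rat.cast_def]
    field_simp
    linear_combination e2

end Pool.Agent.Lib.MP_696deb_nt.Sm
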