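import Pool.Agent.Lib.MP_696deb_nt.Sm.EllB

/-! The local conditions at good primes and at the primes of the twist. -/

set_option autoImplicit false

open scoped Classical
open WeierstrassCurve WeierstrassCurve.Affine

namespace Pool.Agent.Lib.MP_696deb_nt.Sm

theorem ellc_two {p : ℕ} (h30 : ¬ p ∣ 30) : p ≠ 2 := by
  rintro rfl
  exact h30 (by norm_num)

theorem ellc_symm {p : ℕ} {a b : ℤ} (h : ¬ (p : ℤ) ∣ a - b) : ¬ (p : ℤ) ∣ b - a :=
  fun e => h (dvd_sub_comm.1 e)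

theorem ellc_four {p : ℕ} (hp : p.Prime) (h2 : p ≠ 2) : nrm p 4 = 1 := by
  have h1 := (nrm_int_eq_one hp (n := 2)).2 fun e =>
    h2 ((Nat.prime_dvd_prime_iff_eq hp Nat.prime_two).1 (by exact_mod_cast e))
  rw [show (4 : Qb) = ((2 : ℤ) : Qb) * ((2 : ℤ) : Qb) by norm_num, map_mul, h1, mul_one]

theorem ellc_near {p : ℕ} (hp : p.Prime) (h2 : p ≠ 2) {e e' : ℤ} (u : ¬ (p : ℤ) ∣ e - e') {x : Qb}
    (hx : Fx (Gv p) x) (h : nrm p (x - e) < 1) : ∀ g ∈ Gv p, chB (x - e') g = chi (e - e') g :=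
  chB_close hp le_rfl (fx_sub hx (fx_int _ e')) (fx_int _ _) (by
    rwa [ellc_four hp h2, (nrm_int_eq_one hp).2 u, mul_one,
      show x - e' - ((e - e' : ℤ) : Qb) = x - e by push_cast; ring])

theorem ellc_bit {p : ℕ} (hp : p.Prime) (h2 : p ≠ 2) {e1 e2 e3 : ℤ} (u12 : ¬ (p : ℤ) ∣ e1 - e2)
    (u13 : ¬ (p : ℤ) ∣ e1 - e3) {x y : Qb} (hx : Fx (Iv p) x) (hy : Fx (Iv p) y)
    (h : y ^ 2 = (x - e1) * (x - e2) * (x - e3)) (h0 : x - e1 ≠ 0) :
    ∀ g ∈ Iv p, chB (x - e1) g = 0 := by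
  intro g hg
  have f1 := fx_sub hx (fx_int _ e1)
  have v0 : nrm p (x - e1) ≠ 0 := (Valuation.ne_zero_iff _).2 h0
  have k : ∀ e : ℤ, x - e = (x - e1) + ((e1 - e : ℤ) : Qb) := fun e => by
    push_cast
    ring
  have e := congrArg (nrm p) h
  rw [map_mul, map_mul, map_pow] at e
  obtain ⟨z, hz, hv⟩ : ∃ z, Fx (Iv p) z ∧ nrm p (x - e1) = nrm p z ^ 2 := by
    rcases lt_trichotomy (nrm p (x - e1)) 1 with c | c | c
    · refine ⟨y, hy, ?_⟩
      rw [e, k e2, k e3, (nrm p).map_add_eq_of_lt_right (by rwa [(nrm_int_eq_one hp).2 u12]),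
        (nrm p).map_add_eq_of_lt_right (by rwa [(nrm_int_eq_one hp).2 u13]),
        (nrm_int_eq_one hp).2 u12, (nrm_int_eq_one hp).2 u13, mul_one, mul_one]
    · exact ⟨1, fun k _ => map_one k, by rw [c, map_one, one_pow]⟩
    · refine ⟨y / (x - e1), fx_div hy f1, ?_⟩
      rw [map_div₀, div_pow, e, k e2, k e3,
        (nrm p).map_add_eq_of_lt_left ((nrm_int_le _).trans_lt c),
        (nrm p).map_add_eq_of_lt_left ((nrm_int_le _).trans_lt c), mul_assoc, ← sq,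
        mul_div_cancel_right₀ _ (pow_ne_zero 2 v0)]
  have z0 : z ≠ 0 := by
    rintro rfl
    exact v0 (by simp [hv])
  obtain ⟨j, hj⟩ := nrm_fx hp hz z0
  rw [hj, inv_pow, ← zpow_natCast, ← zpow_mul] at hv
  rw [chB_ine hp h2 hg (f1 g hg) hv]
  push_cast
  rw [show (2 : F2) = 0 from rfl, mul_zero, zero_mul]

namespace Cv

variable (C : Cv)

theorem ellc_unit {p : ℕ} (hp : p.Prime) (h30 : ¬ p ∣ 30) :
    ¬ (p : ℤ) ∣ C.e1 - C.e2 ∧ ¬ (p : ℤ) ∣ C.e1 - C.e3 ∧ ¬ (p : ℤ) ∣ C.e2 - C.e3 :=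
  ⟨fun e => h30 (C.good p hp ((e.mul_right _).mul_right _)),
    fun e => h30 (C.good p hp ((e.mul_left _).mul_right _)),
    fun e => h30 (C.good p hp (e.mul_left _))⟩

/-- At a good prime inertia fixes the halves of a point that it fixes. -/
theorem half_fix {p : ℕ} (hp : p.Prime) (h30 : ¬ p ∣ 30) {Q : C.A}
    (h : ∀ g ∈ Iv p, C.act g (2 • Q) = 2 • Q) : ∀ g ∈ Iv p, C.act g Q = Q := by
  intro g hg
  have h2 := ellc_two h30
  obtain ⟨u12, u13, u23⟩ := C.ellc_unit hp h30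
  obtain ⟨a, b, hab⟩ := C.exists_pt2 (P := C.act g Q - Q) (by
    rw [smul_sub, ← map_nsmul, h g hg, sub_self])
  rcases hQ : 2 • Q with _ | ⟨x, y, hn⟩
  · obtain ⟨a', b', rfl⟩ := C.exists_pt2 (P := Q) hQ
    exact C.act_pt2 g a' b'
  have hf : ∀ k ∈ Iv p, k x = x ∧ k y = y := by
    intro k hk
    obtain ⟨h', e⟩ := C.act_some k hn
    have h3 := h k hk
    rw [hQ, e] at h3
    exact Point.some.inj h3
  have hx : Fx (Iv p) x := fun k hk => (hf k hk).1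
  have hy : Fx (Iv p) y := fun k hk => (hf k hk).2
  have he := (C.split.nonsingular_iff x y).1 hn
  obtain ⟨r1, r2, r3, s1, s2, s3, hd⟩ := C.dict hQ
  obtain ⟨t1, t2, t3⟩ := hd g 0 a b (by rw [sn_zero, one_smul, hab])
  rw [zero_add] at t1 t2 t3
  have k1 : x - C.e1 ≠ 0 → a = 0 := fun k =>
    (chB_eq k s1 t1).symm.trans (ellc_bit hp h2 u12 u13 hx hy he k g hg)
  have k2 : x - C.e2 ≠ 0 → b = 0 := fun k =>
    (chB_eq k s2 t2).symm.trans (ellc_bit hp h2 (ellc_symm u12) u23 hx hy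
      (by rw [he]; ring) k g hg)
  have k3 : x - C.e3 ≠ 0 → a + b = 0 := fun k =>
    (chB_eq k s3 t3).symm.trans (ellc_bit hp h2 (ellc_symm u13) (ellc_symm u23) hx hy
      (by rw [he]; ring) k g hg)
  have k4 : a = 0 ∧ b = 0 := by
    by_cases c1 : x - C.e1 = 0
    · obtain rfl := sub_eq_zero.1 c1
      have c2 := k2 (sub_ne_zero.2 C.split.h12)
      have c3 := k3 (sub_ne_zero.2 C.split.h13)
      rw [c2, add_zero] at c3
      exact ⟨c3, c2⟩
    · by_cases c2 : x - C.e2 = 0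
      · obtain rfl := sub_eq_zero.1 c2
        have c3 := k3 (sub_ne_zero.2 C.split.h23)
        rw [k1 c1, zero_add] at c3
        exact ⟨k1 c1, c3⟩
      · exact ⟨k1 c1, k2 c2⟩
  rw [k4.1, k4.2, C.pt2_zero] at hab
  exact sub_eq_zero.1 hab

/-- At a good prime a local coboundary with torsion values is unramified. -/
theorem loc_good {p : ℕ} (hp : p.Prime) {D : ℤ} (hpD : ¬ (p : ℤ) ∣ 30 * D) {n : ℕ}
    {c : GQ → C.A} (hn : ∀ g, 2 ^ n • c g = 0) (h : C.Loc p D c) : c (sig p) = 0 := by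
  have h30 : ¬ p ∣ 30 := fun e => hpD (Dvd.dvd.mul_right (by exact_mod_cast e) D)
  have h2 := ellc_two h30
  obtain ⟨Q, hQ⟩ := h
  have h1 : ∀ g ∈ Iv p, c g = C.act g Q - Q := fun g hg => by
    rw [hQ g (Iv_le hp hg), cob, tw,
      chi_ine_of_not_dvd hp h2 (fun e => hpD (Dvd.dvd.mul_left e 30)) g hg, sn_zero, one_smul]
  have h3 : ∀ (m : ℕ) (P : C.A), (∀ g ∈ Iv p, C.act g (2 ^ m • P) = 2 ^ m • P) →
      ∀ g ∈ Iv p, C.act g P = P := by
    intro m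
    induction m with
    | zero => exact fun P hP g hg => by simpa using hP g hg
    | succ m ih =>
      exact fun P hP => C.half_fix hp h30 (ih (2 • P) fun g hg => by
        rw [← mul_smul, ← pow_succ, hP g hg])
  rw [h1 _ (sig_ine hp h2), h3 n Q (fun g hg => ?_) _ (sig_ine hp h2), sub_self]
  have h4 := hn g
  rw [h1 g hg, smul_sub, ← map_nsmul] at h4
  exact sub_eq_zero.1 h4

theorem im_ram {p : ℕ} (hp : p.Prime) (h30 : ¬ p ∣ 30) {D : ℤ} (hD : padicValInt p D = 1)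
    {x y : Qb} (hx : Fx (Gv p) x) (hy : Fx (Gv p) y) (h0 : y ≠ 0)
    (h : D * y ^ 2 = (x - C.e1) * (x - C.e2) * (x - C.e3)) : ∃ a b : F2, ∀ g ∈ Gv p,
      chi D g + chB (x - C.e1) g = chi (C.dl1 D a b) g ∧
        chi D g + chB (x - C.e2) g = chi (C.dl2 D a b) g := by
  have h2 := ellc_two h30
  obtain ⟨u12, u13, u23⟩ := C.ellc_unit hp h30
  have hD0 : D ≠ 0 := by
    rintro rfl
    simp at hD
  have hD1 : (D : Qb) ≠ 0 := Int.cast_ne_zero.2 hD0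
  have hn : (x - C.e1) * (x - C.e2) * (x - C.e3) ≠ 0 := h ▸ mul_ne_zero hD1 (pow_ne_zero 2 h0)
  have n1 := left_ne_zero_of_mul (left_ne_zero_of_mul hn)
  have n2 := right_ne_zero_of_mul (left_ne_zero_of_mul hn)
  have n3 := right_ne_zero_of_mul hn
  have f1 := fx_sub hx (fx_int _ C.e1)
  have f2 := fx_sub hx (fx_int _ C.e2)
  have f3 := fx_sub hx (fx_int _ C.e3)
  have n21 : C.e2 - C.e1 ≠ 0 := sub_ne_zero.2 (sub_ne_zero.1 C.ne12).symm
  have n31 : C.e3 - C.e1 ≠ 0 := sub_ne_zero.2 (sub_ne_zero.1 C.ne13).symm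
  have n32 : C.e3 - C.e2 ≠ 0 := sub_ne_zero.2 (sub_ne_zero.1 C.ne23).symm
  have hs : ∀ g ∈ Gv p, chi D g = chB (x - C.e1) g + chB (x - C.e2) g + chB (x - C.e3) g := by
    intro g hg
    rw [← chB_mul n1 n2 (f1 g hg) (f2 g hg), ← chB_mul (mul_ne_zero n1 n2) n3
      (fx_mul f1 f2 g hg) (f3 g hg), ← h, sq, chB_mul hD1 (mul_ne_zero h0 h0) (map_intCast g D)
      (fx_mul hy hy g hg), chB_sq (hy g hg), add_zero, chi]
  have z0 : (0 : F2).val = 0 := rfl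
  have z1 : (1 : F2).val = 1 := rfl
  have z2 : ∀ s t u : F2, s + t + u + s = t + u ∧ s + t + u + t = s + u ∧ s + s + s + s = 0 := by
    decide
  rcases lt_trichotomy (nrm p (x - C.e1)) 1 with c1 | c1 | c1
  · refine ⟨0, 1, fun g hg => ?_⟩
    rw [dl1, dl2, z0, z1, pow_zero, pow_zero, pow_one, pow_one, one_mul, one_mul,
      chi_mul C.ne12 C.ne13, chi_mul hD0 C.ne12, ← ellc_near hp h2 u12 hx c1 g hg,
      ← ellc_near hp h2 u13 hx c1 g hg]
    exact ⟨hs g hg ▸ (z2 _ _ _).1, rfl⟩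
  · by_cases c2 : nrm p (x - C.e2) < 1
    · refine ⟨1, 0, fun g hg => ?_⟩
      rw [dl1, dl2, z0, z1, pow_zero, pow_zero, pow_one, pow_one, mul_one, mul_one,
        chi_mul n21 C.ne23, chi_mul hD0 n21, ← ellc_near hp h2 (ellc_symm u12) hx c2 g hg,
        ← ellc_near hp h2 u23 hx c2 g hg]
      exact ⟨rfl, hs g hg ▸ (z2 _ _ _).2.1⟩
    by_cases c3 : nrm p (x - C.e3) < 1
    · refine ⟨1, 1, fun g hg => ?_⟩
      rw [ellc_near hp h2 (ellc_symm u13) hx c3 g hg, ellc_near hp h2 (ellc_symm u23) hx c3 g hg,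
        ← chi_mul hD0 n31, ← chi_mul hD0 n32]
      exact ⟨chi_congr (mul_ne_zero hD0 n31) (C.dl1_ne hD0 1 1)
        ⟨D * (C.e1 - C.e2) * (C.e1 - C.e3), by rw [dl1, z1]; ring⟩ g,
        chi_congr (mul_ne_zero hD0 n32) (C.dl2_ne hD0 1 1)
        ⟨D * (C.e1 - C.e2) * (C.e2 - C.e3), by rw [dl2, z1]; ring⟩ g⟩
    exfalso
    have k : ∀ e : ℤ, nrm p (x - e) ≤ 1 := fun e => by
      rw [show x - e = (x - C.e1) + ((C.e1 - e : ℤ) : Qb) by push_cast; ring]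
      exact (nrm p).map_add_le c1.le (nrm_int_le _)
    obtain ⟨j, hj⟩ := nrm_fx hp (fun g hg => hy g (Iv_le hp hg)) h0
    have e := congrArg (nrm p) h
    have p1 : (1 : NNReal) < p := by exact_mod_cast hp.one_lt
    have p0 : (p : NNReal) ≠ 0 := (one_pos.trans p1).ne'
    rw [map_mul, map_mul, map_mul, map_pow, c1, le_antisymm (k _) (not_lt.1 c2),
      le_antisymm (k _) (not_lt.1 c3), nrm_int hp hD0, hD, hj, mul_one, mul_one, pow_one, inv_pow,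
      ← mul_inv, inv_eq_one, ← zpow_natCast, ← zpow_mul, mul_comm, ← zpow_add_one₀ p0,
      zpow_eq_one_iff_right₀ (one_pos.trans p1).le p1.ne'] at e
    omega
  · refine ⟨0, 0, fun g hg => ?_⟩
    have k : ∀ e : ℤ, chB (x - e) g = chB (x - C.e1) g := fun e =>
      chB_close hp le_rfl (fx_sub hx (fx_int _ e)) f1 (by
        rw [ellc_four hp h2, mul_one,
          show x - e - (x - C.e1) = ((C.e1 - e : ℤ) : Qb) by push_cast; ring]
        exact (nrm_int_le _).trans_lt c1) g hg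
    rw [dl1, dl2, z0, pow_zero, pow_zero, pow_zero, pow_zero, mul_one, chi_one, hs g hg, k C.e2,
      k C.e3]
    exact ⟨(z2 _ 0 0).2.2, (z2 _ 0 0).2.2⟩

theorem chi_dl1_sig {p : ℕ} (hp : p.Prime) (h30 : ¬ p ∣ 30) {D : ℤ} (hD : padicValInt p D = 1)
    (a b : F2) : chi (C.dl1 D a b) (sig p) = a := by
  have h2 := ellc_two h30
  obtain ⟨u12, u13, u23⟩ := C.ellc_unit hp h30
  have hD0 : D ≠ 0 := by
    rintro rfl
    simp at hD
  have n21 : C.e2 - C.e1 ≠ 0 := sub_ne_zero.2 (sub_ne_zero.1 C.ne12).symm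
  rw [dl1, chi_mul (pow_ne_zero _ (mul_ne_zero hD0 n21)) (pow_ne_zero _ (mul_ne_zero C.ne12 C.ne13)),
    chi_pow_val (mul_ne_zero hD0 n21), chi_pow_val (mul_ne_zero C.ne12 C.ne13), chi_mul hD0 n21,
    chi_mul C.ne12 C.ne13, chi_sig hp h2 hD0, hD, chi_sig_of_not_dvd hp h2 u12,
    chi_sig_of_not_dvd hp h2 u13, chi_sig_of_not_dvd hp h2 (ellc_symm u12)]
  simp

theorem chi_dl2_sig {p : ℕ} (hp : p.Prime) (h30 : ¬ p ∣ 30) {D : ℤ} (hD : padicValInt p D = 1)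
    (a b : F2) : chi (C.dl2 D a b) (sig p) = b := by
  have h2 := ellc_two h30
  obtain ⟨u12, u13, u23⟩ := C.ellc_unit hp h30
  have hD0 : D ≠ 0 := by
    rintro rfl
    simp at hD
  have n21 : C.e2 - C.e1 ≠ 0 := sub_ne_zero.2 (sub_ne_zero.1 C.ne12).symm
  rw [dl2, chi_mul (pow_ne_zero _ (mul_ne_zero n21 C.ne23)) (pow_ne_zero _ (mul_ne_zero hD0 C.ne12)),
    chi_pow_val (mul_ne_zero n21 C.ne23), chi_pow_val (mul_ne_zero hD0 C.ne12), chi_mul n21 C.ne23,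
    chi_mul hD0 C.ne12, chi_sig hp h2 hD0, hD, chi_sig_of_not_dvd hp h2 u12,
    chi_sig_of_not_dvd hp h2 u23, chi_sig_of_not_dvd hp h2 (ellc_symm u12)]
  simp

/-- At a prime of the twist the level one condition is the image of the two-torsion. -/
theorem loc_ram {p : ℕ} (hp : p.Prime) (h30 : ¬ p ∣ 30) {D : ℤ} (hD : padicValInt p D = 1)
    {c : GQ → C.A} (h2 : ∀ g, 2 • c g = 0) (h : C.Loc p D c) {a b : F2}
    (hab : c (sig p) = C.pt2 a b) : ∀ g ∈ Gv p, c g = C.kum (C.dl1 D a b) (C.dl2 D a b) g := by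
  have hD0 : D ≠ 0 := by
    rintro rfl
    simp at hD
  obtain ⟨Q, hQ⟩ := h
  obtain ⟨a', b', h3⟩ : ∃ a' b', ∀ g ∈ Gv p, c g = C.kum (C.dl1 D a' b') (C.dl2 D a' b') g := by
    rcases C.cob_im (H := Gv p) (Q := Q) hD0 fun g hg => hQ g hg ▸ h2 g with
      ⟨a', b', e⟩ | ⟨x, y, hx, hy, h0, e, k⟩
    · exact ⟨a', b', fun g hg => by rw [hQ g hg, e]⟩
    · obtain ⟨a', b', k'⟩ := C.im_ram hp h30 hD hx hy h0 e
      exact ⟨a', b', fun g hg => by rw [hQ g hg, k g hg, (k' g hg).1, (k' g hg).2, kum]⟩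
  have h4 := h3 _ (sig_mem hp (ellc_two h30))
  rw [hab, kum, C.chi_dl1_sig hp h30 hD, C.chi_dl2_sig hp h30 hD] at h4
  obtain ⟨rfl, rfl⟩ := C.pt2_inj h4
  exact h3

end Cv

end Pool.Agent.Lib.MP_696deb_nt.Sm
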