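import Mathlib

/-! Counting points of a product of finite sets with prescribed bits along edges. -/

set_option autoImplicit false

open Finset
open scoped Classical

namespace Pool.Agent.Lib.MP_696deb_nt.Sm

/-- The sign of a bit. -/
noncomputable def sg (b : ZMod 2) : ℝ := if b = 0 then 1 else -1

theorem sg_zero : sg 0 = 1 := if_pos rfl

theorem sg_one : sg 1 = -1 := if_neg one_ne_zero

theorem cnt_two (a : ZMod 2) : a = 0 ∨ a = 1 := by
  revert a
  decide

theorem sg_add (a b : ZMod 2) : sg (a + b) = sg a * sg b := by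
  have h : (1 : ZMod 2) + 1 = 0 := by decide
  rcases cnt_two a with rfl | rfl <;> rcases cnt_two b with rfl | rfl <;>
    simp [h, sg_zero, sg_one]

theorem abs_sg (a : ZMod 2) : |sg a| = 1 := by
  rcases cnt_two a with rfl | rfl <;> simp [sg_zero, sg_one]

theorem sg_sum {α : Type*} (s : Finset α) (b : α → ZMod 2) :
    sg (∑ i ∈ s, b i) = ∏ i ∈ s, sg (b i) := by
  induction s using Finset.induction_on with
  | empty => simp [sg_zero]
  | insert a s ha ih => rw [sum_insert ha, prod_insert ha, sg_add, ih]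

/-- Fourier expansion of the indicator that all bits vanish. -/
theorem ind_eq {α : Type*} (s : Finset α) (b : α → ZMod 2) :
    (if ∀ i ∈ s, b i = 0 then (1 : ℝ) else 0) =
      (1 / 2) ^ s.card * ∑ F ∈ s.powerset, sg (∑ i ∈ F, b i) := by
  simp only [sg_sum]
  rw [← prod_one_add, ← prod_const, ← prod_mul_distrib]
  split_ifs with h
  · refine (prod_eq_one fun i hi => ?_).symm
    rw [h i hi, sg_zero]
    norm_num
  · push Not at h
    obtain ⟨i, hi, h⟩ := h
    refine (prod_eq_zero hi ?_).symm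
    rw [(cnt_two _).resolve_left h, sg_one]
    norm_num

variable {V α : Type} [Fintype V]

/-- Fix the coordinates outside `P` first. -/
theorem sum_fiber (X : V → Finset α) (P : V → Prop) (o : α) (Φ : (V → α) → ℝ) :
    ∑ x ∈ Fintype.piFinset X, Φ x =
      ∑ ξ ∈ Fintype.piFinset (fun v => if P v then {o} else X v),
        ∑ y ∈ Fintype.piFinset (fun v => if P v then X v else {ξ v}), Φ y := by
  rw [← sum_fiberwise_of_maps_to (s := Fintype.piFinset X)
    (t := Fintype.piFinset fun v => if P v then {o} else X v)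
    (g := fun x v => if P v then o else x v)]
  · refine sum_congr rfl fun ξ hξ => sum_congr ?_ fun _ _ => rfl
    ext y
    simp only [mem_filter, Fintype.mem_piFinset, funext_iff] at hξ ⊢
    rw [← forall_and]
    refine forall_congr' fun v => ?_
    have h1 := hξ v
    by_cases h : P v
    · simp only [if_pos h, mem_singleton] at h1 ⊢
      simp [h1]
    · simp only [if_neg h, mem_singleton] at h1 ⊢
      exact ⟨fun h2 => h2.2, fun h2 => ⟨h2 ▸ h1, h2⟩⟩
  · intro x hx
    simp only [Fintype.mem_piFinset] at hx ⊢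
    intro v
    split_ifs
    · exact mem_singleton_self _
    · exact hx v

theorem cnt_card (X : V → Finset α) (P : V → Prop) [DecidablePred P] (ξ : V → α) :
    ((Fintype.piFinset fun v => if P v then X v else {ξ v}).card : ℝ) =
      ∏ v with P v, ((X v).card : ℝ) := by
  rw [Fintype.card_piFinset, prod_filter, Nat.cast_prod]
  refine prod_congr rfl fun v _ => ?_
  split_ifs <;> simp

/-- A function that ignores the coordinates in `P`. -/
theorem sum_indep (X : V → Finset α) (P : V → Prop) (o : α) (Φ : (V → α) → ℝ)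
    (h : ∀ x y, (∀ v, ¬ P v → x v = y v) → Φ x = Φ y) :
    ∑ x ∈ Fintype.piFinset X, Φ x = (∏ v with P v, ((X v).card : ℝ)) *
      ∑ ξ ∈ Fintype.piFinset (fun v => if P v then {o} else X v), Φ ξ := by
  rw [sum_fiber X P o, mul_sum]
  refine sum_congr rfl fun ξ _ => ?_
  rw [← cnt_card X P ξ, ← nsmul_eq_mul, ← sum_const]
  refine sum_congr rfl fun y hy => h _ _ fun v hv => ?_
  simpa [hv] using Fintype.mem_piFinset.1 hy v

/-- Points with two equal coordinates. -/
theorem card_diag (X : V → Finset α) {u v : V} (h : u ≠ v) :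
    (((Fintype.piFinset X).filter fun x => x u = x v).card : ℝ) ≤
      ∏ w ∈ univ.erase v, ((X w).card : ℝ) := by
  rcases ((Fintype.piFinset X).filter fun x => x u = x v).eq_empty_or_nonempty with h0 | ⟨o, -⟩
  · rw [h0, card_empty, Nat.cast_zero]
    positivity
  · rw [← filter_ne' univ v, ← cnt_card X (fun w => w ≠ v) o, Nat.cast_le]
    refine card_le_card_of_injOn (fun x => Function.update x v (o v)) (fun x hx => ?_) ?_
    · simp only [coe_filter, Set.mem_ofPred_eq, mem_coe, Fintype.mem_piFinset] at hx ⊢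
      intro w
      by_cases hw : w = v
      · simp [hw]
      · simpa [hw] using hx.1 w
    · intro x hx y hy hxy
      simp only [coe_filter, Set.mem_ofPred_eq] at hx hy
      have h1 : ∀ w, w ≠ v → x w = y w := fun w hw => by simpa [hw] using congrFun hxy w
      funext w
      by_cases hw : w = v
      · rw [hw, ← hx.2, ← hy.2, h1 u h]
      · exact h1 w hw

theorem cnt_pair (X : V → Finset α) {u v : V} (h : u ≠ v) (ξ : V → α) (Φ : (V → α) → ℝ) :
    ∑ y ∈ Fintype.piFinset (fun w => if w = u ∨ w = v then X w else {ξ w}), Φ y =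
      ∑ p ∈ X u, ∑ q ∈ X v, Φ (Function.update (Function.update ξ u p) v q) := by
  rw [← sum_product']
  have key : ∀ y ∈ Fintype.piFinset (fun w => if w = u ∨ w = v then X w else {ξ w}),
      Function.update (Function.update ξ u (y u)) v (y v) = y := by
    intro y hy
    funext w
    have h1 := Fintype.mem_piFinset.1 hy w
    by_cases hv : w = v
    · simp [hv]
    · by_cases hu : w = u
      · simp [hu, h]
      · simp only [hu, hv, or_self, if_false, mem_singleton] at h1
        simp [hu, hv, h1]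
  refine sum_nbij' (fun y => (y u, y v))
    (fun a => Function.update (Function.update ξ u a.1) v a.2) ?_ ?_ key ?_ ?_
  · intro y hy
    have h1 := Fintype.mem_piFinset.1 hy
    exact mem_product.2 ⟨by simpa using h1 u, by simpa using h1 v⟩
  · intro a ha
    obtain ⟨h1, h2⟩ := mem_product.1 ha
    refine Fintype.mem_piFinset.2 fun w => ?_
    by_cases hv : w = v
    · simpa [hv] using h2
    · by_cases hu : w = u
      · simpa [hu, h] using h1
      · simp [hu, hv]
  · intro a _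
    simp [h]
  · intro y hy
    rw [key y hy]

/-- A sum whose terms split as a function ignoring `u`, a function ignoring `v`, and a kernel. -/
theorem sum_bil (X : V → Finset α) {u v : V} (h : u ≠ v) (k : α → α → ℝ) (B : ℝ)
    (hB : ∀ a b : α → ℝ, (∀ p, |a p| ≤ 1) → (∀ q, |b q| ≤ 1) →
      |∑ p ∈ X u, ∑ q ∈ X v, a p * b q * k p q| * ∏ w ∈ univ \ {u, v}, ((X w).card : ℝ) ≤ B)
    (hB0 : 0 ≤ B) (f g : (V → α) → ℝ) (hf : ∀ x, |f x| ≤ 1) (hg : ∀ x, |g x| ≤ 1)
    (hf' : ∀ x q, f (Function.update x v q) = f x) (hg' : ∀ x p, g (Function.update x u p) = g x) :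
    |∑ x ∈ Fintype.piFinset X, f x * g x * k (x u) (x v)| ≤ B := by
  rcases (Fintype.piFinset X).eq_empty_or_nonempty with h0 | ⟨o, -⟩
  · rwa [h0, sum_empty, abs_zero]
  rw [sum_fiber X (fun w => w = u ∨ w = v) (o u)]
  obtain ⟨G, hG⟩ : ∃ G, G = Fintype.piFinset fun w => if w = u ∨ w = v then {o u} else X w :=
    ⟨_, rfl⟩
  have hN : (G.card : ℝ) = ∏ w ∈ univ \ {u, v}, ((X w).card : ℝ) := by
    have h1 := cnt_card X (fun w => ¬ (w = u ∨ w = v)) fun _ => o u
    rw [hG]
    convert h1 using 2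
    · congr 2
      funext w
      by_cases hw : w = u ∨ w = v <;> simp [hw]
    · ext w
      simp
  have h1 : ∀ ξ : V → α, |∑ y ∈ Fintype.piFinset (fun w => if w = u ∨ w = v then X w else {ξ w}),
      f y * g y * k (y u) (y v)| * G.card ≤ B := by
    intro ξ
    rw [cnt_pair X h, hN]
    convert hB (fun p => f (Function.update ξ u p)) (fun q => g (Function.update ξ v q))
      (fun _ => hf _) fun _ => hg _ using 5 with p _ q _
    rw [hf', Function.update_comm h, hg']
    simp [h.symm]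
  have h2 : ∀ T : (V → α) → ℝ, (∀ ξ, |T ξ| * G.card ≤ B) → |∑ ξ ∈ G, T ξ| ≤ B := by
    intro T hT
    rcases G.eq_empty_or_nonempty with h0 | h0
    · rwa [h0, sum_empty, abs_zero]
    · have h3 : (0 : ℝ) < G.card := Nat.cast_pos.2 h0.card_pos
      refine (abs_sum_le_sum_abs _ _).trans ((sum_le_card_nsmul _ _ (B / G.card)
        fun ξ _ => (le_div_iff₀ h3).2 (hT ξ)).trans_eq ?_)
      rw [nsmul_eq_mul, mul_div_cancel₀ _ h3.ne']
  have h3 := h2 _ h1
  rw [hG] at h3
  convert h3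

theorem cnt_term {E : Type} (X : V → Finset α) (s : Finset E) (src tgt : E → V)
    (bit : E → α → α → ZMod 2) (P : V → Prop) (f : (V → α) → ℝ) (B : ℝ) (hB0 : 0 ≤ B)
    (hor : ∀ e ∈ s, ∀ e' ∈ s, ¬ (src e = tgt e' ∧ tgt e = src e'))
    (hP : ∀ e ∈ s, ¬ P (src e) ∨ ¬ P (tgt e))
    (hf : ∀ x, |f x| ≤ 1) (hfP : ∀ x y, (∀ v, P v → x v = y v) → f x = f y)
    (hB : ∀ e ∈ s, ∀ F ⊆ s, e ∈ F → (∀ e' ∈ F, src e' = src e ∧ tgt e' = tgt e) →
      ∀ a b : α → ℝ, (∀ p, |a p| ≤ 1) → (∀ q, |b q| ≤ 1) →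
      |∑ p ∈ X (src e), ∑ q ∈ X (tgt e), a p * b q * sg (∑ e' ∈ F, bit e' p q)| *
        ∏ w ∈ univ \ {src e, tgt e}, ((X w).card : ℝ) ≤ B)
    {F : Finset E} (hF : F ⊆ s) {e : E} (he : e ∈ F) :
    |∑ x ∈ Fintype.piFinset X, f x * sg (∑ e' ∈ F, bit e' (x (src e')) (x (tgt e')))| ≤ B := by
  have huv : src e ≠ tgt e := fun h => hor e (hF he) e (hF he) ⟨h, h.symm⟩
  have hup : ∀ w, ¬ P w → ∀ x q, f (Function.update x w q) = f x := fun w hw x q =>
    hfP _ _ fun v hv => Function.update_of_ne (fun h : v = w => hw (h ▸ hv)) _ _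
  obtain ⟨f1, g1, h1, h2, h3, h4, h5⟩ : ∃ f1 g1 : (V → α) → ℝ, (∀ x, f x = f1 x * g1 x) ∧
      (∀ x, |f1 x| ≤ 1) ∧ (∀ x, |g1 x| ≤ 1) ∧
      (∀ x q, f1 (Function.update x (tgt e) q) = f1 x) ∧
      ∀ x p, g1 (Function.update x (src e) p) = g1 x := by
    rcases hP e (hF he) with h | h
    · exact ⟨fun _ => 1, f, fun _ => (one_mul _).symm, fun _ => abs_one.le, hf, fun _ _ => rfl,
        hup _ h⟩
    · exact ⟨f, fun _ => 1, fun _ => (mul_one _).symm, hf, fun _ => abs_one.le, hup _ h,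
        fun _ _ => rfl⟩
  obtain ⟨A, hA⟩ : ∃ A : E → Prop, ∀ e', A e' ↔ src e' = src e ∧ tgt e' = tgt e :=
    ⟨_, fun _ => Iff.rfl⟩
  obtain ⟨C, hC⟩ : ∃ C : E → Prop, ∀ e', C e' ↔ src e' ≠ tgt e ∧ tgt e' ≠ tgt e :=
    ⟨_, fun _ => Iff.rfl⟩
  have h6 := sum_bil X huv (fun p q => sg (∑ e' ∈ F.filter A, bit e' p q)) B
    (hB e (hF he) _ ((filter_subset _ _).trans hF) (mem_filter.2 ⟨he, (hA e).2 ⟨rfl, rfl⟩⟩)
      fun e' he' => (hA e').1 (mem_filter.1 he').2) hB0
    (fun x => f1 x * sg (∑ e' ∈ (F.filter fun e' => ¬ A e').filter C,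
      bit e' (x (src e')) (x (tgt e'))))
    (fun x => g1 x * sg (∑ e' ∈ (F.filter fun e' => ¬ A e').filter fun e' => ¬ C e',
      bit e' (x (src e')) (x (tgt e'))))
    (fun x => by rw [abs_mul, abs_sg, mul_one]; exact h2 x)
    (fun x => by rw [abs_mul, abs_sg, mul_one]; exact h3 x) (fun x q => ?_) fun x p => ?_
  · convert h6 using 3 with x _
    rw [← sum_filter_add_sum_filter_not F A,
      ← sum_filter_add_sum_filter_not (F.filter fun e' => ¬ A e') C, sg_add, sg_add, h1,
      sum_congr rfl (s₂ := F.filter A) (g := fun e' => bit e' (x (src e)) (x (tgt e)))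
        fun e' he' => by rw [((hA e').1 (mem_filter.1 he').2).1, ((hA e').1 (mem_filter.1 he').2).2]]
    ring
  · rw [h4]
    congr 2
    refine sum_congr rfl fun e' he' => ?_
    obtain ⟨h7, h8⟩ := (hC e').1 (mem_filter.1 he').2
    rw [Function.update_of_ne h7, Function.update_of_ne h8]
  · rw [h5]
    congr 2
    refine sum_congr rfl fun e' he' => ?_
    obtain ⟨h7, h8⟩ := mem_filter.1 he'
    obtain ⟨h7, h9⟩ := mem_filter.1 h7
    have h10 := hor e (hF he) e' (hF h7)
    rw [hA] at h9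
    rw [hC] at h8
    rw [Function.update_of_ne, Function.update_of_ne]
    · intro h
      refine h8 ⟨fun h' => h10 ⟨h.symm, h'.symm⟩, fun h' => huv (h.symm.trans h')⟩
    · intro h
      refine h8 ⟨fun h' => huv (h.symm.trans h'), fun h' => h9 ⟨h, h'⟩⟩

/-- The counting lemma. -/
theorem count {E : Type} (X : V → Finset α) (s : Finset E) (src tgt : E → V)
    (bit : E → α → α → ZMod 2) (P : V → Prop) (f : (V → α) → ℝ) (B : ℝ) (hB0 : 0 ≤ B)
    (hor : ∀ e ∈ s, ∀ e' ∈ s, ¬ (src e = tgt e' ∧ tgt e = src e'))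
    (hP : ∀ e ∈ s, ¬ P (src e) ∨ ¬ P (tgt e))
    (hf : ∀ x, |f x| ≤ 1) (hfP : ∀ x y, (∀ v, P v → x v = y v) → f x = f y)
    (hB : ∀ e ∈ s, ∀ F ⊆ s, e ∈ F → (∀ e' ∈ F, src e' = src e ∧ tgt e' = tgt e) →
      ∀ a b : α → ℝ, (∀ p, |a p| ≤ 1) → (∀ q, |b q| ≤ 1) →
      |∑ p ∈ X (src e), ∑ q ∈ X (tgt e), a p * b q * sg (∑ e' ∈ F, bit e' p q)| *
        ∏ w ∈ univ \ {src e, tgt e}, ((X w).card : ℝ) ≤ B) :
    |∑ x ∈ Fintype.piFinset X, (if ∀ e ∈ s, bit e (x (src e)) (x (tgt e)) = 0 then f x else 0) -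
      (1 / 2) ^ s.card * ∑ x ∈ Fintype.piFinset X, f x| ≤ B := by
  have h1 : ∀ x : V → α, (if ∀ e ∈ s, bit e (x (src e)) (x (tgt e)) = 0 then f x else 0) =
      (1 / 2) ^ s.card *
        ∑ F ∈ s.powerset, f x * sg (∑ e ∈ F, bit e (x (src e)) (x (tgt e))) := by
    intro x
    rw [← mul_sum, mul_left_comm, ← ind_eq]
    split_ifs <;> simp
  simp only [h1]
  rw [← mul_sum, sum_comm, ← add_sum_erase _ _ (empty_mem_powerset s)]
  simp only [sum_empty, sg_zero, mul_one]
  rw [mul_add, add_sub_cancel_left, abs_mul, abs_of_nonneg (by positivity)]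
  have h2 := (abs_sum_le_sum_abs _ _).trans (sum_le_card_nsmul (s.powerset.erase ∅)
    (fun F => |∑ x ∈ Fintype.piFinset X, f x * sg (∑ e ∈ F, bit e (x (src e)) (x (tgt e)))|) B
    fun F hF => by
      obtain ⟨h3, h4⟩ := mem_erase.1 hF
      obtain ⟨e, he⟩ := nonempty_iff_ne_empty.2 h3
      exact cnt_term X s src tgt bit P f B hB0 hor hP hf hfP hB (mem_powerset.1 h4) he)
  have h3 : ((s.powerset.erase ∅).card : ℝ) ≤ 2 ^ s.card := by
    exact_mod_cast card_erase_le.trans_eq (card_powerset s)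
  rw [nsmul_eq_mul] at h2
  refine (mul_le_mul_of_nonneg_left (h2.trans (mul_le_mul_of_nonneg_right h3 hB0))
    (by positivity)).trans_eq ?_
  rw [← mul_assoc, ← mul_pow]
  norm_num

end Pool.Agent.Lib.MP_696deb_nt.Sm
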