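import Pool.Agent.Lib.MP_696deb_nt.Sm.SampD

/-! Weighted grids: removing the remaining copies. -/

set_option autoImplicit false

open Finset
open scoped Classical

namespace Pool.Agent.Lib.MP_696deb_nt.Sm

theorem sampB_mem {V : Type} [Fintype V] {i : DecidableEq V} {X : V → Finset ℕ} {x : V → ℕ} :
    x ∈ Fintype.piFinset X ↔ ∀ v, x v ∈ X v := Fintype.mem_piFinset

/-- The counting lemma for a simple graph. -/
theorem sampB_count {V : Type} [Fintype V] (X : V → Finset ℕ) {S : Finset (V → ℕ)}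
    (hS : ∀ x, x ∈ S ↔ ∀ v, x v ∈ X v) (s : Finset (V × V)) (bit : V → V → ℕ → ℕ → ZMod 2)
    (P : V → Prop) (f g : (V → ℕ) → ℝ) {δ : ℝ} (d0 : 0 ≤ δ) (hor : ∀ e ∈ s, (e.2, e.1) ∉ s)
    (hP : ∀ e ∈ s, ¬ P e.1 ∨ ¬ P e.2) (hf : ∀ x, |f x| ≤ 1)
    (hfP : ∀ x y, (∀ v, P v → x v = y v) → f x = f y)
    (g1 : ∀ x, (∀ e ∈ s, bit e.1 e.2 (x e.1) (x e.2) = 0) → g x = f x)
    (g2 : ∀ x, ¬ (∀ e ∈ s, bit e.1 e.2 (x e.1) (x e.2) = 0) → g x = 0)
    (bil : ∀ e ∈ s, ∀ a b : ℕ → ℝ, (∀ p, |a p| ≤ 1) → (∀ q, |b q| ≤ 1) →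
      |∑ p ∈ X e.1, ∑ q ∈ X e.2, a p * b q * sg (bit e.1 e.2 p q)| ≤
        δ * (X e.1).card * (X e.2).card) :
    |∑ x ∈ S, g x - (1 / 2) ^ s.card * ∑ x ∈ S, f x| ≤ δ * S.card := by
  obtain rfl : S = Fintype.piFinset X := Finset.ext fun x => (hS x).trans Fintype.mem_piFinset.symm
  have h := count X s Prod.fst Prod.snd (fun e => bit e.1 e.2) P f
    (δ * (Fintype.piFinset X).card) (mul_nonneg d0 (Nat.cast_nonneg _))
    (fun e he e' he' h => hor e he (by rwa [h.1, h.2])) hP hf hfP fun e he F _ h1 h2 a b ha hb => by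
      have ne : e.1 ≠ e.2 := fun h => hor e he (by rwa [show (e.2, e.1) = e from Prod.ext h.symm h])
      obtain rfl : F = {e} :=
        eq_singleton_iff_unique_mem.2 ⟨h1, fun e' he' => Prod.ext (h2 e' he').1 (h2 e' he').2⟩
      simp only [sum_singleton]
      refine (mul_le_mul_of_nonneg_right (bil e he a b ha hb)
        (prod_nonneg fun _ _ => Nat.cast_nonneg _)).trans_eq ?_
      rw [Fintype.card_piFinset, Nat.cast_prod, ← prod_sdiff (subset_univ {e.1, e.2}),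
        prod_pair ne]
      ring
  rwa [sum_congr rfl (g := g) fun x _ => by
    split_ifs with hx
    exacts [(g1 x hx).symm, (g2 x hx).symm]] at h

/-- Every matrix of bits is taken equally often. -/
theorem unif {ι : Type} [Fintype ι] [LinearOrder ι] (X : ι → Finset ℕ)
    (E : ι → ι → ℕ → ℕ → ZMod 2) {δ : ℝ} (d0 : 0 ≤ δ) (sym : ∀ i j p q, E i j p q = E j i q p)
    (bil : ∀ i j, i ≠ j → ∀ a b : ℕ → ℝ, (∀ p, |a p| ≤ 1) → (∀ q, |b q| ≤ 1) →
      |∑ p ∈ X i, ∑ q ∈ X j, a p * b q * sg (E i j p q)| ≤ δ * (X i).card * (X j).card) :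
    |((XA X E).card : ℝ) - (1 / 2) ^ (univ.filter fun e : ι × ι => e.1 < e.2).card *
      (Fintype.piFinset X).card| ≤ δ * (Fintype.piFinset X).card := by
  have e : ∀ x : ι → ℕ, (∀ e ∈ univ.filter fun e : ι × ι => e.1 < e.2,
      E e.1 e.2 (x e.1) (x e.2) = 0) ↔ ∀ i j, i ≠ j → E i j (x i) (x j) = 0 := fun x =>
    ⟨fun h i j hij => (lt_or_gt_of_ne hij).elim (fun k => h (i, j) (by simpa using k))
      fun k => sym _ _ _ _ ▸ h (j, i) (by simpa using k),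
      fun h e he => h _ _ (mem_filter.1 he).2.ne⟩
  have h := sampB_count X (S := Fintype.piFinset X) (fun _ => Fintype.mem_piFinset)
    (univ.filter fun e : ι × ι => e.1 < e.2) E (fun _ => False) (fun _ => 1)
    (fun x => if ∀ i j, i ≠ j → E i j (x i) (x j) = 0 then 1 else 0) d0
    (fun e he h => (mem_filter.1 he).2.not_gt (mem_filter.1 h).2) (fun _ _ => Or.inl id)
    (fun _ => abs_one.le) (fun _ _ _ => rfl) (fun x hx => if_pos ((e x).1 hx))
    (fun x hx => if_neg (mt (e x).2 hx)) fun e he => bil _ _ (mem_filter.1 he).2.ne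
  rw [sum_boole, sum_const, nsmul_one] at h
  refine le_of_eq_of_le (congrArg (fun s : Finset (ι → ℕ) => |(s.card : ℝ) - _|) ?_) h
  exact Finset.ext fun x => by simp only [XA, mem_filter, sampB_mem]

namespace SD

variable {ι Γ κ : Type} [Fintype ι] [LinearOrder ι] [Fintype Γ] [Fintype κ] {M : ℕ} [NeZero M]
  {D : SD ι Γ κ M} {δ : ℝ}

omit [Fintype Γ] [Fintype κ] [NeZero M] in
theorem sampB_pt (D : SD ι Γ κ M) (z : ι → Fin M) : ∃ c : ℝ, ∀ Ψ : (ι → ℕ) → ℝ,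
    ∑ y ∈ D.G, Ψ (pt y z) = c * ∑ x ∈ Fintype.piFinset D.X, Ψ x := by
  refine ⟨_, fun Ψ => ((sum_congr (Finset.ext fun _ => sampB_mem.trans sampB_mem.symm) fun _ _ => rfl).trans
    (sum_indep (fun v : ι × Fin M => D.X v.1) (fun v => v.2 ≠ z v.1) 0 (fun y => Ψ (pt y z))
      fun x y h => congrArg Ψ (funext fun j => h _ fun k => k rfl))).trans (congrArg _ ?_)⟩
  refine sum_nbij' (pt · z) (fun x v => if v.2 = z v.1 then x v.1 else 0) (fun ξ h => ?_)
    (fun x h => ?_) (fun ξ h => funext fun v => ?_) (fun x _ => funext fun j => if_pos rfl)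
    fun _ _ => rfl
  · exact sampB_mem.2 fun j => by simpa [pt] using sampB_mem.1 h (j, z j)
  · refine sampB_mem.2 fun v => ?_
    by_cases k : v.2 = z v.1
    · simpa [k] using sampB_mem.1 h v.1
    · simp [k]
  · by_cases k : v.2 = z v.1
    · rw [if_pos k, pt, ← k]
    · rw [if_neg k]
      exact Eq.symm (by simpa [k] using sampB_mem.1 h v)

theorem use2 (h : D.OK δ) (z : ι → Fin M) : ∃ m ≤ (Fintype.card ι * M) ^ 2,
    ∀ F : (ι → ℕ) → ℝ, (∀ x, |F x| ≤ 1) →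
    |((Fintype.piFinset D.X).card : ℝ) * (∑ y ∈ D.G, if D.E2 z y then F (pt y z) else 0) -
      (1 / 2) ^ m * D.G.card * ∑ x ∈ XA D.X D.E, F x| ≤
      δ * D.G.card * (Fintype.piFinset D.X).card := by
  let s : Finset ((ι × Fin M) × ι × Fin M) := univ.filter fun e =>
    e.1.1 < e.2.1 ∧ D.Keep z e.1 e.2 ∧ (¬ e.1.2 = z e.1.1 ∨ ¬ e.2.2 = z e.2.1)
  refine ⟨s.card, (card_le_univ s).trans_eq (by simp [sq]), fun F hF => ?_⟩
  let Ψ : (ι → ℕ) → ℝ := fun x => if ∀ i j, i ≠ j → D.E i j (x i) (x j) = 0 then F x else 0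
  have e : ∀ y, D.E2 z y ↔ (∀ e ∈ s, D.E e.1.1 e.2.1 (y e.1) (y e.2) = 0) ∧
      ∀ i j, i ≠ j → D.E i j (pt y z i) (pt y z j) = 0 := fun y => by
    refine ⟨fun k => ⟨fun e he => k _ _ (mem_filter.1 he).2.2.1, fun i j hij =>
      k (i, z i) (j, z j) ⟨hij, ?_, ?_, ?_, ?_⟩⟩, fun k => ?_⟩
    · rintro ⟨rfl, a⟩; exact a rfl
    · rintro ⟨rfl, a⟩; exact a rfl
    · rintro ⟨-, rfl, a⟩; exact a rfl
    · rintro ⟨-, rfl, a⟩; exact a rfl
    have k2 : ∀ v v', v.1 < v'.1 → D.Keep z v v' → D.E v.1 v'.1 (y v) (y v') = 0 := by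
      rintro ⟨i, a⟩ ⟨j, b⟩ h1 h2
      by_cases h3 : ¬ a = z i ∨ ¬ b = z j
      · exact k.1 (_, _) (mem_filter.2 ⟨mem_univ _, h1, h2, h3⟩)
      · rw [not_or, not_not, not_not] at h3
        obtain ⟨rfl, rfl⟩ := h3
        exact k.2 i j h1.ne
    exact fun v v' h2 => (lt_or_gt_of_ne h2.1).elim (k2 v v' · h2) fun h1 => h.sym _ _ _ _ ▸
      k2 v' v h1 ⟨h2.1.symm, h2.2.2.1, h2.2.1, h2.2.2.2.2, h2.2.2.2.1⟩
  have h1 := sampB_count (fun v : ι × Fin M => D.X v.1) (S := D.G) (fun _ => sampB_mem) s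
    (fun v v' => D.E v.1 v'.1) (fun v => v.2 = z v.1) (fun y => Ψ (pt y z))
    (fun y => if D.E2 z y then F (pt y z) else 0) h.d0
    (fun e he k => (mem_filter.1 he).2.1.not_gt (mem_filter.1 k).2.1)
    (fun e he => (mem_filter.1 he).2.2.2)
    (fun y => by
      simp only [Ψ]
      split_ifs
      exacts [hF _, by simp])
    (fun x y k => congrArg Ψ (funext fun j => k _ rfl))
    (fun y k => if_congr ((e y).trans (and_iff_right k)) rfl rfl)
    (fun y k => if_neg fun k' => k ((e y).1 k').1)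
    fun e he => h.bil _ _ (mem_filter.1 he).2.1.ne
  obtain ⟨c, hc⟩ := sampB_pt D z
  have h2 := hc fun _ => 1
  have h3 : ∑ x ∈ XA D.X D.E, F x = ∑ x ∈ Fintype.piFinset D.X, Ψ x := by
    rw [← sum_filter]
    exact sum_congr (Finset.ext fun x => by simp only [XA, mem_filter, sampB_mem]) fun _ _ => rfl
  rw [sum_const, sum_const, nsmul_one, nsmul_one] at h2
  rw [hc, ← h3] at h1
  refine le_trans (le_of_eq ?_) (mul_le_mul_of_nonneg_right h1 (Nat.cast_nonneg _))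
  rw [← Nat.abs_cast (R := ℝ) (Fintype.piFinset D.X).card, ← abs_mul, Nat.abs_cast, h2]
  congr 1
  ring

end SD

end Pool.Agent.Lib.MP_696deb_nt.Sm
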