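import Mathlib

/-! A bilinear bound for products of Legendre symbols of linear forms. -/

set_option autoImplicit false

open Finset
open scoped Classical NumberTheorySymbols

namespace Pool.Agent.Lib.MP_696deb_nt.Sm

variable {Γ : Type} [Fintype Γ]

theorem lbil_card {m : ℕ} [NeZero m] (c : ℤ) (q : ℕ) (u : ZMod m) :
    ((Ico c (c + q * m)).filter fun x : ℤ => (x : ZMod m) = u).card = q := by
  obtain ⟨v, rfl⟩ := ZMod.intCast_surjective u
  have hm : (0 : ℤ) < m := by exact_mod_cast NeZero.pos m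
  have h1 := Int.Ico_filter_modEq_card c (c + q * m) hm v
  have h2 : (((c + q * m : ℤ) : ℚ) - v) / ((m : ℤ) : ℚ) = ((c : ℚ) - v) / ((m : ℤ) : ℚ) + q := by
    have : ((m : ℤ) : ℚ) ≠ 0 := by exact_mod_cast hm.ne'
    field_simp
    push_cast
    ring
  rw [h2, Int.ceil_add_natCast, add_sub_cancel_left, max_eq_left (Int.natCast_nonneg q)] at h1
  simp only [ZMod.intCast_eq_intCast_iff]
  exact_mod_cast h1

theorem lbil_cube {m : ℕ} [NeZero m] (c : ℤ) (q : ℕ) (ψ : (Γ → ZMod m) → ℝ) :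
    ∑ v ∈ Fintype.piFinset (fun _ : Γ => Ico c (c + q * m)), ψ (fun T => v T) =
      q ^ Fintype.card Γ * ∑ u, ψ u := by
  rw [← sum_fiberwise' _ (fun (v : Γ → ℤ) T => (v T : ZMod m)) ψ, mul_sum]
  refine sum_congr rfl fun u _ => ?_
  have h1 : {v ∈ Fintype.piFinset (fun _ : Γ => Ico c (c + q * m)) |
      (fun T => (v T : ZMod m)) = u} =
      Fintype.piFinset fun T => (Ico c (c + q * m)).filter fun x : ℤ => (x : ZMod m) = u T := by
    ext v
    simp only [mem_filter, Fintype.mem_piFinset, funext_iff, forall_and]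
  rw [sum_const, h1, Fintype.card_piFinset]
  simp [lbil_card]

theorem lbil_val {m : ℕ} [NeZero m] (x : ℤ) : x ≡ ((x : ZMod m).val : ℤ) [ZMOD m] := by
  rw [ZMod.val_intCast]
  exact (Int.mod_modEq x m).symm

/-- Sums of a periodic function of mean zero over a cube. -/
theorem box_sum {m : ℕ} (hm : 0 < m) (N : ℕ) (φ : (Γ → ℤ) → ℝ) (h1 : ∀ v, |φ v| ≤ 1)
    (hp : ∀ v v', (∀ T, v T ≡ v' T [ZMOD m]) → φ v = φ v')
    (h0 : ∑ v ∈ Fintype.piFinset (fun _ : Γ => Ico (0 : ℤ) m), φ v = 0) :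
    |∑ v ∈ Fintype.piFinset (fun _ : Γ => Icc (-(N : ℤ)) N), φ v| ≤
      Fintype.card Γ * m * (2 * N + 1 : ℝ) ^ (Fintype.card Γ - 1) := by
  have : NeZero m := ⟨hm.ne'⟩
  have k1 : ∀ (c : ℤ) (q : ℕ), ∑ v ∈ Fintype.piFinset (fun _ : Γ => Ico c (c + q * m)), φ v =
      q ^ Fintype.card Γ * ∑ u : Γ → ZMod m, φ fun T => (u T).val := fun c q => by
    rw [← lbil_cube c q fun u => φ fun T => (u T).val]
    exact sum_congr rfl fun v _ => hp _ _ fun T => lbil_val _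
  have k2 := k1 0 1
  rw [Nat.cast_one, Nat.cast_one, one_mul, zero_add, h0, one_pow, one_mul] at k2
  obtain ⟨q, s, hs, e⟩ : ∃ q s : ℕ, s < m ∧ 2 * N + 1 = q * m + s :=
    ⟨_, _, Nat.mod_lt _ hm, (Nat.div_add_mod' _ m).symm⟩
  have e' : (2 * N + 1 : ℤ) = q * m + s := by exact_mod_cast e
  have e'' : (2 * N + 1 : ℝ) = q * m + s := by exact_mod_cast e
  have k3 := k1 (-N) q
  rw [← k2, mul_zero] at k3
  have k4 : Fintype.piFinset (fun _ : Γ => Ico (-(N : ℤ)) (-N + q * m)) ⊆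
      Fintype.piFinset fun _ : Γ => Icc (-(N : ℤ)) N :=
    Fintype.piFinset_subset _ _ fun _ x hx => by
      rw [mem_Ico] at hx
      rw [mem_Icc]
      omega
  have k5 := card_sdiff_add_card_eq_card k4
  rw [Fintype.card_piFinset, Fintype.card_piFinset, prod_const, prod_const, card_univ,
    Int.card_Ico, Int.card_Icc, show (-(N : ℤ) + q * m - -N) = (q * m : ℕ) by push_cast; ring,
    show (N : ℤ) + 1 - -N = (2 * N + 1 : ℕ) by push_cast; ring, Int.toNat_natCast,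
    Int.toNat_natCast] at k5
  rw [← sum_sdiff k4, k3, add_zero]
  refine ((abs_sum_le_sum_abs _ _).trans (sum_le_card_nsmul _ _ 1 fun v _ => h1 v)).trans ?_
  have k6 := congrArg (Nat.cast : ℕ → ℝ) k5
  push_cast at k6
  have k7 := abs_pow_sub_pow_le (2 * N + 1 : ℝ) (q * m) (Fintype.card Γ)
  have k8 : (0 : ℝ) ≤ s := Nat.cast_nonneg s
  have k9 : (s : ℝ) ≤ m := by exact_mod_cast hs.le
  rw [abs_of_nonneg (a := (2 * N + 1 : ℝ)) (by positivity),
    abs_of_nonneg (a := (q * m : ℝ)) (by positivity), max_eq_left (by linarith),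
    show (2 * N + 1 : ℝ) - q * m = s by linarith, abs_of_nonneg k8] at k7
  rw [nsmul_one, eq_sub_of_add_eq k6]
  refine ((le_abs_self _).trans k7).trans ?_
  rw [mul_comm (s : ℝ)]
  gcongr

/-- A product of Legendre symbols of linear forms. -/
noncomputable def th (A : Γ → Γ → ℤ) (F : Finset Γ) (r : ℕ) (v : Γ → ℤ) : ℝ :=
  ∏ γ ∈ F, (J(∑ T, A γ T * v T | r) : ℝ)

/-- The matrix is invertible modulo `r`. -/
def Inv (A : Γ → Γ → ℤ) (r : ℕ) : Prop :=
  ∀ v : Γ → ZMod r, (∀ γ, ∑ T, (A γ T : ZMod r) * v T = 0) → v = 0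

theorem abs_th_le (A : Γ → Γ → ℤ) (F : Finset Γ) (r : ℕ) (v : Γ → ℤ) : |th A F r v| ≤ 1 := by
  rw [th, abs_prod]
  refine prod_le_one (fun _ _ => abs_nonneg _) fun γ _ => ?_
  rcases jacobiSym.trichotomy (∑ T, A γ T * v T) r with h | h | h <;> rw [h] <;> simp

theorem th_congr (A : Γ → Γ → ℤ) (F : Finset Γ) (r : ℕ) {v v' : Γ → ℤ}
    (h : ∀ T, v T ≡ v' T [ZMOD r]) : th A F r v = th A F r v' := by
  refine prod_congr rfl fun γ _ => congrArg _ (jacobiSym.mod_left' ?_)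
  refine (ZMod.intCast_eq_intCast_iff _ _ r).1 ?_
  push_cast
  exact sum_congr rfl fun T _ => by rw [(ZMod.intCast_eq_intCast_iff _ _ r).2 (h T)]

theorem lbil_zero {A : Γ → Γ → ℤ} {F : Finset Γ} (hF : F.Nonempty) {r : ℕ} [Fact r.Prime]
    (h2 : r ≠ 2) (hA : Inv A r) : ∑ u : Γ → ZMod r, th A F r (fun T => (u T).val) = 0 := by
  let L : (Γ → ZMod r) → Γ → ZMod r := fun u γ => ∑ T, (A γ T : ZMod r) * u T
  have h1 : Function.Injective L := fun u u' e => sub_eq_zero.1 <| hA _ fun γ => by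
    simp only [Pi.sub_apply, mul_sub, sum_sub_distrib]
    exact sub_eq_zero.2 (congrFun e γ)
  let f : Γ → ZMod r → ℝ := fun γ x => if γ ∈ F then (quadraticChar (ZMod r) x : ℝ) else 1
  have h3 : ∀ u : Γ → ZMod r, th A F r (fun T => (u T).val) = ∏ γ, f γ (L u γ) := fun u => by
    rw [th, prod_ite_mem_eq]
    refine prod_congr rfl fun γ _ => ?_
    rw [← jacobiSym.legendreSym.to_jacobiSym, legendreSym]
    simp [L]
  obtain ⟨γ, hγ⟩ := hF
  rw [sum_congr rfl fun u _ => h3 u,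
    (Finite.injective_iff_bijective.1 h1).sum_comp fun w => ∏ γ, f γ (w γ),
    ← Fintype.piFinset_univ, ← prod_univ_sum]
  refine prod_eq_zero (mem_univ γ) ?_
  simp only [f, if_pos hγ]
  exact_mod_cast quadraticChar_sum_zero (F := ZMod r) (by rwa [ZMod.ringChar_zmod_n])

theorem th_mean {A A' : Γ → Γ → ℤ} {F : Finset Γ} (hF : F.Nonempty) {r r' : ℕ} (hr : r.Prime)
    (h2 : r ≠ 2) (hr' : r'.Prime) (hne : r ≠ r') (hA : Inv A r) :
    ∑ v ∈ Fintype.piFinset (fun _ : Γ => Ico (0 : ℤ) (r * r' : ℕ)), th A F r v * th A' F r' v = 0 := by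
  have : Fact r.Prime := ⟨hr⟩
  have : Fact r'.Prime := ⟨hr'⟩
  let e := ZMod.chineseRemainder ((Nat.coprime_primes hr hr').2 hne)
  let f : (Γ → ZMod r) → ℝ := fun u => th A F r fun T => (u T).val
  let g : (Γ → ZMod r') → ℝ := fun u => th A' F r' fun T => (u T).val
  let E : (Γ → ZMod (r * r')) ≃ (Γ → ZMod r) × (Γ → ZMod r') :=
    (Equiv.piCongrRight fun _ => e.toEquiv).trans (Equiv.arrowProdEquivProdArrow _ _ _)
  have h1 := lbil_cube (m := r * r') 0 1 fun u => f (E u).1 * g (E u).2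
  rw [E.sum_comp fun w => f w.1 * g w.2, Fintype.sum_prod_type, ← Fintype.sum_mul_sum,
    lbil_zero hF h2 hA, zero_mul, mul_zero, Nat.cast_one, one_mul, zero_add] at h1
  rw [← h1]
  refine sum_congr rfl fun v _ => ?_
  have h3 : E (fun T => v T) = (fun T => (v T : ZMod r), fun T => (v T : ZMod r')) :=
    Prod.ext (funext fun T => (congrArg Prod.fst (map_intCast e (v T))).trans (Prod.fst_intCast _))
      (funext fun T => (congrArg Prod.snd (map_intCast e (v T))).trans (Prod.snd_intCast _))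
  rw [h3, th_congr A F r fun T => lbil_val (v T), th_congr A' F r' fun T => lbil_val (v T)]

theorem lbil (P R : Finset ℕ) (n : ℕ → Γ → ℤ) (N Rm : ℕ) (hn : ∀ p ∈ P, ∀ T, |n p T| ≤ N)
    (hinj : Set.InjOn n P) (A : ℕ → Γ → Γ → ℤ)
    (hR : ∀ r ∈ R, r.Prime ∧ r ≠ 2 ∧ r ≤ Rm ∧ Inv (A r) r) {F : Finset Γ} (hF : F.Nonempty)
    (a b : ℕ → ℝ) (ha : ∀ p, |a p| ≤ 1) (hb : ∀ r, |b r| ≤ 1) :
    (∑ p ∈ P, ∑ r ∈ R, a p * b r * th (A r) F r (n p)) ^ 2 ≤
      P.card * ((2 * N + 1 : ℝ) ^ Fintype.card Γ * R.card +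
        (R.card : ℝ) ^ 2 * (Fintype.card Γ * (Rm : ℝ) ^ 2 * (2 * N + 1 : ℝ) ^ (Fintype.card Γ - 1))) := by
  let C := Fintype.piFinset fun _ : Γ => Icc (-(N : ℤ)) N
  let G : (Γ → ℤ) → ℝ := fun v => ∑ r ∈ R, b r * th (A r) F r v
  have h1 : ∑ p ∈ P, ∑ r ∈ R, a p * b r * th (A r) F r (n p) = ∑ p ∈ P, a p * G (n p) :=
    sum_congr rfl fun p _ => by simp only [G, mul_sum, mul_assoc]
  have h2 : ∑ p ∈ P, a p ^ 2 ≤ P.card := by
    simpa using sum_le_card_nsmul P (fun p => a p ^ 2) 1 fun p _ =>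
      (sq_le_one_iff_abs_le_one _).2 (ha p)
  have h3 : ∑ p ∈ P, G (n p) ^ 2 ≤ ∑ v ∈ C, G v ^ 2 := by
    rw [← sum_image (f := fun v => G v ^ 2) hinj]
    refine sum_le_sum_of_subset_of_nonneg (fun v hv => ?_) fun _ _ _ => sq_nonneg _
    obtain ⟨p, hp, rfl⟩ := mem_image.1 hv
    exact Fintype.mem_piFinset.2 fun T => mem_Icc.2 (abs_le.1 (hn p hp T))
  have h4 : (C.card : ℝ) = (2 * N + 1 : ℝ) ^ Fintype.card Γ := by
    rw [Fintype.card_piFinset, prod_const, card_univ, Int.card_Icc,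
      show (N : ℤ) + 1 - -N = (2 * N + 1 : ℕ) by push_cast; ring, Int.toNat_natCast]
    push_cast
    rfl
  have h5 : ∀ r r' v, |th (A r) F r v * th (A r') F r' v| ≤ 1 := fun r r' v => by
    rw [abs_mul]
    exact mul_le_one₀ (abs_th_le _ _ _ _) (abs_nonneg _) (abs_th_le _ _ _ _)
  generalize hB : Fintype.card Γ * (Rm : ℝ) ^ 2 * (2 * N + 1 : ℝ) ^ (Fintype.card Γ - 1) = B
  have h0 : 0 ≤ B := by rw [← hB]; positivity
  have h6 : ∀ r ∈ R, ∀ r' ∈ R, |∑ v ∈ C, th (A r) F r v * th (A r') F r' v| ≤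
      (if r = r' then (C.card : ℝ) else 0) + B := by
    intro r hr r' hr'
    obtain ⟨a1, a2, a3, a4⟩ := hR r hr
    obtain ⟨b1, -, b3, -⟩ := hR r' hr'
    split_ifs with e
    · refine ((abs_sum_le_sum_abs _ _).trans (sum_le_card_nsmul _ _ 1 fun v _ => h5 _ _ v)).trans ?_
      rw [nsmul_one]
      exact le_add_of_nonneg_right h0
    · refine (box_sum (mul_pos a1.pos b1.pos) N _ (h5 r r') (fun v v' h => ?_)
        (th_mean hF a1 a2 b1 e a4)).trans ?_
      · push_cast at h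
        rw [th_congr _ F r fun T => (h T).of_mul_right _,
          th_congr _ F r' fun T => (h T).of_mul_left _]
      · rw [zero_add, ← hB, sq]
        push_cast
        gcongr
  have h7 : ∑ v ∈ C, G v ^ 2 ≤ ∑ r ∈ R, ∑ r' ∈ R, ((if r = r' then (C.card : ℝ) else 0) + B) := by
    simp only [G, sq, sum_mul_sum]
    rw [sum_comm]
    refine sum_le_sum fun r hr => ?_
    rw [sum_comm]
    refine sum_le_sum fun r' hr' => le_trans ?_ (h6 r hr r' hr')
    simp only [mul_mul_mul_comm (b r), ← mul_sum]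
    refine (le_abs_self _).trans ?_
    rw [abs_mul, abs_mul]
    exact mul_le_of_le_one_left (abs_nonneg _) (mul_le_one₀ (hb r) (abs_nonneg _) (hb r'))
  have h8 : ∑ r ∈ R, ∑ r' ∈ R, ((if r = r' then (C.card : ℝ) else 0) + B) =
      C.card * R.card + R.card ^ 2 * B := by
    rw [sum_congr rfl fun r hr => by rw [sum_add_distrib, sum_ite_eq, if_pos hr, sum_const],
      sum_const, nsmul_eq_mul, nsmul_eq_mul]
    ring
  rw [h1, ← h4, ← h8]
  exact (sum_mul_sq_le_sq_mul_sq _ _ _).trans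
    (mul_le_mul h2 (h3.trans h7) (sum_nonneg fun _ _ => sq_nonneg _) (Nat.cast_nonneg _))

end Pool.Agent.Lib.MP_696deb_nt.Sm
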