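import Pool.Agent.Lib.MP_696deb_nt.Sm.ThueA
import Pool.Agent.Lib.MP_696deb_nt.B2.B4b

/-! Local behaviour of the cochain of square roots. -/

set_option autoImplicit false

open Finset
open scoped Classical NumberTheorySymbols NNReal

namespace Pool.Agent.Lib.MP_696deb_nt.Sm
open B2

variable {K : Type} [Fintype K] {d : K → ℕ} {n : (K → ZMod 2) → ℤ} {w : Plc}

theorem thb_two (hw : w.p ≠ 2) : ¬ (w.p : ℤ) ∣ 2 := fun h =>
  hw ((Nat.prime_dvd_prime_iff_eq w.prime Nat.prime_two).1 (by exact_mod_cast h))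

theorem thb_ndvd {a : ℤ} (h : J(a | w.p) = 1) : ¬ (w.p : ℤ) ∣ a := fun k => by
  rw [jacobiSym.mod_left, Int.emod_eq_zero_of_dvd k, jacobiSym.zero_left w.prime.one_lt] at h
  exact zero_ne_one h

theorem thb_ndvd2 (hw : w.p ≠ 2) {a : ℤ} (h : ¬ (w.p : ℤ) ∣ a) : ¬ (w.p : ℤ) ∣ 2 * a := fun k =>
  ((Nat.prime_iff_prime_int.1 w.prime).dvd_or_dvd k).elim (thb_two hw) h

theorem thb_prod {ι : Type} (s : Finset ι) {x y : ι → Qbar} (hy : ∀ i, w.V (y i) ≤ 1)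
    (h : ∀ i, w.V (x i - y i) < 1) :
    w.V (∏ i ∈ s, y i) ≤ 1 ∧ w.V (∏ i ∈ s, x i - ∏ i ∈ s, y i) < 1 := by
  induction s using Finset.induction_on with
  | empty => simp
  | insert a s ha ih =>
    rw [prod_insert ha, prod_insert ha]
    refine ⟨b2a_mul_le w (hy a) ih.1, ?_⟩
    have hx : w.V (x a) ≤ 1 := by
      rw [← sub_add_cancel (x a) (y a)]
      exact w.V.map_add_le (h a).le (hy a)
    rw [show x a * ∏ i ∈ s, x i - y a * ∏ i ∈ s, y i =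
      x a * (∏ i ∈ s, x i - ∏ i ∈ s, y i) + (∏ i ∈ s, y i) * (x a - y a) by ring]
    exact w.V.map_add_lt (b2a_mul_lt w hx ih.2) (b2a_mul_lt w ih.1 (h a))

theorem thb_le (w : Plc) (γ : K → ZMod 2) : w.V (al d n γ) ≤ 1 :=
  w.V_le_one_of_isIntegral (isIntegral_al γ)

theorem thb_prod_le (w : Plc) (s : Finset (K → ZMod 2)) : w.V (∏ γ ∈ s, al d n γ) ≤ 1 := by
  rw [map_prod]
  exact prod_le_one' fun γ _ => thb_le w γ

theorem thb_one (w : Plc) (γ : K → ZMod 2) : w.V (∏ γ, al d n γ) ≤ w.V (al d n γ) := by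
  rw [← mul_prod_erase univ _ (mem_univ γ), map_mul]
  exact mul_le_of_le_one_right' (thb_prod_le w _)

theorem thb_pair (w : Plc) {γ γ' : K → ZMod 2} (h : γ' ≠ γ) :
    w.V (∏ γ, al d n γ) ≤ w.V (al d n γ) * w.V (al d n γ') := by
  rw [← mul_prod_erase univ _ (mem_univ γ), ← mul_prod_erase _ _ (mem_erase.2 ⟨h, mem_univ γ'⟩),
    map_mul, map_mul, ← mul_assoc]
  exact mul_le_of_le_one_right' (thb_prod_le w _)

theorem thb_sqrt {z : Qbar} (h : w.V (z ^ 2) = 1) : w.V z = 1 := by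
  rw [map_pow] at h
  exact (pow_eq_one_iff_of_nonneg zero_le two_ne_zero).1 h

theorem unit_fix (hw : w.p ≠ 2) {σ : Gam} (hσ : σ ∈ Ine w) {z : Qbar} (hz : w.V z = 1)
    (h : σ (z ^ 2) = z ^ 2) : σ z = z := by
  rw [map_pow, sq_eq_sq_iff_eq_or_eq_neg] at h
  refine h.resolve_right fun h1 => ?_
  have h2 := hσ.2 z hz.le
  rw [h1, show -z - z = ((-2 : ℤ) : Qbar) * z by push_cast; ring, map_mul, hz, mul_one,
    b2c_lt, dvd_neg] at h2
  exact thb_two hw h2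

omit [Fintype K] in
theorem bar_dec (hw : w.p ≠ 2) (hd : ∀ i, J(d i | w.p) = 1) {g : Gam} (hg : g ∈ Dec w) :
    bar d g = 0 :=   funext fun i => xi_eq_zero.2 (chi_dec (thb_ndvd2 hw (thb_ndvd (hd i))) (hd i) hg)

omit [Fintype K] in
theorem exists_red (_hw : w.p ≠ 2) (hd : ∀ i, J(d i | w.p) = 1) :
    ∃ ρ : K → ℤ, ∀ i, w.V (rt (d i) - ρ i) < 1 ∧ ¬ (w.p : ℤ) ∣ ρ i := by
  have : Fact w.p.Prime := ⟨w.prime⟩
  refine Classical.skolem (p := fun i (ρ : ℤ) => w.V (rt (d i) - ρ) < 1 ∧ ¬ (w.p : ℤ) ∣ ρ) |>.1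
    fun i => ?_
  obtain ⟨r, hr⟩ := ZMod.isSquare_of_jacobiSym_eq_one (hd i)
  obtain ⟨ρ, rfl⟩ := ZMod.intCast_surjective r
  have h1 : (w.p : ℤ) ∣ d i - ρ * ρ := by
    rw [← ZMod.intCast_zmod_eq_zero_iff_dvd, Int.cast_sub, hr, Int.cast_mul, sub_self]
  have h2 : ¬ (w.p : ℤ) ∣ ρ := fun k =>
    thb_ndvd (hd i) (by simpa using dvd_add h1 (k.mul_left ρ))
  have h3 : w.V (rt (d i) - ρ) * w.V (rt (d i) - (-ρ : ℤ)) < 1 := by
    rw [← map_mul, ← b2c_lt (w := w)] at *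
    convert h1 using 2
    have := rt_sq (d i)
    push_cast at this ⊢
    linear_combination this
  by_cases h4 : w.V (rt (d i) - ρ) < 1
  · exact ⟨ρ, h4, h2⟩
  · refine ⟨-ρ, lt_of_not_ge fun h5 => ?_, by rwa [dvd_neg]⟩
    exact h3.not_ge (one_le_mul (not_lt.1 h4) h5)

theorem red_al {ρ : K → ℤ} (h : ∀ i, w.V (rt (d i) - ρ i) < 1) (γ : K → ZMod 2) :
    w.V (al d n γ - (∑ T, mat ρ γ T * n T : ℤ)) < 1 := by
  rw [al, Int.cast_sum, ← sum_sub_distrib]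
  refine w.V.map_sum_lt one_ne_zero fun T _ => ?_
  have h1 := (thb_prod (w := w) univ (x := fun i => rt (d i) ^ (T i).val)
    (y := fun i => (ρ i : Qbar) ^ (T i).val) (fun i => b2a_pow_le w (w.V_int_le _) _) fun i =>
      b2a_pow_sub w (by
        rw [← sub_add_cancel (rt (d i)) (ρ i)]
        exact w.V.map_add_le (h i).le (w.V_int_le _)) (w.V_int_le _) (h i) _).2
  convert b2a_mul_lt w (w.V_int_le (sz (∑ i, γ i * T i) * n T)) h1 using 2
  rw [mat, sT]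
  push_cast
  ring

theorem V_al {N : ℤ} (h : ∏ γ, al d n γ = N) (hN : ¬ (w.p : ℤ) ∣ N) (γ : K → ZMod 2) :
    w.V (al d n γ) = 1 := by
  refine (thb_le w γ).antisymm ?_
  rw [← w.V_int_eq_one.2 hN, ← h]
  exact thb_one w γ

theorem thb_fix (hw : w.p ≠ 2) {σ : Gam} (hσ : σ ∈ Ine w) (hb : bar d σ = 0) {γ : K → ZMod 2}
    (h : w.V (al d n γ) = 1) : fn d n σ γ = 0 := by
  rw [fn, hb, sub_zero, if_pos]
  exact unit_fix hw hσ (thb_sqrt (by rwa [sqr_sq])) (by rw [sqr_sq, smul_al, hb, add_zero])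

theorem fn_ine (hw : w.p ≠ 2) {σ : Gam} (hσ : σ ∈ Ine w) (hd : ∀ i, ¬ w.p ∣ d i) {N : ℤ}
    (h : ∏ γ, al d n γ = N) (hN : ¬ (w.p : ℤ) ∣ N) : fn d n σ = 0 := by
  have hb : bar d σ = 0 := funext fun i =>
    xi_eq_zero.2 (chi_ine (thb_ndvd2 hw (by exact_mod_cast hd i)) hσ)
  exact funext fun γ => thb_fix hw hσ hb (V_al h hN γ)

theorem fn_gen (hw : w.p ≠ 2) {τ : Gam} (hτ : Gen w τ) (hd : ∀ i, J(d i | w.p) = 1) {c : ℤ}
    (h : ∏ γ, al d n γ = (c * w.p : ℤ)) (hc : ¬ (w.p : ℤ) ∣ c) (h0 : w.V (al d n 0) < 1)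
    (γ : K → ZMod 2) : fn d n τ γ = if γ = 0 then 1 else 0 := by
  have hb : ∀ σ ∈ Ine w, bar d σ = 0 := fun σ hσ => bar_dec hw hd (Ine_le w hσ)
  have hp : (0 : ℝ≥0) < (w.p : ℝ≥0)⁻¹ := inv_pos.2 (one_pos.trans (b2a_one_lt w))
  have hV : w.V (∏ γ, al d n γ) = (w.p : ℝ≥0)⁻¹ := by
    rw [h, Int.cast_mul, map_mul, w.V_int_eq_one.2 hc, one_mul, Int.cast_natCast, w.hV]
  have h1 : (w.p : ℝ≥0)⁻¹ ≤ w.V (al d n 0) := hV ▸ thb_one w 0
  have a0 : al d n 0 ≠ 0 := fun k => by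
    rw [k, map_zero] at h1
    exact hp.not_ge h1
  have h2 : w.V (al d n 0) = (w.p : ℝ≥0)⁻¹ := by
    refine le_antisymm ?_ h1
    obtain ⟨k, hk⟩ := V_of_fx_ine (w := w) (x := al d n 0)
      (fun σ hσ => by rw [smul_al, hb σ hσ, add_zero]) a0
    rw [hk, ← zpow_neg] at h0 ⊢
    rw [← zpow_neg_one]
    have := (zpow_lt_one_iff_right₀ (b2a_one_lt w)).1 h0
    exact zpow_le_zpow_right₀ (b2a_one_lt w).le (by omega)
  split_ifs with hγ
  · subst hγ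
    have r0 : rt w.p ≠ 0 := b1b_rt_ne (by exact_mod_cast w.prime.ne_zero)
    have e : (sqr (al d n 0) / rt w.p) ^ 2 = al d n 0 / w.p := by
      rw [div_pow, sqr_sq, rt_sq, Int.cast_natCast]
    have h3 := unit_fix hw hτ.1 (z := sqr (al d n 0) / rt w.p)
      (thb_sqrt (by rw [e, map_div₀, h2, w.hV, div_self hp.ne']))
      (by rw [e, map_div₀, smul_al, hb τ hτ.1, add_zero, map_natCast])
    rw [map_div₀, b2c_neg (by rw [hτ.2]; decide)] at h3
    rw [fn, hb τ hτ.1, sub_zero, if_neg]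
    intro h4
    rw [h4, div_neg, neg_eq_self, div_eq_zero_iff] at h3
    exact a0 (by rw [← sqr_sq (al d n 0), h3.resolve_right r0, zero_pow two_ne_zero])
  · refine thb_fix hw hτ.1 (hb τ hτ.1) ((thb_le w γ).antisymm ?_)
    have h3 := thb_pair (d := d) (n := n) w hγ
    rw [hV, h2] at h3
    exact (le_mul_iff_one_le_right hp).1 h3

theorem thb_jac {ι : Type} (s : Finset ι) {f : ι → ZMod 2} {M : ι → ℤ} {p : ℕ}
    (h : ∀ i, sz (f i) = J(M i | p)) : sz (∑ i ∈ s, f i) = J(∏ i ∈ s, M i | p) := by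
  induction s using Finset.induction_on with
  | empty => simp [sz]
  | insert a s ha ih => rw [sum_insert ha, prod_insert ha, sz_add, jacobiSym.mul_left, ih, h]

theorem fn_frob (hw : w.p ≠ 2) {φ : Gam} (hφ : IsFrob w w.p φ) (hd : ∀ i, J(d i | w.p) = 1)
    {ρ : K → ℤ} (hρ : ∀ i, w.V (rt (d i) - ρ i) < 1) {N : ℤ} (h : ∏ γ, al d n γ = N)
    (hN : ¬ (w.p : ℤ) ∣ N) :
    (∀ γ, sz (fn d n φ γ) = J(∑ T, mat ρ γ T * n T | w.p)) ∧ sz (∑ γ, fn d n φ γ) = J(N | w.p) := by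
  have : Fact w.p.Prime := ⟨w.prime⟩
  have hb : bar d φ = 0 := bar_dec hw hd hφ.1
  have key : ∀ γ, sz (fn d n φ γ) = J(∑ T, mat ρ γ T * n T | w.p) := fun γ => by
    have h1 := red_al (n := n) hρ γ
    have h2 := V_al h hN γ
    generalize (∑ T, mat ρ γ T * n T : ℤ) = m at h1 ⊢
    have hz : w.V (sqr (al d n γ)) = 1 := thb_sqrt (by rwa [sqr_sq])
    have h3 := hφ.2 _ hz.le
    have h4 := fn_spec (d := d) (n := n) φ γ
    rw [hb, sub_zero] at h4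
    have h5 : w.p = 2 * (w.p / 2) + 1 := by
      have := w.prime.eq_two_or_odd
      omega
    have h6 : sqr (al d n γ) ^ w.p = sqr (al d n γ) * al d n γ ^ (w.p / 2) := by
      conv_lhs => rw [h5, pow_succ', pow_mul, sqr_sq]
    rw [h4, h6, mul_comm, ← mul_sub, map_mul, hz, one_mul] at h3
    have h7 := b2a_pow_sub w h2.le (w.V_int_le m) h1 (w.p / 2)
    have h8 : w.V (((m ^ (w.p / 2) - J(m | w.p) : ℤ)) : Qbar) < 1 := by
      rw [b2c_lt, ← ZMod.intCast_zmod_eq_zero_iff_dvd, ← jacobiSym.legendreSym.to_jacobiSym,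
        Int.cast_sub, legendreSym.eq_pow, Int.cast_pow, sub_self]
    have h9 : (w.p : ℤ) ∣ sz (fn d n φ γ) - J(m | w.p) := by
      rw [← b2c_lt]
      convert w.V.map_add_lt (w.V.map_add_lt h3 h7) h8 using 2
      push_cast
      ring
    have hm : ¬ (w.p : ℤ) ∣ m := by
      rw [← w.V_int_eq_one, ← h2]
      exact w.V.map_eq_of_sub_lt (by rwa [w.V.map_sub_swap, h2])
    have hJ : J(m | w.p) = 1 ∨ J(m | w.p) = -1 := by
      rw [← jacobiSym.legendreSym.to_jacobiSym]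
      exact legendreSym.eq_one_or_neg_one _ (by rwa [Ne, ZMod.intCast_zmod_eq_zero_iff_dvd])
    have hs : sz (fn d n φ γ) = 1 ∨ sz (fn d n φ γ) = -1 := by
      rw [sz]
      split_ifs <;> simp
    rcases hJ with hJ | hJ <;> rcases hs with hs | hs <;> rw [hJ, hs] at h9 ⊢
    · exact absurd (dvd_neg.1 h9) (thb_two hw)
    · exact absurd h9 (thb_two hw)
  refine ⟨key, ?_⟩
  have h1 := (thb_prod (w := w) univ (fun γ => w.V_int_le _) (red_al (n := n) hρ)).2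
  rw [h, ← Int.cast_prod, ← Int.cast_sub, b2c_lt] at h1
  rw [jacobiSym.mod_left' (Int.emod_emod_of_dvd N dvd_rfl).symm, ← jacobiSym.mod_left,
    ← jacobiSym.mod_left' (Int.modEq_iff_dvd.2 h1)]
  exact thb_jac univ key

/-- A small number of the multiquadratic field whose norm is a small multiple of `p`. -/
theorem exists_ptr (hw : w.p ≠ 2) (hs : Function.Surjective (bar d)) (hd : ∀ i, J(d i | w.p) = 1)
    {B : ℕ} (h1 : B ^ 2 ^ Fintype.card K ≤ w.p) (h2 : w.p < (B + 1) ^ 2 ^ Fintype.card K) :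
    ∃ (n : (K → ZMod 2) → ℤ) (c : ℤ), (∀ T, |n T| ≤ B) ∧ (∀ γ, al d n γ ≠ 0) ∧ c ≠ 0 ∧
      |c| ≤ ((2 ^ Fintype.card K * ∏ i, d i) ^ 2 ^ Fintype.card K : ℕ) ∧
      ∏ γ, al d n γ = (c * w.p : ℤ) ∧ w.V (al d n 0) < 1 := by
  obtain ⟨ρ, hρ⟩ := exists_red hw hd
  have d0 : ∀ i, d i ≠ 0 := fun i k => thb_ndvd (hd i) (by simp [k])
  obtain ⟨n, n0, hB, hn⟩ := thue (mat ρ 0) w.prime.pos (B := B) (by simpa using h2)
  have a0 := al_ne hs d0 n0
  have h3 : w.V (al d n 0) < 1 := by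
    simpa using w.V.map_add_lt (red_al (n := n) (fun i => (hρ i).1) 0) (b2c_lt.2 hn)
  obtain ⟨N, hN⟩ := exists_norm (d := d) (n := n)
  obtain ⟨c, rfl⟩ : (w.p : ℤ) ∣ N := b2c_lt.1 (hN ▸ (thb_one w 0).trans_lt h3)
  refine ⟨n, c, hB, a0, fun k => ?_, ?_, by rw [hN, mul_comm], h3⟩
  · exact prod_ne_zero_iff.2 (fun γ _ => a0 γ) (by simpa [k] using hN)
  · have h4 := norm_le hN hB d0
    have h5 : (0 : ℤ) < w.p := by exact_mod_cast w.prime.pos
    rw [abs_mul, abs_of_pos h5, mul_comm, Nat.cast_mul] at h4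
    exact le_of_mul_le_mul_right
      (h4.trans (mul_le_mul_of_nonneg_left (by exact_mod_cast h1) (Nat.cast_nonneg _))) h5

/-- Three elements that detect the quadratic characters of a decomposition group. -/
theorem exists_test (w : Plc) : ∃ t : Fin 3 → Gam, (∀ i, t i ∈ Dec w) ∧
    ∀ χ : Gam → ZMod 2, Sm (Dec w) χ → IsHom (Dec w) χ → (∀ i, χ (t i) = 0) →
      ∀ g ∈ Dec w, χ g = 0 := by
  by_cases hw : w.p = 2
  · obtain ⟨g0, m0, a0, b0, c0⟩ := indep_dec_two hw 1 0 0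
    obtain ⟨g1, m1, a1, b1, c1⟩ := indep_dec_two hw 0 1 0
    obtain ⟨g2, m2, a2, b2, c2⟩ := indep_dec_two hw 0 0 1
    refine ⟨![g0, g1, g2], fun i => by fin_cases i <;> assumption, fun χ h1 h2 h g hg => ?_⟩
    obtain ⟨a, b, c, e⟩ := hom_dec_two hw h1 h2
    have ha : a = 0 := by simpa [e g0 m0, a0, b0, c0] using h 0
    have hb : b = 0 := by simpa [e g1 m1, a1, b1, c1] using h 1
    have hc : c = 0 := by simpa [e g2 m2, a2, b2, c2] using h 2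
    simp [e g hg, ha, hb, hc]
  · have : Fact w.p.Prime := ⟨w.prime⟩
    obtain ⟨τ, hτ⟩ := exists_gen hw
    obtain ⟨φ, hφ⟩ := exists_frob w
    obtain ⟨r, hr⟩ := FiniteField.exists_nonsquare (F := ZMod w.p) (by rwa [ZMod.ringChar_zmod_n])
    obtain ⟨u, rfl⟩ := ZMod.intCast_surjective r
    have hu : J(u | w.p) = -1 := by
      rw [← jacobiSym.legendreSym.to_jacobiSym]
      exact (legendreSym.eq_neg_one_iff _).2 hr
    have h0 : ¬ (w.p : ℤ) ∣ 2 * u := thb_ndvd2 hw fun k => hr (by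
      rw [(ZMod.intCast_zmod_eq_zero_iff_dvd _ _).2 k]
      exact IsSquare.zero)
    have m0 := Ine_le w hτ.1
    have m1 := hφ.1
    refine ⟨![τ, φ, τ], fun i => by fin_cases i <;> assumption, fun χ h1 h2 h g hg => ?_⟩
    obtain ⟨a, b, e⟩ := hom_dec_odd hw hu h1 h2
    have hb : b = 0 := by
      simpa [e τ m0, xi_eq_zero.2 (chi_ine h0 hτ.1), xi_eq_one.2 hτ.2] using h 0
    have h3 : xi u φ = 1 := xi_eq_one.2 (Units.ext (by rw [chi_frob h0 hφ, hu]; rfl))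
    have ha : a = 0 := by simpa [e φ m1, hb, h3] using h 1
    simp [e g hg, ha, hb]

/-- Two cochains that agree on the test elements agree on the decomposition group. -/
theorem fn_eq_dec {n' : (K → ZMod 2) → ℤ} {H : Subgroup Gam} (hb : ∀ g ∈ H, bar d g = 0)
    (h0 : ∀ γ, al d n γ ≠ 0) (h0' : ∀ γ, al d n' γ ≠ 0) {t : Fin 3 → Gam}
    (ht : ∀ χ : Gam → ZMod 2, Sm H χ → IsHom H χ → (∀ i, χ (t i) = 0) → ∀ g ∈ H, χ g = 0)
    (h : ∀ i, fn d n (t i) = fn d n' (t i)) : ∀ g ∈ H, fn d n g = fn d n' g := by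
  intro g hg
  funext γ
  refine sub_eq_zero.1 (ht (fun g => fn d n g γ - fn d n' g γ)
    (((fn_sm (d := d) (n := n)).mono le_top).comp₂ ((fn_sm (d := d) (n := n')).mono le_top)
      fun x y => x γ - y γ) (fun a ha b _ => ?_) (fun i => by rw [h i, sub_self]) g hg)
  simp only [fn_mul h0, fn_mul h0', hb a ha, sub_zero]
  ring

end Pool.Agent.Lib.MP_696deb_nt.Sm
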