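import Pool.Agent.Lib.MP_696deb_nt.B2.B1b

/-! Numbers of a multiquadratic field and the cochain of their square roots. -/

set_option autoImplicit false

open Finset
open scoped Classical

namespace Pool.Agent.Lib.MP_696deb_nt.Sm
open B2

/-- A square root. -/
noncomputable def sqr (x : Qbar) : Qbar := (IsAlgClosed.exists_pow_nat_eq x two_pos).choose

theorem sqr_sq (x : Qbar) : sqr x ^ 2 = x := (IsAlgClosed.exists_pow_nat_eq x two_pos).choose_spec

/-- The sign of a bit, as an integer. -/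
def sz (b : ZMod 2) : ℤ := if b = 0 then 1 else -1

variable {K : Type} [Fintype K]

noncomputable def bar (d : K → ℕ) (g : Gam) : K → ZMod 2 := fun i => xi (d i) g

noncomputable def sT (d : K → ℕ) (T : K → ZMod 2) : Qbar := ∏ i, rt (d i) ^ (T i).val

noncomputable def al (d : K → ℕ) (n : (K → ZMod 2) → ℤ) (γ : K → ZMod 2) : Qbar :=
  ∑ T, (sz (∑ i, γ i * T i) * n T : ℤ) * sT d T

noncomputable def fn (d : K → ℕ) (n : (K → ZMod 2) → ℤ) (g : Gam) (γ : K → ZMod 2) : ZMod 2 :=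
  if g (sqr (al d n (γ - bar d g))) = sqr (al d n γ) then 0 else 1

/-- The matrix of the reductions of the conjugates. -/
noncomputable def mat (ρ : K → ℤ) (γ T : K → ZMod 2) : ℤ :=
  sz (∑ i, γ i * T i) * ∏ i, ρ i ^ (T i).val

variable {d : K → ℕ} {n : (K → ZMod 2) → ℤ}

theorem thuea_two (x : ZMod 2) : x = 0 ∨ x = 1 := by
  revert x
  decide

theorem thuea_sz0 : sz 0 = 1 := if_pos rfl

theorem thuea_sz1 : sz 1 = -1 := if_neg one_ne_zero

theorem sz_add (a b : ZMod 2) : sz (a + b) = sz a * sz b := by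
  have e : (1 : ZMod 2) + 1 = 0 := by decide
  rcases thuea_two a with rfl | rfl <;> rcases thuea_two b with rfl | rfl <;>
    simp [e, thuea_sz0, thuea_sz1]

theorem thuea_sz_inj {a b : ZMod 2} (h : sz a = sz b) : a = b := by
  rcases thuea_two a with rfl | rfl <;> rcases thuea_two b with rfl | rfl <;>
    simp_all [thuea_sz0, thuea_sz1]

theorem thuea_sz_mul (a b : ZMod 2) : sz (a * b) = sz a ^ b.val := by
  rcases thuea_two b with rfl | rfl
  · simp [thuea_sz0]
  · rw [mul_one, ZMod.val_one, pow_one]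

theorem thuea_sz_abs (a : ZMod 2) : |sz a| = 1 := by
  rcases thuea_two a with rfl | rfl <;> simp [thuea_sz0, thuea_sz1]

theorem thuea_sz_sum {ι : Type} (s : Finset ι) (f : ι → ZMod 2) :
    sz (∑ i ∈ s, f i) = ∏ i ∈ s, sz (f i) := by
  induction s using Finset.induction_on with
  | empty => simp [thuea_sz0]
  | insert a s ha ih => rw [sum_insert ha, prod_insert ha, sz_add, ih]

theorem smul_rt (a : ℤ) (g : Gam) : g (rt a) = sz (xi a g) * rt a := by
  unfold xi
  split_ifs with h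
  · simp [thuea_sz0, h]
  · simp [thuea_sz1, (rt_or a g).resolve_left h]

theorem bar_mul (g h : Gam) : bar d (g * h) = bar d g + bar d h :=
  funext fun _ => xi_hom _ g h

theorem thuea_smul_sT (g : Gam) (T : K → ZMod 2) :
    g (sT d T) = (sz (∑ i, bar d g i * T i) : ℤ) * sT d T := by
  rw [sT, map_prod, thuea_sz_sum, Int.cast_prod, ← prod_mul_distrib]
  refine prod_congr rfl fun i _ => ?_
  rw [map_pow, smul_rt, mul_pow, thuea_sz_mul, Int.cast_pow]
  rfl

theorem smul_al (g : Gam) (γ : K → ZMod 2) : g (al d n γ) = al d n (γ + bar d g) := by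
  rw [al, al, map_sum]
  refine sum_congr rfl fun T _ => ?_
  simp only [Pi.add_apply, add_mul, sum_add_distrib, sz_add]
  rw [map_mul, map_intCast, thuea_smul_sT]
  push_cast
  ring

theorem thuea_int_rt (a : ℤ) : IsIntegral ℤ (rt a) :=
  IsIntegral.of_pow two_pos (by rw [rt_sq]; exact isIntegral_algebraMap (x := a))

theorem isIntegral_al (γ : K → ZMod 2) : IsIntegral ℤ (al d n γ) :=
  IsIntegral.sum _ fun _ _ => (isIntegral_algebraMap (R := ℤ) (A := Qbar) (x := _)).mul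
    (IsIntegral.prod _ fun _ _ => (thuea_int_rt _).pow _)

theorem sum_sz (T : K → ZMod 2) :
    ∑ γ : K → ZMod 2, sz (∑ i, γ i * T i) = if T = 0 then 2 ^ Fintype.card K else 0 := by
  have h1 : ∀ t : ZMod 2, ∑ x : ZMod 2, sz (x * t) = if t = 0 then 2 else 0 := fun t => by
    have e : (univ : Finset (ZMod 2)) = {0, 1} := by decide
    rw [e, sum_pair zero_ne_one]
    rcases thuea_two t with rfl | rfl <;> simp [thuea_sz0, thuea_sz1]
  simp only [thuea_sz_sum]
  rw [← Fintype.piFinset_univ, ← prod_univ_sum (fun _ : K => univ) fun i x => sz (x * T i)]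
  simp only [h1]
  split_ifs with h
  · simp [h]
  · obtain ⟨i, hi⟩ := Function.ne_iff.1 h
    exact prod_eq_zero (mem_univ i) (if_neg hi)

/-- Fourier inversion. -/
theorem thuea_inv {R : Type} [CommRing R] (w : (K → ZMod 2) → R) (T₀ : K → ZMod 2) :
    ∑ γ : K → ZMod 2, ((sz (∑ i, γ i * T₀ i) : ℤ) : R) *
      ∑ T, ((sz (∑ i, γ i * T i) : ℤ) : R) * w T = 2 ^ Fintype.card K * w T₀ := by
  have e : ∀ T : K → ZMod 2, ∑ γ : K → ZMod 2, ((sz (∑ i, γ i * T₀ i) : ℤ) : R) *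
      (((sz (∑ i, γ i * T i) : ℤ) : R) * w T) =
      if T = T₀ then 2 ^ Fintype.card K * w T else 0 := fun T => by
    have h1 := congrArg (Int.cast : ℤ → R) (sum_sz (T₀ + T))
    simp only [Pi.add_apply, mul_add, sum_add_distrib, sz_add, Int.cast_sum, Int.cast_mul] at h1
    simp only [← mul_assoc]
    rw [← sum_mul, h1]
    have h2 : T₀ + T = 0 ↔ T = T₀ := by
      rw [add_eq_zero_iff_neg_eq, eq_comm]
      have h3 : -T₀ = T₀ := funext fun i => ZMod.neg_eq_self_mod_two _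
      rw [h3]
    simp only [h2]
    split_ifs <;> simp
  simp only [mul_sum]
  rw [sum_comm, sum_congr rfl fun T _ => e T]
  simp

theorem al_ne (hs : Function.Surjective (bar d)) (hd : ∀ i, d i ≠ 0) (hn : n ≠ 0)
    (γ : K → ZMod 2) : al d n γ ≠ 0 := by
  intro h
  have h1 : ∀ δ, al d n δ = 0 := fun δ => by
    obtain ⟨g, hg⟩ := hs (δ - γ)
    have h2 := smul_al (d := d) (n := n) g γ
    rw [h, map_zero, hg, add_sub_cancel] at h2
    exact h2.symm
  obtain ⟨T, hT⟩ := Function.ne_iff.1 hn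
  have h3 := thuea_inv (fun T => (n T : Qbar) * sT d T) T
  have h4 : ∀ δ : K → ZMod 2,
      ∑ T, ((sz (∑ i, δ i * T i) : ℤ) : Qbar) * ((n T : Qbar) * sT d T) = 0 := fun δ => by
    rw [← h1 δ, al]
    refine sum_congr rfl fun T _ => ?_
    push_cast
    ring
  simp only [h4, mul_zero, sum_const_zero] at h3
  refine mul_ne_zero (pow_ne_zero _ two_ne_zero) (mul_ne_zero (Int.cast_ne_zero.2 hT) ?_) h3.symm
  exact prod_ne_zero_iff.2 fun i _ => pow_ne_zero _ (b1b_rt_ne (Int.natCast_ne_zero.2 (hd i)))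

theorem fn_spec (g : Gam) (γ : K → ZMod 2) :
    g (sqr (al d n (γ - bar d g))) = sz (fn d n g γ) * sqr (al d n γ) := by
  have h1 : g (sqr (al d n (γ - bar d g))) ^ 2 = sqr (al d n γ) ^ 2 := by
    rw [← map_pow, sqr_sq, sqr_sq, smul_al, sub_add_cancel]
  unfold fn
  split_ifs with h
  · simp [thuea_sz0, h]
  · simp [thuea_sz1, (sq_eq_sq_iff_eq_or_eq_neg.1 h1).resolve_left h]

theorem fn_mul (h0 : ∀ γ, al d n γ ≠ 0) (g h : Gam) (γ : K → ZMod 2) :
    fn d n (g * h) γ = fn d n g γ + fn d n h (γ - bar d g) := by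
  have h1 := fn_spec (d := d) (n := n) (g * h) γ
  rw [bar_mul, ← sub_sub, AlgEquiv.mul_apply, fn_spec, map_mul, map_intCast, fn_spec,
    ← mul_assoc] at h1
  have h2 : sqr (al d n γ) ≠ 0 := fun e => h0 γ (by rw [← sqr_sq (al d n γ), e]; simp)
  have h3 := mul_right_cancel₀ h2 h1
  refine thuea_sz_inj ?_
  rw [sz_add, mul_comm]
  exact_mod_cast h3.symm

theorem fn_sm : Sm ⊤ (fn d n) :=
  Sm.comp₂ (H := ⊤) (Sm.pi fun i : K => sm_xi (d i))
    (Sm.pi fun δ : K → ZMod 2 => sm_apply (sqr (al d n δ)))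
    fun b F (γ : K → ZMod 2) => if F (γ - b) = sqr (al d n γ) then (0 : ZMod 2) else 1

theorem exists_norm : ∃ N : ℤ, ∏ γ, al d n γ = N := by
  have h1 : Fx ⊤ (∏ γ, al d n γ) := fun g _ => by
    rw [map_prod]
    simp only [smul_al]
    exact Equiv.prod_comp (Equiv.addRight (bar d g)) (al d n)
  obtain ⟨r, hr⟩ := fx_top h1
  have h2 : IsIntegral ℤ (algebraMap ℚ Qbar r) := by
    rw [eq_ratCast, ← hr]
    exact IsIntegral.prod _ fun γ _ => isIntegral_al γ
  obtain ⟨N, hN⟩ := IsIntegrallyClosed.isIntegral_iff.1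
    ((isIntegral_algebraMap_iff (algebraMap ℚ Qbar).injective).1 h2)
  exact ⟨N, by rw [hr, ← hN]; simp⟩

theorem thuea_norm_rt {a : ℕ} (ha : a ≠ 0) (t : ZMod 2) : ‖jC (rt a)‖ ^ t.val ≤ a := by
  have h1 : (1 : ℝ) ≤ a := by exact_mod_cast Nat.one_le_iff_ne_zero.2 ha
  rcases thuea_two t with rfl | rfl
  · simpa using h1
  · rw [ZMod.val_one, pow_one]
    have h2 : ‖jC (rt a)‖ ^ 2 = a := by
      rw [← norm_pow, ← map_pow, rt_sq]
      simp
    exact (pow_le_pow_iff_left₀ (norm_nonneg _) (by positivity) two_ne_zero).1 (by nlinarith)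

theorem norm_le {N : ℤ} (h : ∏ γ, al d n γ = N) {B : ℕ} (hB : ∀ T, |n T| ≤ B)
    (hd : ∀ i, d i ≠ 0) :
    |N| ≤ ((2 ^ Fintype.card K * ∏ i, d i) ^ 2 ^ Fintype.card K * B ^ 2 ^ Fintype.card K : ℕ) := by
  have c : Fintype.card (K → ZMod 2) = 2 ^ Fintype.card K := by simp
  have h1 : ∀ γ, ‖jC (al d n γ)‖ ≤ (2 ^ Fintype.card K * ∏ i, (d i : ℝ)) * B := fun γ => by
    rw [al, map_sum]
    refine (norm_sum_le _ _).trans ((sum_le_card_nsmul _ _ ((∏ i, (d i : ℝ)) * B)
      fun T _ => ?_).trans_eq ?_)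
    · rw [map_mul, norm_mul, map_intCast, Complex.norm_intCast, mul_comm, sT, map_prod, norm_prod]
      refine mul_le_mul (prod_le_prod (fun i _ => norm_nonneg _) fun i _ => ?_) ?_ (abs_nonneg _)
        (by positivity)
      · rw [map_pow, norm_pow]
        exact thuea_norm_rt (hd i) _
      · have h2 := hB T
        rw [← one_mul |n T|, ← thuea_sz_abs (∑ i, γ i * T i), ← abs_mul] at h2
        exact_mod_cast h2
    · rw [card_univ, c, nsmul_eq_mul]
      push_cast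
      ring
  have h2 : (|N| : ℝ) ≤ ((2 ^ Fintype.card K * ∏ i, (d i : ℝ)) * B) ^ 2 ^ Fintype.card K := by
    rw [← Complex.norm_intCast, ← map_intCast jC, ← h, map_prod, norm_prod]
    refine (prod_le_prod (fun γ _ => norm_nonneg _) fun γ _ => h1 γ).trans_eq ?_
    rw [prod_const, card_univ, c]
  rw [mul_pow] at h2
  exact_mod_cast h2

/-- The lemma of Thue. -/
theorem thue {Γ : Type} [Fintype Γ] (c : Γ → ℤ) {p B : ℕ} (hp : 0 < p)
    (h : p < (B + 1) ^ Fintype.card Γ) :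
    ∃ n : Γ → ℤ, n ≠ 0 ∧ (∀ T, |n T| ≤ B) ∧ (p : ℤ) ∣ ∑ T, c T * n T := by
  have : NeZero p := ⟨hp.ne'⟩
  obtain ⟨x, y, hxy, e⟩ := Fintype.exists_ne_map_eq_of_card_lt
    (fun x : Γ → Fin (B + 1) => ((∑ T, c T * ((x T : ℕ) : ℤ) : ℤ) : ZMod p)) (by simpa using h)
  refine ⟨fun T => ((y T : ℕ) : ℤ) - ((x T : ℕ) : ℤ), fun h0 => hxy (funext fun T => ?_),
    fun T => ?_, ?_⟩
  · have h1 : ((y T : ℕ) : ℤ) - ((x T : ℕ) : ℤ) = 0 := congrFun h0 T
    exact Fin.ext (by omega)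
  · have h1 := (x T).2
    have h2 := (y T).2
    show |((y T : ℕ) : ℤ) - ((x T : ℕ) : ℤ)| ≤ B
    rw [abs_le]
    omega
  · simp only [mul_sub, sum_sub_distrib]
    exact (ZMod.intCast_eq_intCast_iff_dvd_sub _ _ _).1 e

omit [Fintype K] in
theorem thuea_surj [Finite K] (u v : K → ℕ) (hu : ∀ i, (u i).Prime) (hv : ∀ i, (v i).Prime)
    (hi : Function.Injective v) (huv : ∀ i j, u i ≠ v j) :
    Function.Surjective (bar fun i => u i * v i) := by
  have := Fintype.ofFinite K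
  intro ε
  obtain ⟨g, -, hg⟩ := exists_chi_eq (univ.image u ∪ univ.image v) (fun p hp => by
    simp only [mem_union, mem_image, mem_univ, true_and] at hp
    rcases hp with ⟨i, rfl⟩ | ⟨i, rfl⟩
    exacts [hu i, hv i]) 1 fun p => if ∃ j, v j = p ∧ ε j = 1 then -1 else 1
  refine ⟨g, funext fun i => ?_⟩
  have h1 : xi (u i) g = 0 := by
    rw [xi_eq_zero, hg _ (by simp), if_neg]
    rintro ⟨j, hj, -⟩
    exact huv i j hj.symm
  have h2 : xi (v i) g = ε i := by
    rcases thuea_two (ε i) with h | h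
    · rw [h, xi_eq_zero, hg _ (by simp), if_neg]
      rintro ⟨j, hj, h3⟩
      rw [hi hj, h] at h3
      exact zero_ne_one h3
    · rw [h, xi_eq_one, hg _ (by simp), if_pos ⟨i, rfl, h⟩]
  show xi ((u i * v i : ℕ) : ℤ) g = ε i
  rw [Nat.cast_mul, xi_mul (Int.natCast_ne_zero.2 (hu i).ne_zero)
    (Int.natCast_ne_zero.2 (hv i).ne_zero), h1, h2, zero_add]

/-- Products of two primes with one new prime each are independent modulo squares. -/
theorem bar_surj (u v : K → ℕ) (hu : ∀ i, (u i).Prime) (hv : ∀ i, (v i).Prime)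
    (hi : Function.Injective v) (huv : ∀ i j, u i ≠ v j) :
    Function.Surjective (bar fun i => u i * v i) := thuea_surj u v hu hv hi huv

theorem mat_inj {ρ : K → ℤ} {p : ℕ} (hp : p.Prime) (h2 : p ≠ 2) (hρ : ∀ i, ¬ (p : ℤ) ∣ ρ i)
    (v : (K → ZMod 2) → ZMod p) (h : ∀ γ, ∑ T, (mat ρ γ T : ZMod p) * v T = 0) : v = 0 := by
  have : Fact p.Prime := ⟨hp⟩
  funext T
  have h3 := thuea_inv (fun T => ((∏ i, ρ i ^ (T i).val : ℤ) : ZMod p) * v T) T
  have h4 : ∀ δ : K → ZMod 2, ∑ T, ((sz (∑ i, δ i * T i) : ℤ) : ZMod p) *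
      (((∏ i, ρ i ^ (T i).val : ℤ) : ZMod p) * v T) = 0 := fun δ => by
    rw [← h δ]
    refine sum_congr rfl fun T _ => ?_
    rw [mat, Int.cast_mul, mul_assoc]
  simp only [h4, mul_zero, sum_const_zero] at h3
  have h5 : (2 : ZMod p) ≠ 0 := fun e =>
    h2 ((Nat.prime_dvd_prime_iff_eq hp Nat.prime_two).1
      ((ZMod.natCast_eq_zero_iff 2 p).1 (by exact_mod_cast e)))
  have h6 : ((∏ i, ρ i ^ (T i).val : ℤ) : ZMod p) ≠ 0 := by
    rw [Int.cast_prod]
    refine prod_ne_zero_iff.2 fun i _ => ?_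
    rw [Int.cast_pow]
    exact pow_ne_zero _ fun e => hρ i ((ZMod.intCast_zmod_eq_zero_iff_dvd _ _).1 e)
  exact (mul_eq_zero.1 ((mul_eq_zero.1 h3.symm).resolve_left (pow_ne_zero _ h5))).resolve_left h6

end Pool.Agent.Lib.MP_696deb_nt.Sm
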