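import Pool.Agent.Lib.MP_696deb_nt.Sm.Chi

/-! Decomposition groups and distinguished elements at the odd primes. -/

set_option autoImplicit false

open scoped Classical NNReal

namespace Pool.Agent.Lib.MP_696deb_nt.Sm

/-- A chosen place above `p`. -/
noncomputable def pl (p : ℕ) : Plc :=
  if h : p.Prime then (B2.exists_plc h).choose else (B2.exists_plc Nat.prime_two).choose

/-- The decomposition group at `v`; the index `0` stands for the real place. -/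
noncomputable def Gv (v : ℕ) : Subgroup GQ := if v = 0 then Subgroup.zpowers cc else Dec (pl v)

/-- The inertia group at `p`. -/
noncomputable abbrev Iv (p : ℕ) : Subgroup GQ := Ine (pl p)

/-- The `p`-adic absolute value on the algebraic numbers. -/
noncomputable abbrev nrm (p : ℕ) : Valuation Qb ℝ≥0 := (pl p).V

/-- An inertia element that moves the square root of `p`. -/
noncomputable def sig (p : ℕ) : GQ := if h : ∃ g, Gen (pl p) g then h.choose else 1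

/-- A Frobenius element that fixes the square root of `p`. -/
noncomputable def frb (p : ℕ) : GQ :=
  if h : ∃ g, IsFrob (pl p) p g ∧ chi p g = 0 then h.choose else 1

variable {p : ℕ} {H : Subgroup GQ}

theorem pl_p (hp : p.Prime) : (pl p).p = p := by
  rw [pl, dif_pos hp]; exact (B2.exists_plc hp).choose_spec

theorem Gv_prime (hp : p.Prime) : Gv p = Dec (pl p) := if_neg hp.ne_zero

theorem Gv_zero : Gv 0 = Subgroup.zpowers cc := if_pos rfl

theorem Iv_le (hp : p.Prime) : Iv p ≤ Gv p := Gv_prime hp ▸ B2.Ine_le _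

theorem fx_int (H : Subgroup GQ) (n : ℤ) : Fx H n := fun g _ => map_intCast g n

theorem fx_add {x y : Qb} (hx : Fx H x) (hy : Fx H y) : Fx H (x + y) := fun g hg => by
  rw [map_add, hx g hg, hy g hg]

theorem fx_sub {x y : Qb} (hx : Fx H x) (hy : Fx H y) : Fx H (x - y) := fun g hg => by
  rw [map_sub, hx g hg, hy g hg]

theorem fx_mul {x y : Qb} (hx : Fx H x) (hy : Fx H y) : Fx H (x * y) := fun g hg => by
  rw [map_mul, hx g hg, hy g hg]

theorem fx_div {x y : Qb} (hx : Fx H x) (hy : Fx H y) : Fx H (x / y) := fun g hg => by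
  rw [map_div₀, hx g hg, hy g hg]

theorem fx_rt {x : Qb} (hx : Fx H x) (h : ∀ g ∈ H, chB x g = 0) : Fx H (rt x) := fun g hg => by
  rw [chB_spec (rt_mul_self x) (hx g hg), h g hg]; simp [sn_zero]

theorem nrm_int_le (n : ℤ) : nrm p n ≤ 1 := (pl p).V_int_le n

theorem nrm_int_eq_one (hp : p.Prime) {n : ℤ} : nrm p n = 1 ↔ ¬ (p : ℤ) ∣ n := by
  rw [(pl p).V_int_eq_one, pl_p hp]

theorem nrm_int_lt (hp : p.Prime) {n : ℤ} : nrm p n < 1 ↔ (p : ℤ) ∣ n := by
  rw [B2.b2c_lt, pl_p hp]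

theorem nrm_int (hp : p.Prime) {n : ℤ} (hn : n ≠ 0) :
    nrm p n = ((p : ℝ≥0) ^ padicValInt p n)⁻¹ := by
  rw [B2.b2a_V_int _ hn, pl_p hp]

theorem nrm_fx (hp : p.Prime) {x : Qb} (hx : Fx (Iv p) x) (h0 : x ≠ 0) :
    ∃ k : ℤ, nrm p x = ((p : ℝ≥0) ^ k)⁻¹ := by
  have := B2.V_of_fx_ine hx h0
  rwa [pl_p hp] at this

theorem gen_sig (hp : p.Prime) (h2 : p ≠ 2) : Gen (pl p) (sig p) := by
  have h : ∃ g, Gen (pl p) g := B2.exists_gen (by rwa [pl_p hp])
  rw [sig, dif_pos h]; exact h.choose_spec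

theorem sig_ine (hp : p.Prime) (h2 : p ≠ 2) : sig p ∈ Iv p := (gen_sig hp h2).1

theorem sig_mem (hp : p.Prime) (h2 : p ≠ 2) : sig p ∈ Gv p := Iv_le hp (sig_ine hp h2)

theorem chi_sig_self (hp : p.Prime) (h2 : p ≠ 2) : chi p (sig p) = 1 := by
  have := (gen_sig hp h2).2
  rw [pl_p hp] at this
  exact B2.xi_eq_one.2 this

theorem frb_spec (hp : p.Prime) (h2 : p ≠ 2) : IsFrob (pl p) p (frb p) ∧ chi p (frb p) = 0 := by
  have h : ∃ g, IsFrob (pl p) p g ∧ chi p g = 0 := by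
    obtain ⟨φ, hφ⟩ := B2.exists_frob (pl p)
    rw [pl_p hp] at hφ
    rcases F2_cases (chi p φ) with h | h
    · exact ⟨φ, hφ, h⟩
    · refine ⟨φ * sig p, hφ.mul_ine (sig_ine hp h2), ?_⟩
      rw [chi_mul_g, h, chi_sig_self hp h2]; decide
  rw [frb, dif_pos h]; exact h.choose_spec

theorem frb_mem (hp : p.Prime) (h2 : p ≠ 2) : frb p ∈ Gv p :=
  Gv_prime hp ▸ (frb_spec hp h2).1.1

theorem chi_frb_self (hp : p.Prime) (h2 : p ≠ 2) : chi p (frb p) = 0 := (frb_spec hp h2).2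

theorem loc_four : nrm p 4 ≤ 1 := by simpa using nrm_int_le (p := p) 4

/-- Close numbers have the same local square class. -/
theorem chB_close (hp : p.Prime) (hH : H ≤ Gv p) {x x' : Qb} (hx : Fx H x) (hx' : Fx H x')
    (h : nrm p (x - x') < nrm p x' * nrm p 4) : ∀ g ∈ H, chB x g = chB x' g := by
  intro g hg
  have x0 : x' ≠ 0 := by rintro rfl; simp at h
  have v0 : 0 < nrm p x' := pos_iff_ne_zero.2 ((nrm p).ne_zero_iff.2 x0)
  have h1 : nrm p (x / x' - 1) < nrm p 4 := by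
    rw [div_sub_one x0, map_div₀, div_lt_iff₀ v0, mul_comm]; exact h
  obtain ⟨r, r1, r2, -⟩ := B2.exists_sqrt (w := pl p) (Gv_prime hp ▸ hH) (fx_div hx hx') h1
  have x1 : x ≠ 0 := by
    rintro rfl
    rw [zero_div, zero_sub, Valuation.map_neg, map_one] at h1
    exact h1.not_ge loc_four
  refine chB_eq (z := rt x' * r) x1 ?_ ?_
  · rw [mul_mul_mul_comm, rt_mul_self, ← sq, r2, mul_div_cancel₀ _ x0]
  · rw [map_mul, r1 g hg, chB_spec (rt_mul_self x') (hx' g hg), mul_assoc]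

theorem loc_ndvd (hp : p.Prime) (h2 : p ≠ 2) : ¬ (p : ℤ) ∣ 2 := fun h =>
  h2 ((Nat.prime_dvd_prime_iff_eq hp Nat.prime_two).1 (by exact_mod_cast h))

/-- The square root of a unit is unramified. -/
theorem chB_unit (hp : p.Prime) (h2 : p ≠ 2) {x : Qb} {g : GQ} (hg : g ∈ Iv p) (hx : g x = x)
    (h1 : nrm p x = 1) : chB x g = 0 := by
  refine (F2_cases _).resolve_right fun h => ?_
  have h3 : nrm p (rt x) = 1 := by
    have : nrm p (rt x) ^ 2 = 1 := by rw [sq, ← map_mul, rt_mul_self, h1]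
    exact (pow_eq_one_iff_of_nonneg zero_le two_ne_zero).1 this
  have h4 := hg.2 _ h3.le
  have h5 : g (rt x) - rt x = ((-2 : ℤ) : Qb) * rt x := by
    rw [chB_spec (rt_mul_self x) hx, h, sn_one]; push_cast; ring
  rw [h5, map_mul, h3, mul_one] at h4
  exact loc_ndvd hp h2 (Int.dvd_neg.1 ((nrm_int_lt hp).1 h4))

theorem loc_zpow {x : Qb} {g : GQ} (h0 : x ≠ 0) (hx : g x = x) (k : ℤ) :
    chB (x ^ k) g = (k : F2) * chB x g := by
  have h2 : (2 : F2) = 0 := rfl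
  have h3 : ∀ j : ℤ, g (x ^ j) = x ^ j := fun j => by rw [map_zpow₀, hx]
  obtain ⟨j, rfl | rfl⟩ := Int.even_or_odd' k
  · rw [two_mul, zpow_add₀ h0, chB_sq (h3 j)]
    push_cast
    rw [← two_mul, h2, zero_mul, zero_mul]
  · rw [zpow_add_one₀ h0, chB_mul (zpow_ne_zero _ h0) h0 (h3 _) hx, two_mul, zpow_add₀ h0,
      chB_sq (h3 j)]
    push_cast
    rw [← two_mul, h2, zero_mul, zero_add, zero_add, one_mul]

theorem chB_ine (hp : p.Prime) (h2 : p ≠ 2) {x : Qb} {g : GQ} (hg : g ∈ Iv p) (hx : g x = x)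
    {k : ℤ} (hk : nrm p x = ((p : ℝ≥0) ^ k)⁻¹) : chB x g = (k : F2) * chi p g := by
  have p0 : (p : Qb) ≠ 0 := by exact_mod_cast hp.ne_zero
  have p1 : (p : ℝ≥0) ≠ 0 := by exact_mod_cast hp.ne_zero
  have q0 : (p : Qb) ^ k ≠ 0 := zpow_ne_zero k p0
  have q1 : g ((p : Qb) ^ k) = (p : Qb) ^ k := by rw [map_zpow₀, map_natCast]
  have v1 : nrm p (p : Qb) = (p : ℝ≥0)⁻¹ := by
    have := (pl p).hV
    rwa [pl_p hp] at this
  have u1 : nrm p (x / (p : Qb) ^ k) = 1 := by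
    rw [map_div₀, map_zpow₀, v1, hk, inv_zpow, div_self (inv_ne_zero (zpow_ne_zero k p1))]
  have u0 : x / (p : Qb) ^ k ≠ 0 := fun h => by rw [h, map_zero] at u1; exact zero_ne_one u1
  have u2 : g (x / (p : Qb) ^ k) = x / (p : Qb) ^ k := by rw [map_div₀, hx, q1]
  have e := chB_mul q0 u0 q1 u2
  rw [mul_div_cancel₀ _ q0, chB_unit hp h2 hg u2 u1, add_zero] at e
  rw [e, loc_zpow p0 (map_natCast g p), chi, Int.cast_natCast]

theorem loc_ine (hp : p.Prime) (h2 : p ≠ 2) {d : ℤ} (hd : d ≠ 0) {g : GQ} (hg : g ∈ Iv p) :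
    chi d g = (padicValInt p d : F2) * chi p g := by
  have := chB_ine hp h2 hg (map_intCast g d) (k := padicValInt p d)
    (by rw [nrm_int hp hd, zpow_natCast])
  rwa [Int.cast_natCast] at this

theorem chi_sig (hp : p.Prime) (h2 : p ≠ 2) {d : ℤ} (hd : d ≠ 0) :
    chi d (sig p) = (padicValInt p d : F2) := by
  rw [loc_ine hp h2 hd (sig_ine hp h2), chi_sig_self hp h2, mul_one]

theorem chi_ine_of_not_dvd (hp : p.Prime) (h2 : p ≠ 2) {d : ℤ} (hd : ¬ (p : ℤ) ∣ d) :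
    ∀ g ∈ Iv p, chi d g = 0 := by
  intro g hg
  exact chB_unit hp h2 hg (map_intCast g d) ((nrm_int_eq_one hp).2 hd)

theorem chi_sig_of_not_dvd (hp : p.Prime) (h2 : p ≠ 2) {d : ℤ} (hd : ¬ (p : ℤ) ∣ d) :
    chi d (sig p) = 0 := chi_ine_of_not_dvd hp h2 hd _ (sig_ine hp h2)

theorem chi_frb (hp : p.Prime) (h2 : p ≠ 2) {d : ℤ} (hd : ¬ (p : ℤ) ∣ d) :
    chi d (frb p) = aleg p d := by
  have := Fact.mk hp
  have h1 : ¬ ((pl p).p : ℤ) ∣ 2 * d := by
    rw [pl_p hp]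
    exact fun h => ((Nat.prime_iff_prime_int.1 hp).dvd_or_dvd h).elim (loc_ndvd hp h2) hd
  have h3 := B2.chi_frob h1 (φ := frb p) (by rw [pl_p hp]; exact (frb_spec hp h2).1)
  rw [pl_p hp, ← jacobiSym.legendreSym.to_jacobiSym] at h3
  rw [aleg_eq_legendre hd, ← h3]
  split_ifs with h
  · exact B2.xi_eq_zero.2 (Units.ext h)
  · exact B2.xi_eq_one.2 ((Int.units_eq_one_or _).resolve_left fun k => h (by rw [k]; rfl))

/-- On the decomposition group a quadratic character is determined by two values. -/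
theorem chi_Gv (hp : p.Prime) (h2 : p ≠ 2) {d : ℤ} (hd : d ≠ 0) (h1 : chi d (sig p) = 0)
    (h3 : chi d (frb p) = 0) : ∀ g ∈ Gv p, chi d g = 0 := by
  intro g hg
  rw [chi_sig hp h2 hd] at h1
  refine B2.xi_eq_zero.2 (B2.b2c_dec (w := pl p) (φ := frb p) (fun σ hσ => B2.xi_eq_zero.1 ?_)
    (by rw [pl_p hp]; exact (frb_spec hp h2).1) (B2.xi_eq_zero.1 h3) (Gv_prime hp ▸ hg))
  exact (loc_ine hp h2 hd hσ).trans (by rw [h1, zero_mul])

theorem chi_Gv_of_aleg (hp : p.Prime) (h2 : p ≠ 2) {d : ℤ} (hd : ¬ (p : ℤ) ∣ d)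
    (h : aleg p d = 0) : ∀ g ∈ Gv p, chi d g = 0 := by
  exact chi_Gv hp h2 (B2.b4b_ne hd) (chi_sig_of_not_dvd hp h2 hd) ((chi_frb hp h2 hd).trans h)

theorem chi_Gv_two {d : ℤ} (h : d % 8 = 1) : ∀ g ∈ Gv 2, chi d g = 0 := by
  intro g hg
  exact B2.xi_eq_zero.2 (B2.chi_dec_two (pl_p Nat.prime_two) h (Gv_prime Nat.prime_two ▸ hg))

theorem loc_cc_mem : cc ∈ Gv 0 := Gv_zero ▸ Subgroup.mem_zpowers cc

theorem loc_Gv0 {g : GQ} (hg : g ∈ Gv 0) : g = 1 ∨ g = cc := by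
  rw [Gv_zero] at hg
  obtain ⟨k, rfl⟩ := Subgroup.mem_zpowers_iff.1 hg
  have h : ∀ j : ℤ, cc ^ (2 * j) = 1 := fun j => by
    rw [zpow_mul, zpow_two, B2.cc_mul_cc, one_zpow]
  obtain ⟨j, rfl | rfl⟩ := Int.even_or_odd' k
  · exact Or.inl (h j)
  · exact Or.inr (by rw [zpow_add_one, h, one_mul])

theorem loc_one (x : Qb) : chB x 1 = 0 := if_pos rfl

theorem loc_cc {y : Qb} (h0 : y ≠ 0) (hy : cc y = y) :
    chB y cc = if 0 < (jC y).re then 0 else 1 := by
  have h1 : ∀ z, cc z = z ↔ (jC z).im = 0 := fun z => by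
    rw [← jC.injective.eq_iff, B2.jC_cc, Complex.conj_eq_iff_im]
  have h2 : jC (rt y) * jC (rt y) = jC y := by rw [← map_mul, rt_mul_self]
  have h3 := congrArg Complex.re h2
  have h4 := congrArg Complex.im h2
  rw [(h1 y).1 hy] at h4
  simp only [Complex.mul_re, Complex.mul_im] at h3 h4
  split_ifs with h
  · refine if_pos ((h1 _).2 (by_contra fun k => ?_))
    have h6 : (jC (rt y)).re = 0 := mul_right_cancel₀ k (by linarith)
    rw [h6] at h3
    nlinarith [mul_self_nonneg (jC (rt y)).im]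
  · refine if_neg fun k => h0 (jC.injective ?_)
    rw [(h1 _).1 k] at h3
    rw [map_zero]
    refine Complex.ext ?_ ((h1 y).1 hy)
    rw [Complex.zero_re]
    nlinarith [mul_self_nonneg (jC (rt y)).re]

theorem loc_chi_cc {d : ℤ} (hd : d ≠ 0) : chi d cc = if 0 < d then 0 else 1 := by
  rw [chi, loc_cc (by exact_mod_cast hd) (map_intCast cc d), map_intCast, Complex.intCast_re]
  simp only [Int.cast_pos]

theorem chi_Gv_zero {d : ℤ} (h : 0 < d) : ∀ g ∈ Gv 0, chi d g = 0 := by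
  intro g hg
  rcases loc_Gv0 hg with rfl | rfl
  · exact loc_one _
  · rw [loc_chi_cc h.ne', if_pos h]

theorem pos_of_chi {d : ℤ} (hd : d ≠ 0) (h : ∀ g ∈ Gv 0, chi d g = 0) : 0 < d := by
  by_contra k
  have := h cc loc_cc_mem
  rw [loc_chi_cc hd, if_neg k] at this
  exact one_ne_zero this

theorem two_of_chi {e : ℕ} {m : ℤ} (hm : ¬ (2 : ℤ) ∣ m) (h : ∀ g ∈ Gv 2, chi (2 ^ e * m) g = 0) :
    Even e ∧ m % 8 = 1 := by
  have hw := pl_p Nat.prime_two
  have m0 : m ≠ 0 := fun k => hm (k ▸ dvd_zero _)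
  rw [Gv_prime Nat.prime_two] at h
  have h1 : ∀ g ∈ Dec (pl 2), (e : F2) * chi 2 g + chi m g = 0 := fun g hg => by
    rw [← chi_pow two_ne_zero, ← chi_mul (pow_ne_zero e two_ne_zero) m0, h g hg]
  have h2 : (e : F2) = 0 := by
    obtain ⟨x, y, k⟩ := B2.b4b_odd hw hm
    obtain ⟨g, hg, a1, a2, a3⟩ := B2.indep_dec_two hw 0 0 1
    have := h1 g hg
    rw [chi_eq_xi, k g hg, a1, a2, a3] at this
    simpa using this
  refine ⟨ZMod.natCast_eq_zero_iff_even.1 h2, ?_⟩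
  have key : ∀ u : ℤ, u ≠ 0 → (u * m) % 8 = 1 → ∀ g ∈ Dec (pl 2), chi u g = 0 := by
    intro u u0 k g hg
    have a1 := h1 g hg
    rw [h2, zero_mul, zero_add] at a1
    have a2 := chi_Gv_two k g (Gv_prime Nat.prime_two ▸ hg)
    rwa [chi_mul u0 m0, a1, add_zero] at a2
  obtain ⟨g, hg, a1, a2, -⟩ := B2.indep_dec_two hw 1 0 0
  obtain ⟨g', hg', -, a3, -⟩ := B2.indep_dec_two hw 0 1 0
  rw [← chi_eq_xi] at a1 a2 a3
  rcases (by omega : m % 8 = 1 ∨ m % 8 = 5 ∨ m % 8 = 7 ∨ m % 8 = 3) with k | k | k | k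
  · exact k
  · exact absurd ((key 5 (by norm_num) (by omega) g' hg').symm.trans a3) zero_ne_one
  · exact absurd ((key (-1) (by norm_num) (by omega) g hg).symm.trans a1) zero_ne_one
  · have a4 := key (-1 * 5) (by norm_num) (by omega) g hg
    rw [chi_mul (by norm_num) (by norm_num), a1, a2] at a4
    exact absurd a4 (by decide)

theorem loc_eps (s : Finset ℤ) (f : ℤ → ℝ≥0) (h : ∀ e ∈ s, 0 < f e) :
    ∃ ε, 0 < ε ∧ ∀ e ∈ s, ε ≤ f e := by
  rcases s.eq_empty_or_nonempty with rfl | hs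
  · exact ⟨1, one_pos, by simp⟩
  · obtain ⟨e, he, k⟩ := s.exists_min_image f hs
    exact ⟨f e, h e he, k⟩

/-- Approximation of a local number by a rational number. -/
theorem approx_cls {v : ℕ} (hv : v = 0 ∨ v.Prime) {x : Qb} (hx : Fx (Gv v) x) (s : Finset ℤ)
    (hs : ∀ e ∈ s, x ≠ e) : ∃ m n : ℤ, n ≠ 0 ∧ ∀ e ∈ s, m - e * n ≠ 0 ∧
      ∀ g ∈ Gv v, chB (x - e) g = chi (n * (m - e * n)) g := by
  have x0 : ∀ e ∈ s, x - e ≠ 0 := fun e he => sub_ne_zero.2 (hs e he)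
  rcases hv with rfl | hp
  · refine ⟨2 * ⌊(jC x).re⌋ + 1, 2, two_ne_zero, fun e he => ⟨by omega, fun g hg => ?_⟩⟩
    rcases loc_Gv0 hg with rfl | rfl
    · exact (loc_one _).trans (loc_one _).symm
    have h1 := hx cc loc_cc_mem
    have h2 : (jC x).re ≠ e := fun k => hs e he (jC.injective (Complex.ext
      (by rw [k, map_intCast, Complex.intCast_re]) (by
        rw [map_intCast, Complex.intCast_im, ← Complex.conj_eq_iff_im, ← B2.jC_cc, h1])))
    rw [loc_cc (x0 e he) (fx_sub hx (fx_int _ e) cc hg), loc_chi_cc (by omega), map_sub,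
      map_intCast, Complex.sub_re, Complex.intCast_re]
    refine if_congr ⟨fun k => ?_, fun k => ?_⟩ rfl rfl
    · have : e ≤ ⌊(jC x).re⌋ := Int.le_floor.2 (sub_pos.1 k).le
      omega
    · exact sub_pos.2 (lt_of_le_of_ne (Int.le_floor.1 (by omega)) h2.symm)
  · have v4 : 0 < nrm v 4 := pos_iff_ne_zero.2 ((nrm v).ne_zero_iff.2 (by norm_num))
    obtain ⟨ε, e0, e1⟩ := loc_eps s (fun e => nrm v (x - e) * nrm v 4) fun e he =>
      mul_pos (pos_iff_ne_zero.2 ((nrm v).ne_zero_iff.2 (x0 e he))) v4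
    obtain ⟨r, hr⟩ := B2.approx_rat (w := pl v) (Gv_prime hp ▸ hx) e0
    have n0 : (r.den : ℤ) ≠ 0 := by exact_mod_cast r.den_ne_zero
    have n1 : (r.den : Qb) ≠ 0 := by exact_mod_cast r.den_ne_zero
    refine ⟨r.num, r.den, n0, fun e he => ?_⟩
    have h1 : nrm v (((r : Qb) - e) - (x - e)) < nrm v (x - e) * nrm v 4 := by
      rw [sub_sub_sub_cancel_right, Valuation.map_sub_swap]; exact hr.trans_le (e1 e he)
    have h2 : (r : Qb) - e ≠ 0 := fun k => by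
      rw [k, zero_sub, Valuation.map_neg] at h1
      exact h1.not_ge (mul_le_of_le_one_right' loc_four)
    have h3 : ((r.den * (r.num - e * r.den) : ℤ) : Qb) = ((r : Qb) - e) * (r.den * r.den) := by
      rw [Rat.cast_def]; push_cast; field_simp
    have h4 : Fx (Gv v) ((r : Qb) - e) := fx_sub (fun g _ => map_ratCast g r) (fx_int _ e)
    refine ⟨fun k => ?_, fun g hg => ?_⟩
    · rw [k, mul_zero, Int.cast_zero] at h3
      exact mul_ne_zero h2 (mul_ne_zero n1 n1) h3.symm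
    · rw [chi, h3, chB_mul h2 (mul_ne_zero n1 n1) (h4 g hg) (by rw [map_mul, map_natCast]),
        chB_sq (map_natCast g _), add_zero,
        chB_close hp le_rfl h4 (fx_sub hx (fx_int _ e)) h1 g hg]

end Pool.Agent.Lib.MP_696deb_nt.Sm
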