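import Pool.Agent.Lib.MP_696deb_nt.Sm.Good
import Pool.Agent.Lib.MP_696deb_nt.Sm.Loc
import Pool.Agent.Lib.MP_696deb_nt.Sm.ThueA

/-! Governing expansions attached to a grid of primes. -/

set_option autoImplicit false

open scoped Classical
open Finset Function

namespace Pool.Agent.Lib.MP_696deb_nt.Sm

abbrev Gm (n M : ℕ) := Fin n × Fin M → F2

variable {n M : ℕ}

/-- The radicands of the multiquadratic field. -/
def dd (q : Fin n → Fin (M + 1) → ℕ) (k : Fin n × Fin M) : ℕ := q k.1 0 * q k.1 k.2.succ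

/-- The coordinate function attached to the `s`-th prime of direction `j`. -/
def mu (j : Fin n) (s : Fin (M + 1)) (γ : Gm n M) : F2 := Fin.cases 0 (fun s' => γ (j, s')) s

/-- The small primes of a grid. -/
abbrev uq (pr : Sx n → Fin (M + 1) → ℕ) : Fin n → Fin (M + 1) → ℕ := fun j => pr (Sum.inl j)

/-- The properties of the cocycles attached to the pointer primes. -/
structure FKit (pr : Sx n → Fin (M + 1) → ℕ) (Df : ℤ) (f : Fin (M + 1) → GQ → Gm n M → F2) :
    Prop where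
  coc : ∀ s g h γ, f s (g * h) γ = f s g γ + f s h (γ - bar (dd (uq pr)) g)
  lc : ∀ s, LC (f s)
  fix : ∀ s s' (v : ℕ), v = 0 ∨ (v.Prime ∧ (v : ℤ) ∣ 30 * Df) → ∀ g ∈ Gv v, f s g = f s' g
  unr : ∀ s s' (q : ℕ), q.Prime → q ≠ 2 → (∀ t, q ≠ pr ia t) → f s (sig q) = f s' (sig q)
  ram : ∀ s t γ, f s (sig (pr ia t)) γ = if s = t ∧ γ = 0 then 1 else 0

/-- The vertex function of the expansion in the directions `T` and the pointer direction. -/
noncomputable def Phi (f : Fin (M + 1) → GQ → Gm n M → F2) (T : Finset (Fin n)) (y : Zg n M)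
    (g : GQ) : F2 := ∑ γ, f (y ia) g γ * ∏ j ∈ T, mu j (y (Sum.inl j)) γ

/-- The label of a grid point. -/
noncomputable def label (pr : Sx n → Fin (M + 1) → ℕ) (f : Fin (M + 1) → GQ → Gm n M → F2)
    (y : Zg n M) : F2 := Phi f univ y (frb (pr ic (y ic)))

theorem mu_add (j : Fin n) (s : Fin (M + 1)) (γ γ' : Gm n M) :
    mu j s (γ + γ') = mu j s γ + mu j s γ' := by
  refine Fin.cases ?_ (fun s' => ?_) s <;> simp [mu]

theorem mu_zero (j : Fin n) (s : Fin (M + 1)) : mu j s (0 : Gm n M) = 0 := by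
  refine Fin.cases ?_ (fun s' => ?_) s <;> simp [mu]

theorem mu_bar (q : Fin n → Fin (M + 1) → ℕ) (j : Fin n) (s : Fin (M + 1)) (g : GQ) :
    mu j s (bar (dd q) g) = chi ((q j 0 : ℤ) * q j s) g := by
  refine Fin.cases ?_ (fun s' => ?_) s
  · rw [chi_sq]; rfl
  · rw [← Nat.cast_mul]; rfl

theorem Phi_mul {pr : Sx n → Fin (M + 1) → ℕ} {Df : ℤ} {f : Fin (M + 1) → GQ → Gm n M → F2}
    (h : FKit pr Df f) (T : Finset (Fin n)) (y : Zg n M) (g g' : GQ) :
    Phi f T y (g * g') = Phi f T y g + ∑ R ∈ T.powerset,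
      (∏ j ∈ R, chi ((pr (Sum.inl j) 0 : ℤ) * pr (Sum.inl j) (y (Sum.inl j))) g) *
        Phi f (T \ R) y g' := by
  unfold Phi
  simp only [h.coc, add_mul, Finset.sum_add_distrib]
  congr 1
  rw [← Equiv.sum_comp (Equiv.addLeft (bar (dd (uq pr)) g))]
  simp only [Equiv.coe_addLeft, add_sub_cancel_left, mu_add, mu_bar, Finset.prod_add,
    Finset.mul_sum]
  rw [Finset.sum_comm]
  refine Finset.sum_congr rfl fun R _ => Finset.sum_congr rfl fun γ _ => ?_
  ring

end Pool.Agent.Lib.MP_696deb_nt.Sm
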