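import Pool.Agent.Lib.MP_696deb_nt.Sm.Box
import Pool.Agent.Lib.MP_696deb_nt.Sm.Kit

/-! Points of a box attached to grid positions. -/

set_option autoImplicit false

open scoped Classical
open Finset Function

namespace Pool.Agent.Lib.MP_696deb_nt.Sm

/-- The point of the box attached to a grid position. -/
noncomputable def gpt {r n M : ℕ} (σ : Sx n → Fin r) (x0 : Fin r → ℕ)
    (pr : Sx n → Fin (M + 1) → ℕ) (y : Zg n M) : Fin r → ℕ :=
  extend σ (fun i => pr i (y i)) x0

variable {r n M : ℕ} {σ : Sx n → Fin r} (x0 : Fin r → ℕ) (pr : Sx n → Fin (M + 1) → ℕ)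
  (y : Zg n M)

theorem gpt_apply (h : Injective σ) (i : Sx n) : gpt σ x0 pr y (σ i) = pr i (y i) :=
  h.extend_apply _ _ i

theorem gpt_not {j : Fin r} (h : j ∉ Set.range σ) : gpt σ x0 pr y j = x0 j :=
  extend_apply' _ _ _ h

end Pool.Agent.Lib.MP_696deb_nt.Sm
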