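import Pool.Agent.Lib.MP_696deb_nt.Sm.Good

/-! Most labels are good. -/

set_option autoImplicit false

open scoped Classical
open Finset Function

namespace Pool.Agent.Lib.MP_696deb_nt.Sm

/-- A large deviation bound. -/
theorem dev {ι : Type} [Fintype ι] (P : Finset ι) (th : ι → F2) {t : ℝ} (ht : 0 ≤ t) :
    (({Ph : ι → F2 | (P.card : ℝ) / 2 + t < ({x ∈ P | Ph x = th x} : Finset ι).card} :
      Finset _).card : ℝ) ≤ 2 ^ Fintype.card ι * Real.exp (-(2 * t ^ 2 / Fintype.card ι)) := by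
  have key : ∀ s : ℝ, 0 ≤ s → (({Ph : ι → F2 | (P.card : ℝ) / 2 + t <
      ({x ∈ P | Ph x = th x} : Finset ι).card} : Finset _).card : ℝ) * Real.exp (s * t) ≤
      (2 * Real.exp (s ^ 2 / 8)) ^ Fintype.card ι := fun s hs => by
    let g : ι → F2 → ℝ := fun x b =>
      s * ((if x ∈ P ∧ b = th x then 1 else 0) - if x ∈ P then 1 / 2 else 0)
    have h1 : ∀ Ph : ι → F2, ∑ x, g x (Ph x) =
        s * (({x ∈ P | Ph x = th x} : Finset ι).card - (P.card : ℝ) / 2) := fun Ph => by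
      rw [← mul_sum, sum_sub_distrib, sum_boole, sum_ite_mem, univ_inter, sum_const, nsmul_eq_mul,
        filter_and, filter_mem_eq_inter, univ_inter, inter_filter, inter_univ, mul_one_div]
    have h2 : ∀ x, ∑ b, Real.exp (g x b) ≤ 2 * Real.exp (s ^ 2 / 8) := fun x => by
      have h3 := Real.cosh_le_exp_half_sq (s / 2)
      have h4 := Real.one_le_cosh (s / 2)
      rw [show (s / 2) ^ 2 / 2 = s ^ 2 / 8 by ring] at h3
      rw [show (univ : Finset F2) = {th x, th x + 1} by generalize th x = a; revert a; decide,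
        sum_pair (by simp)]
      by_cases hx : x ∈ P
      · simp only [g, hx, true_and, if_true, add_eq_left, one_ne_zero, if_false]
        rw [Real.cosh_eq] at h3
        rw [show s * (1 - 1 / 2) = s / 2 by ring, show s * (0 - 1 / 2) = -(s / 2) by ring]
        linarith
      · simp only [g, hx, false_and, if_false, sub_self, mul_zero, Real.exp_zero]
        linarith
    rw [← card_univ, ← prod_const, ← nsmul_eq_mul]
    refine le_trans ?_ (prod_le_prod (fun x _ => by positivity) fun x _ => h2 x)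
    rw [prod_univ_sum, Fintype.piFinset_univ]
    refine (card_nsmul_le_sum _ _ _ fun Ph hP => ?_).trans
      (sum_le_univ_sum_of_nonneg fun Ph => by positivity)
    rw [← Real.exp_sum, h1]
    exact Real.exp_le_exp.2 (mul_le_mul_of_nonneg_left (by linarith [(mem_filter.1 hP).2]) hs)
  have h := key (4 * t / Fintype.card ι) (by positivity)
  rw [← le_div_iff₀ (Real.exp_pos _), mul_pow, ← Real.exp_nat_mul, mul_div_assoc,
    ← Real.exp_sub] at h
  refine h.trans_eq ?_
  congr 2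
  rcases eq_or_ne (Fintype.card ι : ℝ) 0 with e | e
  · simp [e]
  · field_simp
    ring

/-- The labels that agree with `th` too often. -/
noncomputable def goodBBad {ι : Type} [Fintype ι] (P : Finset ι) (th : ι → F2) (t : ℝ) :
    Finset (ι → F2) := {Ph | (P.card : ℝ) / 2 + t < ({x ∈ P | Ph x = th x} : Finset ι).card}

theorem goodB_mem {ι : Type} [Fintype ι] {P : Finset ι} {th Ph : ι → F2} {t : ℝ}
    (h : (P.card : ℝ) / 2 + t < ({x ∈ P | Ph x = th x} : Finset ι).card) :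
    Ph ∈ goodBBad P th t := by
  rwa [goodBBad, mem_filter_univ]

theorem goodB_dev {ι : Type} [Fintype ι] (P : Finset ι) (th : ι → F2) {t : ℝ} (ht : 0 ≤ t) :
    ((goodBBad P th t).card : ℝ) ≤
      2 ^ Fintype.card ι * Real.exp (-(2 * t ^ 2 / Fintype.card ι)) := dev P th ht

/-- The set listed by `f`. -/
noncomputable def goodBSet {Z : Type} [Fintype Z] {r : ℕ} (f : Fin r → Option Z) : Finset Z :=
  {z | ∃ i, f i = some z}

theorem goodB_surj {Z : Type} [Fintype Z] {r : ℕ} {Y : Finset Z} (h : Y.card ≤ r) :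
    ∃ f : Fin r → Option Z, goodBSet f = Y := by
  refine ⟨fun i => Y.toList[i.val]?, ext fun z => ?_⟩
  rw [goodBSet, mem_filter_univ, ← mem_toList, List.mem_iff_getElem?]
  refine ⟨fun ⟨i, hi⟩ => ⟨i, hi⟩, fun ⟨i, hi⟩ => ⟨⟨i, ?_⟩, hi⟩⟩
  exact (List.getElem?_eq_some_iff.1 hi).1.trans_le (length_toList Y ▸ h)

theorem goodB_union (n l N M : ℕ) {ε : ℝ} (hε : 0 < ε) :
    (({Ph : Zg n M → F2 | ¬ Good l N ε Ph} : Finset _).card : ℝ) ≤
      ((((M : ℝ) + 1) ^ (n + 2) + 1) ^ (l * (n + 2) * (M + 1) ^ (n + 1))) ^ (N + 1) * N *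
        (2 ^ Fintype.card (Zg n M) * Real.exp (-(2 * ε ^ 2 * ((M : ℝ) + 1) ^ (n + 2)))) := by
  set r := l * (n + 2) * (M + 1) ^ (n + 1) with hr
  have hc : (Fintype.card (Zg n M) : ℝ) = ((M : ℝ) + 1) ^ (n + 2) := by simp
  let B : (Fin N → Fin r → Option (Zg n M)) × Fin N × (Fin r → Option (Zg n M)) →
      Finset (Zg n M → F2) := fun τ => goodBBad (Pc (2 ^ l) (fun k => goodBSet (τ.1 k)) τ.2.1)
        (fun x => ∑ y with y ic = x ic, (cf (2 ^ l) (goodBSet (τ.1 τ.2.1)) x y : F2) *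
          if y ∈ goodBSet τ.2.2 then 1 else 0) (ε * (M + 1) ^ (n + 2))
  have h1 : ({Ph : Zg n M → F2 | ¬ Good l N ε Ph} : Finset _) ⊆ univ.biUnion B := fun Ph hP => by
    have h2 := (mem_filter.1 hP).2
    simp only [Good, not_forall, not_le] at h2
    obtain ⟨L, hL, k, h2⟩ := h2
    choose f hf using fun k => goodB_surj (hL k)
    obtain ⟨g, hg⟩ := goodB_surj (Y := {y ∈ L k | Ph y = 1}) ((card_filter_le _ _).trans (hL k))
    refine mem_biUnion.2 ⟨(f, k, g), mem_univ _, goodB_mem ?_⟩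
    simp only [hf, hg]
    refine h2.trans_eq (congrArg (fun a : Finset _ => (a.card : ℝ)) (filter_congr fun x hx => ?_))
    refine Eq.congr_right (sum_congr rfl fun y _ => ?_)
    by_cases hy : y ∈ L k
    · rcases F2_cases (Ph y) with e | e <;> simp [hy, e]
    · simp [(cf_spec (mem_filter.1 hx).2.1).1 y hy]
  have h2 : ∀ τ, ((B τ).card : ℝ) ≤
      2 ^ Fintype.card (Zg n M) * Real.exp (-(2 * ε ^ 2 * ((M : ℝ) + 1) ^ (n + 2))) := fun τ => by
    refine (goodB_dev _ _ (by positivity)).trans_eq ?_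
    rw [hc]
    congr 3
    field_simp
  refine (Nat.cast_le.2 ((card_le_card h1).trans card_biUnion_le)).trans ?_
  rw [Nat.cast_sum]
  refine (sum_le_card_nsmul _ _ _ fun τ _ => h2 τ).trans_eq ?_
  rw [nsmul_eq_mul, ← hc]
  simp only [card_univ, Fintype.card_prod, Fintype.card_fun, Fintype.card_fin, Fintype.card_option]
  push_cast
  ring

theorem good_count (n l N : ℕ) {ε β : ℝ} (hε : 0 < ε) (hβ : 0 < β) : ∃ M : ℕ,
    (({Ph : Zg n M → F2 | ¬ Good l N ε Ph} : Finset _).card : ℝ) ≤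
      β * 2 ^ Fintype.card (Zg n M) := by
  have h1 := (isLittleO_pow_exp_pos_mul_atTop ((n + 2) * (l * (n + 2)) * (N + 1))
    (pow_pos hε 2)).def (c := 1 / 2 ^ ((n + 2) * (l * (n + 2)) * (N + 1))) (by positivity)
  have h2 := (Real.tendsto_exp_atTop.comp
    (Filter.tendsto_id.const_mul_atTop (pow_pos hε 2))).eventually_ge_atTop (N / β)
  obtain ⟨M, h3, h4⟩ := ((Filter.tendsto_atTop_add_const_right _ (1 : ℝ)
    tendsto_natCast_atTop_atTop).eventually (h1.and h2)).exists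
  refine ⟨M, (goodB_union n l N M hε).trans ?_⟩
  have h5 : (((M + 1) ^ (n + 1) : ℕ) : ℝ) = ((M : ℝ) + 1) ^ (n + 1) := by push_cast; rfl
  have h0 : (1 : ℝ) ≤ (M : ℝ) + 1 := by linarith [M.cast_nonneg (α := ℝ)]
  generalize (M : ℝ) + 1 = m at *
  rw [Real.norm_of_nonneg (by positivity), Real.norm_of_nonneg (Real.exp_pos _).le,
    one_div_mul_eq_div, le_div_iff₀' (by positivity), ← mul_pow] at h3
  have h6 : m ^ (n + 2) + 1 ≤ (2 * m) ^ (n + 2) := by
    have a1 : 1 ≤ m ^ (n + 2) := one_le_pow₀ h0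
    have a2 : (2 : ℝ) ≤ 2 ^ (n + 2) := le_self_pow₀ one_le_two (by omega)
    rw [mul_pow]
    nlinarith
  have h7 : ((m ^ (n + 2) + 1) ^ (l * (n + 2) * (M + 1) ^ (n + 1))) ^ (N + 1) ≤
      Real.exp (ε ^ 2 * m ^ (n + 2)) := by
    calc _ ≤ (((2 * m) ^ (n + 2)) ^ (l * (n + 2) * (M + 1) ^ (n + 1))) ^ (N + 1) := by gcongr
      _ = ((2 * m) ^ ((n + 2) * (l * (n + 2)) * (N + 1))) ^ (M + 1) ^ (n + 1) := by
        simp only [← pow_mul]
        congr 1
        ring
      _ ≤ Real.exp (ε ^ 2 * m) ^ (M + 1) ^ (n + 1) := by gcongr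
      _ = _ := by
        rw [← Real.exp_nat_mul, h5]
        congr 1
        ring
  have h8 : (N : ℝ) ≤ β * Real.exp (ε ^ 2 * m ^ (n + 2)) := by
    refine ((div_le_iff₀' hβ).1 h4).trans ?_
    have a1 : m ≤ m ^ (n + 2) := le_self_pow₀ h0 (by omega)
    simp only [comp, id]
    gcongr
  have h9 : Real.exp (ε ^ 2 * m ^ (n + 2)) * Real.exp (ε ^ 2 * m ^ (n + 2)) *
      Real.exp (-(2 * ε ^ 2 * m ^ (n + 2))) = 1 := by
    rw [← Real.exp_add, ← Real.exp_add, Real.exp_eq_one_iff]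
    ring
  refine (mul_le_mul_of_nonneg_right (mul_le_mul h7 h8 (by positivity) (by positivity))
    (by positivity)).trans_eq ?_
  linear_combination β * 2 ^ Fintype.card (Zg n M) * h9

end Pool.Agent.Lib.MP_696deb_nt.Sm
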