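import Pool.Agent.Lib.MP_696deb_nt.Sm.Box
import Pool.Agent.Lib.MP_696deb_nt.Sm.Loc

/-! The characters attached to patterns. -/

set_option autoImplicit false

open scoped Classical
open Finset Function

namespace Pool.Agent.Lib.MP_696deb_nt.Sm

/-- The character of an integer in terms of its sign and its prime factors. -/
theorem pata_chi {d : ℤ} (hd : d ≠ 0) (S : Finset ℕ) (hS : ∀ p ∈ S, p.Prime)
    (hp : ∀ p : ℕ, p.Prime → (p : ℤ) ∣ d → p ∈ S) (g : GQ) :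
    chi d g = (if d < 0 then 1 else 0) * chi (-1) g + ∑ p ∈ S, (padicValInt p d : F2) * chi p g := by
  have h0 : d.natAbs ≠ 0 := Int.natAbs_ne_zero.2 hd
  have h1 : ∏ p ∈ S, (p : ℤ) ^ padicValInt p d = d.natAbs := by
    conv_rhs => rw [← Nat.prod_factorization_pow_eq_self h0]
    rw [Finsupp.prod_of_support_subset _ (s := S) (fun p hp' => hp p (Nat.prime_of_mem_primeFactors hp')
      (Int.natCast_dvd.2 (Nat.dvd_of_mem_primeFactors hp'))) _ fun _ _ => pow_zero _]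
    push_cast
    exact prod_congr rfl fun p hp' => by rw [Nat.factorization_def _ (hS p hp'), padicValInt]
  have h2 : chi d.natAbs g = ∑ p ∈ S, (padicValInt p d : F2) * chi p g := by
    rw [← h1, chi_prod _ _ fun p hp' => pow_ne_zero _ (Int.natCast_ne_zero.2 (hS p hp').ne_zero)]
    exact sum_congr rfl fun p hp' => chi_pow (Int.natCast_ne_zero.2 (hS p hp').ne_zero) _ g
  rw [← h2]
  split_ifs with h
  · rw [one_mul, ← chi_mul (by norm_num) (Int.natCast_ne_zero.2 h0)]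
    congr 1
    omega
  · rw [zero_mul, zero_add]
    congr 1
    omega

theorem pata_neg {p : ℕ} (hp : p.Prime) : aleg p (-1) = if p % 4 = 3 then 1 else 0 := by
  have := Fact.mk hp
  have h3 : aleg p (-1) = 0 ↔ p % 4 ≠ 3 := by
    rw [aleg_eq_zero_iff]; push_cast; exact ZMod.exists_sq_eq_neg_one_iff
  split_ifs with h
  · exact (F2_cases _).resolve_left fun h0 => h3.1 h0 h
  · exact h3.2 h

theorem pata_two {p : ℕ} (hp : p.Prime) (h2 : p ≠ 2) :
    aleg p 2 = if p % 8 = 1 ∨ p % 8 = 7 then 0 else 1 := by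
  have := Fact.mk hp
  have h3 : aleg p 2 = 0 ↔ p % 8 = 1 ∨ p % 8 = 7 := by
    rw [aleg_eq_zero_iff]; push_cast; exact ZMod.exists_sq_eq_two_iff h2
  split_ifs with h
  · exact h3.2 h
  · exact (F2_cases _).resolve_left fun h0 => h (h3.1 h0)

theorem pata_recip {p q : ℕ} (hp : p.Prime) (hq : q.Prime) (hp2 : p ≠ 2) (hq2 : q ≠ 2)
    (hpq : p ≠ q) : aleg q p = aleg p q + aleg p (-1) * aleg q (-1) := by
  have := hq.eq_two_or_odd.resolve_left hq2
  rw [← aleg_pstar hp hq hp2 hq2 hpq, pata_neg hq]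
  unfold pstar
  by_cases h : q % 4 = 1
  · rw [if_pos h, if_neg (by omega), mul_zero, add_zero]
  · rw [if_neg h, if_pos (by omega), mul_one, ← mul_neg_one,
      aleg_mul hp (not_dvd_of_natAbs_eq hp hq hpq rfl) (not_dvd_of_natAbs_eq' hp)]

namespace Box

variable {B : Box} {a : B.Mat} {x x' : Fin B.r → ℕ}

theorem mem_pts : x ∈ B.pts ↔ ∀ j, x j ∈ B.X j := Fintype.mem_piFinset

theorem mem_fib : x ∈ B.fib a ↔ x ∈ B.pts ∧ B.mat x = a := mem_filter

theorem Wf.inj (h : B.Wf) (hx : x ∈ B.pts) : Injective x := fun i j e =>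
  h.disj i j _ (mem_pts.1 hx i) (e ▸ mem_pts.1 hx j)

theorem Wf.rep_mem (h : B.Wf) (j : Fin B.r) : B.rep j ∈ B.X j :=
  Nat.sInf_mem (s := (B.X j : Set ℕ)) (h.ne j)

theorem pata_prime (q : B.Q0) : (q : ℕ).Prime := Nat.prime_of_mem_primeFactors q.2

theorem Wf.pata_Q0 (h : B.Wf) {q : ℕ} : q ∈ B.Q0 ↔ q.Prime ∧ (q : ℤ) ∣ 30 * B.D0 := by
  rw [Q0, Nat.mem_primeFactors, Int.natCast_dvd, Int.natAbs_mul]
  exact and_congr_right fun _ => and_iff_left
    (mul_ne_zero (by norm_num) (Int.natAbs_ne_zero.2 h.sqf.ne_zero))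

theorem Wf.pata_nd (h : B.Wf) {j : Fin B.r} {p : ℕ} (hp : p ∈ B.X j) : ¬ p ∣ 30 := fun k =>
  h.cop j p hp (Dvd.dvd.mul_right (by exact_mod_cast k) _)

theorem pata_ne {p : ℕ} (h : ¬ p ∣ 30) : p ≠ 2 := by
  rintro rfl
  exact h (by norm_num)

theorem Wf.pata_cases (h : B.Wf) (hx : x ∈ B.pts) (k : B.Ix) :
    k = .inl none ∨ ((B.gen x k).natAbs.Prime ∧ B.gen x k = (B.gen x k).natAbs) := by
  rcases k with (_ | q) | j
  exacts [Or.inl rfl, Or.inr ⟨pata_prime q, rfl⟩, Or.inr ⟨h.prime j _ (mem_pts.1 hx j), rfl⟩]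

theorem Wf.pata_inj (h : B.Wf) (hx : x ∈ B.pts) : Injective (B.gen x) := by
  have k : ∀ (q : B.Q0) (j : Fin B.r), ((q : ℕ) : ℤ) ≠ x j := fun q j e =>
    h.cop j _ (mem_pts.1 hx j) (e ▸ (h.pata_Q0.1 q.2).2)
  rintro ((_ | q) | i) ((_ | q') | j) e <;> simp only [gen, sgen, Sum.elim_inl, Sum.elim_inr,
    Option.elim_none, Option.elim_some] at e
  · rfl
  · omega
  · omega
  · omega
  · rw [Subtype.ext (Int.natCast_inj.1 e)]
  · exact (k q j e).elim
  · omega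
  · exact (k q' i e.symm).elim
  · rw [h.inj hx (Int.natCast_inj.1 e)]

theorem Wf.gen_ne (h : B.Wf) (hx : x ∈ B.pts) (k : B.Ix) : B.gen x k ≠ 0 := by
  rcases h.pata_cases hx k with rfl | ⟨h1, -⟩
  · exact neg_ne_zero.2 one_ne_zero
  · exact Int.natAbs_ne_zero.1 h1.ne_zero

theorem Wf.val_ne (h : B.Wf) (hx : x ∈ B.pts) (A : B.Pat) : B.val x A ≠ 0 :=
  prod_ne_zero_iff.2 fun k _ => pow_ne_zero _ (h.gen_ne hx k)

theorem Wf.DD_sqf (h : B.Wf) (hx : x ∈ B.pts) : Squarefree (B.DD x) := by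
  have h1 : ∀ j, Prime (x j : ℤ) := fun j => Nat.prime_iff_prime_int.1 (h.prime j _ (mem_pts.1 hx j))
  refine squarefree_mul_iff.2 ⟨IsRelPrime.prod_right fun j _ =>
    ((h1 j).irreducible.isRelPrime_iff_not_dvd.2 fun k =>
      h.cop j _ (mem_pts.1 hx j) (k.mul_left _)).symm, h.sqf,
    squarefree_prod_of_pairwise_isCoprime (fun i _ j _ hij => IsCoprime.isRelPrime ?_)
      fun j _ => (h1 j).squarefree⟩
  exact Nat.isCoprime_iff_coprime.2 ((Nat.coprime_primes (h.prime i _ (mem_pts.1 hx i))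
    (h.prime j _ (mem_pts.1 hx j))).2 fun e => hij (h.inj hx e))

theorem Wf.chi_val (h : B.Wf) (hx : x ∈ B.pts) (A : B.Pat) (g : GQ) :
    chi (B.val x A) g = ∑ k, A k * chi (B.gen x k) g := by
  rw [val, chi_prod _ _ fun k _ => pow_ne_zero _ (h.gen_ne hx k)]
  exact sum_congr rfl fun k _ => chi_pow_val (h.gen_ne hx k) _ g

theorem Wf.chi_val_add (h : B.Wf) (hx : x ∈ B.pts) (A A' : B.Pat) (g : GQ) :
    chi (B.val x (A + A')) g = chi (B.val x A) g + chi (B.val x A') g := by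
  simp only [h.chi_val hx, Pi.add_apply, add_mul, sum_add_distrib]

theorem Wf.chi_val_smul (h : B.Wf) (hx : x ∈ B.pts) (s : F2) (A : B.Pat) (g : GQ) :
    chi (B.val x (s • A)) g = s * chi (B.val x A) g := by
  simp only [h.chi_val hx, Pi.smul_apply, smul_eq_mul, mul_sum, mul_assoc]

theorem Wf.pata_pick (h : B.Wf) (hx : x ∈ B.pts) (A : B.Pat) {g : GQ} {k : B.Ix}
    (h1 : chi (B.gen x k) g = 1) (h0 : ∀ k', k' ≠ k → chi (B.gen x k') g = 0) :
    chi (B.val x A) g = A k := by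
  rw [h.chi_val hx, sum_eq_single k (fun k' _ e => by rw [h0 k' e, mul_zero]) (by simp), h1, mul_one]

theorem Wf.chi_val_inj (h : B.Wf) (hx : x ∈ B.pts) {A : B.Pat}
    (h0 : ∀ g, chi (B.val x A) g = 0) : A = 0 := by
  funext k
  obtain ⟨g, g1, g2⟩ := B2.exists_chi_eq
    ((univ.image fun k => (B.gen x k).natAbs).filter Nat.Prime) (fun p hp => (mem_filter.1 hp).2)
    (if -1 = B.gen x k then -1 else 1) fun p => if (p : ℤ) = B.gen x k then -1 else 1
  have g3 : ∀ k', B2.chi (B.gen x k') g = if B.gen x k' = B.gen x k then -1 else 1 := fun k' => by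
    rcases h.pata_cases hx k' with rfl | ⟨h1, h2⟩
    · exact g1
    · have := g2 _ (mem_filter.2 ⟨mem_image_of_mem _ (mem_univ k'), h1⟩)
      rwa [← h2] at this
  rw [← h.pata_pick hx A (g := g) (B2.xi_eq_one.2 ((g3 k).trans (if_pos rfl))) fun k' e =>
    B2.xi_eq_zero.2 ((g3 k').trans (if_neg fun e' => e (h.pata_inj hx e'))), h0]
  rfl

theorem Wf.pata_val (h : B.Wf) (hx : x ∈ B.pts) (d : ℤ) (w : Fin B.r → F2) (g : GQ) :
    chi (B.val x (Sum.elim (B.spat d) w)) g = (if d < 0 then 1 else 0) * chi (-1) g +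
      (∑ p ∈ B.Q0, (padicValInt p d : F2) * chi p g + ∑ j, w j * chi (x j) g) := by
  rw [h.chi_val hx, Fintype.sum_sum_type, Fintype.sum_option, add_assoc,
    ← sum_coe_sort B.Q0 fun p => (padicValInt p d : F2) * chi p g]
  rfl

/-- An integer supported on the generators has the character of a pattern. -/
theorem Wf.exists_pat (h : B.Wf) (hx : x ∈ B.pts) {d : ℤ} (hd : d ≠ 0)
    (hp : ∀ p : ℕ, p.Prime → (p : ℤ) ∣ d → (p : ℤ) ∣ 30 * B.DD x) :
    ∃ A : B.Pat, chi d = chi (B.val x A) := by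
  refine ⟨Sum.elim (B.spat d) fun j => (padicValInt (x j) d : F2), funext fun g => ?_⟩
  rw [h.pata_val hx, pata_chi hd (B.Q0 ∪ univ.image x) (fun p hp' => ?_) fun p p1 p2 => ?_,
    sum_union, sum_image fun i _ j _ e => h.inj hx e]
  · refine disjoint_left.2 fun p p1 p2 => ?_
    obtain ⟨j, -, rfl⟩ := mem_image.1 p2
    exact h.cop j _ (mem_pts.1 hx j) (h.pata_Q0.1 p1).2
  · rcases mem_union.1 hp' with k | k
    · exact (h.pata_Q0.1 k).1
    · obtain ⟨j, -, rfl⟩ := mem_image.1 k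
      exact h.prime j _ (mem_pts.1 hx j)
  · have p3 := hp p p1 p2
    rw [DD, ← mul_assoc] at p3
    have p4 := Nat.prime_iff_prime_int.1 p1
    rcases p4.dvd_or_dvd p3 with k | k
    · exact mem_union_left _ (h.pata_Q0.2 ⟨p1, k⟩)
    · obtain ⟨j, -, k⟩ := (p4.dvd_finsetProd_iff _).1 k
      exact mem_union_right _ (mem_image.2 ⟨j, mem_univ _, ((Nat.prime_dvd_prime_iff_eq p1
        (h.prime j _ (mem_pts.1 hx j))).1 (Int.natCast_dvd_natCast.1 k)).symm⟩)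

theorem Wf.chi_pat (h : B.Wf) (hx : x ∈ B.pts) {c : ℤ} (hc : c ≠ 0)
    (hp : ∀ p : ℕ, p.Prime → (p : ℤ) ∣ c → p ∣ 30) : chi (B.val x (B.pat c)) = chi c := by
  funext g
  rw [pat, h.pata_val hx, pata_chi hc B.Q0 (fun p k => (h.pata_Q0.1 k).1) fun p p1 p2 =>
    h.pata_Q0.2 ⟨p1, Dvd.dvd.mul_right (by exact_mod_cast hp p p1 p2) _⟩]
  simp

theorem Wf.chi_dD (h : B.Wf) (hx : x ∈ B.pts) : chi (B.val x B.dD) = chi (B.DD x) := by
  funext g
  have h1 : ∀ j ∈ univ, (x j : ℤ) ≠ 0 := fun j _ => h.gen_ne hx (.inr j)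
  rw [dD, h.pata_val hx, DD, chi_mul h.sqf.ne_zero (prod_ne_zero_iff.2 h1), chi_prod _ _ h1,
    pata_chi h.sqf.ne_zero B.Q0 (fun p k => (h.pata_Q0.1 k).1) fun p p1 p2 =>
    h.pata_Q0.2 ⟨p1, p2.mul_left _⟩, add_assoc]
  simp

theorem pat_of_isSquare {c : ℤ} (hc : c ≠ 0) (h : IsSquare c) : B.pat c = 0 := by
  obtain ⟨r, rfl⟩ := h
  have h0 : r ≠ 0 := left_ne_zero_of_mul hc
  funext k
  rcases k with (_ | q) | j
  · exact if_neg (mul_self_nonneg r).not_gt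
  · have := Fact.mk (pata_prime q)
    change ((padicValInt q (r * r) : ℕ) : F2) = 0
    rw [padicValInt.mul h0 h0, Nat.cast_add, CharTwo.add_self_eq_zero]
  · rfl

/-- The prime attached to an index. -/
def prm (B : Box) (x : Fin B.r → ℕ) (k : B.Ix) : ℕ := (B.gen x k).natAbs

theorem prm_inr (j : Fin B.r) : B.prm x (.inr j) = x j := rfl

theorem Wf.pata_PI (h : B.Wf) (hx : x ∈ B.pts) {k : B.Ix} (hk : B.PI k) :
    (B.prm x k).Prime ∧ ¬ B.prm x k ∣ 30 ∧ B.gen x k = B.prm x k ∧ (B.prm x k : ℤ) ∣ B.DD x := by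
  rcases k with g | j
  · obtain ⟨q, rfl, hq⟩ := hk
    refine ⟨pata_prime q, hq, rfl, Dvd.dvd.mul_right ?_ _⟩
    exact ((Nat.prime_iff_prime_int.1 (pata_prime q)).dvd_or_dvd (h.pata_Q0.1 q.2).2).resolve_left
      fun e => hq (by exact_mod_cast e)
  · exact ⟨h.prime j _ (mem_pts.1 hx j), h.pata_nd (mem_pts.1 hx j), rfl,
      (dvd_prod_of_mem (fun j => (x j : ℤ)) (mem_univ j)).mul_left _⟩

theorem Wf.prm_spec (h : B.Wf) (hx : x ∈ B.pts) {k : B.Ix} (hk : B.PI k) :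
    (B.prm x k).Prime ∧ ¬ B.prm x k ∣ 30 ∧ padicValInt (B.prm x k) (B.DD x) = 1 := by
  obtain ⟨h1, h2, -, h3⟩ := h.pata_PI hx hk
  refine ⟨h1, h2, ?_⟩
  rw [padicValInt, ← Nat.factorization_def _ h1]
  exact Nat.factorization_eq_one_of_squarefree (Int.squarefree_natAbs.2 (h.DD_sqf hx)) h1
    (Int.natCast_dvd.1 h3)

theorem Wf.pata_ndvd (h : B.Wf) (hx : x ∈ B.pts) {k k' : B.Ix} (hk : B.PI k) (hne : k' ≠ k) :
    ¬ (B.prm x k : ℤ) ∣ B.gen x k' := by
  obtain ⟨h1, -, h2, -⟩ := h.pata_PI hx hk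
  rcases h.pata_cases hx k' with rfl | ⟨h3, h4⟩
  · exact not_dvd_of_natAbs_eq' h1
  · exact not_dvd_of_natAbs_eq h1 h3 (fun e => hne (h.pata_inj hx (by rw [h4, h2, e]))) rfl

theorem Wf.chi_val_sig (h : B.Wf) (hx : x ∈ B.pts) {k : B.Ix} (hk : B.PI k) (A : B.Pat) :
    chi (B.val x A) (sig (B.prm x k)) = A k := by
  obtain ⟨h1, h2, h3, -⟩ := h.pata_PI hx hk
  exact h.pata_pick hx A (h3 ▸ chi_sig_self h1 (pata_ne h2)) fun k' e =>
    chi_sig_of_not_dvd h1 (pata_ne h2) (h.pata_ndvd hx hk e)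

theorem Wf.pata_neg (h : B.Wf) {j : Fin B.r} {p : ℕ} (hp : p ∈ B.X j) :
    aleg p (-1) = aleg (B.rep j) (-1) := by
  have := h.mod8 j p hp
  rw [Sm.pata_neg (h.prime j p hp), Sm.pata_neg (h.prime j _ (h.rep_mem j)),
    show p % 4 = B.rep j % 4 by omega]

theorem Wf.pata_rep (h : B.Wf) {j : Fin B.r} {p : ℕ} (hp : p ∈ B.X j) (g : B.Sg) :
    aleg p (B.sgen g) = aleg (B.rep j) (B.sgen g) := by
  rcases g with _ | q
  · exact h.pata_neg hp
  change aleg p (q : ℕ) = aleg (B.rep j) (q : ℕ)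
  have h1 := h.rep_mem j
  rcases eq_or_ne (q : ℕ) 2 with e | e
  · rw [e, Nat.cast_ofNat, pata_two (h.prime j p hp) (pata_ne (h.pata_nd hp)),
      pata_two (h.prime j _ h1) (pata_ne (h.pata_nd h1)), h.mod8 j p hp]
  · have k : ∀ p ∈ B.X j, aleg p (q : ℕ) = aleg q p + aleg q (-1) * aleg p (-1) := fun p hp =>
      pata_recip (pata_prime q) (h.prime j p hp) e (pata_ne (h.pata_nd hp)) fun e' =>
        h.cop j p hp (e' ▸ (h.pata_Q0.1 q.2).2)
    rw [k p hp, k _ h1, h.pata_neg hp, h.leg j p hp q q.2 e]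

theorem Wf.pata_sym (h : B.Wf) (hx : x ∈ B.fib a) {k k' : B.Ix} (hk : B.PI k) (hne : k' ≠ k) :
    aleg (B.prm x k) (B.gen x k') = B.sym a k' k := by
  obtain ⟨h1, rfl⟩ := mem_fib.1 hx
  have h2 := mem_pts.1 h1
  rcases k' with g | i <;> rcases k with g' | j
  · exact (if_neg fun e => hne (congrArg _ e)).symm
  · exact h.pata_rep (h2 j) g
  · obtain ⟨q, rfl, hq⟩ := hk
    exact h.leg i _ (h2 i) q q.2 (pata_ne hq)
  · change aleg (x j) (x i) = B.sy _ i j + _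
    rcases lt_trichotomy i j with e | e | e
    · rw [sy, dif_pos e, if_pos e, ← h.pata_neg (h2 i), ← h.pata_neg (h2 j)]
      exact pata_recip (h.prime i _ (h2 i)) (h.prime j _ (h2 j)) (pata_ne (h.pata_nd (h2 i)))
        (pata_ne (h.pata_nd (h2 j))) fun e' => e.ne (h.inj h1 e')
    · exact (hne (congrArg _ e)).elim
    · rw [sy, dif_neg e.not_gt, dif_pos e, if_neg e.not_gt, add_zero]
      rfl

theorem Wf.chi_val_frb (h : B.Wf) (hx : x ∈ B.fib a) {k : B.Ix} (hk : B.PI k) (A : B.Pat) :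
    chi (B.val x A) (frb (B.prm x k)) = B.lam a k A := by
  have h0 := (mem_fib.1 hx).1
  obtain ⟨h1, h2, h3, -⟩ := h.pata_PI h0 hk
  rw [h.chi_val h0, lam]
  refine sum_congr rfl fun k' _ => congrArg _ ?_
  rcases eq_or_ne k' k with rfl | e
  · rw [h3, chi_frb_self h1 (pata_ne h2)]
    rcases k' with g | j
    · exact (if_pos rfl).symm
    · simp [sym, sy]
  · rw [chi_frb h1 (pata_ne h2) (h.pata_ndvd h0 hk e), h.pata_sym hx hk e]

theorem Wf.chi_val_unr (h : B.Wf) (hx : x ∈ B.pts) {p : ℕ} (hp : p.Prime)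
    (hD : ¬ (p : ℤ) ∣ 30 * B.DD x) (A : B.Pat) : chi (B.val x A) (sig p) = 0 := by
  have h2 : p ≠ 2 := pata_ne fun e => hD (Dvd.dvd.mul_right (by exact_mod_cast e) _)
  rw [h.chi_val hx]
  refine sum_eq_zero fun k _ => ?_
  rw [chi_sig_of_not_dvd hp h2 fun e => hD (e.trans ?_), mul_zero]
  rw [DD, ← mul_assoc]
  rcases k with (_ | q) | j
  · exact neg_dvd.2 (one_dvd _)
  · exact (h.pata_Q0.1 q.2).2.mul_right _
  · exact (dvd_prod_of_mem (fun j => (x j : ℤ)) (mem_univ j)).mul_left _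

/-- Two primes of the same set look alike at the small places. -/
theorem Wf.chi_small (h : B.Wf) {j : Fin B.r} {p p' : ℕ} (hp : p ∈ B.X j) (hp' : p' ∈ B.X j)
    {v : ℕ} (hv : v = 0 ∨ (v.Prime ∧ (v : ℤ) ∣ 30 * B.D0)) :
    ∀ g ∈ Gv v, chi ((p : ℤ) * p') g = 0 := by
  have p1 := h.prime j p hp
  have p2 := h.prime j p' hp'
  rcases hv with rfl | ⟨v1, v2⟩
  · exact chi_Gv_zero (mul_pos (Int.natCast_pos.2 p1.pos) (Int.natCast_pos.2 p2.pos))
  rcases eq_or_ne v 2 with rfl | e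
  · refine chi_Gv_two ?_
    have h1 := p1.eq_two_or_odd.resolve_left (pata_ne (h.pata_nd hp))
    have h2 : (p' : ℤ) % 8 = p % 8 := by
      have := h.mod8 j p hp
      have := h.mod8 j p' hp'
      omega
    have h3 : (p : ℤ) % 8 = 1 ∨ (p : ℤ) % 8 = 3 ∨ (p : ℤ) % 8 = 5 ∨ (p : ℤ) % 8 = 7 := by omega
    rw [Int.mul_emod, h2]
    rcases h3 with k | k | k | k <;> rw [k] <;> rfl
  · have k : ∀ p ∈ B.X j, ¬ (v : ℤ) ∣ p := fun p hp =>
      not_dvd_of_natAbs_eq v1 (h.prime j p hp) (fun e' => h.cop j p hp (e' ▸ v2)) rfl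
    have h1 := h.pata_Q0.2 ⟨v1, v2⟩
    refine chi_Gv_of_aleg v1 e (fun e' => ((Nat.prime_iff_prime_int.1 v1).dvd_or_dvd e').elim
      (k p hp) (k p' hp')) ?_
    rw [aleg_mul v1 (k p hp) (k p' hp'), h.leg j p hp v h1 e, h.leg j p' hp' v h1 e,
      CharTwo.add_self_eq_zero]

/-- Two points of a fibre that share a prime look alike at that prime. -/
theorem Wf.chi_cross (h : B.Wf) (hx : x ∈ B.fib a) (hx' : x' ∈ B.fib a) {i j : Fin B.r}
    (hij : i ≠ j) (hj : x j = x' j) : ∀ g ∈ Gv (x j), chi ((x i : ℤ) * x' i) g = 0 := by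
  have h0 := (mem_fib.1 hx).1
  have e : (Sum.inr i : B.Ix) ≠ .inr j := fun e => hij (Sum.inr_injective e)
  have h1 := h.prime j _ (mem_pts.1 h0 j)
  have h2 : ¬ (x j : ℤ) ∣ x i := h.pata_ndvd h0 (k := .inr j) trivial e
  have h3 : ¬ (x j : ℤ) ∣ x' i := hj ▸ h.pata_ndvd (mem_fib.1 hx').1 (k := .inr j) trivial e
  have h4 : aleg (x j) (x i) = _ := h.pata_sym hx (k := .inr j) trivial e
  have h5 : aleg (x' j) (x' i) = _ := h.pata_sym hx' (k := .inr j) trivial e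
  refine chi_Gv_of_aleg h1 (pata_ne (h.pata_nd (mem_pts.1 h0 j)))
    (fun e' => ((Nat.prime_iff_prime_int.1 h1).dvd_or_dvd e').elim h2 h3) ?_
  rw [aleg_mul h1 h2 h3, h4, hj, h5, CharTwo.add_self_eq_zero]

theorem lam_add (a : B.Mat) (k : B.Ix) (A A' : B.Pat) :
    B.lam a k (A + A') = B.lam a k A + B.lam a k A' := by
  simp only [lam, Pi.add_apply, add_mul, sum_add_distrib]

theorem lam_small (a : B.Mat) (j : Fin B.r) {A : B.Pat} (h : B.lg A = 0) :
    B.lam a (.inr j) A = B.nu (fun g => A (.inl g)) j := by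
  rw [lam, Fintype.sum_sum_type, sum_eq_zero (s := (univ : Finset (Fin B.r))) fun i _ => by
    rw [show A (.inr i) = 0 from congrFun h i, zero_mul], add_zero]
  rfl

end Box

end Pool.Agent.Lib.MP_696deb_nt.Sm
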