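import Pool.Agent.Lib.MP_696deb_nt.Sm.Loc

/-! Hilbert symbols and the product formula over the rationals. -/

set_option autoImplicit false

open scoped Classical
open Finset

namespace Pool.Agent.Lib.MP_696deb_nt.Sm

/-- The part of `a` prime to `p`. -/
def up (p : ℕ) (a : ℤ) : ℤ := a / (p : ℤ) ^ padicValInt p a

/-- The bit `(u - 1) / 2` of an odd integer. -/
def ep2 (u : ℤ) : F2 := if u % 4 = 1 then 0 else 1

/-- The bit `(u ^ 2 - 1) / 8` of an odd integer. -/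
def om2 (u : ℤ) : F2 := if u % 8 = 1 ∨ u % 8 = 7 then 0 else 1

/-- The additive Hilbert symbol of two nonzero integers at `v` (`v = 0` is the real place). -/
noncomputable def hs (v : ℕ) (a b : ℤ) : F2 :=
  if v = 2 then ep2 (up 2 a) * ep2 (up 2 b) + (padicValInt 2 a : F2) * om2 (up 2 b) +
    (padicValInt 2 b : F2) * om2 (up 2 a)
  else if v.Prime then (padicValInt v a : F2) * aleg v (up v b) +
    (padicValInt v b : F2) * aleg v (up v a) +
    (padicValInt v a : F2) * (padicValInt v b : F2) * aleg v (-1)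
  else if a < 0 ∧ b < 0 then 1 else 0

theorem up_spec {p : ℕ} (hp : p.Prime) {a : ℤ} (ha : a ≠ 0) :
    a = (p : ℤ) ^ padicValInt p a * up p a ∧ ¬ (p : ℤ) ∣ up p a := by
  have := Fact.mk hp
  have h := (Int.mul_ediv_cancel' (padicValInt_dvd (p := p) a)).symm
  refine ⟨h, fun h1 => ?_⟩
  have h2 : (p : ℤ) ^ (padicValInt p a + 1) ∣ a := by
    conv_rhs => rw [h]
    rw [pow_succ]
    exact mul_dvd_mul_left _ h1
  exact ((padicValInt_dvd_iff _ _).1 h2).elim ha (by omega)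

theorem up_mul {p : ℕ} (hp : p.Prime) {a b : ℤ} (ha : a ≠ 0) (hb : b ≠ 0) :
    up p (a * b) = up p a * up p b := by
  have := Fact.mk hp
  have h : a * b = (p : ℤ) ^ padicValInt p (a * b) * (up p a * up p b) := by
    rw [padicValInt.mul ha hb, pow_add, mul_mul_mul_comm, ← (up_spec hp ha).1, ← (up_spec hp hb).1]
  exact mul_left_cancel₀ (pow_ne_zero _ (Int.natCast_ne_zero.2 hp.ne_zero))
    ((up_spec hp (mul_ne_zero ha hb)).1.symm.trans h)

theorem hs_comm (v : ℕ) (a b : ℤ) : hs v a b = hs v b a := by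
  unfold hs
  simp only [and_comm (a := a < 0)]
  split_ifs <;> ring

theorem hilb_self (x : F2) : x + x = 0 := by revert x; decide

theorem hilb_ep {a b : ℤ} (ha : ¬ (2 : ℤ) ∣ a) (hb : ¬ (2 : ℤ) ∣ b) :
    ep2 (a * b) = ep2 a + ep2 b ∧ om2 (a * b) = om2 a + om2 b := by
  have h4 : ∀ x : ℤ, x % 4 = x % 8 % 4 := fun x => by omega
  have h1 : a % 8 = 1 ∨ a % 8 = 3 ∨ a % 8 = 5 ∨ a % 8 = 7 := by omega
  have h2 : b % 8 = 1 ∨ b % 8 = 3 ∨ b % 8 = 5 ∨ b % 8 = 7 := by omega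
  unfold ep2 om2
  rw [h4 (a * b), h4 a, h4 b, Int.mul_emod a b 8]
  rcases h1 with h | h | h | h <;> rcases h2 with k | k | k | k <;> rw [h, k] <;> decide

theorem hs_mul_left (v : ℕ) {a a' b : ℤ} (ha : a ≠ 0) (ha' : a' ≠ 0) (hb : b ≠ 0) :
    hs v (a * a') b = hs v a b + hs v a' b := by
  unfold hs
  by_cases h2 : v = 2
  · have := Fact.mk Nat.prime_two
    obtain ⟨h3, h4⟩ := hilb_ep (up_spec Nat.prime_two ha).2 (up_spec Nat.prime_two ha').2
    simp only [if_pos h2]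
    rw [up_mul Nat.prime_two ha ha', h3, h4, padicValInt.mul ha ha']
    push_cast
    ring
  by_cases hp : v.Prime
  · have := Fact.mk hp
    simp only [if_neg h2, if_pos hp]
    rw [up_mul hp ha ha', aleg_mul hp (up_spec hp ha).2 (up_spec hp ha').2, padicValInt.mul ha ha']
    push_cast
    ring
  simp only [if_neg h2, if_neg hp, mul_neg_iff]
  rcases ha.lt_or_gt with h | h <;> rcases ha'.lt_or_gt with k | k <;>
    rcases hb.lt_or_gt with l | l <;> simp [h, k, l, h.not_gt, k.not_gt, l.not_gt, hilb_self]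

theorem hs_mul_right (v : ℕ) {a b b' : ℤ} (ha : a ≠ 0) (hb : b ≠ 0) (hb' : b' ≠ 0) :
    hs v a (b * b') = hs v a b + hs v a b' := by
  rw [hs_comm, hs_mul_left v hb hb' ha, hs_comm v b, hs_comm v b']

/-- The symbol at an odd prime in terms of the two distinguished elements. -/
theorem hs_odd {p : ℕ} (hp : p.Prime) (h2 : p ≠ 2) {a b : ℤ} (ha : a ≠ 0) (hb : b ≠ 0) :
    hs p a b = chi a (sig p) * chi b (frb p) + chi b (sig p) * chi a (frb p) +
      chi a (sig p) * chi b (sig p) * aleg p (-1) := by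
  have h : ∀ {a : ℤ}, a ≠ 0 → chi a (frb p) = aleg p (up p a) := fun {a} ha => by
    have h0 : (p : ℤ) ≠ 0 := Int.natCast_ne_zero.2 hp.ne_zero
    obtain ⟨h3, h4⟩ := up_spec hp ha
    conv_lhs => rw [h3]
    rw [chi_mul (pow_ne_zero _ h0) (B2.b4b_ne h4), chi_pow h0, chi_frb_self hp h2,
      chi_frb hp h2 h4, mul_zero, zero_add]
  rw [chi_sig hp h2 ha, chi_sig hp h2 hb, h ha, h hb, hs, if_neg h2, if_pos hp]

theorem hilb_up {p : ℕ} {a : ℤ} (h : ¬ (p : ℤ) ∣ a) : padicValInt p a = 0 ∧ up p a = a := by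
  rw [up, padicValInt.eq_zero_of_not_dvd h, pow_zero, Int.ediv_one]
  exact ⟨rfl, rfl⟩

theorem hilb_un {p : ℕ} (hp : p.Prime) (h2 : p ≠ 2) (a : ℤ) {b : ℤ} (h : ¬ (p : ℤ) ∣ b) :
    hs p a b = padicValInt p a * aleg p b := by
  simp [hs, h2, hp, hilb_up h]

theorem hilb_same {p : ℕ} (hp : p.Prime) (h2 : p ≠ 2) (a : ℤ) :
    hs p a a = padicValInt p a * aleg p (-1) := by
  have : ∀ x : F2, x * x = x := by decide
  rw [hs, if_neg h2, if_pos hp, hilb_self, zero_add, this]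

theorem hilb_pos {a b : ℤ} (h : 0 < b) : hs 0 a b = 0 := by
  simp [hs, Nat.not_prime_zero, h.not_gt]

theorem hilb_odd {a b : ℤ} (ha : ¬ (2 : ℤ) ∣ a) (hb : ¬ (2 : ℤ) ∣ b) : hs 2 a b = ep2 a * ep2 b := by
  simp [hs, hilb_up (p := 2) ha, hilb_up (p := 2) hb]

theorem hilb_two {a : ℤ} (ha : ¬ (2 : ℤ) ∣ a) : hs 2 a 2 = om2 a ∧ hs 2 2 2 = 0 := by
  have h1 : padicValInt 2 2 = 1 := padicValInt.self (p := 2) one_lt_two
  have h2 : up 2 2 = 1 := by rw [up, h1]; rfl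
  have h3 : ep2 1 = 0 := rfl
  have h4 : om2 1 = 0 := rfl
  simp [hs, hilb_up (p := 2) ha, h1, h2, h3, h4]

theorem hilb_neg {p : ℕ} (hp : p.Prime) (h2 : p ≠ 2) : aleg p (-1) = ep2 p := by
  have := Fact.mk hp
  have h1 := hp.eq_two_or_odd.resolve_left h2
  have h3 : aleg p (-1) = 0 ↔ p % 4 ≠ 3 := by
    rw [aleg_eq_zero_iff]; push_cast; exact ZMod.exists_sq_eq_neg_one_iff
  unfold ep2
  split_ifs with h
  · exact h3.2 (by omega)
  · exact (F2_cases _).resolve_left fun h0 => h3.1 h0 (by omega)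

theorem hilb_sup {p : ℕ} (hp : p.Prime) (h2 : p ≠ 2) : aleg p 2 = om2 p := by
  have := Fact.mk hp
  have h3 : aleg p 2 = 0 ↔ p % 8 = 1 ∨ p % 8 = 7 := by
    rw [aleg_eq_zero_iff]; push_cast; exact ZMod.exists_sq_eq_two_iff h2
  unfold om2
  split_ifs with h
  · exact h3.2 (by omega)
  · exact (F2_cases _).resolve_left fun h0 => h (by have := h3.1 h0; omega)

theorem hilb_rec {p q : ℕ} (hp : p.Prime) (hq : q.Prime) (hp2 : p ≠ 2) (hq2 : q ≠ 2)
    (h : p ≠ q) : aleg q p = aleg p q + ep2 p * ep2 q := by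
  rw [← aleg_pstar hp hq hp2 hq2 h]
  unfold pstar
  split_ifs with h1
  · rw [show ep2 q = 0 from if_pos (by omega), mul_zero, add_zero]
  · rw [← mul_neg_one, aleg_mul hp (not_dvd_of_natAbs_eq hp hq h rfl) (not_dvd_of_natAbs_eq' hp),
      hilb_neg hp hp2, show ep2 q = 1 from if_neg (by omega), mul_one]

theorem hilb_ind {P : ℤ → Prop} {V : Finset ℕ} (h1 : P (-1)) (hp : ∀ p ∈ V, p.Prime → P p)
    (hm : ∀ a b, a ≠ 0 → b ≠ 0 → P a → P b → P (a * b)) {a : ℤ} (ha : a ≠ 0)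
    (h : ∀ p : ℕ, p.Prime → (p : ℤ) ∣ a → p ∈ V) : P a := by
  induction a using UniqueFactorizationMonoid.induction_on_prime with
  | h₁ => exact (ha rfl).elim
  | h₂ x hx =>
    rcases Int.isUnit_iff.1 hx with rfl | rfl
    · exact hm (-1) (-1) (by norm_num) (by norm_num) h1 h1
    · exact h1
  | h₃ a q h0 hq ih =>
    have h2 := Int.prime_iff_natAbs_prime.1 hq
    have h3 := hp _ (h _ h2 ((Int.natAbs_dvd.2 dvd_rfl).mul_right a)) h2
    refine hm q a hq.ne_zero h0 ?_ (ih h0 fun p hp k => h p hp (k.mul_left q))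
    rcases Int.natAbs_eq q with e | e
    · exact e ▸ h3
    · rw [e, ← neg_one_mul]
      exact hm _ _ (by norm_num) (Int.natCast_ne_zero.2 h2.ne_zero) h1 h3

/-- The product formula. -/
theorem hs_sum {a b : ℤ} (ha : a ≠ 0) (hb : b ≠ 0) (V : Finset ℕ) (h0 : 0 ∈ V) (h2 : 2 ∈ V)
    (hV : ∀ v ∈ V, v = 0 ∨ v.Prime) (hab : ∀ p : ℕ, p.Prime → (p : ℤ) ∣ a * b → p ∈ V) :
    ∑ v ∈ V, hs v a b = 0 := by
  have nd : ∀ {p q : ℕ}, p.Prime → q.Prime → p ≠ q → ¬ (p : ℤ) ∣ q := fun hp hq h =>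
    not_dvd_of_natAbs_eq hp hq h rfl
  have un : ∀ {v : ℕ} {a b : ℤ}, v.Prime → v ≠ 2 → ¬ (v : ℤ) ∣ a → ¬ (v : ℤ) ∣ b →
      hs v a b = 0 := fun hp h ha hb => by
    rw [hilb_un hp h _ hb, (hilb_up ha).1, Nat.cast_zero, zero_mul]
  have n1 : ∀ {p : ℕ}, p.Prime → ¬ (p : ℤ) ∣ -1 := not_dvd_of_natAbs_eq'
  have o1 : ¬ (2 : ℤ) ∣ -1 := by decide
  have pos : ∀ {p : ℕ}, p.Prime → (0 : ℤ) < p := fun hp => Int.natCast_pos.2 hp.pos
  have val : ∀ {p : ℕ}, p.Prime → ((padicValInt p p : ℕ) : F2) = 1 := fun hp => by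
    rw [padicValInt.self hp.one_lt, Nat.cast_one]
  have one : ∀ p ∈ V, p.Prime → p ≠ 2 → ∀ a : ℤ, (∀ v : ℕ, v.Prime → v ≠ 2 → v ≠ p → ¬ (v : ℤ) ∣ a) →
      ∑ v ∈ V, hs v a p = hs 2 a p + hs p a p := fun p h hp k a ha =>
    sum_eq_add_of_mem 2 p h2 h k.symm fun v hv e => (hV v hv).elim
      (fun e => e ▸ hilb_pos (pos hp)) fun l => un l e.1 (ha v l e.1 e.2) (nd l hp e.2)
  have two : ∀ a : ℤ, (∀ v : ℕ, v.Prime → v ≠ 2 → ¬ (v : ℤ) ∣ a) →
      ∑ v ∈ V, hs v a 2 = hs 2 a 2 := fun a ha =>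
    sum_eq_single_of_mem 2 h2 fun v hv e => (hV v hv).elim
      (fun e => e ▸ hilb_pos two_pos) fun l => un l e (ha v l e) (nd l Nat.prime_two e)
  have sw : ∀ a b : ℤ, ∑ v ∈ V, hs v a b = ∑ v ∈ V, hs v b a := fun a b =>
    sum_congr rfl fun v _ => hs_comm v a b
  have g1 : ∀ p ∈ V, p.Prime → ∑ v ∈ V, hs v (-1) p = 0 := fun p h hp => by
    by_cases k : p = 2
    · subst k
      exact (two _ fun _ l _ => n1 l).trans (hilb_two o1).1
    · rw [one p h hp k _ fun _ l _ _ => n1 l, hilb_odd o1 (nd Nat.prime_two hp (Ne.symm k)),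
        hs_comm, hilb_un hp k _ (n1 hp), val hp, hilb_neg hp k]
      exact hilb_self _
  have g2 : ∀ p ∈ V, p.Prime → p ≠ 2 → ∑ v ∈ V, hs v 2 p = 0 := fun p h hp k => by
    rw [one p h hp k 2 fun _ l e _ => nd l Nat.prime_two e, hs_comm,
      (hilb_two (nd Nat.prime_two hp (Ne.symm k))).1, hs_comm,
      hilb_un hp k _ (b := 2) (nd hp Nat.prime_two k), val hp, hilb_sup hp k, one_mul, hilb_self]
  have g3 : ∀ p ∈ V, p.Prime → ∀ q ∈ V, q.Prime → ∑ v ∈ V, hs v p q = 0 := fun p h hp q h' hq => by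
    by_cases k : p = 2 <;> by_cases k' : q = 2
    · subst k k'
      exact (two _ fun _ l e => nd l hp e).trans (hilb_two o1).2
    · subst k
      exact g2 q h' hq k'
    · subst k'
      exact (sw _ _).trans (g2 p h hp k)
    have o2 := hilb_odd (nd Nat.prime_two hp (Ne.symm k)) (nd Nat.prime_two hq (Ne.symm k'))
    by_cases e : p = q
    · subst e
      have : ∀ x : F2, x * x + x = 0 := by decide
      rw [one p h hp k p fun _ l _ e => nd l hp e, o2, hilb_same hp k, val hp, hilb_neg hp k,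
        one_mul, this]
    rw [← sum_subset (s₁ := {2, p, q}) (by simp [insert_subset_iff, h2, h, h']) fun v hv l => ?_,
      sum_insert (by simp [Ne.symm k, Ne.symm k']), sum_pair e, o2, hilb_un hp k _ (nd hp hq e),
      hs_comm, hilb_un hq k' _ (nd hq hp (Ne.symm e)), val hp, val hq, one_mul, one_mul,
      hilb_rec hp hq k k' e, ← add_assoc (aleg p q), hilb_self, zero_add, hilb_self]
    simp only [mem_insert, mem_singleton, not_or] at l
    exact (hV v hv).elim (fun e => e ▸ hilb_pos (pos hq)) fun m =>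
      un m l.1 (nd m hp l.2.1) (nd m hq l.2.2)
  have mr : ∀ a : ℤ, a ≠ 0 → ∀ b c : ℤ, b ≠ 0 → c ≠ 0 → ∑ v ∈ V, hs v a b = 0 →
      ∑ v ∈ V, hs v a c = 0 → ∑ v ∈ V, hs v a (b * c) = 0 := fun a ha b c hb hc e e' => by
    simp only [hs_mul_right _ ha hb hc, sum_add_distrib, e, e', add_zero]
  have hb' : ∀ p : ℕ, p.Prime → (p : ℤ) ∣ b → p ∈ V := fun p hp h => hab p hp (h.mul_left a)
  rw [sw]
  refine hilb_ind (P := fun a => ∑ v ∈ V, hs v b a = 0) ?_ (fun p h hp => ?_) (mr b hb) ha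
    fun p hp h => hab p hp (h.mul_right b)
  · rw [sw]
    refine hilb_ind (P := fun b => ∑ v ∈ V, hs v (-1) b = 0) ?_ g1 (mr _ (by norm_num)) hb hb'
    rw [sum_eq_add_of_mem 0 2 h0 h2 (by norm_num) fun v hv e =>
      un ((hV v hv).resolve_left e.1) e.2 (n1 ((hV v hv).resolve_left e.1))
        (n1 ((hV v hv).resolve_left e.1)), hilb_odd o1 o1]
    simp only [hs, Nat.not_prime_zero]
    decide
  · rw [sw]
    exact hilb_ind (P := fun b => ∑ v ∈ V, hs v p b = 0) ((sw _ _).trans (g1 p h hp)) (g3 p h hp)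
      (mr _ (pos hp).ne') hb hb'

/-- The symbol vanishes on local squares. -/
theorem hs_triv {v : ℕ} (hv : v = 0 ∨ v.Prime) {a b : ℤ} (ha : a ≠ 0) (hb : b ≠ 0)
    (h : ∀ g ∈ Gv v, chi a g = 0) : hs v a b = 0 := by
  rcases hv with rfl | hp
  · rw [hs_comm, hilb_pos (pos_of_chi ha h)]
  by_cases h2 : v = 2
  · subst h2
    obtain ⟨h3, h4⟩ := up_spec hp ha
    obtain ⟨h5, h6⟩ := two_of_chi (e := padicValInt 2 a) h4 fun g hg =>
      (congrArg (chi · g) h3.symm).trans (h g hg)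
    rw [hs, if_pos rfl, show ep2 (up 2 a) = 0 from if_pos (by omega),
      show om2 (up 2 a) = 0 from if_pos (Or.inl h6), h5.natCast_zmod_two]
    ring
  · rw [hs_odd hp h2 ha hb, h _ (sig_mem hp h2), h _ (frb_mem hp h2)]
    ring

theorem hs_congr {v : ℕ} (hv : v = 0 ∨ v.Prime) {a a' b b' : ℤ} (ha : a ≠ 0) (ha' : a' ≠ 0)
    (hb : b ≠ 0) (hb' : b' ≠ 0) (h : ∀ g ∈ Gv v, chi a g = chi a' g)
    (h' : ∀ g ∈ Gv v, chi b g = chi b' g) : hs v a b = hs v a' b' := by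
  have key : ∀ {a a' b : ℤ}, a ≠ 0 → a' ≠ 0 → b ≠ 0 → (∀ g ∈ Gv v, chi a g = chi a' g) →
      hs v a b = hs v a' b := fun ha ha' hb h => by
    have := hs_triv hv (mul_ne_zero ha ha') hb fun g hg => by
      rw [chi_mul ha ha', h g hg, hilb_self]
    rw [hs_mul_left v ha ha' hb] at this
    exact (B2.b4b_eq this).symm
  rw [key ha ha' hb h, hs_comm, key hb hb' ha' h', hs_comm]

theorem hilb_sq (v : ℕ) {a b c : ℤ} (ha : a ≠ 0) (hb : b ≠ 0) (hc : c ≠ 0) :
    hs v (c * (c * a)) b = hs v a b := by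
  rw [hs_mul_left v hc (mul_ne_zero hc ha) hb, hs_mul_left v hc ha hb, ← add_assoc, hilb_self,
    zero_add]

theorem hs_stein_odd {v : ℕ} (h2 : v ≠ 2) {a b : ℤ} (ha : a ≠ 0) (hb : b ≠ 0) (hc : a + b ≠ 0) :
    hs v (a * (a + b)) (b * (a + b)) = 0 := by
  by_cases hp : v.Prime
  swap
  · rw [hs, if_neg h2, if_neg hp, if_neg fun h => by nlinarith [h.1, h.2, mul_self_nonneg (a + b)]]
  have hP := Nat.prime_iff_prime_int.1 hp
  have sq : ∀ {x : ℤ} (y : ℤ), (v : ℤ) ∣ x - y * y → aleg v x = 0 := fun {x} y h =>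
    aleg_eq_zero_iff.2 ⟨y, by
      rw [← Int.cast_mul]; exact ((ZMod.intCast_eq_intCast_iff_dvd_sub _ _ v).2 h).symm⟩
  have one : ∀ {a b : ℤ}, (v : ℤ) ∣ a → ¬ (v : ℤ) ∣ b →
      hs v (a * (a + b)) (b * (a + b)) = 0 := fun {a b} h k => by
    rw [hilb_un hp h2 _ fun e => (hP.dvd_or_dvd e).elim k fun e => k ((dvd_add_right h).1 e),
      sq b (by rw [← mul_sub, add_sub_cancel_right]; exact h.mul_left b), mul_zero]
  induction hn : a.natAbs using Nat.strong_induction_on generalizing a b with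
  | _ n ih =>
  by_cases h : (v : ℤ) ∣ a <;> by_cases k : (v : ℤ) ∣ b
  · obtain ⟨a, rfl⟩ := h
    obtain ⟨b, rfl⟩ := k
    have a0 := right_ne_zero_of_mul ha
    have b0 := right_ne_zero_of_mul hb
    have c0 : a + b ≠ 0 := fun e => hc (by rw [← mul_add, e, mul_zero])
    rw [show v * a * (v * a + v * b) = v * (v * (a * (a + b))) by ring,
      show v * b * (v * a + v * b) = v * (v * (b * (a + b))) by ring,
      hilb_sq v (mul_ne_zero a0 c0) (mul_ne_zero hP.ne_zero (mul_ne_zero hP.ne_zero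
        (mul_ne_zero b0 c0))) hP.ne_zero, hs_comm,
      hilb_sq v (mul_ne_zero b0 c0) (mul_ne_zero a0 c0) hP.ne_zero, hs_comm]
    refine ih _ ?_ a0 b0 c0 rfl
    rw [← hn, Int.natAbs_mul, Int.natAbs_natCast]
    exact lt_mul_of_one_lt_left (Int.natAbs_pos.2 a0) hp.one_lt
  · exact one h k
  · rw [hs_comm, add_comm]
    exact one k h
  by_cases l : (v : ℤ) ∣ a + b
  · have h3 := sq (x := a * (b * -1)) a (by
      rw [← mul_sub, show b * -1 - a = -(a + b) by ring]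
      exact (dvd_neg.2 l).mul_left a)
    have n1 := not_dvd_of_natAbs_eq' hp
    rw [aleg_mul hp h fun e => (hP.dvd_or_dvd e).elim k n1, aleg_mul hp k n1] at h3
    rw [hs_mul_left v ha hc (mul_ne_zero hb hc), hs_comm, hilb_un hp h2 _ h,
      hs_mul_right v hc hb hc, hilb_un hp h2 _ k, hilb_same hp h2]
    have := Fact.mk hp
    rw [padicValInt.mul hb hc, (hilb_up k).1, zero_add, ← mul_add, ← mul_add, h3, mul_zero]
  · rw [hilb_un hp h2 _ fun e => (hP.dvd_or_dvd e).elim k l,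
      (hilb_up fun e => (hP.dvd_or_dvd e).elim h l).1, Nat.cast_zero, zero_mul]

/-- The Steinberg relation; at two it follows from the product formula. -/
theorem hs_stein (v : ℕ) {a b : ℤ} (ha : a ≠ 0) (hb : b ≠ 0) (hc : a + b ≠ 0) :
    hs v (a * (a + b)) (b * (a + b)) = 0 := by
  by_cases h2 : v = 2
  swap
  · exact hs_stein_odd h2 ha hb hc
  subst h2
  have h0 := mul_ne_zero (mul_ne_zero ha hc) (mul_ne_zero hb hc)
  have := hs_sum (mul_ne_zero ha hc) (mul_ne_zero hb hc)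
    (insert 0 (insert 2 (a * (a + b) * (b * (a + b))).natAbs.primeFactors)) (by simp) (by simp)
    (fun v hv => by
      rcases mem_insert.1 hv with e | e
      · exact Or.inl e
      · exact Or.inr ((mem_insert.1 e).elim (fun e => e ▸ Nat.prime_two)
          Nat.prime_of_mem_primeFactors))
    fun p hp h => mem_insert_of_mem (mem_insert_of_mem (Nat.mem_primeFactors.2
      ⟨hp, Int.natCast_dvd.1 h, Int.natAbs_ne_zero.2 h0⟩))
  rwa [sum_eq_single_of_mem 2 (by simp) fun v _ e => hs_stein_odd e ha hb hc] at this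

end Pool.Agent.Lib.MP_696deb_nt.Sm
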