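import Pool.Agent.Lib.MP_696deb_nt.Sm.Step
import Pool.Agent.Lib.MP_696deb_nt.Sm.PatC
import Pool.Agent.Lib.MP_696deb_nt.Sm.SelB

/-! The first moment of the number of lifts. -/

set_option autoImplicit false

open scoped Classical
open Finset Function

namespace Pool.Agent.Lib.MP_696deb_nt.Sm

namespace Box

variable (B : Box) (C : Cv)

/-- The number of points with a lift that has prescribed values. -/
noncomputable def yy (a : B.Mat) (k : ℕ) (P : B.PP) (Jev : Finset (Fin B.r))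
    (e : Fin B.r → C.A) : ℕ := ({x ∈ B.fib a | ∃ c ∈ C.Om (B.DD x) k (B.cls C x P),
      ∀ j ∈ Jev, c (sig (x j)) = e j} : Finset _).card

/-- The total number of lifts. -/
noncomputable def ww (a : B.Mat) (k : ℕ) (P : B.PP) : ℕ :=
  ∑ x ∈ B.fib a, (C.Om (B.DD x) k (B.cls C x P)).ncard

/-- The possible values. -/
noncomputable def EV (k : ℕ) (Jev : Finset (Fin B.r)) : Finset (Fin B.r → C.A) :=
  Fintype.piFinset fun j => if j ∈ Jev then (C.finite_tors (k + 1)).toFinset else {0}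

/-- The Selmer patterns that can be used for a step. -/
noncomputable def BJ (a : B.Mat) (j0 j1 : Fin B.r) (J : Finset (Fin B.r)) : Finset B.PP :=
  {b ∈ B.SA C a | B.Un b j0 ∧ b.1 (.inr j1) = 0 ∧ ∀ j ∈ J, B.Un b j}

variable {B C} {a : B.Mat} {k : ℕ} {P : B.PP} {J Jev : Finset (Fin B.r)} {e : Fin B.r → C.A}

theorem card_EV (k : ℕ) (Jev : Finset (Fin B.r)) :
    (B.EV C k Jev).card = 4 ^ ((k + 1) * Jev.card) := by
  rw [EV, Fintype.card_piFinset, pow_mul, ← prod_const (s := Jev), ← Fintype.prod_ite_mem Jev]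
  refine prod_congr rfl fun j _ => ?_
  split_ifs
  · rw [← Set.ncard_eq_toFinset_card _ (C.finite_tors (k + 1)), C.card_tors]
  · exact card_singleton _

theorem chain_two {D : ℤ} {S : Set ℕ} {c z : GQ → C.A} (h1 : C.IsZ D S (k + 1 + 1) c)
    (h2 : 2 ^ (k + 1) • c = z) : 2 • c ∈ C.Om D k z :=
  ⟨h1.two, by rw [← h2, pow_succ, mul_smul]⟩

theorem Wf.chain_fin (h : B.Wf) {x : Fin B.r → ℕ} (hx : x ∈ B.fib a) (k : ℕ) (z : GQ → C.A) :
    (C.Om (B.DD x) k z).Finite :=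
  (Cv.finite_Z (C.finite_AA (h.DD_sqf (mem_fib.1 hx).1).ne_zero) (k + 1)).subset fun _ hc => hc.1

theorem Yc_le_yy : B.Yc C a (k + 1) P J Jev e ≤ B.yy C a k P Jev e := by
  refine card_le_card fun x hx => ?_
  obtain ⟨hx, c, h1, h2, h3⟩ := mem_filter.1 hx
  exact mem_filter.2 ⟨hx, 2 • c, chain_two h1 h2, h3⟩

theorem Wf.sum_yy_le (h : B.Wf) : ∑ e ∈ B.EV C k Jev, B.yy C a k P Jev e ≤ B.ww C a k P := by
  simp only [yy, card_filter]
  rw [sum_comm]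
  refine sum_le_sum fun x hx => ?_
  rw [← card_filter, ← Set.ncard_coe_finset]
  refine (Set.ncard_le_ncard (fun e he => ?_) ((h.chain_fin hx k _).image
    fun c j => if j ∈ Jev then c (sig (x j)) else 0)).trans (Set.ncard_image_le (h.chain_fin hx k _))
  obtain ⟨he, c, h1, h2⟩ := mem_filter.1 he
  refine ⟨c, h1, funext fun j => ?_⟩
  have := Fintype.mem_piFinset.1 he j
  dsimp only
  split_ifs at this ⊢ with hj
  · exact h2 j hj
  · exact (mem_singleton.1 this).symm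

theorem Wf.ww_succ_le (h : B.Wf) (hd : ∀ Q ∈ B.SA C a, (∀ j ∈ Jev, B.Un Q j) → Q = 0) :
    B.ww C a (k + 1) P ≤ (B.SA C a).card * ∑ e ∈ B.EV C k Jev, B.Yc C a (k + 1) P ∅ Jev e := by
  simp only [Yc, card_filter]
  rw [sum_comm, mul_sum]
  refine sum_le_sum fun x hx => ?_
  have hD := (h.DD_sqf (mem_fib.1 hx).1).ne_zero
  refine (Cv.card_Om_succ (C.finite_AA hD)).trans (Nat.mul_le_mul (h.card_SA hx).le ?_)
  rw [← card_filter, ← Set.ncard_coe_finset]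
  refine Set.ncard_le_ncard_of_injOn (fun c j => if j ∈ Jev then c (sig (x j)) else 0) ?_ ?_
    (finite_toSet _)
  · rintro _ ⟨c, hc, rfl⟩
    refine mem_filter.2 ⟨Fintype.mem_piFinset.2 fun j => ?_, c, by simpa using hc.1, hc.2,
      fun j hj => by simp [hj]⟩
    split_ifs
    · exact (Set.Finite.mem_toFinset _).2 (hc.1.two.tors _)
    · exact mem_singleton_self _
  · rintro _ ⟨c, hc, rfl⟩ _ ⟨c', hc', rfl⟩ e
    refine sub_eq_zero.1 (Cv.detect (T := (fun j => sig (x j)) '' Jev)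
      (fun z hz h0 => h.det hd hx hz fun j hj => h0 _ ⟨j, hj, rfl⟩) (hc.1.two.sub hc'.1.two) ?_)
    rintro _ ⟨j, hj, rfl⟩
    have := congrFun e j
    simp only [if_pos (mem_coe.1 hj)] at this
    exact sub_eq_zero.2 this

theorem Wf.ww_zero (_h : B.Wf) (hP : P ∈ B.SA C a) : B.ww C a 0 P = (B.fib a).card := by
  rw [ww, card_eq_sum_ones]
  exact sum_congr rfl fun x hx => Cv.card_Om_zero (by rw [Cv.AA_zero]; exact isZ_of_mem hP hx)

theorem chain_ker {V : Type} [AddCommGroup V] {S : Finset V} (hS : ∀ u ∈ S, ∀ v ∈ S, u + v ∈ S)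
    {f : V → F2} (hf : ∀ u v, f (u + v) = f u + f v) : ∀ u ∈ ({u ∈ S | f u = 0} : Finset V),
      ∀ v ∈ ({u ∈ S | f u = 0} : Finset V), u + v ∈ ({u ∈ S | f u = 0} : Finset V) :=
  fun u hu v hv => mem_filter.2 ⟨hS u (mem_filter.1 hu).1 v (mem_filter.1 hv).1, by
    rw [hf, (mem_filter.1 hu).2, (mem_filter.1 hv).2, add_zero]⟩

theorem Un.add {P P' : B.PP} {j : Fin B.r} (h : B.Un P j) (h' : B.Un P' j) : B.Un (P + P') j :=
  ⟨by simp [h.1, h'.1], by simp [h.2, h'.2]⟩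

theorem Wf.add_mem_BJ (h : B.Wf) (j0 j1 : Fin B.r) : ∀ u ∈ B.BJ C a j0 j1 J,
    ∀ v ∈ B.BJ C a j0 j1 J, u + v ∈ B.BJ C a j0 j1 J := fun u hu v hv => by
  obtain ⟨u1, u2, u3, u4⟩ := mem_filter.1 hu
  obtain ⟨v1, v2, v3, v4⟩ := mem_filter.1 hv
  exact mem_filter.2 ⟨h.add_mem_SA u1 v1, u2.add v2, by simp [u3, v3],
    fun j hj => (u4 j hj).add (v4 j hj)⟩

theorem Wf.chain_half (h : B.Wf) {j0 j1 : Fin B.r} {J' : Finset (Fin B.r)} (f : B.PP → F2)
    (hf : ∀ u v, f (u + v) = f u + f v) {b : B.PP} (hb : b ∈ B.BJ C a j0 j1 J) (h1 : f b = 1)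
    (hJ : ∀ u ∈ B.BJ C a j0 j1 J, (∀ j ∈ J', B.Un u j) ↔ f u = 0) :
    2 * (B.BJ C a j0 j1 (J ∪ J')).card = (B.BJ C a j0 j1 J).card := by
  have e : B.BJ C a j0 j1 (J ∪ J') = {u ∈ B.BJ C a j0 j1 J | f u = 0} := by
    ext u
    rw [mem_filter (s := B.BJ C a j0 j1 J), ← and_congr_right (hJ u)]
    simp only [BJ, mem_filter, forall_mem_union, and_assoc]
  rw [e]
  exact le_antisymm (two_ker_le_card _ (h.add_mem_BJ j0 j1) f hf hb h1)
    (card_le_two_ker _ (h.add_mem_BJ j0 j1) f hf)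

theorem Wf.card_BJ (h : B.Wf) (j0 j1 : Fin B.r) :
    (B.SA C a).card ≤ 8 * (B.BJ C a j0 j1 ∅).card := by
  have a0 : ∀ u ∈ B.SA C a, ∀ v ∈ B.SA C a, u + v ∈ B.SA C a := fun _ hu _ hv => h.add_mem_SA hu hv
  have a1 := chain_ker a0 (f := fun u => u.1 (.inr j0)) fun _ _ => rfl
  have a2 := chain_ker a1 (f := fun u => u.2 (.inr j0)) fun _ _ => rfl
  have b0 := card_le_two_ker _ a0 (fun u => u.1 (.inr j0)) fun _ _ => rfl
  have b1 := card_le_two_ker _ a1 (fun u => u.2 (.inr j0)) fun _ _ => rfl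
  have b2 := card_le_two_ker _ a2 (fun u => u.1 (.inr j1)) fun _ _ => rfl
  have b3 := card_le_card (t := B.BJ C a j0 j1 ∅) (s := (((B.SA C a).filter
      fun u => u.1 (.inr j0) = 0).filter fun u => u.2 (.inr j0) = 0).filter
      fun u => u.1 (.inr j1) = 0) fun u hu => by
    simp only [mem_filter] at hu
    exact mem_filter.2 ⟨hu.1.1.1, ⟨hu.1.1.2, hu.1.2⟩, hu.2, by simp⟩
  omega

/-- One step of the flag. -/
theorem exists_step {K n m : ℕ} (hB : B.Hyp (2 * K ^ 2 * (2 * m + n + 3) + 1)) (hG : B.GenC C K a)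
    (hne : (B.fib a).Nonempty) (hP : P ∈ B.SA C a) {j0 j1 j2 : Fin B.r} (h0 : B.Un P j0)
    (h1 : P.1 (.inr j1) = 1) (h2 : P.2 (.inr j2) = 1) (hJ : J.card ≤ m) (hJev : Jev.card ≤ m)
    (hd : ∀ Q ∈ B.SA C a, (∀ j ∈ Jev, B.Un Q j) → Q = 0) (hb : 1 < (B.BJ C a j0 j1 J).card) :
    ∃ (b : B.PP) (σ : Sx n → Fin B.r), B.StepH C a P b J Jev σ ∧
      2 * (B.BJ C a j0 j1 (J ∪ univ.image σ)).card = (B.BJ C a j0 j1 J).card := by
  obtain ⟨x, hx⟩ := hne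
  have h := hB.wf
  have rel : ∀ Q ∈ B.SA C a, B.RelC C a Q := fun Q hQ => h.rel_of hx (isZ_of_mem hQ hx)
  have one : ∀ {w : Fin B.r → F2}, w ≠ 0 → ∃ j, w j = 1 := fun hw => by
    obtain ⟨j, hj⟩ := Function.ne_iff.1 hw
    exact ⟨j, (F2_cases _).resolve_left hj⟩
  have hF : (J ∪ Jev).card ≤ 2 * m := (card_union_le _ _).trans (by omega)
  have un : ∀ (σ : Sx n → Fin B.r) (u : B.PP), (∀ j, B.Un u (σ (.inl j))) → B.Un u (σ ia) →
      (∀ i, i ≠ ic → B.Un u (σ i)) ∧ ((∀ j ∈ univ.image σ, B.Un u j) ↔ B.Un u (σ ic)) :=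
    fun σ u k1 k2 => by
      have k3 : ∀ i, i ≠ ic → B.Un u (σ i) := by
        rintro (i | _ | _) hi
        exacts [k1 i, (hi rfl).elim, k2]
      refine ⟨k3, fun k => k _ (mem_image_of_mem _ (mem_univ _)), fun k => forall_mem_image.2
        fun i _ => ?_⟩
      by_cases hi : i = ic
      · exact hi ▸ k
      · exact k3 i hi
  by_cases hc : ∃ b ∈ B.BJ C a j0 j1 J, B.lg b.2 ≠ 0
  · obtain ⟨b, hb, hc⟩ := hc
    obtain ⟨j4, h4⟩ := one hc
    obtain ⟨σ, s1, s2, s3, s4, s5, s6⟩ := exists_dirs (n := n) (hB.mono (Nat.le_succ _)) hG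
      j0 j1 j2 j1 j4 1 0 0 1 _ hF
    have key : ∀ u ∈ B.BJ C a j0 j1 J, (∀ i, i ≠ ic → B.Un u (σ i)) ∧
        ((∀ j ∈ univ.image σ, B.Un u j) ↔ u.2 (.inr j4) = 0) := fun u hu => by
      obtain ⟨u1, u2, u3, -⟩ := mem_filter.1 hu
      obtain ⟨k1, k2, k3⟩ := s6 u (rel u u1) u2.1 u2.2
      obtain ⟨k4, k5⟩ := un σ u k1 ⟨by rw [k2.1, u3, mul_zero], by rw [k2.2, zero_mul]⟩
      exact ⟨k4, by rw [k5, Un, k3.1, k3.2]; simp⟩
    obtain ⟨b1, b2, -, b4⟩ := mem_filter.1 hb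
    obtain ⟨k1, k2, -⟩ := s6 P (rel P hP) h0.1 h0.2
    refine ⟨b, σ, ⟨s1, s3, s4, s5, fun i => notMem_union.1 (s2 i), hd, b1, k1, b4, (key b hb).1, ?_⟩,
      h.chain_half (fun u => u.2 (.inr j4)) (fun _ _ => rfl) hb h4 fun u hu => (key u hu).2⟩
    rw [k2.1, k2.2, h1, (s6 b (rel b b1) b2.1 b2.2).2.2.2, show b.2 (.inr j4) = 1 from h4]
    simp
  · push Not at hc
    obtain ⟨b, hb, b0⟩ := exists_mem_ne hb 0
    obtain ⟨b1, b2, -, b4⟩ := mem_filter.1 hb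
    obtain ⟨j3, h3⟩ := one fun k => b0 ((rel b b1).eq_zero (hB.mono (by omega)) k (hc b hb))
    obtain ⟨σ, s1, s2, s3, s4, s5, s6⟩ := exists_dirs (n := n) (hB.mono (Nat.le_succ _)) hG
      j0 j1 j2 j3 j2 0 1 1 0 _ hF
    have key : ∀ u ∈ B.BJ C a j0 j1 J, (∀ i, i ≠ ic → B.Un u (σ i)) ∧
        ((∀ j ∈ univ.image σ, B.Un u j) ↔ u.1 (.inr j3) = 0) := fun u hu => by
      obtain ⟨u1, u2, -, -⟩ := mem_filter.1 hu
      obtain ⟨k1, k2, k3⟩ := s6 u (rel u u1) u2.1 u2.2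
      obtain ⟨k4, k5⟩ := un σ u k1 ⟨by rw [k2.1, zero_mul], by
        rw [k2.2, one_mul]; exact congrFun (hc u hu) j2⟩
      exact ⟨k4, by rw [k5, Un, k3.1, k3.2]; simp⟩
    obtain ⟨k1, k2, -⟩ := s6 P (rel P hP) h0.1 h0.2
    refine ⟨b, σ, ⟨s1, s3, s4, s5, fun i => notMem_union.1 (s2 i), hd, b1, k1, b4, (key b hb).1, ?_⟩,
      h.chain_half (fun u => u.1 (.inr j3)) (fun _ _ => rfl) hb h3 fun u hu => (key u hu).2⟩
    rw [k2.1, k2.2, h2, (s6 b (rel b b1) b2.1 b2.2).2.2.1, show b.1 (.inr j3) = 1 from h3]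
    simp

theorem Wf.card_SA_le (h : B.Wf) {K : ℕ} (hG : B.GenC C K a) (hne : (B.fib a).Nonempty) :
    (B.SA C a).card ≤ K := by
  obtain ⟨x, hx⟩ := hne
  exact (card_le_card fun Q hQ => mem_filter.2 ⟨mem_univ _, h.rel_of hx (isZ_of_mem hQ hx)⟩).trans
    hG.g1

end Box

theorem flag_main (C : Cv) (K n : ℕ) (hn : 1 ≤ n) {ε : ℝ} (hε : 0 < ε) : ∃ c : ℕ, ∀ B : Box,
    B.Hyp c → ∀ a : B.Mat, B.GenC C K a → ∀ P ∈ B.SA C a, ∀ j0 j1 j2 : Fin B.r, B.Un P j0 →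
    P.1 (.inr j1) = 1 → P.2 (.inr j2) = 1 → ∀ Jev : Finset (Fin B.r), Jev.card ≤ K →
    (∀ Q ∈ B.SA C a, (∀ j ∈ Jev, B.Un Q j) → Q = 0) → ∀ (e : Fin B.r → C.A) (y : ℕ),
    (∀ J, B.Yc C a n P J Jev e ≤ y) →
    (B.Yc C a n P ∅ Jev e : ℝ) * (B.BJ C a j0 j1 ∅).card ≤
      y + ε * (B.fib a).card * (B.BJ C a j0 j1 ∅).card := by
  obtain ⟨c, hc⟩ := step_main C n (K * (n + 2) + K) hn (half_pos hε)
  refine ⟨max c (2 * K ^ 2 * (2 * (K * (n + 2) + K) + n + 3) + 1),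
    fun B hB a hG P hP j0 j1 j2 h0 h1 h2 Jev hJev hd e y hy => ?_⟩
  rcases (B.fib a).eq_empty_or_nonempty with hne | hne
  · simp [Box.Yc, hne]
  have key : ∀ (t : ℕ) (J : Finset (Fin B.r)), (B.BJ C a j0 j1 J).card = t →
      J.card + t * (n + 2) ≤ K * (n + 2) →
      (B.Yc C a n P J Jev e : ℝ) * t ≤ y + ε * (B.fib a).card * t := fun t => by
    induction t using Nat.strong_induction_on with
    | _ t ih =>
    intro J ht hJ
    have p0 : 0 ≤ ε * (B.fib a).card := by positivity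
    have y0 : (B.Yc C a n P J Jev e : ℝ) ≤ y := Nat.cast_le.2 (hy J)
    by_cases h3 : t ≤ 1
    · have : (t : ℝ) ≤ 1 := by exact_mod_cast h3
      have := mul_le_mul y0 this (by positivity) (by positivity)
      have : 0 ≤ ε * (B.fib a).card * t := by positivity
      linarith
    obtain ⟨b, σ, k1, k2⟩ := Box.exists_step (n := n) (m := K * (n + 2) + K)
      (hB.mono (le_max_right _ _)) hG hne hP h0 h1 h2 (J := J) (by omega) (by omega) hd (by omega)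
    have k3 := hc B (hB.mono (le_max_left _ _)) a P b J Jev σ e k1 (by omega) (by omega)
    have k4 : (J ∪ univ.image σ).card ≤ J.card + (n + 2) := (card_union_le _ _).trans
      (Nat.add_le_add_left (card_image_le.trans (by simp)) _)
    generalize hs : (B.BJ C a j0 j1 (J ∪ univ.image σ)).card = s at k2
    obtain rfl : t = 2 * s := by omega
    have k5 := ih s (by omega) _ hs (by nlinarith)
    have k6 := mul_le_mul_of_nonneg_right k3 (Nat.cast_nonneg s : (0 : ℝ) ≤ s)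
    push_cast
    linarith
  have k0 : (B.BJ C a j0 j1 ∅).card ≤ K := (card_filter_le _ _).trans (hB.wf.card_SA_le hG hne)
  exact key _ ∅ rfl (by simpa using k0)

theorem chain_main (C : Cv) (K n : ℕ) {ε : ℝ} (hε : 0 < ε) : ∃ c : ℕ, ∀ B : Box,
    B.Hyp c → ∀ a : B.Mat, B.GenC C K a → ∀ P ∈ B.SA C a, ∀ j0 j1 j2 : Fin B.r, B.Un P j0 →
    P.1 (.inr j1) = 1 → P.2 (.inr j2) = 1 →
    (B.ww C a n P : ℝ) ≤ (8 ^ n + ε) * (B.fib a).card := by
  induction n generalizing ε with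
  | zero =>
    refine ⟨0, fun B hB a _ P hP _ _ _ _ _ _ => ?_⟩
    rw [hB.wf.ww_zero hP]
    nlinarith [(Nat.cast_nonneg (B.fib a).card : (0 : ℝ) ≤ _)]
  | succ k ih =>
    obtain ⟨c, hc⟩ := ih (ε := ε / 16) (by positivity)
    obtain ⟨c', hc'⟩ := flag_main C K (k + 1) (by omega)
      (ε := ε / (16 * 4 ^ ((k + 1) * K) * (K + 1))) (by positivity)
    refine ⟨max (max c c') 1, fun B hB a hG P hP j0 j1 j2 h0 h1 h2 => ?_⟩
    rcases (B.fib a).eq_empty_or_nonempty with hne | hne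
    · simp [Box.ww, hne]
    have h := hB.wf
    obtain ⟨Jev, hJ, hd⟩ := Box.exists_Jev (hB.mono (le_max_right _ _)) hG
    have hd' : ∀ Q ∈ B.SA C a, (∀ j ∈ Jev, B.Un Q j) → Q = 0 := fun Q hQ =>
      hd Q (h.rel_of hne.choose_spec (Box.isZ_of_mem hQ hne.choose_spec))
    have k1 := hc B (hB.mono ((le_max_left _ _).trans (le_max_left _ _))) a hG P hP j0 j1 j2 h0 h1 h2
    have k2 := sum_le_sum fun e (_ : e ∈ B.EV C k Jev) => hc' B
      (hB.mono ((le_max_right _ _).trans (le_max_left _ _))) a hG P hP j0 j1 j2 h0 h1 h2 Jev hJ hd' e _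
      fun _ => Box.Yc_le_yy
    have k3 : (B.ww C a (k + 1) P : ℝ) ≤ 8 * (B.BJ C a j0 j1 ∅).card *
        ∑ e ∈ B.EV C k Jev, (B.Yc C a (k + 1) P ∅ Jev e : ℝ) := by
      exact_mod_cast (h.ww_succ_le hd').trans (Nat.mul_le_mul_right _ (h.card_BJ j0 j1))
    have k4 : ∑ e ∈ B.EV C k Jev, (B.yy C a k P Jev e : ℝ) ≤ B.ww C a k P := by
      exact_mod_cast h.sum_yy_le
    have k5 : ((B.BJ C a j0 j1 ∅).card : ℝ) ≤ K + 1 := by
      exact_mod_cast ((card_filter_le _ _).trans (h.card_SA_le hG hne)).trans (Nat.le_succ K)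
    have k6 : ((B.EV C k Jev).card : ℝ) ≤ 4 ^ ((k + 1) * K) := by
      rw [Box.card_EV]
      exact_mod_cast Nat.pow_le_pow_right (by norm_num) (Nat.mul_le_mul_left _ hJ)
    rw [← sum_mul, sum_add_distrib, sum_const, nsmul_eq_mul] at k2
    have k7 : (B.EV C k Jev).card * (ε / (16 * 4 ^ ((k + 1) * K) * (K + 1)) * (B.fib a).card *
        (B.BJ C a j0 j1 ∅).card) ≤ 4 ^ ((k + 1) * K) * (ε / (16 * 4 ^ ((k + 1) * K) * (K + 1)) *
          (B.fib a).card * (K + 1)) := by gcongr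
    rw [show 4 ^ ((k + 1) * K) * (ε / (16 * 4 ^ ((k + 1) * K) * (K + 1)) * (B.fib a).card * (K + 1))
      = ε / 16 * (B.fib a).card by field_simp] at k7
    rw [pow_succ]
    linarith

end Pool.Agent.Lib.MP_696deb_nt.Sm
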