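import Pool.Agent.Lib.MP_696deb_nt.Sm.Main0
import Pool.Agent.Lib.MP_696deb_nt.Sm.Grid
import Pool.Agent.Lib.MP_696deb_nt.Sm.GoodB
import Pool.Agent.Lib.MP_696deb_nt.Sm.PatB

/-! The halving step on a fibre of a box. -/

set_option autoImplicit false

open scoped Classical
open Finset Function

namespace Pool.Agent.Lib.MP_696deb_nt.Sm

namespace Box

variable (B : Box) (C : Cv)

/-- The class of `P` at `x` has a relaxed lift with prescribed values. -/
def Lx (n : ℕ) (P : B.PP) (J Jev : Finset (Fin B.r)) (e : Fin B.r → C.A) (x : Fin B.r → ℕ) :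
    Prop := ∃ c, C.IsZ (B.DD x) (x '' J) (n + 1) c ∧ 2 ^ n • c = B.cls C x P ∧
      ∀ j ∈ Jev, 2 • c (sig (x j)) = e j

noncomputable def Yc (a : B.Mat) (n : ℕ) (P : B.PP) (J Jev : Finset (Fin B.r))
    (e : Fin B.r → C.A) : ℕ := ({x ∈ B.fib a | B.Lx C n P J Jev e x} : Finset _).card

/-- The pattern with the grid directions removed. -/
noncomputable def off {n : ℕ} (σ : Sx n → Fin B.r) (A : B.Pat) : B.Pat :=
  fun k => if ∃ i, k = .inr (σ i) then 0 else A k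

/-- The grid attached to a sample. -/
noncomputable def gd {n M : ℕ} (σ : Sx n → Fin B.r) (x0 : Fin B.r → ℕ)
    (pr : Sx n → Fin (M + 1) → ℕ) (f : Fin (M + 1) → GQ → Gm n M → F2) (P b : B.PP)
    (J Jev : Finset (Fin B.r)) : Gd n M where
  pr := pr
  Df := B.D0 * ∏ j with j ∉ Set.range σ, (x0 j : ℤ)
  f := f
  J := J.image x0
  Jev := Jev.image x0
  a1 := B.val x0 (B.off σ P.1)
  a2 := B.val x0 (B.off σ P.2)
  al i := P.1 (.inr (σ i))
  be i := P.2 (.inr (σ i))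
  b1 y := B.val (gpt σ x0 pr y) b.1
  b2 y := B.val (gpt σ x0 pr y) b.2

/-- The combinatorial hypotheses of the step. -/
structure StepH {n : ℕ} (a : B.Mat) (P b : B.PP) (J Jev : Finset (Fin B.r))
    (σ : Sx n → Fin B.r) : Prop where
  inj : Injective σ
  w0 : ∀ j, σ (.inl j) ∈ B.I 0
  w1 : σ ic ∈ B.I 1
  w2 : σ ia ∈ B.I 2
  out : ∀ i, σ i ∉ J ∧ σ i ∉ Jev
  det : ∀ Q ∈ B.SA C a, (∀ j ∈ Jev, B.Un Q j) → Q = 0
  hb : b ∈ B.SA C a
  hU : ∀ j, B.Un P (σ (.inl j))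
  hJ : ∀ j ∈ J, B.Un b j
  hS : ∀ i, i ≠ ic → B.Un b (σ i)
  pair : P.1 (.inr (σ ia)) * b.2 (.inr (σ ic)) + P.2 (.inr (σ ia)) * b.1 (.inr (σ ic)) = 1

variable {B C} {n M : ℕ} {σ : Sx n → Fin B.r} {x0 : Fin B.r → ℕ}
  {pr : Sx n → Fin (M + 1) → ℕ} {f : Fin (M + 1) → GQ → Gm n M → F2} {P b : B.PP}
  {J Jev : Finset (Fin B.r)} {a : B.Mat}

theorem step_prod {β : Type} [CommMonoid β] (h : Injective σ) (F : Fin B.r → β) :
    ∏ j, F j = (∏ j with j ∉ Set.range σ, F j) * ∏ i, F (σ i) := by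
  rw [← prod_filter_mul_prod_filter_not univ (· ∈ Set.range σ), mul_comm, ← prod_image h.injOn]
  congr 2
  ext j
  simp

theorem step_Df (y : Zg n M) : ∏ j with j ∉ Set.range σ, (gpt σ x0 pr y j : ℤ) =
    ∏ j with j ∉ Set.range σ, (x0 j : ℤ) :=
  prod_congr rfl fun j hj => by rw [gpt_not x0 pr y (mem_filter.1 hj).2]

theorem step_off (y : Zg n M) (A : B.Pat) :
    B.val x0 (B.off σ A) = B.val (gpt σ x0 pr y) (B.off σ A) := by
  refine prod_congr rfl fun k _ => ?_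
  rcases k with g | j
  · rfl
  · by_cases hj : j ∈ Set.range σ
    · obtain ⟨i, rfl⟩ := hj
      rw [off, if_pos ⟨i, rfl⟩]
      simp
    · simp only [gen, Sum.elim_inr, gpt_not x0 pr y hj]

theorem step_val (h : Injective σ) (y : Zg n M) (A : B.Pat) :
    B.val x0 (B.off σ A) * ∏ i, (pr i (y i) : ℤ) ^ (A (.inr (σ i))).val =
      B.val (gpt σ x0 pr y) A := by
  rw [step_off (pr := pr) y, val, val, Fintype.prod_sum_type (α₁ := B.Sg),
    Fintype.prod_sum_type (α₁ := B.Sg), mul_assoc, step_prod h, step_prod h fun j => B.gen (gpt σ x0 pr y) (.inr j) ^ (A (.inr j)).val]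
  congr 1
  · exact prod_congr rfl fun g _ => by rw [off, if_neg (by simp)]
  rw [prod_eq_one (s := univ) fun i _ => by rw [off, if_pos ⟨i, rfl⟩]; simp, mul_one]
  congr 1
  · refine prod_congr rfl fun j hj => ?_
    rw [off, if_neg]
    rintro ⟨i, hi⟩
    exact (mem_filter.1 hj).2 ⟨i, (Sum.inr.inj hi).symm⟩
  · exact prod_congr rfl fun i _ => by simp only [gen, Sum.elim_inr, gpt_apply x0 pr y h]

theorem gd_D (h : Injective σ) (y : Zg n M) :
    (B.gd σ x0 pr f P b J Jev).D y = B.DD (gpt σ x0 pr y) := by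
  rw [DD, step_prod h, step_Df, ← mul_assoc]
  simp only [gpt_apply x0 pr y h]
  rfl

theorem gd_a (h : Injective σ) (y : Zg n M) :
    (B.gd σ x0 pr f P b J Jev).a C y = B.cls C (gpt σ x0 pr y) P := by
  rw [cls, ← step_val h, ← step_val h]
  rfl

/-- Detection of Selmer classes by their values at the primes of `Jev`. -/
theorem Wf.det (h : B.Wf) (hd : ∀ Q ∈ B.SA C a, (∀ j ∈ Jev, B.Un Q j) → Q = 0)
    {x : Fin B.r → ℕ} (hx : x ∈ B.fib a) {c : GQ → C.A} (hc : C.IsZ (B.DD x) ∅ 1 c)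
    (h0 : ∀ j ∈ Jev, c (sig (x j)) = 0) : c = 0 := by
  have hx' := (mem_fib.1 hx).1
  obtain ⟨Q, rfl⟩ := h.exists_cls hx' hc
  rw [hd Q (h.mem_SA hx hc) fun j hj => C.pt2_eq_zero ((h.cls_sig hx' Q j).symm.trans (h0 j hj)),
    h.cls_zero hx']

theorem gd_ok (h : B.Wf) (hn : 1 ≤ n) (hs : B.StepH C a P b J Jev σ) (hp : ∀ i, Injective (pr i))
    (hx : ∀ y, gpt σ x0 pr y ∈ B.fib a)
    (hk : FKit pr (B.D0 * ∏ j with j ∉ Set.range σ, (x0 j : ℤ)) f) :
    (B.gd σ x0 pr f P b J Jev).Ok C := by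
  have hi := hs.inj
  have hx' := fun y => (mem_fib.1 (hx y)).1
  have ga := fun y => gpt_apply x0 pr y hi
  have hm : ∀ i s, pr i s ∈ B.X (σ i) := fun i s => ga (fun _ => s) i ▸ mem_pts.1 (hx' _) (σ i)
  have hout : ∀ j ∈ J ∪ Jev, j ∉ Set.range σ := by
    rintro _ hj ⟨i, rfl⟩
    exact (mem_union.1 hj).elim (hs.out i).1 (hs.out i).2
  have hsig : ∀ y j (A : B.Pat), chi (B.val (gpt σ x0 pr y) A) (sig (gpt σ x0 pr y j)) =
      A (.inr j) := fun y j A => h.chi_val_sig (hx' y) (k := .inr j) trivial A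
  have hsq : ∀ y : Zg n M, Squarefree ((B.D0 * ∏ j with j ∉ Set.range σ, (x0 j : ℤ)) *
      ∏ i, (pr i (y i) : ℤ)) := fun y => by
    have := h.DD_sqf (hx' y)
    rwa [← gd_D (f := f) (P := P) (b := b) (J := J) (Jev := Jev) hi] at this
  have hoff : ∀ i s (A : B.Pat), ¬ (pr i s : ℤ) ∣ B.val x0 (B.off σ A) := fun i s A hd => by
    have hp := Nat.prime_iff_prime_int.1 (h.prime _ _ (hm i s))
    rw [step_off (pr := pr) fun _ => s, val] at hd
    obtain ⟨k, -, hk⟩ := hp.exists_mem_finset_dvd hd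
    have k0 : B.off σ A k ≠ 0 := fun e => hp.not_dvd_one (by simpa [e] using hk)
    have k1 := hp.dvd_of_dvd_pow hk
    rcases k with (_ | q) | j
    · exact hp.not_dvd_one (dvd_neg.1 k1)
    · refine h.cop _ _ (hm i s) (k1.trans ?_)
      have := (Nat.mem_primeFactors.1 q.2).2.1
      exact Int.natCast_dvd.2 (by simpa [Int.natAbs_mul] using this)
    · have e : pr i s = gpt σ x0 pr (fun _ => s) j := (Nat.prime_dvd_prime_iff_eq
        (h.prime _ _ (hm i s)) (h.prime _ _ (mem_pts.1 (hx' _) j))).1 (Int.natCast_dvd_natCast.1 k1)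
      exact k0 (if_pos ⟨i, congrArg _ (h.inj (hx' _) (e.symm.trans (ga (fun _ => s) i).symm))⟩)
  refine ⟨hn, fun i s => h.prime _ _ (hm i s), fun i s hd => ?_, fun i s i' s' e => ?_,
    (hsq 0).squarefree_of_dvd (dvd_mul_right _ _), fun i s s' v hv => ?_, fun i s s' i' t hne => ?_,
    hk, fun q hq => ?_, fun i s => hoff i s _, fun i s => hoff i s _, hs.hU, fun y c hc h0 => ?_,
    fun y => ⟨h.val_ne (hx' y) _, h.val_ne (hx' y) _⟩, fun y => ?_, fun y q hq hne => ?_,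
    fun y => ?_⟩
  · have hp := Nat.prime_iff_prime_int.1 (h.prime _ _ (hm i s))
    rcases hp.dvd_or_dvd hd with k | k
    · exact h.cop _ _ (hm i s) (k.mul_right _)
    · exact hp.not_isUnit (hsq (fun _ => s) _ (mul_dvd_mul k (dvd_prod_of_mem _ (mem_univ i))))
  · obtain rfl : i = i' := hi (h.disj _ _ _ (hm i s) (by rw [show pr i s = pr i' s' from e]; exact hm _ _))
    exact ⟨rfl, hp i e⟩
  · rcases hv with rfl | ⟨hv, hd⟩
    · exact h.chi_small (hm i s) (hm i s') (.inl rfl)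
    change (v : ℤ) ∣ 30 * (B.D0 * _) at hd
    rw [← mul_assoc] at hd
    rcases (Nat.prime_iff_prime_int.1 hv).dvd_or_dvd hd with k | k
    · exact h.chi_small (hm i s) (hm i s') (.inr ⟨hv, k⟩)
    obtain ⟨j, hj, k⟩ := (Nat.prime_iff_prime_int.1 hv).exists_mem_finset_dvd k
    have hj := (mem_filter.1 hj).2
    have e := fun y => gpt_not x0 pr y hj
    obtain rfl : v = x0 j := (Nat.prime_dvd_prime_iff_eq hv
      (e 0 ▸ h.prime _ _ (mem_pts.1 (hx' 0) j))).1 (Int.natCast_dvd_natCast.1 k)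
    have := h.chi_cross (hx fun _ => s) (hx fun _ => s') (i := σ i) (j := j)
      (fun k => hj ⟨i, k⟩) ((e _).trans (e _).symm)
    rwa [e, ga, ga] at this
  · have := h.chi_cross (hx (update (fun _ => t) i s)) (hx (update (fun _ => t) i s')) (i := σ i)
      (j := σ i') (fun k => hne (hi k).symm) (by rw [ga, ga, update_of_ne hne, update_of_ne hne])
    rwa [ga, ga, ga, update_of_ne hne, update_self, update_self] at this
  · obtain ⟨j, hj, rfl⟩ := mem_image.1 hq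
    have hj := hout j (mem_union_left _ hj)
    have m := gpt_not x0 pr 0 hj ▸ mem_pts.1 (hx' 0) j
    refine ⟨h.prime _ _ m, fun k => h.cop _ _ m ((Int.natCast_dvd_natCast.2 k).mul_right _), ?_⟩
    exact (dvd_prod_of_mem (fun j => (x0 j : ℤ)) (mem_filter.2 ⟨mem_univ j, hj⟩)).mul_left _
  · rw [gd_D hi] at hc
    refine h.det hs.det (hx y) hc fun j hj => ?_
    rw [gpt_not x0 pr y (hout j (mem_union_right _ hj))]
    exact h0 _ (mem_image_of_mem _ hj)
  · rw [gd_D hi]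
    exact isZ_of_mem hs.hb (hx y)
  · rcases hq with hq | ⟨i, rfl⟩
    · obtain ⟨j, hj, rfl⟩ := mem_image.1 hq
      rw [← gpt_not x0 pr y (hout j (mem_union_left _ hj))]
      exact ⟨(hsig y j _).trans (hs.hJ j hj).1, (hsig y j _).trans (hs.hJ j hj).2⟩
    · have k := hs.hS i (by rintro rfl; exact hne rfl)
      change chi _ (sig (pr i (y i))) = 0 ∧ chi _ (sig (pr i (y i))) = 0
      rw [← ga]
      exact ⟨(hsig y _ _).trans k.1, (hsig y _ _).trans k.2⟩
  · change _ * chi (B.val _ _) (sig (pr ic (y ic))) + _ * chi (B.val _ _) (sig (pr ic (y ic))) = 1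
    rw [← ga, hsig, hsig]
    exact hs.pair

theorem gd_lf (h : B.Wf) (hs : B.StepH C a P b J Jev σ) (hx : ∀ y, gpt σ x0 pr y ∈ B.fib a)
    (e : Fin B.r → C.A) : ∃ e' : ℕ → C.A, ∀ y,
      ((∃ c, (B.gd σ x0 pr f P b J Jev).Lf C e' (B.gd σ x0 pr f P b J Jev).J y c) ↔
        B.Lx C n P J Jev e (gpt σ x0 pr y)) ∧
      ((∃ c, (B.gd σ x0 pr f P b J Jev).Lf C e' ((B.gd σ x0 pr f P b J Jev).J2 y) y c) ↔
        B.Lx C n P (J ∪ univ.image σ) Jev e (gpt σ x0 pr y)) := by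
  have hi := hs.inj
  have hout : ∀ j ∈ J ∪ Jev, j ∉ Set.range σ := by
    rintro _ hj ⟨i, rfl⟩
    exact (mem_union.1 hj).elim (hs.out i).1 (hs.out i).2
  refine ⟨extend (gpt σ x0 pr 0) e 0, fun y => ?_⟩
  have e1 : ((J.image x0 : Finset ℕ) : Set ℕ) = gpt σ x0 pr y '' J := by
    rw [coe_image]
    exact Set.image_congr fun j hj => (gpt_not x0 pr y (hout j (mem_union_left _ hj))).symm
  have e2 : (B.gd σ x0 pr f P b J Jev).J2 y = gpt σ x0 pr y '' (J ∪ univ.image σ : Finset _) := by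
    rw [coe_union, Set.image_union, ← e1, coe_image (s := univ), coe_univ, Set.image_univ,
      ← Set.range_comp]
    exact congrArg (fun F => _ ∪ Set.range F) (funext fun i => (gpt_apply x0 pr y hi i).symm)
  have e3 : ∀ c : GQ → C.A, (∀ q ∈ Jev.image x0, 2 • c (sig q) = extend (gpt σ x0 pr 0) e 0 q) ↔
      ∀ j ∈ Jev, 2 • c (sig (gpt σ x0 pr y j)) = e j := fun c => by
    rw [forall_mem_image]
    refine forall₂_congr fun j hj => ?_
    have hj := hout j (mem_union_right _ hj)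
    rw [gpt_not x0 pr y hj]
    conv_lhs => rw [← gpt_not x0 pr 0 hj, (h.inj (mem_fib.1 (hx 0)).1).extend_apply,
      gpt_not x0 pr 0 hj]
  constructor <;> refine exists_congr fun c => ?_
  · rw [Gd.Lf, gd_D hi, gd_a hi, ← e1, ← e3]; rfl
  · rw [Gd.Lf, gd_D hi, gd_a hi, e2, ← e3]; rfl

end Box

theorem step_main (C : Cv) (n m : ℕ) (hn : 1 ≤ n) {ε : ℝ} (hε : 0 < ε) : ∃ c : ℕ, ∀ B : Box,
    B.Hyp c → ∀ (a : B.Mat) (P b : B.PP) (J Jev : Finset (Fin B.r)) (σ : Sx n → Fin B.r)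
    (e : Fin B.r → C.A), B.StepH C a P b J Jev σ → J.card ≤ m → Jev.card ≤ m →
    (B.Yc C a n P J Jev e : ℝ) ≤
      B.Yc C a n P (J ∪ univ.image σ) Jev e / 2 + ε * (B.fib a).card := by
  obtain ⟨N, hN⟩ := grid_main C n m
  have p1 : 0 < ε / (4 * (N + 1)) := by positivity
  obtain ⟨M, hM⟩ := good_count n (n + 1) N p1 (β := ε / 8) (by positivity)
  obtain ⟨c, hc⟩ := samp_main n M hn (ε := ε / 4) (by positivity)
  refine ⟨c, fun B hB a P b J Jev σ e hs hJ hJ' => ?_⟩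
  refine (hc B hB a σ hs.inj hs.w0 hs.w1 hs.w2 (fun Ph => ¬ Good (n + 1) N (ε / (4 * (N + 1))) Ph)
    (ε / 8) (N * (ε / (4 * (N + 1)))) (by positivity)
    (fun Ph h i hi hh => mt fun k => k.add (by omega) hi hh) (by convert hM) (B.Lx C n P J Jev e)
    (B.Lx C n P (J ∪ univ.image σ) Jev e) fun x0 pr f hp hx hk hg => ?_).trans ?_
  · obtain ⟨e', he⟩ := Box.gd_lf (f := f) hB.wf hs hx e
    have := hN M (B.gd σ x0 pr f P b J Jev) e' _ (Box.gd_ok hB.wf hn hs hp hx hk)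
      (card_image_le.trans hJ) (card_image_le.trans hJ') (not_not.1 hg)
    simp only [fun y => (he y).1, fun y => (he y).2] at this
    convert this
  · refine add_le_add (le_of_eq (by rw [Box.Yc])) (mul_le_mul_of_nonneg_right ?_ (by positivity))
    have : N * (ε / (4 * (N + 1))) ≤ ε / 4 := by
      rw [← mul_div_assoc, div_le_div_iff₀ (by positivity) (by positivity)]
      nlinarith [(Nat.cast_nonneg N : (0 : ℝ) ≤ N)]
    linarith

end Pool.Agent.Lib.MP_696deb_nt.Sm
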