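import Pool.Agent.Lib.MP_696deb_nt.Sm.Hilb
import Pool.Agent.Lib.MP_696deb_nt.VarChange

/-! Curves with rational two-torsion, twisted Galois action, local conditions. -/

set_option autoImplicit false

open scoped Classical
open WeierstrassCurve WeierstrassCurve.Affine

namespace Pool.Agent.Lib.MP_696deb_nt.Sm

section
variable {K : Type} [Field K] {W : WeierstrassCurve K} {e1 e2 e3 : K}

theorem ell_ext {x y x' y' : K} {h : W.toAffine.Nonsingular x y} {h' : W.toAffine.Nonsingular x' y'}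
    (hx : x = x') (hy : y = y') : Point.some x y h = .some x' y' h' := by
  subst hx hy
  rfl

/-- A square root of `x(2 Q) - e`. -/
noncomputable def ell_s (W : WeierstrassCurve K) (e : K) : W.toAffine.Point → K
  | .zero => 0
  | .some u w _ => ((u - e) ^ 2 - (3 * e ^ 2 + 2 * W.a₂ * e + W.a₄)) / (2 * w)

theorem ell_s_some (e : K) {u w : K} (h : W.toAffine.Nonsingular u w) :
    ell_s W e (.some u w h) = ((u - e) ^ 2 - (3 * e ^ 2 + 2 * W.a₂ * e + W.a₄)) / (2 * w) := rfl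

theorem ell_s_neg (h : Split W e1 e2 e3) (e : K) (P : W.toAffine.Point) :
    ell_s W e (-P) = -ell_s W e P := by
  rcases P with _ | ⟨u, w, hP⟩
  · exact neg_zero.symm
  · rw [Point.neg_some, ell_s_some, ell_s_some, h.negY_eq, mul_neg, div_neg]

variable [DecidableEq K]

theorem ell_y (h : Split W e1 e2 e3) {u w : K} {hP : W.toAffine.Nonsingular u w} :
    2 • Point.some u w hP = 0 ↔ w = 0 := by
  constructor
  · intro h2
    rw [two_nsmul, add_eq_zero_iff_eq_neg, Point.neg_some, Point.some.injEq, h.negY_eq] at h2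
    exact (mul_eq_zero.1 (show 2 * w = 0 by linear_combination h2.2)).resolve_left h.two
  · rintro rfl
    exact h.two_nsmul_of_y_eq_zero hP

theorem ell_T12 (h : Split W e1 e2 e3) : h.swap12.T + h.T = h.swap13.T := by
  obtain ⟨x0, y0, hP0, hadd0, -, f2, -⟩ := h.swap23.add_T h.swap12.nonsingular_root h.h12.symm
  have h2 : 2 • Point.some x0 y0 hP0 = 0 := by
    rw [← hadd0, nsmul_add, h.swap23.two_nsmul_T, h.two_nsmul_of_y_eq_zero, add_zero]
  rw [sub_self, mul_zero, mul_eq_zero, sub_eq_zero, sub_eq_zero] at f2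
  exact hadd0.trans (ell_ext (f2.resolve_right h.h12.symm) ((ell_y h).1 h2))

theorem ell_add_T (h : Split W e1 e2 e3) {P : W.toAffine.Point} (hP : 2 • P ≠ 0) :
    ell_s W e1 (P + h.T) = ell_s W e1 P ∧ ell_s W e2 (P + h.T) = -ell_s W e2 P := by
  rcases P with _ | ⟨x, y, hQ⟩
  · exact absurd (nsmul_zero 2) hP
  have hy : y ≠ 0 := fun e => hP ((ell_y h).2 e)
  have heq := (h.nonsingular_iff x y).mp hQ
  have hx : x ≠ e1 := by
    rintro rfl
    exact hy (pow_eq_zero_iff two_ne_zero |>.mp (by rw [heq]; ring))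
  have hx' : x - e1 ≠ 0 := sub_ne_zero.mpr hx
  have n12 := sub_ne_zero.mpr h.h12
  have n13 := sub_ne_zero.mpr h.h13
  have n2 := h.two
  obtain ⟨x', y', hP', hadd, f1, f2, -⟩ := h.add_T hQ hx
  have f4 : y' * (x - e1) ^ 2 = -y * ((e1 - e2) * (e1 - e3)) := by
    have e : Point.some x y hQ + h.T = _ := Point.add_of_X_ne hx
    obtain ⟨a, b⟩ := (Point.some.injEq ..).mp (hadd.symm.trans e)
    have hl : W.toAffine.slope x e1 y 0 * (x - e1) = y := by
      rw [slope_of_X_ne hx, sub_zero, div_mul_cancel₀ _ hx']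
    rw [addY, h.negY_eq, negAddY, ← a] at b
    generalize W.toAffine.slope x e1 y 0 = l at hl b
    rw [b, ← f1]
    linear_combination (-(x' - x) * (x - e1)) * hl
  have g1 : x' = e1 + (e1 - e2) * (e1 - e3) / (x - e1) := by
    rw [← f1, mul_div_cancel_right₀ _ hx']
    ring
  have g2 : y' = -y * ((e1 - e2) * (e1 - e3)) / (x - e1) ^ 2 := by
    rw [← f4, mul_div_cancel_right₀ _ (pow_ne_zero 2 hx')]
  rw [hadd]
  simp only [ell_s_some, h.a2, h.a4]
  rw [g1, g2]
  constructor <;> field_simp <;> ring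

theorem ell_sq (h : Split W e1 e2 e3) {Q : W.toAffine.Point} {x y : K}
    {hP : W.toAffine.Nonsingular x y} (hQ : 2 • Q = .some x y hP) :
    ell_s W e1 Q * ell_s W e1 Q = x - e1 := by
  rcases Q with _ | ⟨u, w, hR⟩
  · exact absurd (hQ.symm.trans (nsmul_zero 2)) (Point.some_ne_zero _)
  have hw : w ≠ 0 := fun e => Point.some_ne_zero _ (hQ.symm.trans ((ell_y h).2 e))
  have heq := (h.nonsingular_iff u w).mp hR
  have n2 := h.two
  have hy2 : w ≠ W.toAffine.negY u w := by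
    rw [h.negY_eq]
    intro h0
    apply mul_ne_zero h.two hw
    linear_combination h0
  rw [two_nsmul, Point.add_self_of_Y_ne hy2] at hQ
  have hx := ((Point.some.injEq ..).mp hQ).1
  rw [slope_of_Y_ne rfl hy2, h.negY_eq, sub_neg_eq_add, ← two_mul w] at hx
  rw [← hx, ell_s_some]
  simp only [addX, toAffine, h.a1, h.a2, h.a4]
  field_simp
  linear_combination (4 * (2 * u - e2 - e3)) * heq

theorem ell_add_k (h : Split W e1 e2 e3) {P : W.toAffine.Point} (hP : 2 • P ≠ 0) (k : F2) :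
    ell_s W e1 (P + k.val • h.T) = ell_s W e1 P ∧
      ell_s W e2 (P + k.val • h.T) = (sn k : K) * ell_s W e2 P ∧
      ell_s W e3 (P + k.val • h.T) = (sn k : K) * ell_s W e3 P := by
  rcases F2_cases k with rfl | rfl
  · simp [sn_zero]
  · rw [ZMod.val_one, one_nsmul, sn_one, Int.cast_neg, Int.cast_one, neg_one_mul, neg_one_mul]
    exact ⟨(ell_add_T h hP).1, (ell_add_T h hP).2, (ell_add_T h.swap23 hP).2⟩

theorem ell_s_sn (h : Split W e1 e2 e3) (e : K) (c : F2) (P : W.toAffine.Point) :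
    ell_s W e (sn c • P) = (sn c : K) * ell_s W e P := by
  rcases F2_cases c with rfl | rfl
  · simp [sn_zero]
  · rw [sn_one, neg_one_zsmul, ell_s_neg h, Int.cast_neg, Int.cast_one, neg_one_mul]

end

theorem ell_two {A : Type} [AddCommGroup A] {T : A} (h : 2 • T = 0) (a b : F2) :
    (a + b).val • T = a.val • T + b.val • T := by
  rcases F2_cases a with rfl | rfl <;> rcases F2_cases b with rfl | rfl
  · simp
  · simp
  · simp
  · rw [show (1 + 1 : F2) = 0 by decide, ZMod.val_zero, ZMod.val_one, zero_nsmul, one_nsmul,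
      ← two_nsmul, h]

theorem ell_sn {a b : F2} {r t : Qb} (h : (sn a : Qb) * r = (sn b : Qb) * t) :
    r = (sn (a + b) : Qb) * t := by
  have h1 : (sn a : Qb) * sn a = 1 := by
    rcases F2_cases a with rfl | rfl <;> simp [sn_zero, sn_one]
  rw [sn_add, Int.cast_mul, mul_assoc, ← h, ← mul_assoc, h1, one_mul]

/-- The roots of a curve with good reduction outside 2, 3, 5. -/
structure Cv where
  e1 : ℤ
  e2 : ℤ
  e3 : ℤ
  ne : (e1 - e2) * (e1 - e3) * (e2 - e3) ≠ 0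
  good : ∀ p : ℕ, p.Prime → (p : ℤ) ∣ (e1 - e2) * (e1 - e3) * (e2 - e3) → p ∣ 30

namespace Cv

variable (C : Cv)

/-- The curve `y ^ 2 = (x - e1) (x - e2) (x - e3)`. -/
def W (F : Type) [Field F] : WeierstrassCurve F :=
  ⟨0, -((C.e1 : F) + C.e2 + C.e3), 0, (C.e1 : F) * C.e2 + (C.e1 : F) * C.e3 + (C.e2 : F) * C.e3,
    -((C.e1 : F) * C.e2 * C.e3)⟩

abbrev Pt (F : Type) [Field F] := (C.W F).toAffine.Point

abbrev NS {F : Type} [Field F] (x y : F) : Prop := (C.W F).toAffine.Nonsingular x y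

/-- The points over the algebraic numbers. -/
abbrev A := C.Pt Qb

theorem ne12 : C.e1 - C.e2 ≠ 0 := left_ne_zero_of_mul (left_ne_zero_of_mul C.ne)

theorem ne13 : C.e1 - C.e3 ≠ 0 := right_ne_zero_of_mul (left_ne_zero_of_mul C.ne)

theorem ne23 : C.e2 - C.e3 ≠ 0 := right_ne_zero_of_mul C.ne

theorem split : Split (C.W Qb) C.e1 C.e2 C.e3 :=
  ⟨rfl, rfl, rfl, rfl, rfl, by exact_mod_cast sub_ne_zero.1 C.ne12,
    by exact_mod_cast sub_ne_zero.1 C.ne13, by exact_mod_cast sub_ne_zero.1 C.ne23, two_ne_zero⟩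

theorem vc (g : GQ) : VC (g : Qb →+* Qb) (C.W Qb) (C.W Qb) 1 0 0 0 := by
  constructor <;> simp [W]

/-- The Galois action on points. -/
noncomputable def act (g : GQ) : C.A →+ C.A := (C.vc g).hom

/-- The two-torsion point with the given pair of bits. -/
noncomputable def pt2 (al be : F2) : C.A := al.val • C.split.swap12.T + be.val • C.split.T

/-- The Galois action twisted by the quadratic character of `D`. -/
noncomputable def tw (D : ℤ) (g : GQ) (P : C.A) : C.A := sn (chi D g) • C.act g P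

/-- The homomorphism to the two-torsion with the given pair of characters. -/
noncomputable def kum (d1 d2 : ℤ) (g : GQ) : C.A := C.pt2 (chi d1 g) (chi d2 g)

/-- The coboundary of a point. -/
noncomputable def cob (D : ℤ) (Q : C.A) (g : GQ) : C.A := C.tw D g Q - Q

/-- First Kummer coordinate of a two-torsion point on the twist by `D`. -/
def dl1 (D : ℤ) (al be : F2) : ℤ :=
  (D * (C.e2 - C.e1)) ^ al.val * ((C.e1 - C.e2) * (C.e1 - C.e3)) ^ be.val

/-- Second Kummer coordinate of a two-torsion point on the twist by `D`. -/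
def dl2 (D : ℤ) (al be : F2) : ℤ :=
  ((C.e2 - C.e1) * (C.e2 - C.e3)) ^ al.val * (D * (C.e1 - C.e2)) ^ be.val

/-- The local condition at `v`; the index `0` stands for the real place. -/
def Loc (v : ℕ) (D : ℤ) (c : GQ → C.A) : Prop := ∃ Q : C.A, ∀ g ∈ Gv v, c g = C.cob D Q g

theorem act_some (g : GQ) {x y : Qb} (h : C.NS x y) :
    ∃ h', C.act g (.some x y h) = .some (g x) (g y) h' := by
  refine ⟨by simpa using ((C.vc g).nonsingular x y).mpr h, ?_⟩
  exact ((C.vc g).hom_some h).trans (ell_ext (by simp) (by simp))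

theorem act_mul (g h : GQ) (P : C.A) : C.act (g * h) P = C.act g (C.act h P) := by
  rcases P with _ | ⟨x, y, hP⟩
  · rw [← Point.zero_def, map_zero, map_zero, map_zero]
  · obtain ⟨h1, e1⟩ := C.act_some h hP
    obtain ⟨h2, e2⟩ := C.act_some g h1
    obtain ⟨h3, e3⟩ := C.act_some (g * h) hP
    rw [e1, e2, e3]
    rfl

theorem act_one (P : C.A) : C.act 1 P = P := by
  rcases P with _ | ⟨x, y, hP⟩
  · rw [← Point.zero_def, map_zero]
  · obtain ⟨h1, e1⟩ := C.act_some 1 hP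
    rw [e1]
    rfl

theorem lc_act (P : C.A) : LC fun g => C.act g P := by
  rcases P with _ | ⟨x, y, hP⟩
  · exact (B2.Sm.const (0 : C.A)).congr fun g _ => (map_zero _).symm
  · obtain ⟨U, h1, h2, h3⟩ := (B2.sm_apply (H := ⊤) x).comp₂ (B2.sm_apply y) Prod.mk
    refine ⟨U, h1, h2, fun g hg k hk e => ?_⟩
    obtain ⟨k1, e1⟩ := C.act_some g hP
    obtain ⟨k2, e2⟩ := C.act_some k hP
    have e3 := h3 g hg k hk e
    exact e1.trans ((ell_ext (congrArg Prod.fst e3) (congrArg Prod.snd e3)).trans e2.symm)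

theorem pt2_add (a b a' b' : F2) : C.pt2 (a + a') (b + b') = C.pt2 a b + C.pt2 a' b' := by
  rw [pt2, pt2, pt2, ell_two C.split.swap12.two_nsmul_T, ell_two C.split.two_nsmul_T]
  abel

theorem pt2_zero : C.pt2 0 0 = 0 := by
  simp [pt2]

theorem pt2_one_one : C.pt2 1 1 = C.split.swap13.T := by
  rw [pt2, ZMod.val_one, one_nsmul, one_nsmul, ell_T12]

theorem pt2_eq_zero {a b : F2} (h : C.pt2 a b = 0) : a = 0 ∧ b = 0 := by
  rcases F2_cases a with rfl | rfl <;> rcases F2_cases b with rfl | rfl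
  · exact ⟨rfl, rfl⟩
  · rw [pt2, ZMod.val_zero, ZMod.val_one, zero_nsmul, one_nsmul, zero_add] at h
    exact absurd h (Point.some_ne_zero _)
  · rw [pt2, ZMod.val_zero, ZMod.val_one, zero_nsmul, one_nsmul, add_zero] at h
    exact absurd h (Point.some_ne_zero _)
  · rw [pt2_one_one] at h
    exact absurd h (Point.some_ne_zero _)

theorem pt2_inj {a b a' b' : F2} (h : C.pt2 a b = C.pt2 a' b') : a = a' ∧ b = b' := by
  have h1 : C.pt2 (a - a') (b - b') = 0 := by
    have h2 := C.pt2_add (a - a') (b - b') a' b'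
    rw [sub_add_cancel, sub_add_cancel, h] at h2
    exact right_eq_add.1 h2
  exact (C.pt2_eq_zero h1).imp sub_eq_zero.1 sub_eq_zero.1

theorem two_pt2 (a b : F2) : 2 • C.pt2 a b = 0 := by
  rw [two_nsmul, ← pt2_add, CharTwo.add_self_eq_zero, CharTwo.add_self_eq_zero, pt2_zero]

theorem smul_pt2 (k a b : F2) : k.val • C.pt2 a b = C.pt2 (k * a) (k * b) := by
  rcases F2_cases k with rfl | rfl
  · rw [ZMod.val_zero, zero_nsmul, zero_mul, zero_mul, pt2_zero]
  · rw [ZMod.val_one, one_nsmul, one_mul, one_mul]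

theorem exists_pt2 {P : C.A} (h : 2 • P = 0) : ∃ a b, P = C.pt2 a b := by
  rcases P with _ | ⟨x, y, hP⟩
  · exact ⟨0, 0, C.pt2_zero.symm⟩
  have hy := (ell_y C.split).1 h
  have heq := (C.split.nonsingular_iff x y).mp hP
  rw [hy, zero_pow two_ne_zero, eq_comm, mul_eq_zero, mul_eq_zero, sub_eq_zero, sub_eq_zero,
    sub_eq_zero] at heq
  rcases heq with (e | e) | e
  · refine ⟨0, 1, ?_⟩
    rw [pt2, ZMod.val_zero, ZMod.val_one, zero_nsmul, one_nsmul, zero_add]
    exact ell_ext e hy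
  · refine ⟨1, 0, ?_⟩
    rw [pt2, ZMod.val_zero, ZMod.val_one, zero_nsmul, one_nsmul, add_zero]
    exact ell_ext e hy
  · refine ⟨1, 1, ?_⟩
    rw [pt2_one_one]
    exact ell_ext e hy

theorem act_pt2 (g : GQ) (a b : F2) : C.act g (C.pt2 a b) = C.pt2 a b := by
  have h1 : C.act g C.split.T = C.split.T := by
    obtain ⟨_, e⟩ := C.act_some g C.split.nonsingular_root
    exact e.trans (ell_ext (map_intCast g _) (map_zero g))
  have h2 : C.act g C.split.swap12.T = C.split.swap12.T := by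
    obtain ⟨_, e⟩ := C.act_some g C.split.swap12.nonsingular_root
    exact e.trans (ell_ext (map_intCast g _) (map_zero g))
  rw [pt2, map_add, map_nsmul, map_nsmul, h1, h2]

theorem exists_half (P : C.A) : ∃ Q : C.A, 2 • Q = P := by
  rcases P with _ | ⟨x, y, hP⟩
  · exact ⟨0, nsmul_zero 2⟩
  · obtain ⟨R, hR⟩ := C.split.exists_half hP ⟨_, (rt_mul_self _).symm⟩ ⟨_, (rt_mul_self _).symm⟩
      ⟨_, (rt_mul_self _).symm⟩
    exact ⟨R, hR.symm⟩

theorem ell_tors (n : ℕ) : ∃ F : C.A × F2 × F2 → C.A, Function.Injective F ∧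
    {P : C.A | 2 ^ (n + 1) • P = 0} = F '' ({P : C.A | 2 ^ n • P = 0} ×ˢ Set.univ) := by
  choose hf e using C.exists_half
  have h1 : ∀ P a b, 2 • (hf P + C.pt2 a b) = P := fun P a b => by
    rw [nsmul_add, e, two_pt2, add_zero]
  refine ⟨fun t => hf t.1 + C.pt2 t.2.1 t.2.2, ?_, Set.ext fun P => ⟨fun hP => ?_, ?_⟩⟩
  · rintro ⟨P, a, b⟩ ⟨P', a', b'⟩ h
    have h2 : hf P + C.pt2 a b = hf P' + C.pt2 a' b' := h
    obtain rfl : P = P' := by rw [← h1 P a b, h2, h1]
    obtain ⟨rfl, rfl⟩ := C.pt2_inj (add_left_cancel h2)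
    rfl
  · obtain ⟨a, b, h2⟩ := C.exists_pt2 (P := P - hf (2 • P)) (by rw [nsmul_sub, e, sub_self])
    refine ⟨(2 • P, a, b), ⟨?_, trivial⟩, ?_⟩
    · change 2 ^ n • 2 • P = 0
      rw [← mul_nsmul', ← pow_succ]
      exact hP
    · change hf (2 • P) + C.pt2 a b = P
      rw [← h2, add_sub_cancel]
  · rintro ⟨⟨Q, a, b⟩, ⟨hQ, -⟩, rfl⟩
    change 2 ^ (n + 1) • (hf Q + C.pt2 a b) = 0
    rw [pow_succ, mul_nsmul', h1]
    exact hQ

theorem finite_tors (n : ℕ) : {P : C.A | 2 ^ n • P = 0}.Finite := by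
  induction n with
  | zero => simp
  | succ n ih =>
    obtain ⟨F, -, e⟩ := C.ell_tors n
    rw [e]
    exact (ih.prod Set.finite_univ).image F

theorem card_tors (n : ℕ) : {P : C.A | 2 ^ n • P = 0}.ncard = 4 ^ n := by
  induction n with
  | zero => simp
  | succ n ih =>
    obtain ⟨F, hF, e⟩ := C.ell_tors n
    rw [e, Set.ncard_image_of_injective _ hF, Set.ncard_prod, ih, Set.ncard_univ, Nat.card_prod,
      Nat.card_zmod, pow_succ]

/-- The Kummer dictionary: `g Q = ± (Q + (a, b))` is read off from square roots of the numbers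
`x(2 Q) - e`. -/
theorem dict {Q : C.A} {x y : Qb} {h : C.NS x y}
    (hQ : 2 • Q = .some x y h) : ∃ r1 r2 r3 : Qb, r1 * r1 = x - C.e1 ∧ r2 * r2 = x - C.e2 ∧
      r3 * r3 = x - C.e3 ∧ ∀ (g : GQ) (c a b : F2),
        sn c • C.act g Q - Q = C.pt2 a b → g r1 = (sn (c + a) : Qb) * r1 ∧
          g r2 = (sn (c + b) : Qb) * r2 ∧ g r3 = (sn (c + a + b) : Qb) * r3 := by
  refine ⟨_, _, _, ell_sq C.split hQ, ell_sq C.split.swap12 hQ, ell_sq C.split.swap13 hQ,
    fun g c a b e => ?_⟩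
  have h0 : 2 • Q ≠ 0 := hQ ▸ Point.some_ne_zero _
  have h1 : 2 • (Q + a.val • C.split.swap12.T) ≠ 0 := by
    rwa [nsmul_add, smul_comm 2 a.val, C.split.swap12.two_nsmul_T, nsmul_zero, add_zero]
  have hg : ∀ n : ℤ, ell_s (C.W Qb) n (C.act g Q) = g (ell_s (C.W Qb) n Q) := fun n => by
    rcases Q with _ | ⟨u, w, hR⟩
    · exact absurd (nsmul_zero 2) h0
    · obtain ⟨k, e'⟩ := C.act_some g hR
      rw [e', ell_s_some, ell_s_some]
      simp [W, map_ofNat]
  rw [sub_eq_iff_eq_add', pt2, ← add_assoc] at e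
  have h2 : ∀ n : ℤ, (sn c : Qb) * g (ell_s (C.W Qb) n Q) =
      ell_s (C.W Qb) n (Q + a.val • C.split.swap12.T + b.val • C.split.T) := fun n => by
    rw [← e, ell_s_sn C.split, hg]
  obtain ⟨a2, a1, a3⟩ := ell_add_k C.split.swap12 h0 a
  obtain ⟨b1, b2, b3⟩ := ell_add_k C.split h1 b
  refine ⟨ell_sn ?_, ell_sn ?_, ?_⟩
  · rw [h2, b1, a1]
  · rw [h2, b2, a2]
  · rw [add_assoc]
    refine ell_sn ?_
    rw [h2, b3, a3, sn_add, Int.cast_mul]
    ring

theorem tw_add (D : ℤ) (g : GQ) (P Q : C.A) : C.tw D g (P + Q) = C.tw D g P + C.tw D g Q := by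
  simp only [tw, map_add, smul_add]

theorem tw_zero (D : ℤ) (g : GQ) : C.tw D g 0 = 0 := by simp only [tw, map_zero, smul_zero]

theorem tw_sub (D : ℤ) (g : GQ) (P Q : C.A) : C.tw D g (P - Q) = C.tw D g P - C.tw D g Q := by
  simp only [tw, map_sub, smul_sub]

theorem tw_zsmul (D : ℤ) (g : GQ) (k : ℤ) (P : C.A) : C.tw D g (k • P) = k • C.tw D g P := by
  simp only [tw, map_zsmul]; exact smul_comm _ _ _

theorem tw_nsmul (D : ℤ) (g : GQ) (k : ℕ) (P : C.A) : C.tw D g (k • P) = k • C.tw D g P := by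
  simp only [tw, map_nsmul]; exact smul_comm _ _ _

theorem tw_sum {ι : Type} (D : ℤ) (g : GQ) (s : Finset ι) (P : ι → C.A) :
    C.tw D g (∑ i ∈ s, P i) = ∑ i ∈ s, C.tw D g (P i) := by
  simp only [tw, map_sum, Finset.smul_sum]

theorem tw_mul (D : ℤ) (g h : GQ) (P : C.A) : C.tw D (g * h) P = C.tw D g (C.tw D h P) := by
  simp only [tw, map_zsmul, chi_mul_g, sn_add, act_mul, mul_smul]

theorem tw_two (D : ℤ) (g : GQ) {P : C.A} (h : 2 • P = 0) : C.tw D g P = P := by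
  obtain ⟨a, b, e⟩ := C.exists_pt2 h
  rw [tw, e, act_pt2, ← e]
  rcases F2_cases (chi D g) with h1 | h1
  · rw [h1, sn_zero, one_zsmul]
  · rw [h1, sn_one, neg_one_zsmul, neg_eq_iff_add_eq_zero, ← two_nsmul, h]

theorem tw_twist {D D' : ℤ} (hD : D ≠ 0) (hD' : D' ≠ 0) (g : GQ) (P : C.A) :
    C.tw (D * D') g P = sn (chi D' g) • C.tw D g P := by
  simp only [tw, chi_mul hD hD', sn_add, smul_smul, mul_comm]

theorem kum_mul {a1 a2 b1 b2 : ℤ} (h1 : a1 ≠ 0) (h2 : a2 ≠ 0) (h3 : b1 ≠ 0) (h4 : b2 ≠ 0) :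
    C.kum (a1 * b1) (a2 * b2) = C.kum a1 a2 + C.kum b1 b2 := by
  funext g
  simp only [kum, chi_mul h1 h3, chi_mul h2 h4, pt2_add, Pi.add_apply]

theorem kum_hom (a b : ℤ) (g h : GQ) : C.kum a b (g * h) = C.kum a b g + C.kum a b h := by
  simp only [kum, chi_mul_g, pt2_add]

theorem two_kum (a b : ℤ) (g : GQ) : 2 • C.kum a b g = 0 := C.two_pt2 _ _

theorem lc_kum (a b : ℤ) : LC (C.kum a b) := (lc_chi a).comp₂ (lc_chi b) C.pt2

theorem lc_cob (D : ℤ) (Q : C.A) : LC (C.cob D Q) :=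
  (lc_chi D).comp₂ (C.lc_act Q) fun c P => sn c • P - Q

theorem cob_add (D : ℤ) (P Q : C.A) : C.cob D (P + Q) = C.cob D P + C.cob D Q := by
  funext g; simp only [cob, tw_add, Pi.add_apply]; abel

theorem cob_zsmul (D : ℤ) (k : ℤ) (Q : C.A) : C.cob D (k • Q) = k • C.cob D Q := by
  funext g; simp only [cob, tw_zsmul, Pi.smul_apply, smul_sub]

theorem cob_nsmul (D : ℤ) (k : ℕ) (Q : C.A) : C.cob D (k • Q) = k • C.cob D Q := by
  funext g; simp only [cob, tw_nsmul, Pi.smul_apply, smul_sub]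

theorem cob_mul (D : ℤ) (Q : C.A) (g h : GQ) :
    C.cob D Q (g * h) = C.cob D Q g + C.tw D g (C.cob D Q h) := by
  simp only [cob, tw_mul, tw_sub]; abel

/-- Kummer theory for homomorphisms to the two-torsion. -/
theorem exists_kum {c : GQ → C.A} (h2 : ∀ g, 2 • c g = 0) (hm : ∀ g h, c (g * h) = c g + c h)
    (hl : LC c) : ∃ d1 d2 : ℤ, Squarefree d1 ∧ Squarefree d2 ∧ c = C.kum d1 d2 := by
  choose! al be hp using fun (P : C.A) (h : 2 • P = 0) => C.exists_pt2 h
  have h3 : ∀ g h, al (c (g * h)) = al (c g) + al (c h) ∧ be (c (g * h)) = be (c g) + be (c h) :=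
    fun g h => C.pt2_inj (by rw [pt2_add, ← hp _ (h2 _), ← hp _ (h2 _), ← hp _ (h2 _), hm])
  obtain ⟨d1, s1, e1⟩ := kummer (h := fun g => al (c g)) (fun g h => (h3 g h).1) (hl.comp al)
  obtain ⟨d2, s2, e2⟩ := kummer (h := fun g => be (c g)) (fun g h => (h3 g h).2) (hl.comp be)
  refine ⟨d1, d2, s1, s2, funext fun g => ?_⟩
  rw [kum, ← e1, ← e2]
  exact hp _ (h2 g)

theorem dl1_ne {D : ℤ} (hD : D ≠ 0) (a b : F2) : C.dl1 D a b ≠ 0 :=
  mul_ne_zero (pow_ne_zero _ (mul_ne_zero hD (sub_ne_zero.2 (sub_ne_zero.1 C.ne12).symm)))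
    (pow_ne_zero _ (mul_ne_zero C.ne12 C.ne13))

theorem dl2_ne {D : ℤ} (hD : D ≠ 0) (a b : F2) : C.dl2 D a b ≠ 0 :=
  mul_ne_zero (pow_ne_zero _ (mul_ne_zero (sub_ne_zero.2 (sub_ne_zero.1 C.ne12).symm) C.ne23))
    (pow_ne_zero _ (mul_ne_zero hD C.ne12))

theorem loc_zero (v : ℕ) (D : ℤ) : C.Loc v D 0 := ⟨0, fun g _ => by simp [cob, tw_zero]⟩

theorem Loc.add {C : Cv} {v : ℕ} {D : ℤ} {c c' : GQ → C.A} (h : C.Loc v D c) (h' : C.Loc v D c') :
    C.Loc v D (c + c') := by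
  obtain ⟨P, hP⟩ := h
  obtain ⟨Q, hQ⟩ := h'
  exact ⟨P + Q, fun g hg => by rw [cob_add, Pi.add_apply, Pi.add_apply, hP g hg, hQ g hg]⟩

theorem Loc.zsmul {C : Cv} {v : ℕ} {D : ℤ} {c : GQ → C.A} (h : C.Loc v D c) (k : ℤ) :
    C.Loc v D (k • c) := by
  obtain ⟨P, hP⟩ := h
  exact ⟨k • P, fun g hg => by rw [cob_zsmul, Pi.smul_apply, Pi.smul_apply, hP g hg]⟩

theorem Loc.congr {C : Cv} {v : ℕ} {D D' : ℤ} {c c' : GQ → C.A} (h : C.Loc v D c)
    (hD : ∀ g ∈ Gv v, chi D' g = chi D g) (hc : ∀ g ∈ Gv v, c' g = c g) : C.Loc v D' c' := by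
  obtain ⟨P, hP⟩ := h
  exact ⟨P, fun g hg => by rw [hc g hg, hP g hg, cob, cob, tw, tw, hD g hg]⟩

theorem loc_cob (v : ℕ) (D : ℤ) (Q : C.A) : C.Loc v D (C.cob D Q) := ⟨Q, fun _ _ => rfl⟩

end Cv

end Pool.Agent.Lib.MP_696deb_nt.Sm
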