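import Pool.Agent.Lib.MP_696deb_nt.Sm.Sel

/-! Isogenies of degree two. -/

set_option autoImplicit false

open scoped Classical
open WeierstrassCurve WeierstrassCurve.Affine

namespace Pool.Agent.Lib.MP_696deb_nt.Sm

/-- A map that is additive away from a thin set extends to a homomorphism. -/
theorem hom_of_generic {G H : Type} [AddCommGroup G] [AddCommGroup H] [Infinite G] (f : G → H)
    (S : Set G) (hS : S.Finite) (bad : G → Set G) (hb : ∀ P, (bad P).Finite)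
    (h : ∀ P ∉ S, ∀ Q ∉ bad P, f (P + Q) = f P + f Q) :
    ∃ φ : G →+ H, ∀ P ∉ S, φ P = f P := by
  have tr : ∀ (Q : G) {p : G → Prop}, (∀ᶠ V in Filter.cofinite, p V) →
      ∀ᶠ V in Filter.cofinite, p (Q + V) := fun Q p hp =>
    (add_right_injective Q).tendsto_cofinite.eventually hp
  have nS : ∀ᶠ V in Filter.cofinite, V ∉ S := hS.eventually_cofinite_notMem
  have nb : ∀ P, ∀ᶠ V in Filter.cofinite, V ∉ bad P := fun P => (hb P).eventually_cofinite_notMem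
  have key : ∀ P, ∃ d : H, ∀ᶠ V in Filter.cofinite, f (P + V) = d + f V := fun P => by
    obtain ⟨R, r1, r2⟩ := (nS.and (tr P nS)).exists
    refine ⟨f (P + R) - f R, ((tr (-R) (nb R)).and (tr (-R) (nb (P + R)))).mono fun V hV => ?_⟩
    have e1 := h R r1 _ hV.1
    have e2 := h (P + R) r2 _ hV.2
    rw [add_neg_cancel_left] at e1
    rw [add_assoc, add_neg_cancel_left] at e2
    rw [e2, e1]
    abel
  choose d hd using key
  refine ⟨AddMonoidHom.mk' d fun P Q => ?_, fun P hP => ?_⟩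
  · obtain ⟨V, ⟨v1, v2⟩, v3⟩ := (((hd (P + Q)).and (hd Q)).and (tr Q (hd P))).exists
    rw [add_assoc, v3, v2, ← add_assoc] at v1
    exact (add_right_cancel v1).symm
  · obtain ⟨V, v1, v2⟩ := ((hd P).and (nb P)).exists
    rw [h P hP V v2] at v1
    exact (add_right_cancel v1).symm

theorem isog_vieta {K : Type} [Field K] {u1 u2 l n A B : K} (h : u1 ≠ u2)
    (h1 : (l * u1 + n) ^ 2 = u1 ^ 3 + A * u1 ^ 2 + B * u1)
    (h2 : (l * u2 + n) ^ 2 = u2 ^ 3 + A * u2 ^ 2 + B * u2) {u3 : K}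
    (h3 : u3 = l ^ 2 - A - u1 - u2) :
    u1 * u2 + u1 * u3 + u2 * u3 = B - 2 * l * n ∧ u1 * u2 * u3 = n ^ 2 := by
  have hs : u1 * u2 + u1 * u3 + u2 * u3 = B - 2 * l * n := by
    apply mul_left_cancel₀ (sub_ne_zero.2 h)
    rw [h3]
    linear_combination h1 - h2
  refine ⟨hs, ?_⟩
  rw [h3] at hs ⊢
  linear_combination u1 * hs - h1

theorem isog_line {K : Type} [Field K] {u l n A B : K} (hu : u ≠ 0) (hn : n ≠ 0)
    (h : (l * u + n) ^ 2 = u ^ 3 + A * u ^ 2 + B * u) :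
    (l * u + n) * (B - u ^ 2) / u ^ 2 =
      (B / n - l) * ((l * u + n) ^ 2 / u ^ 2) + (A * l - n - B * l ^ 2 / n) := by
  field_simp
  linear_combination (n * l) * h

theorem isog_X {K : Type} [Field K] {u y A B : K} (hu : u ≠ 0)
    (h : y ^ 2 = u ^ 3 + A * u ^ 2 + B * u) : y ^ 2 / u ^ 2 = u + A + B / u := by
  rw [h]
  field_simp

/-- The first coordinate of a point. -/
noncomputable def isog_xc {K : Type} [Field K] {W : WeierstrassCurve K} : W.toAffine.Point → K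
  | .zero => 0
  | .some x _ _ => x

theorem isog_fin {K : Type} [Field K] {W : WeierstrassCurve K} (c : K) :
    {Q : W.toAffine.Point | isog_xc Q = c}.Finite := by
  by_cases h : ∃ y, W.toAffine.Nonsingular c y
  · obtain ⟨y, hy⟩ := h
    refine (Set.toFinite {0, Point.some c y hy, -Point.some c y hy}).subset ?_
    rintro (_ | ⟨x, z, hz⟩) hQ
    · exact Or.inl rfl
    · exact Or.inr ((Point.X_eq_iff (h₁ := hz) (h₂ := hy)).1 hQ)
  · refine (Set.finite_singleton 0).subset ?_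
    rintro (_ | ⟨x, z, hz⟩) hQ
    · rfl
    · obtain rfl : x = c := hQ
      exact absurd ⟨z, hz⟩ h

section
variable {K : Type} [Field K] {W W' : WeierstrassCurve K} {e1 e2 e3 f2 f3 : K}

theorem isog_eq (h : Split W e1 e2 e3) {x y : K} (hP : W.toAffine.Nonsingular x y) :
    y ^ 2 = (x - e1) ^ 3 + (2 * e1 - e2 - e3) * (x - e1) ^ 2 +
      (e2 - e1) * (e3 - e1) * (x - e1) := by
  rw [(h.nonsingular_iff x y).1 hP]
  ring

theorem isog_ns (h : Split W e1 e2 e3) (h' : Split W' 0 f2 f3)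
    (hs : f2 + f3 = -2 * (e2 + e3 - 2 * e1)) (hp : f2 * f3 = (e2 - e3) ^ 2) {x y : K}
    (hP : W.toAffine.Nonsingular x y) (hx : x ≠ e1) :
    W'.toAffine.Nonsingular (y ^ 2 / (x - e1) ^ 2)
      (y * ((e2 - e1) * (e3 - e1) - (x - e1) ^ 2) / (x - e1) ^ 2) := by
  have hu := sub_ne_zero.2 hx
  have e := isog_X hu (isog_eq h hP)
  rw [h'.nonsingular_iff]
  have e' : ∀ X : K, (X - 0) * (X - f2) * (X - f3) =
      X * (X ^ 2 + 2 * (e2 + e3 - 2 * e1) * X + (e2 - e3) ^ 2) := fun X => by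
    linear_combination (-X ^ 2) * hs + X * hp
  rw [e', show (y * ((e2 - e1) * (e3 - e1) - (x - e1) ^ 2) / (x - e1) ^ 2) ^ 2 =
    y ^ 2 / (x - e1) ^ 2 * (((e2 - e1) * (e3 - e1) - (x - e1) ^ 2) / (x - e1)) ^ 2 by
      field_simp]
  congr 1
  rw [e]
  generalize x - e1 = u at hu
  field_simp
  ring

theorem isog_T (h : Split W e1 e2 e3) {y : K} (hP : W.toAffine.Nonsingular e1 y) :
    Point.some e1 y hP = h.T := by
  have e := isog_eq h hP
  refine ell_ext rfl (pow_eq_zero_iff two_ne_zero |>.1 ?_)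
  rw [e]
  ring

variable [DecidableEq K]

theorem isog_add (h : Split W e1 e2 e3) (h' : Split W' 0 f2 f3)
    (hs : f2 + f3 = -2 * (e2 + e3 - 2 * e1)) (hp : f2 * f3 = (e2 - e3) ^ 2) {x1 y1 x2 y2 x3 y3 : K}
    {h1 : W.toAffine.Nonsingular x1 y1} {h2 : W.toAffine.Nonsingular x2 y2}
    {h3 : W.toAffine.Nonsingular x3 y3} (n1 : x1 ≠ e1) (n2 : x2 ≠ e1) (n3 : x3 ≠ e1)
    (n12 : x1 ≠ x2) (nX : x2 ≠ e1 + (e2 - e1) * (e3 - e1) / (x1 - e1))
    (e : Point.some x1 y1 h1 + .some x2 y2 h2 = .some x3 y3 h3) :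
    Point.some _ _ (isog_ns h h' hs hp h3 n3) =
      .some _ _ (isog_ns h h' hs hp h1 n1) + .some _ _ (isog_ns h h' hs hp h2 n2) := by
  rw [Point.add_of_X_ne n12] at e
  obtain ⟨a, b⟩ := (Point.some.injEq ..).mp e
  have hl : W.toAffine.slope x1 x2 y1 y2 * (x1 - x2) = y1 - y2 := by
    rw [slope_of_X_ne n12, div_mul_cancel₀ _ (sub_ne_zero.2 n12)]
  rw [addY, h.negY_eq, negAddY, a] at b
  rw [addX, h.a1, h.a2] at a
  generalize W.toAffine.slope x1 x2 y1 y2 = l at hl a b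
  have q1 := isog_eq h h1
  have q2 := isog_eq h h2
  have q3 := isog_eq h h3
  have u1 := sub_ne_zero.2 n1
  have u2 := sub_ne_zero.2 n2
  have u3 := sub_ne_zero.2 n3
  obtain ⟨n, hn⟩ : ∃ n, n = y1 - l * (x1 - e1) := ⟨_, rfl⟩
  have r1 : y1 = l * (x1 - e1) + n := by rw [hn]; ring
  have r2 : y2 = l * (x2 - e1) + n := by rw [hn]; linear_combination hl
  have r3 : y3 = -(l * (x3 - e1) + n) := by rw [hn, ← b]; ring
  have X1 := isog_X u1 q1
  have X2 := isog_X u2 q2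
  have X3 := isog_X u3 q3
  have hX : y1 ^ 2 / (x1 - e1) ^ 2 ≠ y2 ^ 2 / (x2 - e1) ^ 2 := by
    rw [X1, X2]
    intro k
    apply nX
    have k2 : (x2 - e1) * (x1 - e1) = (e2 - e1) * (e3 - e1) := by
      apply mul_left_cancel₀ (sub_ne_zero.2 n12)
      field_simp at k
      linear_combination k
    rw [← k2, mul_div_cancel_right₀ _ u1]
    ring
  rw [r1] at q1
  rw [r2] at q2
  rw [r3, neg_sq] at q3
  obtain ⟨s2, s3⟩ := isog_vieta (fun k => n12 (sub_left_injective k)) q1 q2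
    (u3 := x3 - e1) (by rw [← a]; ring)
  have n0 : n ≠ 0 := fun k => mul_ne_zero (mul_ne_zero u1 u2) u3 (by rw [s3, k]; ring)
  have L1 := isog_line u1 n0 q1
  have L2 := isog_line u2 n0 q2
  have L3 := isog_line u3 n0 q3
  rw [← r1] at L1
  rw [← r2] at L2
  have r3' : l * (x3 - e1) + n = -y3 := by rw [r3, neg_neg]
  rw [r3', neg_sq, neg_mul, neg_div] at L3
  have hM : W'.toAffine.slope (y1 ^ 2 / (x1 - e1) ^ 2) (y2 ^ 2 / (x2 - e1) ^ 2)
      (y1 * ((e2 - e1) * (e3 - e1) - (x1 - e1) ^ 2) / (x1 - e1) ^ 2)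
      (y2 * ((e2 - e1) * (e3 - e1) - (x2 - e1) ^ 2) / (x2 - e1) ^ 2) =
      (e2 - e1) * (e3 - e1) / n - l := by
    rw [slope_of_X_ne hX, div_eq_iff (sub_ne_zero.2 hX), L1, L2]
    ring
  have hB : (e2 - e1) * (e3 - e1) / (x1 - e1) + (e2 - e1) * (e3 - e1) / (x2 - e1) +
      (e2 - e1) * (e3 - e1) / (x3 - e1) =
      (e2 - e1) * (e3 - e1) * ((e2 - e1) * (e3 - e1) - 2 * l * n) / n ^ 2 := by
    rw [← s2, ← s3]
    field_simp
    ring
  have hA : W'.toAffine.addX (y1 ^ 2 / (x1 - e1) ^ 2) (y2 ^ 2 / (x2 - e1) ^ 2)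
      ((e2 - e1) * (e3 - e1) / n - l) = y3 ^ 2 / (x3 - e1) ^ 2 := by
    have hC : (e2 - e1) * (e3 - e1) * ((e2 - e1) * (e3 - e1) - 2 * l * n) / n ^ 2 =
        ((e2 - e1) * (e3 - e1) / n - l) ^ 2 - l ^ 2 := by
      field_simp
      ring
    rw [addX, h'.a1, h'.a2, X1, X2, X3]
    linear_combination hs - hB - hC + a
  rw [Point.add_of_X_ne hX]
  refine ell_ext ?_ ?_
  · rw [hM, hA]
  · rw [addY, h'.negY_eq, negAddY, hM, hA]
    linear_combination L1 - L3

theorem isog_addT (h : Split W e1 e2 e3) {x y : K} (hP : W.toAffine.Nonsingular x y)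
    (hx : x ≠ e1) : ∃ (x' y' : K) (hP' : W.toAffine.Nonsingular x' y'),
      Point.some x y hP + h.T = .some x' y' hP' ∧ x' ≠ e1 ∧
        y' ^ 2 / (x' - e1) ^ 2 = y ^ 2 / (x - e1) ^ 2 ∧
        y' * ((e2 - e1) * (e3 - e1) - (x' - e1) ^ 2) / (x' - e1) ^ 2 =
          y * ((e2 - e1) * (e3 - e1) - (x - e1) ^ 2) / (x - e1) ^ 2 := by
  have hx' : x - e1 ≠ 0 := sub_ne_zero.mpr hx
  have n12 := sub_ne_zero.mpr h.h12
  have n13 := sub_ne_zero.mpr h.h13
  obtain ⟨x', y', hP', hadd, f1, -, -⟩ := h.add_T hP hx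
  have f4 : y' * (x - e1) ^ 2 = -y * ((e1 - e2) * (e1 - e3)) := by
    have e : Point.some x y hP + h.T = _ := Point.add_of_X_ne hx
    obtain ⟨a, b⟩ := (Point.some.injEq ..).mp (hadd.symm.trans e)
    have hl : W.toAffine.slope x e1 y 0 * (x - e1) = y := by
      rw [slope_of_X_ne hx, sub_zero, div_mul_cancel₀ _ hx']
    rw [addY, h.negY_eq, negAddY, ← a] at b
    generalize W.toAffine.slope x e1 y 0 = l at hl b
    rw [b, ← f1]
    linear_combination (-(x' - x) * (x - e1)) * hl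
  have g1 : x' - e1 = (e1 - e2) * (e1 - e3) / (x - e1) := by
    rw [← f1, mul_div_cancel_right₀ _ hx']
  have g2 : y' = -y * ((e1 - e2) * (e1 - e3)) / (x - e1) ^ 2 := by
    rw [← f4, mul_div_cancel_right₀ _ (pow_ne_zero 2 hx')]
  refine ⟨x', y', hP', hadd, fun k => ?_, ?_, ?_⟩
  · rw [k, sub_self, zero_mul] at f1
    exact mul_ne_zero n12 n13 f1.symm
  · rw [g1, g2]
    field_simp
  · rw [g1, g2]
    field_simp
    ring

end

/-- The formula of the isogeny with kernel `(e1, 0)`. -/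
theorem isog_gen {K : Type} [Field K] [DecidableEq K] [IsAlgClosed K] {W W' : WeierstrassCurve K}
    {e1 e2 e3 f2 f3 : K} (h : Split W e1 e2 e3) (h' : Split W' 0 f2 f3)
    (hs : f2 + f3 = -2 * (e2 + e3 - 2 * e1)) (hp : f2 * f3 = (e2 - e3) ^ 2) :
    ∃ φ : W.toAffine.Point →+ W'.toAffine.Point, φ h.T = 0 ∧
      ∀ x y (hP : W.toAffine.Nonsingular x y), x ≠ e1 → ∃ hP', φ (.some x y hP) =
        .some (y ^ 2 / (x - e1) ^ 2)
          (y * ((e2 - e1) * (e3 - e1) - (x - e1) ^ 2) / (x - e1) ^ 2) hP' := by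
  let f : W.toAffine.Point → W'.toAffine.Point := fun P =>
    match P with
    | .zero => 0
    | .some x y hP => if hx : x = e1 then 0 else .some _ _ (isog_ns h h' hs hp hP hx)
  have hf : ∀ x y (hP : W.toAffine.Nonsingular x y) (hx : x ≠ e1),
      f (.some x y hP) = .some _ _ (isog_ns h h' hs hp hP hx) := fun x y hP hx => dif_neg hx
  have hsur : Function.Surjective (isog_xc : W.toAffine.Point → K) := fun x => by
    obtain ⟨y, hy⟩ := IsAlgClosed.exists_pow_nat_eq ((x - e1) * (x - e2) * (x - e3)) two_pos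
    exact ⟨.some x y ((h.nonsingular_iff x y).2 hy), rfl⟩
  have : Infinite W.toAffine.Point := Infinite.of_surjective _ hsur
  have hS : ∀ x y (hP : W.toAffine.Nonsingular x y), x ≠ e1 →
      Point.some x y hP ∉ ({0, h.T} : Set W.toAffine.Point) := by
    rintro x y hP hx (k | k)
    · exact Point.some_ne_zero _ k
    · exact hx ((Point.some.injEq ..).mp k).1
  obtain ⟨φ, hφ⟩ := hom_of_generic f {0, h.T} (Set.toFinite _)
    (fun P => {0, h.T - P} ∪ ({Q | isog_xc Q = isog_xc P} ∪ ({Q | isog_xc Q = e1} ∪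
      {Q | isog_xc Q = e1 + (e2 - e1) * (e3 - e1) / (isog_xc P - e1)})))
    (fun P => (Set.toFinite _).union ((isog_fin _).union ((isog_fin _).union (isog_fin _))))
    (by
      rintro (_ | ⟨x1, y1, h1⟩) hP (_ | ⟨x2, y2, h2⟩) hQ
      · exact absurd (Or.inl rfl) hP
      · exact absurd (Or.inl rfl) hP
      · exact absurd (Or.inl (Or.inl rfl)) hQ
      have n1 : x1 ≠ e1 := by
        rintro rfl
        exact hP (Or.inr (isog_T h h1))
      have n12 : x1 ≠ x2 := fun k => hQ (Or.inr (Or.inl k.symm))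
      have n2 : x2 ≠ e1 := fun k => hQ (Or.inr (Or.inr (Or.inl k)))
      have nX : x2 ≠ e1 + (e2 - e1) * (e3 - e1) / (x1 - e1) :=
        fun k => hQ (Or.inr (Or.inr (Or.inr k)))
      obtain ⟨x3, y3, h3, e⟩ : ∃ x3 y3 h3, Point.some x1 y1 h1 + .some x2 y2 h2 = .some x3 y3 h3 :=
        ⟨_, _, _, Point.add_of_X_ne n12⟩
      have n3 : x3 ≠ e1 := by
        rintro rfl
        refine hQ (Or.inl (Or.inr ?_))
        rw [Set.mem_singleton_iff, ← isog_T h h3, ← e, add_sub_cancel_left]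
      rw [e, hf _ _ h1 n1, hf _ _ h2 n2, hf _ _ h3 n3]
      exact isog_add h h' hs hp n1 n2 n3 n12 nX e)
  refine ⟨φ, ?_, fun x y hP hx => ⟨_, (hφ _ (hS x y hP hx)).trans (hf x y hP hx)⟩⟩
  have hx : e2 ≠ e1 := h.h12.symm
  obtain ⟨x', y', hP', e, hx', a, b⟩ := isog_addT h h.swap12.nonsingular_root hx
  have k := congrArg φ e
  rw [map_add, hφ _ (hS _ _ _ hx), hφ _ (hS _ _ _ hx'), hf _ _ h.swap12.nonsingular_root hx, hf _ _ hP' hx',
    ell_ext a b (h' := isog_ns h h' hs hp h.swap12.nonsingular_root hx)] at k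
  exact add_eq_left.1 k

/-- An equivariant isogeny whose kernel is generated by the two-torsion point `(s, t)`. -/
structure Isog (C C' : Cv) (s t : F2) (φ : C.A →+ C'.A) : Prop where
  act : ∀ g P, φ (C.act g P) = C'.act g (φ P)
  ker : ∀ P, φ P = 0 ↔ P = 0 ∨ P = C.pt2 s t
  ne : s + t = 1
  im : φ (C.pt2 1 1) = C'.pt2 0 1

theorem isog_mk (C C' : Cv) (a b : ℤ) (h : Split (C.W Qb) a b C.e3) {s t : F2}
    (hT : C.pt2 s t = h.T) (hst : s + t = 1) (h1 : C'.e1 = 0)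
    (hs : C'.e2 + C'.e3 = -2 * (b + C.e3 - 2 * a)) (hp : C'.e2 * C'.e3 = (b - C.e3) ^ 2) :
    ∃ φ, Isog C C' s t φ := by
  have h' : Split (C'.W Qb) 0 C'.e2 C'.e3 := by
    have k := C'.split
    rwa [h1, Int.cast_zero] at k
  obtain ⟨φ, hT0, hφ⟩ := isog_gen h h' (by exact_mod_cast hs) (by exact_mod_cast hp)
  refine ⟨φ, fun g P => ?_, fun P => ⟨fun k => ?_, ?_⟩, hst, ?_⟩
  · rcases P with _ | ⟨x, y, hP⟩
    · rw [← Point.zero_def, map_zero, map_zero, map_zero]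
    by_cases hx : x = a
    · subst hx
      rw [isog_T h hP, hT0, ← hT, C.act_pt2, hT, hT0, map_zero]
    · obtain ⟨k1, e1⟩ := C.act_some g hP
      obtain ⟨k2, e2⟩ := hφ x y hP hx
      obtain ⟨k3, e3⟩ := hφ _ _ k1 fun k => hx (g.injective (k.trans (map_intCast g a).symm))
      obtain ⟨k4, e4⟩ := C'.act_some g k2
      rw [e1, e2, e3, e4]
      exact ell_ext (by simp) (by simp)
  · rcases P with _ | ⟨x, y, hP⟩
    · exact Or.inl rfl
    by_cases hx : x = a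
    · subst hx
      exact Or.inr ((isog_T h hP).trans hT.symm)
    · obtain ⟨k2, e2⟩ := hφ x y hP hx
      exact absurd (e2.symm.trans k) (Point.some_ne_zero _)
  · rintro (rfl | rfl)
    · exact map_zero φ
    · rw [hT, hT0]
  · obtain ⟨k2, e2⟩ := hφ _ _ C.split.swap13.nonsingular_root h.h13.symm
    rw [C.pt2_one_one, Cv.pt2, ZMod.val_zero, ZMod.val_one, zero_nsmul, one_nsmul, zero_add]
    exact e2.trans (ell_ext (by simp [h1]) (by simp))

theorem exists_isog1 (C C' : Cv) (h1 : C'.e1 = 0)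
    (hs : C'.e2 + C'.e3 = -2 * (C.e2 + C.e3 - 2 * C.e1)) (hp : C'.e2 * C'.e3 = (C.e2 - C.e3) ^ 2) :
    ∃ φ, Isog C C' 0 1 φ := by
  refine isog_mk C C' C.e1 C.e2 C.split ?_ (zero_add 1) h1 hs hp
  rw [Cv.pt2, ZMod.val_zero, ZMod.val_one, zero_nsmul, one_nsmul, zero_add]

theorem exists_isog2 (C C' : Cv) (h1 : C'.e1 = 0)
    (hs : C'.e2 + C'.e3 = -2 * (C.e1 + C.e3 - 2 * C.e2)) (hp : C'.e2 * C'.e3 = (C.e1 - C.e3) ^ 2) :
    ∃ φ, Isog C C' 1 0 φ := by
  refine isog_mk C C' C.e2 C.e1 C.split.swap12 ?_ (add_zero 1) h1 hs hp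
  rw [Cv.pt2, ZMod.val_zero, ZMod.val_one, zero_nsmul, one_nsmul, add_zero]

variable {C C' : Cv} {s t : F2} {φ : C.A →+ C'.A}

theorem Isog.tw (h : Isog C C' s t φ) (D : ℤ) (g : GQ) (P : C.A) :
    φ (C.tw D g P) = C'.tw D g (φ P) := by
  rw [Cv.tw, Cv.tw, map_zsmul, h.act]

theorem Isog.isZ (h : Isog C C' s t φ) {D : ℤ} {n : ℕ} {c : GQ → C.A} (hc : C.IsZ D ∅ n c) :
    C'.IsZ D ∅ n fun g => φ (c g) := by
  refine ⟨fun g => ?_, fun g k => ?_, hc.lc.comp φ, fun v hv hn => ?_, fun _ hv => hv.elim,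
    fun p hp hD => ?_⟩
  · rw [← map_nsmul, hc.tors, map_zero]
  · rw [hc.coc, map_add, h.tw]
  · obtain ⟨Q, hQ⟩ := hc.loc v hv hn
    refine ⟨φ Q, fun g hg => ?_⟩
    change φ (c g) = _
    rw [hQ g hg, Cv.cob, Cv.cob, map_sub, h.tw]
  · rw [hc.unr p hp hD, map_zero]

theorem Isog.bit (h : Isog C C' s t φ) {Q : C.A} {k : F2} (hQ : 2 • Q = C.pt2 (s * k) (t * k)) :
    ∃ b, φ Q = C'.pt2 k b := by
  have hT : φ (C.pt2 s t) = 0 := (h.ker _).2 (Or.inr rfl)
  have h11 : ∀ b : F2, φ (C.pt2 b b) = C'.pt2 0 b := fun b => by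
    have e := C.smul_pt2 b 1 1
    have e' := C'.smul_pt2 b 0 1
    rw [mul_one] at e
    rw [mul_zero, mul_one] at e'
    rw [← e, map_nsmul, h.im, e']
  rcases F2_cases k with rfl | rfl
  · rw [mul_zero, mul_zero, C.pt2_zero] at hQ
    obtain ⟨a, b, rfl⟩ := C.exists_pt2 hQ
    have e : C.pt2 a b = (a + b).val • C.pt2 s t + C.pt2 (a + (a + b) * s) (a + (a + b) * s) := by
      rw [C.smul_pt2, ← C.pt2_add]
      have k : ∀ a b s t : F2, s + t = 1 → a = (a + b) * s + (a + (a + b) * s) ∧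
        b = (a + b) * t + (a + (a + b) * s) := by decide
      rw [← (k a b s t h.ne).1, ← (k a b s t h.ne).2]
    exact ⟨_, by rw [e, map_add, map_nsmul, hT, nsmul_zero, zero_add, h11]⟩
  · rw [mul_one, mul_one] at hQ
    obtain ⟨a, b, e⟩ := C'.exists_pt2 (P := φ Q) (by rw [← map_nsmul, hQ, hT])
    rcases F2_cases a with rfl | rfl
    · exfalso
      have k : 2 • (Q - C.pt2 b b) = 0 := by
        rcases (h.ker (Q - C.pt2 b b)).1 (by rw [map_sub, e, h11, sub_self]) with k | k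
        · rw [k, nsmul_zero]
        · rw [k, C.two_pt2]
      rw [nsmul_sub, C.two_pt2, sub_zero, hQ] at k
      obtain ⟨k1, k2⟩ := C.pt2_eq_zero k
      have k3 := h.ne
      rw [k1, k2, add_zero] at k3
      exact zero_ne_one k3
    · exact ⟨b, e⟩

/-- A liftable class with values in the kernel gives a liftable class on the isogenous curve. -/
theorem Isog.AA (h : Isog C C' s t φ) {D : ℤ} {n : ℕ} {a : GQ → C.A} (ha : a ∈ C.AA D (n + 1))
    {k : GQ → F2} (hk : ∀ g, a g = C.pt2 (s * k g) (t * k g)) :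
    ∃ a' ∈ C'.AA D n, ∀ g, ∃ b, a' g = C'.pt2 (k g) b := by
  obtain ⟨c, hc, rfl⟩ := ha
  have h0 : ∀ g, 2 ^ (n + 1) • φ (c g) = 0 := fun g => by
    have e : 2 ^ (n + 1) • c g = _ := hk g
    rw [← map_nsmul, e, mul_comm s, mul_comm t, ← C.smul_pt2, map_nsmul,
      (h.ker _).2 (Or.inr rfl), nsmul_zero]
  refine ⟨_, ⟨_, (h.isZ hc).level h0, rfl⟩, fun g => ?_⟩
  have e : 2 • (2 ^ n • c g) = C.pt2 (s * k g) (t * k g) := by
    rw [smul_smul, ← pow_succ']
    exact hk g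
  obtain ⟨b, hb⟩ := h.bit e
  exact ⟨b, by rw [← hb, map_nsmul]; rfl⟩

end Pool.Agent.Lib.MP_696deb_nt.Sm
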