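import Pool.Agent.Lib.MP_696deb_nt.Sm.SampD

/-! Weighted grids: bad patterns and repeated entries have small weight. -/

set_option autoImplicit false

open Finset
open scoped Classical

namespace Pool.Agent.Lib.MP_696deb_nt.Sm.SD

theorem sc_count {V α : Type} [Fintype V] [inst : DecidableEq V] {E : Type} (X : V → Finset α)
    (s : Finset E) (src tgt : E → V) (bit : E → α → α → ZMod 2) (B : ℝ) (hB0 : 0 ≤ B)
    (hor : ∀ e ∈ s, ∀ e' ∈ s, ¬ (src e = tgt e' ∧ tgt e = src e'))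
    (hB : ∀ e ∈ s, ∀ F ⊆ s, e ∈ F → (∀ e' ∈ F, src e' = src e ∧ tgt e' = tgt e) →
      ∀ a b : α → ℝ, (∀ p, |a p| ≤ 1) → (∀ q, |b q| ≤ 1) →
      |∑ p ∈ X (src e), ∑ q ∈ X (tgt e), a p * b q * sg (∑ e' ∈ F, bit e' p q)| *
        ∏ w ∈ univ \ {src e, tgt e}, ((X w).card : ℝ) ≤ B) :
    |∑ x ∈ Fintype.piFinset X, (if ∀ e ∈ s, bit e (x (src e)) (x (tgt e)) = 0 then (1 : ℝ) else 0) -
      (1 / 2) ^ s.card * ∑ _x ∈ Fintype.piFinset X, (1 : ℝ)| ≤ B := by
  obtain rfl : inst = fun a b => Classical.propDecidable (a = b) := Subsingleton.elim _ _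
  exact count X s src tgt bit (fun _ => False) (fun _ => 1) B hB0 hor
    (fun _ _ => Or.inl not_false) (fun _ => by simp) (fun _ _ _ => rfl) hB

theorem sc_diag {V α : Type} [Fintype V] [inst : DecidableEq V] [inst' : DecidableEq α]
    (X : V → Finset α) {u v : V} (h : u ≠ v) :
    ∑ x ∈ Fintype.piFinset X, (if x u = x v then (1 : ℝ) else 0) ≤
      ∏ w ∈ univ.erase v, ((X w).card : ℝ) := by
  obtain rfl : inst = fun a b => Classical.propDecidable (a = b) := Subsingleton.elim _ _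
  obtain rfl : inst' = fun a b => Classical.propDecidable (a = b) := Subsingleton.elim _ _
  rw [Finset.sum_boole]
  exact card_diag X h

theorem sc_ite {p q : Prop} {hp : Decidable p} {hq : Decidable q} (h : p ↔ q) (a b : ℝ) :
    @ite _ p hp a b = @ite _ q hq a b := by
  by_cases c : p
  · rw [if_pos c, if_pos (h.1 c)]
  · rw [if_neg c, if_neg fun c' => c (h.2 c')]

theorem sc_W {a b : ℝ} (ha : 0 ≤ a) (hb : 0 ≤ b) (n : ℕ) : (a / b) ^ n * b ^ n ≤ a ^ n := by
  rw [← mul_pow]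
  refine pow_le_pow_left₀ (by positivity) ?_ n
  rcases hb.eq_or_lt with h | h
  · rw [← h, mul_zero]
    exact ha
  · exact (div_mul_cancel₀ a h.ne').le

theorem sc_two (a b : ZMod 2) : a + b = 0 ↔ a = b := by
  revert a b
  decide

theorem sc_arith {ι : Type} (P : Finset ι) (Q : ι → Prop) (N : ι → ℝ) {m B β : ℝ} (hm : 0 ≤ m)
    (hB : 0 ≤ B) (β0 : 0 ≤ β) (β1 : β ≤ 1) (hβ : ((P.filter Q).card : ℝ) ≤ β * P.card)
    (h : ∀ π, |N π - m| ≤ B) :
    ∑ π ∈ P.filter Q, N π ≤ β * ∑ π ∈ P, N π + 2 * P.card * B := by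
  have h1 : ∑ π ∈ P.filter Q, N π ≤ ((P.filter Q).card : ℝ) * (m + B) := by
    rw [← nsmul_eq_mul]
    exact Finset.sum_le_card_nsmul _ _ _ fun π _ => by linarith [(abs_le.1 (h π)).2]
  have h2 : (P.card : ℝ) * (m - B) ≤ ∑ π ∈ P, N π := by
    rw [← nsmul_eq_mul]
    exact Finset.card_nsmul_le_sum _ _ _ fun π _ => by linarith [(abs_le.1 (h π)).1]
  have h3 := mul_le_mul_of_nonneg_right hβ (add_nonneg hm hB)
  have h4 := mul_le_mul_of_nonneg_left h2 β0
  have h5 : β * (P.card * B) ≤ 1 * (P.card * B) :=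
    mul_le_mul_of_nonneg_right β1 (by positivity)
  nlinarith

variable {ι Γ κ : Type} [Fintype ι] [Fintype Γ] [Fintype κ] {M : ℕ} [NeZero M] {D : SD ι Γ κ M}
  {δ : ℝ}

theorem sc_pow (a : ℝ) : a ^ (M - 1) * a = a ^ M := by
  rw [← pow_succ, Nat.sub_add_cancel (NeZero.one_le)]

omit [Fintype ι] [Fintype Γ] [Fintype κ] [NeZero M] in
theorem sc_Xa (ξ : ι × Fin M → ℕ) (k : κ) (s : Fin M) : D.X' ξ k (D.ia, s) = D.K ξ k :=
  if_pos rfl

omit [Fintype ι] [Fintype Γ] [Fintype κ] [NeZero M] in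
theorem sc_Xc (h : D.ia ≠ D.ic) (ξ : ι × Fin M → ℕ) (k : κ) (s : Fin M) :
    D.X' ξ k (D.ic, s) = D.R ξ := (if_neg h.symm).trans (if_pos rfl)

omit [Fintype ι] [Fintype Γ] [Fintype κ] [NeZero M] in
theorem sc_R (ξ : ι × Fin M → ℕ) : ((D.R ξ).card : ℝ) ≤ (D.X D.ic).card :=
  Nat.cast_le.2 (Finset.card_filter_le _ _)

theorem sc_prod_a (h : D.ia ≠ D.ic) (ξ : ι × Fin M → ℕ) (k : κ) (s : Fin M) :
    ∏ v ∈ univ.erase (D.ia, s), ((D.X' ξ k v).card : ℝ) =
      ((D.K ξ k).card : ℝ) ^ (M - 1) * ((D.R ξ).card : ℝ) ^ M := by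
  have e : univ.erase (D.ia, s) = insert (D.ic, s) (univ \ {(D.ia, s), (D.ic, s)}) := by
    ext v
    by_cases h1 : v = (D.ic, s) <;> simp [h1, h.symm]
  rw [e, Finset.prod_insert (by simp), prod_X' h, sc_Xc h, ← sc_pow (M := M) ((D.R ξ).card : ℝ)]
  ring

omit [NeZero M] in
theorem sc_prod_c (h : D.ia ≠ D.ic) (ξ : ι × Fin M → ℕ) (k : κ) (s : Fin M) :
    ∏ v ∈ univ.erase (D.ic, s), ((D.X' ξ k v).card : ℝ) =
      ((D.K ξ k).card : ℝ) ^ (M - 1) * (((D.R ξ).card : ℝ) ^ (M - 1) * (D.K ξ k).card) := by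
  have e : univ.erase (D.ic, s) = insert (D.ia, s) (univ \ {(D.ia, s), (D.ic, s)}) := by
    ext v
    by_cases h1 : v = (D.ia, s) <;> simp [h1, h]
  rw [e, Finset.prod_insert (by simp), prod_X' h, sc_Xa]
  ring

theorem sc_prod (h : D.ia ≠ D.ic) (ξ : ι × Fin M → ℕ) (k : κ) :
    ∑ _y ∈ Fintype.piFinset (D.X' ξ k), (1 : ℝ) =
      ((D.K ξ k).card : ℝ) ^ (M - 1) * (((D.R ξ).card : ℝ) ^ M * (D.K ξ k).card) := by
  rw [Finset.sum_const, nsmul_eq_mul, mul_one, Fintype.card_piFinset, Nat.cast_prod,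
    ← Finset.mul_prod_erase _ _ (Finset.mem_univ (D.ia, (0 : Fin M))), sc_prod_a h, sc_Xa]
  ring

omit [NeZero M] in
/-- The number of points with a given pattern. -/
theorem sc_pat (h : D.OK δ) {ξ : ι × Fin M → ℕ} (hξ : ξ ∈ D.G0) (h1 : D.InjO ξ) (h2 : D.IntE ξ)
    (k : κ) (π : Fin M × Fin M × Γ → ZMod 2) :
    |∑ y ∈ Fintype.piFinset (D.X' ξ k), (if D.pat y = π then (1 : ℝ) else 0) -
      (1 / 2) ^ Fintype.card (Fin M × Fin M × Γ) * ∑ _y ∈ Fintype.piFinset (D.X' ξ k), (1 : ℝ)| ≤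
      δ * (D.X D.ia).card * (D.X D.ic).card / Fintype.card κ *
        (((D.K ξ k).card : ℝ) ^ (M - 1) * ((D.X D.ic).card : ℝ) ^ (M - 1)) := by
  have d0 := h.d0
  have hc : (0 : ℝ) < Fintype.card κ := Nat.cast_pos.2 (Fintype.card_pos_iff.2 ⟨k⟩)
  have key := sc_count (D.X' ξ k) (univ : Finset (Fin M × Fin M × Γ)) (fun e => (D.ia, e.1))
    (fun e => (D.ic, e.2.1)) (fun e p r => D.w ξ p r e.2.2 + π e)
    (δ * (D.X D.ia).card * (D.X D.ic).card / Fintype.card κ *
      (((D.K ξ k).card : ℝ) ^ (M - 1) * ((D.X D.ic).card : ℝ) ^ (M - 1))) (by positivity)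
    (fun e _ e' _ h' => h.hac (congrArg Prod.fst h'.1)) (by
      intro e _ F _ heF hF a b ha hb
      have inj : Set.InjOn (fun e : Fin M × Fin M × Γ => e.2.2) F := fun x hx y hy e' =>
        Prod.ext ((congrArg Prod.snd (hF x hx).1).trans (congrArg Prod.snd (hF y hy).1).symm)
          (Prod.ext ((congrArg Prod.snd (hF x hx).2).trans (congrArg Prod.snd (hF y hy).2).symm) e')
      have h3 := h.lbil ξ hξ h1 h2 k (F.image fun e => e.2.2) (Finset.Nonempty.image ⟨e, heF⟩ _)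
        (fun p => a p * sg (∑ e' ∈ F, π e')) b (fun p => by rw [abs_mul, abs_sg, mul_one]; exact ha p) hb
      rw [prod_X' h.hac, sc_Xa, sc_Xc h.hac]
      refine mul_le_mul ?_ ?_ (by positivity) (by positivity)
      · rw [le_div_iff₀ hc, mul_comm]
        refine le_of_eq_of_le ?_ h3
        refine congrArg (fun t => (Fintype.card κ : ℝ) * |t|) ?_
        refine Finset.sum_congr rfl fun p _ => Finset.sum_congr rfl fun q _ => ?_
        rw [Finset.sum_add_distrib, sg_add, Finset.sum_image inj]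
        ring
      · exact mul_le_mul_of_nonneg_left (pow_le_pow_left₀ (by positivity) (sc_R ξ) _)
          (by positivity))
  rw [Finset.card_univ] at key
  refine le_of_eq_of_le ?_ key
  refine congrArg (fun t : ℝ => |t - _|) (Finset.sum_congr rfl fun y hy => ?_)
  have e := (h.dep y ξ (agree hy)).2
  refine sc_ite ?_ _ _
  simp only [Finset.mem_univ, true_imp_iff, sc_two, funext_iff, pat, e]

theorem sc_bad (h : D.OK δ) (Bad : (Fin M × Fin M × Γ → ZMod 2) → Prop) {β : ℝ} (β0 : 0 ≤ β)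
    (β1 : β ≤ 1) (hβ : (((Par M Γ).filter Bad).card : ℝ) ≤ β * (Par M Γ).card)
    {ξ : ι × Fin M → ℕ} (hξ : ξ ∈ D.G0) (h2 : D.IntE ξ) (k : κ) :
    (∑ y ∈ Fintype.piFinset (D.X' ξ k),
      if ∀ s t, D.E D.ia D.ic (y (D.ia, s)) (y (D.ic, t)) = 0 then
        (if D.InjO y ∧ Bad (D.pat y) then (1 : ℝ) else 0) else 0) ≤
    β * (∑ y ∈ Fintype.piFinset (D.X' ξ k),
      if ∀ s t, D.E D.ia D.ic (y (D.ia, s)) (y (D.ic, t)) = 0 then (1 : ℝ) else 0) +
      2 * 2 ^ (M ^ 2 * Fintype.card Γ) * (δ * (D.X D.ia).card * (D.X D.ic).card / Fintype.card κ *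
        (((D.K ξ k).card : ℝ) ^ (M - 1) * ((D.X D.ic).card : ℝ) ^ (M - 1))) := by
  have d0 := h.d0
  have hpar : ∀ y : ι × Fin M → ℕ,
      (∀ s t, D.E D.ia D.ic (y (D.ia, s)) (y (D.ic, t)) = 0) ↔ D.pat y ∈ Par M Γ := fun y => by
    simp only [Par, Finset.mem_filter, Finset.mem_univ, true_and, pat, h.wsum]
  by_cases h1 : D.InjO ξ
  · have a1 := sc_arith (Par M Γ) Bad
      (fun π => ∑ y ∈ Fintype.piFinset (D.X' ξ k), (if D.pat y = π then (1 : ℝ) else 0))
      (mul_nonneg (by positivity) (Finset.sum_nonneg fun _ _ => zero_le_one)) (by positivity)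
      β0 β1 hβ (sc_pat h hξ h1 h2 k)
    rw [Finset.sum_comm, Finset.sum_comm (s := Par M Γ)] at a1
    simp only [Finset.sum_ite_eq] at a1
    have a2 : ((Par M Γ).card : ℝ) ≤ 2 ^ (M ^ 2 * Fintype.card Γ) := by
      have := Finset.card_le_univ (Par M Γ)
      rw [Fintype.card_fun, ZMod.card, Fintype.card_prod, Fintype.card_prod, Fintype.card_fin,
        ← mul_assoc, ← sq] at this
      exact_mod_cast this
    refine le_trans (Finset.sum_le_sum fun y _ => ?_) (a1.trans (add_le_add (le_of_eq ?_) ?_))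
    · by_cases c1 : D.pat y ∈ (Par M Γ).filter Bad
      · rw [if_pos c1]
        split_ifs <;> norm_num
      · rw [if_neg c1]
        split_ifs with c2 c3
        · exact absurd (Finset.mem_filter.2 ⟨(hpar y).1 c2, c3.2⟩) c1
        · exact le_rfl
        · exact le_rfl
    · exact congrArg (β * ·) (Finset.sum_congr rfl fun y _ => if_congr (hpar y).symm rfl rfl)
    · exact mul_le_mul_of_nonneg_right (mul_le_mul_of_nonneg_left a2 zero_le_two) (by positivity)
  · rw [Finset.sum_eq_zero fun y hy => ?_]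
    · exact add_nonneg (mul_nonneg β0 (Finset.sum_nonneg fun _ _ => by split_ifs <;> norm_num))
        (by positivity)
    · have : ¬ (D.InjO y ∧ Bad (D.pat y)) := fun c => h1 fun j s s' ha hc e => by
        refine c.1 j s s' ha hc ?_
        rw [agree hy _ (not_or.2 ⟨ha, hc⟩), agree hy _ (not_or.2 ⟨ha, hc⟩), e]
      rw [if_neg this, ite_self]

theorem bad_le (h : D.OK δ) (Bad : (Fin M × Fin M × Γ → ZMod 2) → Prop) {β : ℝ} (β0 : 0 ≤ β)
    (β1 : β ≤ 1) (hβ : (((Par M Γ).filter Bad).card : ℝ) ≤ β * (Par M Γ).card) :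
    ∑ x ∈ D.G, D.om x * (if D.InjO x ∧ Bad (D.pat x) then 1 else 0) ≤
      β * ∑ x ∈ D.G, D.om x + 2 * 2 ^ (M ^ 2 * Fintype.card Γ) * δ * D.G.card := by
  have d0 := h.d0
  have e1 := dec h fun _ => 1
  simp only [mul_one] at e1
  have e2 : 2 * 2 ^ (M ^ 2 * Fintype.card Γ) * δ * (D.G.card : ℝ) =
      ∑ _ξ ∈ D.G0, 2 * 2 ^ (M ^ 2 * Fintype.card Γ) * δ *
        (((D.X D.ia).card : ℝ) ^ M * ((D.X D.ic).card : ℝ) ^ M) := by
    rw [card_G h.hac, Finset.sum_const, nsmul_eq_mul]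
    ring
  rw [dec h, e1, e2, Finset.mul_sum, ← Finset.sum_add_distrib]
  refine Finset.sum_le_sum fun ξ hξ => ?_
  by_cases h2 : D.IntE ξ
  · rw [if_pos h2, if_pos h2, Finset.mul_sum]
    have e3 : ∑ _k : κ, 2 * 2 ^ (M ^ 2 * Fintype.card Γ) * δ *
        (((D.X D.ia).card : ℝ) ^ M * ((D.X D.ic).card : ℝ) ^ M) / Fintype.card κ ≤
        2 * 2 ^ (M ^ 2 * Fintype.card Γ) * δ *
        (((D.X D.ia).card : ℝ) ^ M * ((D.X D.ic).card : ℝ) ^ M) := by
      rw [Finset.sum_const, nsmul_eq_mul, Finset.card_univ, mul_comm]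
      have := sc_W (a := 2 * 2 ^ (M ^ 2 * Fintype.card Γ) * δ *
        (((D.X D.ia).card : ℝ) ^ M * ((D.X D.ic).card : ℝ) ^ M)) (b := Fintype.card κ)
        (by positivity) (by positivity) 1
      simpa only [pow_one] using this
    refine le_trans ?_ (add_le_add le_rfl e3)
    rw [← Finset.sum_add_distrib]
    refine Finset.sum_le_sum fun k _ => ?_
    refine (mul_le_mul_of_nonneg_left (sc_bad h Bad β0 β1 hβ hξ h2 k) (by positivity)).trans ?_
    rw [mul_add, mul_left_comm]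
    refine add_le_add le_rfl ?_
    have a1 := mul_le_mul_of_nonneg_left
      (sc_W (a := ((D.X D.ia).card : ℝ)) (b := (D.K ξ k).card) (by positivity) (by positivity) (M - 1))
      (show 0 ≤ 2 * 2 ^ (M ^ 2 * Fintype.card Γ) * (δ * (D.X D.ia).card * (D.X D.ic).card /
        Fintype.card κ * ((D.X D.ic).card : ℝ) ^ (M - 1)) by positivity)
    rw [← sc_pow (M := M) ((D.X D.ia).card : ℝ), ← sc_pow (M := M) ((D.X D.ic).card : ℝ)]
    refine le_of_eq_of_le (by ring) (a1.trans (le_of_eq (by ring)))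
  · rw [if_neg h2, if_neg h2, mul_zero, zero_add]
    positivity

theorem sc_pair (h : D.OK δ) (j : ι) {s s' : Fin M} (hs : s ≠ s') :
    ∑ x ∈ D.G, D.om x * (if x (j, s) = x (j, s') then 1 else 0) ≤ δ * D.G.card := by
  have d0 := h.d0
  have hne : (j, s) ≠ (j, s') := fun e => hs (congrArg Prod.snd e)
  have a0 : ∑ x ∈ D.G, D.om x * (if x (j, s) = x (j, s') then 1 else 0) ≤
      ∑ ξ ∈ D.G0, ∑ k, (((D.X D.ia).card : ℝ) / (D.K ξ k).card) ^ (M - 1) *
        ∑ y ∈ Fintype.piFinset (D.X' ξ k), (if y (j, s) = y (j, s') then (1 : ℝ) else 0) := by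
    rw [dec h]
    refine Finset.sum_le_sum fun ξ _ => ?_
    split_ifs
    · refine Finset.sum_le_sum fun k _ => mul_le_mul_of_nonneg_left
        (Finset.sum_le_sum fun y _ => ?_) (by positivity)
      split_ifs <;> norm_num
    · exact Finset.sum_nonneg fun k _ => mul_nonneg (by positivity)
        (Finset.sum_nonneg fun y _ => by split_ifs <;> norm_num)
  have hW : ∀ ξ k, (((D.X D.ia).card : ℝ) / (D.K ξ k).card) ^ (M - 1) *
      ((D.K ξ k).card : ℝ) ^ (M - 1) ≤ ((D.X D.ia).card : ℝ) ^ (M - 1) := fun ξ k =>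
    sc_W (by positivity) (by positivity) _
  have hR : ∀ ξ n, ((D.R ξ).card : ℝ) ^ n ≤ ((D.X D.ic).card : ℝ) ^ n := fun ξ n =>
    pow_le_pow_left₀ (by positivity) (sc_R ξ) _
  have e2 : δ * (D.G.card : ℝ) =
      ∑ _ξ ∈ D.G0, δ * (((D.X D.ia).card : ℝ) ^ M * ((D.X D.ic).card : ℝ) ^ M) := by
    rw [card_G h.hac, Finset.sum_const, nsmul_eq_mul]
    ring
  refine a0.trans ?_
  by_cases ha : j = D.ia
  · subst ha
    rw [e2]
    refine Finset.sum_le_sum fun ξ _ => ?_
    refine (Finset.sum_le_sum (g := fun _ => ((D.X D.ia).card : ℝ) ^ (M - 1) *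
      ((D.X D.ic).card : ℝ) ^ M) fun k _ => ?_).trans ?_
    · refine (mul_le_mul_of_nonneg_left (sc_diag _ hne) (by positivity)).trans ?_
      rw [sc_prod_a h.hac, ← mul_assoc]
      exact mul_le_mul (hW ξ k) (hR ξ M) (by positivity) (by positivity)
    · rw [Finset.sum_const, nsmul_eq_mul, Finset.card_univ,
        ← sc_pow (M := M) ((D.X D.ia).card : ℝ)]
      exact (mul_le_mul_of_nonneg_right h.bigK (by positivity)).trans (le_of_eq (by ring))
  by_cases hc : j = D.ic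
  · subst hc
    rw [e2]
    refine Finset.sum_le_sum fun ξ _ => ?_
    refine (Finset.sum_le_sum (g := fun k => ((D.X D.ia).card : ℝ) ^ (M - 1) *
      ((D.X D.ic).card : ℝ) ^ (M - 1) * (D.K ξ k).card) fun k _ => ?_).trans ?_
    · refine (mul_le_mul_of_nonneg_left (sc_diag _ hne) (by positivity)).trans ?_
      rw [sc_prod_c h.hac, ← mul_assoc, ← mul_assoc]
      exact mul_le_mul_of_nonneg_right
        (mul_le_mul (hW ξ k) (hR ξ _) (by positivity) (by positivity)) (by positivity)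
    · rw [← Finset.mul_sum]
      refine (mul_le_mul_of_nonneg_left (sum_card_K ξ) (by positivity)).trans ?_
      rw [← sc_pow (M := M) ((D.X D.ia).card : ℝ), ← sc_pow (M := M) ((D.X D.ic).card : ℝ)]
      refine (le_mul_of_one_le_left (by positivity) (h.big D.ic)).trans (le_of_eq (by ring))
  have hI : ∀ t : Fin M, ¬ D.In (j, t) := fun t => not_or.2 ⟨ha, hc⟩
  refine (Finset.sum_le_sum (g := fun ξ => (if ξ (j, s) = ξ (j, s') then (1 : ℝ) else 0) *
    (((D.X D.ia).card : ℝ) ^ M * ((D.X D.ic).card : ℝ) ^ M)) fun ξ _ => ?_).trans ?_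
  · by_cases c : ξ (j, s) = ξ (j, s')
    · simp only [if_pos c, one_mul]
      refine (Finset.sum_le_sum (g := fun k => ((D.X D.ia).card : ℝ) ^ (M - 1) *
        ((D.X D.ic).card : ℝ) ^ M * (D.K ξ k).card) fun k _ => ?_).trans ?_
      · refine (mul_le_mul_of_nonneg_left (Finset.sum_le_sum (g := fun _ => (1 : ℝ)) fun y _ => by
          split_ifs <;> norm_num) (by positivity)).trans ?_
        rw [sc_prod h.hac, ← mul_assoc, ← mul_assoc]
        exact mul_le_mul_of_nonneg_right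
          (mul_le_mul (hW ξ k) (hR ξ _) (by positivity) (by positivity)) (by positivity)
      · rw [← Finset.mul_sum]
        refine (mul_le_mul_of_nonneg_left (sum_card_K ξ) (by positivity)).trans (le_of_eq ?_)
        rw [← sc_pow (M := M) ((D.X D.ia).card : ℝ)]
        ring
    · simp only [if_neg c, zero_mul]
      refine le_of_eq (Finset.sum_eq_zero fun k _ => ?_)
      rw [Finset.sum_eq_zero fun y hy => ?_, mul_zero]
      rw [agree hy _ (hI s), agree hy _ (hI s'), if_neg c]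
  · rw [← Finset.sum_mul, card_G h.hac, mul_assoc, ← mul_assoc δ]
    refine mul_le_mul_of_nonneg_right ((sc_diag _ hne).trans ?_) (by positivity)
    rw [G0, Fintype.card_piFinset, Nat.cast_prod,
      ← Finset.mul_prod_erase _ _ (Finset.mem_univ (j, s')), if_neg (hI s'), ← mul_assoc]
    exact le_mul_of_one_le_left (by positivity) (h.big j)

theorem noninj_le (h : D.OK δ) :
    ∑ x ∈ D.G, D.om x * (if Inj x then 0 else 1) ≤
      Fintype.card ι * M ^ 2 * δ * D.G.card := by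
  have d0 := h.d0
  have a1 : ∀ x : ι × Fin M → ℕ, D.om x * (if Inj x then 0 else 1) ≤
      ∑ e : ι × Fin M × Fin M,
        D.om x * (if e.2.1 ≠ e.2.2 ∧ x (e.1, e.2.1) = x (e.1, e.2.2) then 1 else 0) := fun x => by
    rw [← Finset.mul_sum]
    refine mul_le_mul_of_nonneg_left ?_ (om_nonneg x)
    have nn : ∀ e ∈ (univ : Finset (ι × Fin M × Fin M)), (0 : ℝ) ≤
        (if e.2.1 ≠ e.2.2 ∧ x (e.1, e.2.1) = x (e.1, e.2.2) then 1 else 0) := fun e _ => by
      split_ifs <;> norm_num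
    by_cases c : Inj x
    · rw [if_pos c]
      exact Finset.sum_nonneg nn
    · rw [if_neg c]
      simp only [Inj, not_forall] at c
      obtain ⟨j, s, s', c1, c2⟩ := c
      refine le_trans (le_of_eq ?_) (Finset.single_le_sum nn (Finset.mem_univ (j, s, s')))
      rw [if_pos ⟨c2, c1⟩]
  refine (Finset.sum_le_sum fun x _ => a1 x).trans ?_
  rw [Finset.sum_comm]
  refine (Finset.sum_le_sum (g := fun _ => δ * D.G.card) fun e _ => ?_).trans (le_of_eq ?_)
  · by_cases c : e.2.1 = e.2.2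
    · rw [Finset.sum_eq_zero fun x _ => by rw [if_neg fun c' => c'.1 c, mul_zero]]
      positivity
    · refine le_of_eq_of_le (Finset.sum_congr rfl fun x _ => ?_) (sc_pair h e.1 c)
      rw [if_congr (and_iff_right c) rfl rfl]
  · rw [Finset.sum_const, nsmul_eq_mul, Finset.card_univ, Fintype.card_prod, Fintype.card_prod,
      Fintype.card_fin]
    push_cast
    ring

end Pool.Agent.Lib.MP_696deb_nt.Sm.SD
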