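import Pool.Agent.Lib.MP_696deb_nt.Sm.Ell

/-! The local conditions at level one, good primes, isotropy. -/

set_option autoImplicit false

open scoped Classical
open WeierstrassCurve WeierstrassCurve.Affine

namespace Pool.Agent.Lib.MP_696deb_nt.Sm

theorem ellb_sq (v : ℕ) {s a b : ℤ} (h0 : s ≠ 0) (ha : a ≠ 0) (hb : b ≠ 0) :
    hs v (s * s * a) b = hs v a b := by
  rw [hs_mul_left v (mul_ne_zero h0 h0) ha hb, hs_mul_left v h0 h0 hb, CharTwo.add_self_eq_zero,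
    zero_add]

theorem ellb_one (v : ℕ) {b : ℤ} (hb : b ≠ 0) : hs v 1 b = 0 := by
  have h := hs_mul_left v one_ne_zero one_ne_zero hb
  rwa [mul_one, CharTwo.add_self_eq_zero] at h

theorem ellb_neg (v : ℕ) {u : ℤ} (hu : u ≠ 0) : hs v u (-u) = 0 := by
  by_cases h1 : u = 1
  · rw [h1]; exact ellb_one v (by norm_num)
  have h2 : 1 - u ≠ 0 := sub_ne_zero.2 (Ne.symm h1)
  have h3 : u - 1 ≠ 0 := sub_ne_zero.2 h1
  have e1 := hs_stein v hu h2 (by norm_num)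
  have e2 := hs_stein v one_ne_zero h3 (by simpa using hu)
  rw [add_sub_cancel, mul_one, mul_one] at e1
  rw [add_sub_cancel, one_mul] at e2
  have e3 := hs_mul_right v hu h2 (mul_ne_zero h3 hu)
  rw [e1, e2, add_zero, show (1 - u) * ((u - 1) * u) = (u - 1) * (u - 1) * -u by ring, hs_comm,
    ellb_sq v h3 (neg_ne_zero.2 hu) hu, hs_comm] at e3
  exact e3

theorem ellb_congr {v : ℕ} (hv : v = 0 ∨ v.Prime) {L d1 d2 c1 c2 : ℤ} (hL : L ≠ 0) (h1 : d1 ≠ 0)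
    (h2 : d2 ≠ 0) (h3 : c1 ≠ 0) (h4 : c2 ≠ 0)
    (h : ∀ g ∈ Gv v, chi d1 g = chi c1 g ∧ chi d2 g = chi c2 g) :
    hs v (d1 * L) (-d2 * L) = hs v (c1 * L) (-c2 * L) := by
  have hL' := neg_ne_zero.2 hL
  rw [neg_mul_comm, neg_mul_comm]
  exact hs_congr hv (mul_ne_zero h1 hL) (mul_ne_zero h3 hL) (mul_ne_zero h2 hL')
    (mul_ne_zero h4 hL') (fun g hg => by rw [chi_mul h1 hL, chi_mul h3 hL, (h g hg).1])
    fun g hg => by rw [chi_mul h2 hL', chi_mul h4 hL', (h g hg).2]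

theorem ellb_bit {r : Qb} {m n : ℤ} {g : GQ} {b : F2} (hn : m - n ≠ 0)
    (hr : r * r = (m : Qb) - n) (h : g r = (sn b : Qb) * r) : chi (m - n) g = b :=
  chB_eq (Int.cast_ne_zero.2 hn) (hr.trans (Int.cast_sub m n).symm) h

namespace Cv

variable (C : Cv)

theorem ellb_two (D : ℤ) (Q : C.A) (g : GQ) : 2 • C.cob D Q g = C.tw D g (2 • Q) - 2 • Q := by
  rw [cob, smul_sub, tw_nsmul]

theorem ellb_L {D : ℤ} (hD : D ≠ 0) : D * (C.e2 - C.e1) ≠ 0 :=
  mul_ne_zero hD (sub_ne_zero.2 (sub_ne_zero.1 C.ne12).symm)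

/-- The coboundary of a half of a two-torsion point. -/
theorem cob_half {D : ℤ} (hD : D ≠ 0) {Q : C.A} {a b : F2} (hQ : 2 • Q = C.pt2 a b) :
    C.cob D Q = C.kum (C.dl1 D a b) (C.dl2 D a b) := by
  funext g
  obtain ⟨a', b', h⟩ := C.exists_pt2 (P := C.cob D Q g)
    (by rw [ellb_two, hQ, C.tw_two D g (C.two_pt2 a b), sub_self])
  have n12 := C.ne12
  have n13 := C.ne13
  have n23 := C.ne23
  have n21 : C.e2 - C.e1 ≠ 0 := by omega
  have n31 : C.e3 - C.e1 ≠ 0 := by omega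
  have n32 : C.e3 - C.e2 ≠ 0 := by omega
  have v0 : (0 : F2).val = 0 := rfl
  have v1 : (1 : F2).val = 1 := rfl
  have t : ∀ c : F2, c + c = 0 := CharTwo.add_self_eq_zero
  rcases F2_cases a with rfl | rfl <;> rcases F2_cases b with rfl | rfl <;>
    simp only [kum, dl1, dl2, v0, v1, pow_zero, pow_one, mul_one, one_mul]
  · rw [chi_one, pt2_zero, cob, C.tw_two D g (hQ.trans C.pt2_zero), sub_self]
  · rw [pt2, v0, v1, zero_smul, one_smul, zero_add] at hQ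
    obtain ⟨r1, r2, r3, -, k2, k3, k⟩ := C.dict hQ
    obtain ⟨-, l2, l3⟩ := k g _ _ _ h
    rw [h, chi_mul n12 n13, chi_mul hD n12, ellb_bit n12 k2 l2, ellb_bit n13 k3 l3]
    congr 1
    · linear_combination -t (chi D g) - t b'
    · linear_combination -t (chi D g)
  · rw [pt2, v0, v1, zero_smul, one_smul, add_zero] at hQ
    obtain ⟨r1, r2, r3, k1, -, k3, k⟩ := C.dict hQ
    obtain ⟨l1, -, l3⟩ := k g _ _ _ h
    rw [h, chi_mul n21 n23, chi_mul hD n21, ellb_bit n21 k1 l1, ellb_bit n23 k3 l3]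
    congr 1
    · linear_combination -t (chi D g)
    · linear_combination -t (chi D g) - t a'
  · rw [pt2_one_one] at hQ
    obtain ⟨r1, r2, r3, k1, k2, -, k⟩ := C.dict hQ
    obtain ⟨l1, l2, -⟩ := k g _ _ _ h
    rw [h, show D * (C.e2 - C.e1) * ((C.e1 - C.e2) * (C.e1 - C.e3)) =
        (C.e1 - C.e2) * (C.e1 - C.e2) * (D * (C.e3 - C.e1)) by ring,
      show (C.e2 - C.e1) * (C.e2 - C.e3) * (D * (C.e1 - C.e2)) =
        (C.e1 - C.e2) * (C.e1 - C.e2) * (D * (C.e3 - C.e2)) by ring,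
      chi_mul (mul_ne_zero n12 n12) (mul_ne_zero hD n31),
      chi_mul (mul_ne_zero n12 n12) (mul_ne_zero hD n32), chi_sq, chi_mul hD n31, chi_mul hD n32,
      ellb_bit n31 k1 l1, ellb_bit n32 k2 l2]
    congr 1
    · linear_combination -t (chi D g)
    · linear_combination -t (chi D g)

/-- A coboundary with values in the two-torsion comes from the descent map. -/
theorem cob_im {H : Subgroup GQ} {D : ℤ} (hD : D ≠ 0) {Q : C.A}
    (h2 : ∀ g ∈ H, 2 • C.cob D Q g = 0) :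
    (∃ a b, C.cob D Q = C.kum (C.dl1 D a b) (C.dl2 D a b)) ∨
      ∃ x y : Qb, Fx H x ∧ Fx H y ∧ y ≠ 0 ∧ D * y ^ 2 = (x - C.e1) * (x - C.e2) * (x - C.e3) ∧
        ∀ g ∈ H, C.cob D Q g = C.pt2 (chi D g + chB (x - C.e1) g) (chi D g + chB (x - C.e2) g) := by
  by_cases h4 : 2 • 2 • Q = 0
  · obtain ⟨a, b, h⟩ := C.exists_pt2 h4
    exact Or.inl ⟨a, b, C.cob_half hD h⟩
  right
  rcases hP : 2 • Q with _ | ⟨x, y, h⟩
  · exact (h4 (by rw [hP]; exact smul_zero 2)).elim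
  have y0 : y ≠ 0 := by
    rintro rfl
    exact h4 (by rw [hP]; exact C.split.two_nsmul_of_y_eq_zero h)
  have e := (C.split.nonsingular_iff x y).1 h
  have key : ∀ g ∈ H, g x = x ∧ g y = (sn (chi D g) : Qb) * y := fun g hg => by
    have h3 := h2 g hg
    obtain ⟨h', k⟩ := C.act_some g h
    rw [ellb_two, hP, sub_eq_zero, tw, k] at h3
    rcases F2_cases (chi D g) with k0 | k0 <;> rw [k0] at h3 ⊢
    · rw [sn_zero, one_smul, Point.some.injEq] at h3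
      simpa [sn_zero] using h3
    · rw [sn_one, neg_one_zsmul, Point.neg_some, Point.some.injEq, C.split.negY_eq] at h3
      exact ⟨h3.1, by rw [sn_one]; push_cast; linear_combination -h3.2⟩
  have d0 : (D : Qb) ≠ 0 := Int.cast_ne_zero.2 hD
  have r0 : rt D ≠ 0 := fun h0 => d0 (by rw [← rt_mul_self D, h0, mul_zero])
  have p0 : (x - C.e1) * (x - C.e2) * (x - C.e3) ≠ 0 := e ▸ pow_ne_zero 2 y0
  refine ⟨x, y / rt D, fun g hg => (key g hg).1, fun g hg => ?_, div_ne_zero y0 r0, ?_,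
    fun g hg => ?_⟩
  · have s0 : (sn (chi D g) : Qb) ≠ 0 := by
      rcases F2_cases (chi D g) with k0 | k0 <;> simp [k0, sn_zero, sn_one]
    rw [map_div₀, (key g hg).2, chi_spec, mul_div_mul_left _ _ s0]
  · rw [div_pow, sq (rt D), rt_mul_self, mul_div_cancel₀ _ d0, e]
  · obtain ⟨a, b, k0⟩ := C.exists_pt2 (h2 g hg)
    obtain ⟨r1, r2, r3, k1, k2, -, k⟩ := C.dict hP
    obtain ⟨l1, l2, -⟩ := k g _ _ _ k0
    rw [k0, chB_eq (left_ne_zero_of_mul (left_ne_zero_of_mul p0)) k1 l1,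
      chB_eq (right_ne_zero_of_mul (left_ne_zero_of_mul p0)) k2 l2, ← add_assoc, ← add_assoc,
      CharTwo.add_self_eq_zero, zero_add, zero_add]

theorem hs_del (v : ℕ) {D : ℤ} (hD : D ≠ 0) (a b : F2) :
    hs v (C.dl1 D a b * (D * (C.e2 - C.e1))) (-C.dl2 D a b * (D * (C.e2 - C.e1))) = 0 := by
  have hL := C.ellb_L hD
  have k1 := mul_ne_zero (C.dl1_ne hD a b) hL
  have k2 := mul_ne_zero (neg_ne_zero.2 (C.dl2_ne hD a b)) hL
  have v0 : (0 : F2).val = 0 := rfl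
  have v1 : (1 : F2).val = 1 := rfl
  have n32 : C.e3 - C.e2 ≠ 0 := by have := C.ne23; omega
  rcases F2_cases a with rfl | rfl <;> rcases F2_cases b with rfl | rfl <;>
    simp only [dl1, dl2, v0, v1, pow_zero, pow_one, mul_one, one_mul] at k1 k2 ⊢
  · rw [neg_one_mul]; exact ellb_neg v hL
  · rw [show -(D * (C.e1 - C.e2)) * (D * (C.e2 - C.e1)) =
      D * (C.e2 - C.e1) * (D * (C.e2 - C.e1)) * 1 by ring, hs_comm, ellb_sq v hL one_ne_zero k1,
      ellb_one v k1]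
  · rw [← mul_one (_ * (D * (C.e2 - C.e1))), ellb_sq v hL one_ne_zero k2, ellb_one v k2]
  · have e : C.e1 - C.e3 + (C.e3 - C.e2) ≠ 0 := by have := C.ne12; omega
    rw [show D * (C.e2 - C.e1) * ((C.e1 - C.e2) * (C.e1 - C.e3)) * (D * (C.e2 - C.e1)) =
        D * (C.e2 - C.e1) * (D * (C.e2 - C.e1)) *
          ((C.e1 - C.e3) * (C.e1 - C.e3 + (C.e3 - C.e2))) by ring,
      ellb_sq v hL (mul_ne_zero C.ne13 e) k2, hs_comm,
      show -((C.e2 - C.e1) * (C.e2 - C.e3) * (D * (C.e1 - C.e2))) * (D * (C.e2 - C.e1)) =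
        D * (C.e2 - C.e1) * (D * (C.e2 - C.e1)) *
          ((C.e3 - C.e2) * (C.e1 - C.e3 + (C.e3 - C.e2))) by ring,
      ellb_sq v hL (mul_ne_zero n32 e) (mul_ne_zero C.ne13 e), hs_comm]
    exact hs_stein v C.ne13 n32 e

/-- The quadratic form that vanishes on the local condition. -/
theorem loc_q {v : ℕ} (hv : v = 0 ∨ v.Prime) {D d1 d2 : ℤ} (hD : D ≠ 0) (h1 : d1 ≠ 0)
    (h2 : d2 ≠ 0) (h : C.Loc v D (C.kum d1 d2)) :
    hs v (d1 * (D * (C.e2 - C.e1))) (-d2 * (D * (C.e2 - C.e1))) = 0 := by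
  obtain ⟨Q, hQ⟩ := h
  have hL := C.ellb_L hD
  rcases C.cob_im (H := Gv v) (Q := Q) hD fun g hg => hQ g hg ▸ C.two_kum d1 d2 g with
    ⟨a, b, h⟩ | ⟨x, y, hx, -, y0, e, h⟩
  · rw [ellb_congr hv hL h1 h2 (C.dl1_ne hD a b) (C.dl2_ne hD a b) fun g hg =>
      C.pt2_inj ((hQ g hg).trans (congrFun h g))]
    exact C.hs_del v hD a b
  have p0 : (x - C.e1) * (x - C.e2) * (x - C.e3) ≠ 0 :=
    e ▸ mul_ne_zero (Int.cast_ne_zero.2 hD) (pow_ne_zero 2 y0)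
  obtain ⟨m, n, n0, k⟩ := approx_cls hv hx {C.e1, C.e2} (by
    simp only [Finset.mem_insert, Finset.mem_singleton, forall_eq_or_imp, forall_eq]
    exact ⟨sub_ne_zero.1 (left_ne_zero_of_mul (left_ne_zero_of_mul p0)),
      sub_ne_zero.1 (right_ne_zero_of_mul (left_ne_zero_of_mul p0))⟩)
  obtain ⟨k1, l1⟩ := k C.e1 (by simp)
  obtain ⟨k2, l2⟩ := k C.e2 (by simp)
  have m1 := mul_ne_zero n0 k1
  have m2 := mul_ne_zero n0 k2
  rw [ellb_congr hv hL h1 h2 (mul_ne_zero hD m1) (mul_ne_zero hD m2) fun g hg => by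
    rw [chi_mul hD m1, chi_mul hD m2, ← l1 g hg, ← l2 g hg]
    exact C.pt2_inj ((hQ g hg).trans (h g hg))]
  have e1 : D * (m - C.e1 * n) + -(D * (m - C.e2 * n)) = n * (D * (C.e2 - C.e1)) := by ring
  have e2 := hs_stein v (mul_ne_zero hD k1) (neg_ne_zero.2 (mul_ne_zero hD k2))
    (e1 ▸ mul_ne_zero n0 hL)
  rw [e1] at e2
  rw [← e2]
  congr 1 <;> ring

/-- Isotropy of the local condition. -/
theorem loc_iso {v : ℕ} (hv : v = 0 ∨ v.Prime) {D a1 a2 b1 b2 : ℤ} (hD : D ≠ 0) (h1 : a1 ≠ 0)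
    (h2 : a2 ≠ 0) (h3 : b1 ≠ 0) (h4 : b2 ≠ 0) (ha : C.Loc v D (C.kum a1 a2))
    (hb : C.Loc v D (C.kum b1 b2)) : hs v a1 b2 + hs v b1 a2 = 0 := by
  have hL := C.ellb_L hD
  have hL' := neg_ne_zero.2 hL
  have e1 := C.loc_q hv hD h1 h2 ha
  have e2 := C.loc_q hv hD h3 h4 hb
  have e3 := C.loc_q hv hD (mul_ne_zero h1 h3) (mul_ne_zero h2 h4)
    (C.kum_mul h1 h2 h3 h4 ▸ ha.add hb)
  have e4 := ellb_neg v hL
  generalize D * (C.e2 - C.e1) = L at *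
  rw [neg_mul_comm] at e1 e2 e3
  simp only [hs_mul_left, hs_mul_right, ne_eq, mul_eq_zero, h1, h2, h3, h4, hL, hL', or_self,
    not_false_eq_true] at e1 e2 e3
  linear_combination e3 - e1 - e2 + e4

theorem loc_del (v : ℕ) {D : ℤ} (hD : D ≠ 0) (a b : F2) :
    C.Loc v D (C.kum (C.dl1 D a b) (C.dl2 D a b)) := by
  obtain ⟨Q, hQ⟩ := C.exists_half (C.pt2 a b)
  rw [← C.cob_half hD hQ]
  exact C.loc_cob v D Q

end Cv

end Pool.Agent.Lib.MP_696deb_nt.Sm
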