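import Pool.Agent.Lib.MP_696deb_nt.Sm.Kit
import Pool.Agent.Lib.MP_696deb_nt.Sm.SelC

/-! The grid lemma: definitions and the twisting identity. -/

set_option autoImplicit false

open scoped Classical
open Finset Function

namespace Pool.Agent.Lib.MP_696deb_nt.Sm

/-- The data of a grid of twists. -/
structure Gd (n M : ℕ) where
  pr : Sx n → Fin (M + 1) → ℕ
  Df : ℤ
  f : Fin (M + 1) → GQ → Gm n M → F2
  J : Finset ℕ
  Jev : Finset ℕ
  a1 : ℤ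
  a2 : ℤ
  al : Sx n → F2
  be : Sx n → F2
  b1 : Zg n M → ℤ
  b2 : Zg n M → ℤ

namespace Gd

variable {n M : ℕ} (G : Gd n M) (C : Cv)

def D (y : Zg n M) : ℤ := G.Df * ∏ i, (G.pr i (y i) : ℤ)

noncomputable def a (y : Zg n M) : GQ → C.A :=
  C.kum (G.a1 * ∏ i, (G.pr i (y i) : ℤ) ^ (G.al i).val)
    (G.a2 * ∏ i, (G.pr i (y i) : ℤ) ^ (G.be i).val)

/-- The primes at which the larger set is relaxed. -/
def J2 (y : Zg n M) : Set ℕ := (G.J : Set ℕ) ∪ Set.range fun i => G.pr i (y i)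

/-- A lift of `a y` with prescribed values. -/
def Lf (e : ℕ → C.A) (J : Set ℕ) (y : Zg n M) (c : GQ → C.A) : Prop :=
  C.IsZ (G.D y) J (n + 1) c ∧ 2 ^ n • c = G.a C y ∧ ∀ q ∈ G.Jev, 2 • c (sig q) = e q

structure Ok : Prop where
  pos : 1 ≤ n
  prime : ∀ i s, (G.pr i s).Prime
  cop : ∀ i s, ¬ (G.pr i s : ℤ) ∣ 30 * G.Df
  inj : ∀ i s i' s', G.pr i s = G.pr i' s' → i = i' ∧ s = s'
  sqf : Squarefree G.Df
  fix : ∀ i s s' (v : ℕ), v = 0 ∨ (v.Prime ∧ (v : ℤ) ∣ 30 * G.Df) →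
    ∀ g ∈ Gv v, chi ((G.pr i s : ℤ) * G.pr i s') g = 0
  cross : ∀ i s s' i' t, i' ≠ i → ∀ g ∈ Gv (G.pr i' t), chi ((G.pr i s : ℤ) * G.pr i s') g = 0
  kit : FKit G.pr G.Df G.f
  hJ : ∀ q ∈ G.J, q.Prime ∧ ¬ q ∣ 30 ∧ (q : ℤ) ∣ G.Df
  ha1 : ∀ i s, ¬ (G.pr i s : ℤ) ∣ G.a1
  ha2 : ∀ i s, ¬ (G.pr i s : ℤ) ∣ G.a2
  hU : ∀ j, G.al (Sum.inl j) = 0 ∧ G.be (Sum.inl j) = 0
  det : ∀ y c, C.IsZ (G.D y) ∅ 1 c → (∀ q ∈ G.Jev, c (sig q) = 0) → c = 0
  hb0 : ∀ y, G.b1 y ≠ 0 ∧ G.b2 y ≠ 0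
  hb : ∀ y, C.IsZ (G.D y) ∅ 1 (C.kum (G.b1 y) (G.b2 y))
  hbJ : ∀ y, ∀ q ∈ G.J2 y, q ≠ G.pr ic (y ic) →
    chi (G.b1 y) (sig q) = 0 ∧ chi (G.b2 y) (sig q) = 0
  pair : ∀ y, G.al ia * chi (G.b2 y) (sig (G.pr ic (y ic))) +
    G.be ia * chi (G.b1 y) (sig (G.pr ic (y ic))) = 1

/-- The elements at which a colour is read off. -/
noncomputable def tests : Finset GQ :=
  ((G.J ∪ univ.image fun i => G.pr i 0).image sig ∪ (G.J ∪ univ.image fun i => G.pr i 0).image frb) ∪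
    G.Jev.image sig

/-- A set of grid points with lifts that all have the same colour. -/
structure Mono (e : ℕ → C.A) (Y : Set (Zg n M)) (c : Zg n M → GQ → C.A) : Prop where
  lf : ∀ y ∈ Y, G.Lf C e G.J y (c y)
  val : ∀ y ∈ Y, ∀ y' ∈ Y, ∀ g ∈ G.tests, c y g = c y' g
  phi : ∀ y ∈ Y, ∀ y' ∈ Y, ∀ g ∈ G.tests, ∀ T, Phi G.f T y g = Phi G.f T y' g
  ram : ∀ y ∈ Y, ∀ y' ∈ Y, ∀ i, c y (sig (G.pr i (y i))) = c y' (sig (G.pr i (y' i)))

/-- The weighted sum of the lifts at level `k`. -/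
noncomputable def Sg (c : Zg n M → GQ → C.A) (k : ℕ) (w : Zg n M → ℤ) : GQ → C.A :=
  ∑ y, w y • (2 ^ (n + 1 - k) • c y)

/-- The weighted sum of the vertex functions of the expansion. -/
noncomputable def ph (T : Finset (Sx n)) (w : Zg n M → ℤ) (g : GQ) : F2 :=
  if ia ∈ T then ∑ y, (w y : F2) * Phi G.f {j | Sum.inl j ∈ T} y g else 0

/-- Weights supported on `Y` with vanishing line sums in the directions of `T`. -/
def Lam (Y : Set (Zg n M)) (T : Finset (Sx n)) (w : Zg n M → ℤ) : Prop :=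
  (∀ y, w y ≠ 0 → y ∈ Y) ∧ ∀ i ∈ T, LS (2 ^ (n + 1)) w i

/-- The bit by which the twist at `y` differs from the twist at `x` in direction `i`. -/
noncomputable def cb (x y : Zg n M) (g : GQ) (i : Sx n) : ℤ :=
  (chi ((G.pr i (x i) : ℤ) * G.pr i (y i)) g).val

/-- The line through the two-torsion point of the pointer direction. -/
noncomputable def tA : F2 →+ C.A :=
  AddMonoidHom.mk' (fun t => C.pt2 (t * G.al ia) (t * G.be ia)) fun a b => by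
    simp only [add_mul, C.pt2_add]

variable {G C} {e : ℕ → C.A} {Y : Set (Zg n M)} {c : Zg n M → GQ → C.A}

theorem tA_apply (t : F2) : G.tA C t = C.pt2 (t * G.al ia) (t * G.be ia) := rfl

theorem two_tA (t : F2) : 2 • G.tA C t = 0 := C.two_pt2 _ _

theorem pow_F2 (k : ℕ) (t : F2) : 2 ^ (k + 1) • t = 0 := by
  rw [pow_succ, mul_smul, two_nsmul, CharTwo.add_self_eq_zero, smul_zero]

theorem Ok.pr_ne (h : G.Ok C) (i : Sx n) (s : Fin (M + 1)) : (G.pr i s : ℤ) ≠ 0 := by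
  exact_mod_cast (h.prime i s).ne_zero

theorem Ok.dvd_D (h : G.Ok C) {p : ℕ} (hp : p.Prime) (y : Zg n M) :
    (p : ℤ) ∣ 30 * G.D y ↔ (p : ℤ) ∣ 30 * G.Df ∨ ∃ i, p = G.pr i (y i) := by
  have hp' : Prime (p : ℤ) := Nat.prime_iff_prime_int.1 hp
  rw [D, ← mul_assoc, hp'.dvd_mul, hp'.dvd_finsetProd_iff]
  refine or_congr_right ⟨fun ⟨i, _, hi⟩ => ⟨i, ?_⟩, fun ⟨i, hi⟩ => ⟨i, mem_univ _, hi ▸ dvd_rfl⟩⟩
  exact (Nat.prime_dvd_prime_iff_eq hp (h.prime _ _)).1 (Int.natCast_dvd_natCast.1 hi)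

theorem Ok.not30 (h : G.Ok C) (i : Sx n) (s : Fin (M + 1)) : ¬ G.pr i s ∣ 30 := fun k =>
  h.cop i s (dvd_mul_of_dvd_left (by exact_mod_cast k) _)

theorem Ok.ne_two (h : G.Ok C) (i : Sx n) (s : Fin (M + 1)) : G.pr i s ≠ 2 := fun k =>
  h.not30 i s (k ▸ by norm_num)

theorem Ok.notJ (h : G.Ok C) (i : Sx n) (s : Fin (M + 1)) : G.pr i s ∉ (G.J : Set ℕ) := fun k =>
  h.cop i s (dvd_mul_of_dvd_right (h.hJ _ k).2.2 _)

theorem Ok.J2 (h : G.Ok C) (y : Zg n M) :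
    ∀ q ∈ G.J2 y, q.Prime ∧ ¬ q ∣ 30 ∧ (q : ℤ) ∣ G.D y := by
  rintro q (hq | ⟨i, rfl⟩)
  · exact ⟨(h.hJ q hq).1, (h.hJ q hq).2.1, dvd_mul_of_dvd_left (h.hJ q hq).2.2 _⟩
  · exact ⟨h.prime _ _, h.not30 _ _, dvd_mul_of_dvd_right
      (dvd_prod_of_mem (fun i => (G.pr i (y i) : ℤ)) (mem_univ i)) _⟩

theorem Ok.D_sqf (h : G.Ok C) (y : Zg n M) : Squarefree (G.D y) := by
  have hp : ∀ i s, Prime (G.pr i s : ℤ) := fun i s => Nat.prime_iff_prime_int.1 (h.prime i s)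
  refine squarefree_mul_iff.2 ⟨IsRelPrime.prod_right fun i _ => ?_, h.sqf,
    squarefree_prod_of_pairwise_isCoprime (fun i _ j _ hij => ?_) fun i _ => (hp _ _).squarefree⟩
  · exact ((hp _ _).irreducible.isRelPrime_iff_not_dvd.2 fun k =>
      h.cop _ _ (dvd_mul_of_dvd_right k _)).symm
  · exact (hp _ _).irreducible.isRelPrime_iff_not_dvd.2 fun k => hij (h.inj _ _ _ _
      ((Nat.prime_dvd_prime_iff_eq (h.prime _ _) (h.prime _ _)).1
        (Int.natCast_dvd_natCast.1 k))).1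

theorem Ok.chi_D (h : G.Ok C) (x y : Zg n M) (g : GQ) :
    chi (G.D y) g = chi (G.D x) g + ∑ i, chi ((G.pr i (x i) : ℤ) * G.pr i (y i)) g := by
  have e : ∀ z : Zg n M, chi (G.D z) g = chi G.Df g + ∑ i, chi (G.pr i (z i)) g := fun z => by
    rw [D, chi_mul h.sqf.ne_zero (prod_ne_zero_iff.2 fun i _ => h.pr_ne _ _),
      chi_prod _ _ fun i _ => h.pr_ne _ _]
  simp only [e, chi_mul (h.pr_ne _ _) (h.pr_ne _ _), sum_add_distrib]
  rw [add_assoc, ← add_assoc (∑ i, chi (G.pr i (x i)) g), CharTwo.add_self_eq_zero, zero_add]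

theorem Ok.chi_fix (h : G.Ok C) (x y : Zg n M) {v : ℕ}
    (hv : v = 0 ∨ (v.Prime ∧ (v : ℤ) ∣ 30 * G.Df)) : ∀ g ∈ Gv v, chi (G.D x) g = chi (G.D y) g := by
  intro g hg
  rw [h.chi_D x y, sum_eq_zero fun i _ => h.fix i _ _ v hv g hg, add_zero]

theorem Ok.chi_cross (h : G.Ok C) {x y : Zg n M} {i : Sx n} (hi : y i = x i) :
    ∀ g ∈ Gv (G.pr i (x i)), chi (G.D x) g = chi (G.D y) g := by
  intro g hg
  rw [h.chi_D x y, sum_eq_zero fun j _ => ?_, add_zero]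
  by_cases k : i = j
  · rw [← k, hi, chi_sq]
  · exact h.cross j _ _ i _ k g hg

theorem Ok.chi_a (h : G.Ok C) (y : Zg n M) (i : Sx n) {a : ℤ} (ha : ¬ (G.pr i (y i) : ℤ) ∣ a)
    (t : Sx n → F2) : chi (a * ∏ j, (G.pr j (y j) : ℤ) ^ (t j).val) (sig (G.pr i (y i))) = t i := by
  have a0 : a ≠ 0 := by rintro rfl; exact ha (dvd_zero _)
  rw [chi_mul a0 (prod_ne_zero_iff.2 fun j _ => pow_ne_zero _ (h.pr_ne _ _)),
    chi_prod _ _ fun j _ => pow_ne_zero _ (h.pr_ne _ _),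
    chi_sig_of_not_dvd (h.prime _ _) (h.ne_two _ _) ha, zero_add, sum_eq_single i]
  · rw [chi_pow_val (h.pr_ne _ _), chi_sig_self (h.prime _ _) (h.ne_two _ _), mul_one]
  · intro j _ hj
    rw [chi_pow_val (h.pr_ne _ _), chi_sig_of_not_dvd (h.prime _ _) (h.ne_two _ _), mul_zero]
    exact fun k => hj (h.inj _ _ _ _ ((Nat.prime_dvd_prime_iff_eq (h.prime _ _) (h.prime _ _)).1
      (Int.natCast_dvd_natCast.1 k))).1.symm
  · exact fun k => (k (mem_univ _)).elim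

theorem Ok.a_sig (h : G.Ok C) (y : Zg n M) (i : Sx n) :
    G.a C y (sig (G.pr i (y i))) = C.pt2 (G.al i) (G.be i) := by
  rw [a, Cv.kum, h.chi_a y i (h.ha1 _ _), h.chi_a y i (h.ha2 _ _)]

theorem Ok.a_update (h : G.Ok C) (y : Zg n M) (j : Fin n) (s : Fin (M + 1)) :
    G.a C (update y (Sum.inl j) s) = G.a C y := by
  have e : ∀ t : Sx n → F2, t (Sum.inl j) = 0 →
      ∏ i, (G.pr i (update y (Sum.inl j) s i) : ℤ) ^ (t i).val =
        ∏ i, (G.pr i (y i) : ℤ) ^ (t i).val := fun t ht => by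
    refine prod_congr rfl fun i _ => ?_
    by_cases hi : i = Sum.inl j
    · rw [hi, ht, ZMod.val_zero, pow_zero, pow_zero]
    · rw [update_of_ne hi]
  rw [a, a, e _ (h.hU j).1, e _ (h.hU j).2]

theorem Sg_apply (c : Zg n M → GQ → C.A) (k : ℕ) (w : Zg n M → ℤ) (g : GQ) :
    Sg C c k w g = ∑ y, w y • 2 ^ (n + 1 - k) • c y g := by
  simp only [Sg, Finset.sum_apply, Pi.smul_apply]

theorem sum_supp {β : Type} [AddCommGroup β] {w : Zg n M → ℤ} (hw : ∀ y, w y ≠ 0 → y ∈ Y)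
    {v u : Zg n M → β} (huv : ∀ y ∈ Y, v y = u y) : ∑ y, w y • v y = ∑ y, w y • u y := by
  refine sum_congr rfl fun y _ => ?_
  by_cases h0 : w y = 0
  · rw [h0, zero_smul, zero_smul]
  · rw [huv y (hw y h0)]

theorem sum_zero {β : Type} [AddCommGroup β] {w : Zg n M → ℤ} (hw : ∀ y, w y ≠ 0 → y ∈ Y)
    {v : Zg n M → β} (hv : ∀ y ∈ Y, v y = 0) : ∑ y, w y • v y = 0 :=
  (sum_supp hw (u := fun _ => 0) hv).trans (sum_eq_zero fun _ _ => smul_zero _)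

theorem sum_mono {β : Type} [AddCommGroup β] {w : Zg n M → ℤ} (hw : ∀ y, w y ≠ 0 → y ∈ Y)
    {m : ℕ} {i : Sx n} (hl : LS m w i) {v : Zg n M → β} (hv : ∀ y ∈ Y, ∀ y' ∈ Y, v y = v y')
    (hm : ∀ y ∈ Y, m • v y = 0) : ∑ y, w y • v y = 0 := by
  by_cases hY : Y.Nonempty
  · obtain ⟨y0, h0⟩ := hY
    exact (sum_supp hw (u := fun _ => v y0) fun y hy => hv y hy y0 h0).trans
      (hl.sum (fun _ _ => rfl) fun _ => hm y0 h0)
  · exact sum_zero hw fun y hy => (hY ⟨y, hy⟩).elim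

theorem sum_cl {β : Type} [AddCommGroup β] {b : Zg n M → ℤ} {x : Zg n M} {m : ℕ} {i : Sx n}
    (hl : LS m (b - Pi.single x 1) i) {u : Zg n M → β} (hu : ∀ y s, u (update y i s) = u y)
    (hm : ∀ y, m • u y = 0) : ∑ y, b y • u y = u x := by
  have h := hl.sum hu hm
  simp only [Pi.sub_apply, sub_smul, sum_sub_distrib, Pi.single_apply, ite_smul, one_smul,
    zero_smul, sum_ite_eq', mem_univ, if_true] at h
  exact sub_eq_zero.1 h

theorem Mono.tors (hm : G.Mono C e Y c) {y : Zg n M} (hy : y ∈ Y) (k : ℕ) (g : GQ) :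
    2 ^ (n + 1) • 2 ^ k • c y g = 0 := by
  rw [smul_comm, (hm.lf y hy).1.tors, smul_zero]

theorem Mono.Sg_zero (hm : G.Mono C e Y c) {w : Zg n M → ℤ} (hw : ∀ y, w y ≠ 0 → y ∈ Y) :
    Sg C c 0 w = 0 := funext fun g => by
  rw [Sg_apply]
  exact sum_zero hw fun y hy => (hm.lf y hy).1.tors g

theorem Sg_pow (c : Zg n M → GQ → C.A) {j k : ℕ} (hj : j ≤ k) (hk : k ≤ n + 1) (w : Zg n M → ℤ)
    (g : GQ) : Sg C c j w g = 2 ^ (k - j) • Sg C c k w g := by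
  rw [Sg_apply, Sg_apply, smul_sum]
  refine sum_congr rfl fun y _ => ?_
  rw [smul_comm (2 ^ (k - j)), smul_smul (2 ^ (k - j)), ← pow_add,
    show k - j + (n + 1 - k) = n + 1 - j by omega]

theorem Mono.lc (hm : G.Mono C e Y c) (k : ℕ) {w : Zg n M → ℤ} (hw : ∀ y, w y ≠ 0 → y ∈ Y) :
    LC (Sg C c k w) := by
  refine lc_sum _ fun y _ => ?_
  by_cases h0 : w y = 0
  · rw [h0, zero_smul]
    exact B2.Sm.const 0
  · exact (hm.lf y (hw y h0)).1.lc.comp fun P => w y • 2 ^ (n + 1 - k) • P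

theorem sn_sum {ι : Type} (s : Finset ι) (t : ι → F2) :
    sn (∑ i ∈ s, t i) = ∑ R ∈ s.powerset, (-1) ^ R.card * (2 ^ R.card * ∏ i ∈ R, ((t i).val : ℤ)) := by
  have e : sn (∑ i ∈ s, t i) = ∏ i ∈ s, (1 + (-1) * (2 * ((t i).val : ℤ))) := by
    induction s using Finset.induction_on with
    | empty => simp [sn_zero]
    | insert i s hi ih => rw [sum_insert hi, prod_insert hi, sn_add, ih, sn_eq]; ring
  simp only [e, prod_one_add, prod_mul_distrib, prod_const]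

theorem pow_shift {P : C.A} (hP : 2 ^ (n + 1) • P = 0) {k : ℕ} (hk : k ≤ n + 1) (r : ℕ) :
    2 ^ (n + 1 - (k - r)) • P = (2 : ℤ) ^ r • 2 ^ (n + 1 - k) • P := by
  rw [show (2 : ℤ) ^ r = ((2 ^ r : ℕ) : ℤ) by push_cast; rfl, natCast_zsmul, smul_smul, ← pow_add]
  rcases le_total r k with h | h
  · rw [show n + 1 - (k - r) = r + (n + 1 - k) by omega]
  · rw [show n + 1 - (k - r) = n + 1 by omega, show r + (n + 1 - k) = r - k + (n + 1) by omega,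
      hP, pow_add, mul_smul, hP, smul_zero]

/-- The twisting identity. -/
theorem Mono.twist (h : G.Ok C) (hm : G.Mono C e Y c) (x : Zg n M) {k : ℕ} (hk : k ≤ n + 1)
    {w : Zg n M → ℤ} (hw : ∀ y, w y ≠ 0 → y ∈ Y) (g g' : GQ) :
    Sg C c k w (g * g') = Sg C c k w g + ∑ R : Finset (Sx n), (-1 : ℤ) ^ R.card •
      C.tw (G.D x) g (Sg C c (k - R.card) (fun y => w y * ∏ i ∈ R, G.cb x y g i) g') := by
  simp only [Sg_apply, C.tw_sum, smul_sum]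
  rw [sum_comm, ← sum_add_distrib]
  refine sum_congr rfl fun y _ => ?_
  by_cases h0 : w y = 0
  · simp [h0, C.tw_zero]
  have hz := (hm.lf y (hw y h0)).1
  rw [hz.coc, smul_add, smul_add, ← C.tw_nsmul, Cv.tw, h.chi_D x y, sn_add, sn_sum, powerset_univ,
    mul_sum, sum_smul, smul_sum]
  congr 1
  refine sum_congr rfl fun R _ => ?_
  rw [pow_shift (hz.tors g') hk, Cv.tw, map_zsmul, map_zsmul]
  simp only [smul_smul, cb]
  congr 1
  ring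

end Gd

end Pool.Agent.Lib.MP_696deb_nt.Sm
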