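import Pool.Agent.Lib.MP_696deb_nt.Sm.GridA

/-! The grid lemma: weighted sums of lifts agree with the governing expansion. -/

set_option autoImplicit false

open scoped Classical
open Finset Function

namespace Pool.Agent.Lib.MP_696deb_nt.Sm

namespace Gd

variable {n M : ℕ} {G : Gd n M} {C : Cv} {e : ℕ → C.A} {Y : Set (Zg n M)}
  {c : Zg n M → GQ → C.A}

/-- The statement that sums agree with the expansion, for all direction sets of size `k`. -/
def AS (G : Gd n M) (C : Cv) (Y : Set (Zg n M)) (c : Zg n M → GQ → C.A) (k : ℕ) : Prop :=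
  ∀ T : Finset (Sx n), T.card = k → ic ∉ T → ∀ w, Lam Y T w → ∀ g,
    Sg C c k w g = G.tA C (G.ph T w g)

theorem Lam.mono {T T' : Finset (Sx n)} {w : Zg n M → ℤ} (hw : Lam Y T w) (h : T' ⊆ T) :
    Lam Y T' w := ⟨hw.1, fun i hi => hw.2 i (h hi)⟩

theorem cb_update (x y : Zg n M) (g : GQ) {R : Finset (Sx n)} {i : Sx n} (hi : i ∉ R)
    (s : Fin (M + 1)) : ∏ j ∈ R, G.cb x (update y i s) g j = ∏ j ∈ R, G.cb x y g j := by
  refine prod_congr rfl fun j hj => ?_
  rw [cb, cb, update_of_ne (by rintro rfl; exact hi hj)]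

theorem Lam.cb {T : Finset (Sx n)} {w : Zg n M → ℤ} (hw : Lam Y T w) (x : Zg n M) (g : GQ)
    (R : Finset (Sx n)) : Lam Y (T \ R) fun y => w y * ∏ j ∈ R, G.cb x y g j :=
  ⟨fun y hy => hw.1 y (left_ne_zero_of_mul hy), fun i hi =>
    (hw.2 i (mem_sdiff.1 hi).1).mul fun y s => cb_update x y g (mem_sdiff.1 hi).2 s⟩

theorem Phi_ic (U : Finset (Fin n)) (y : Zg n M) (s : Fin (M + 1)) (g : GQ) :
    Phi G.f U (update y ic s) g = Phi G.f U y g := by
  simp [Phi]

theorem ph_neg {T : Finset (Sx n)} (h : ia ∉ T) (w : Zg n M → ℤ) (g : GQ) : G.ph T w g = 0 :=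
  if_neg h

theorem ph_pos {T : Finset (Sx n)} (h : ia ∈ T) (w : Zg n M → ℤ) (g : GQ) :
    G.ph T w g = ∑ y, w y • Phi G.f {j | Sum.inl j ∈ T} y g := by
  simp only [ph, if_pos h, zsmul_eq_mul]

theorem ph_zero {T : Finset (Sx n)} {w : Zg n M → ℤ} (hw : Lam Y T w) {g : GQ}
    (hf : ∀ s s', G.f s g = G.f s' g) : G.ph T w g = 0 := by
  by_cases h : ia ∈ T
  · rw [ph_pos h]
    refine (hw.2 _ h).sum (fun y s => ?_) fun _ => pow_F2 _ _
    simp [Phi, hf s (y ia)]
  · exact ph_neg h _ _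

theorem lc_ph (h : G.Ok C) (T : Finset (Sx n)) (w : Zg n M → ℤ) : LC (G.ph T w) := by
  exact (B2.Sm.pi h.kit.lc).comp fun F : Fin (M + 1) → Gm n M → F2 => if ia ∈ T then
    ∑ y, (w y : F2) * ∑ γ, F (y ia) γ * ∏ j ∈ ({j | Sum.inl j ∈ T} : Finset (Fin n)),
      mu j (y (Sum.inl j)) γ else 0

theorem ph_mul (h : G.Ok C) {T : Finset (Sx n)} (hc : ic ∉ T) (w : Zg n M → ℤ) (g g' : GQ) :
    G.ph T w (g * g') = G.ph T w g + ∑ R : Finset (Sx n),
      if R ⊆ T then G.ph (T \ R) (fun y => w y * ∏ i ∈ R, G.cb 0 y g i) g' else 0 := by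
  by_cases ha : ia ∈ T
  swap
  · simp [ph, ha]
  rw [ph_pos ha, ph_pos ha]
  simp only [Phi_mul h.kit, smul_add, sum_add_distrib, smul_sum]
  congr 1
  rw [sum_comm]
  refine sum_of_injOn (fun R => R.map Embedding.inl) (map_injective _).injOn
    (fun _ _ => mem_univ _) (fun R _ hR => ?_) fun R hR => ?_
  · split_ifs with h1
    · refine ph_neg (fun h2 => hR ⟨R.toLeft, ?_, ?_⟩) _ _
      · exact mem_coe.2 (mem_powerset.2 fun j hj => by simpa using h1 (mem_toLeft.1 hj))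
      · ext i
        rcases i with j | _ | _
        · simp
        · simpa using fun k => hc (h1 k)
        · simpa using (mem_sdiff.1 h2).2
    · rfl
  · have h1 : R.map Embedding.inl ⊆ T := fun i hi => by
      obtain ⟨j, hj, rfl⟩ := mem_map.1 hi
      simpa using mem_powerset.1 hR hj
    have h2 : ({j | Sum.inl j ∈ T \ R.map Embedding.inl} : Finset (Fin n)) =
        ({j | Sum.inl j ∈ T} : Finset (Fin n)) \ R := by
      ext j
      simp
    rw [if_pos h1, ph_pos (by simpa using ha), h2]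
    refine sum_congr rfl fun y _ => ?_
    simp [cb, mul_assoc]

theorem Mono.bs (_hm : G.Mono C e Y c) {k : ℕ} (hk : k ≤ n + 1) (hA : AS G C Y c k)
    {T : Finset (Sx n)} (hT : T.card = k + 1) {w : Zg n M → ℤ} (hw : Lam Y T w) {j : ℕ}
    (hj : j ≤ k) (g : GQ) : Sg C c j w g = 0 := by
  have key : ∀ i ∈ T, ic ∉ T.erase i → G.ph (T.erase i) w g = 0 → Sg C c j w g = 0 :=
    fun i hi h1 h2 => by
      rw [Sg_pow c hj hk, hA (T.erase i) (by rw [card_erase_of_mem hi, hT]; rfl) h1 w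
        (hw.mono (erase_subset _ _)), h2, map_zero, smul_zero]
  by_cases h1 : ic ∈ T
  · refine key _ h1 (notMem_erase _ _) ?_
    by_cases h2 : ia ∈ T.erase ic
    · rw [ph_pos h2]
      exact (hw.2 _ h1).sum (fun y s => Phi_ic _ _ _ _) fun _ => pow_F2 _ _
    · exact ph_neg h2 _ _
  · by_cases h2 : ia ∈ T
    · exact key _ h2 (fun k => h1 (mem_of_mem_erase k)) (ph_neg (notMem_erase _ _) _ _)
    · obtain ⟨i, hi⟩ : T.Nonempty := card_pos.1 (by omega)
      exact key _ hi (fun k => h1 (mem_of_mem_erase k))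
        (ph_neg (fun k => h2 (mem_of_mem_erase k)) _ _)

theorem Mono.hom (h : G.Ok C) (hm : G.Mono C e Y c) {k : ℕ} (hk : k + 1 ≤ n + 1)
    (hA : ∀ j ≤ k, AS G C Y c j) {T : Finset (Sx n)} (hT : T.card = k + 1) (hc : ic ∉ T)
    {w : Zg n M → ℤ} (hw : Lam Y T w) : ∃ d1 d2 : ℤ, Squarefree d1 ∧ Squarefree d2 ∧
      (fun g => Sg C c (k + 1) w g - G.tA C (G.ph T w g)) = C.kum d1 d2 := by
  have h2 : ∀ g, 2 • Sg C c (k + 1) w g = 0 := fun g => by
    have h3 := Sg_pow c k.le_succ hk w g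
    rw [hm.bs (by omega) (hA k le_rfl) hT hw le_rfl, Nat.succ_sub le_rfl, Nat.sub_self] at h3
    exact h3.symm
  refine C.exists_kum (fun g => by rw [smul_sub, h2, two_tA, sub_zero]) (fun g g' => ?_)
    ((hm.lc _ hw.1).comp₂ (lc_ph h T w) fun P t => P - G.tA C t)
  rw [hm.twist h 0 hk hw.1, ph_mul h hc, map_add, map_sum, add_sub_add_comm, ← sum_sub_distrib,
    sum_eq_single ∅ (fun R _ hR => ?_) fun k => (k (mem_univ _)).elim]
  · simp [C.tw_two _ _ (h2 g')]
  have hR0 : 0 < R.card := card_pos.2 (nonempty_iff_ne_empty.2 hR)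
  have hwR := hw.cb (G := G) 0 g R
  split_ifs with h1
  · rw [hA _ (by omega) (T \ R) (by rw [card_sdiff_of_subset h1, hT])
      (fun k => hc (mem_sdiff.1 k).1) _ hwR, C.tw_two _ _ (two_tA _), ← map_zsmul, ← map_sub]
    rcases neg_one_pow_eq_or ℤ R.card with h3 | h3 <;> simp [h3]
  · rw [map_zero, sub_zero]
    have h3 : (T ∩ R).card < R.card := card_lt_card ⟨inter_subset_right, fun k =>
      h1 fun i hi => (mem_inter.1 (k hi)).1⟩
    have h4 := card_sdiff_add_card_inter T R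
    rcases Nat.eq_zero_or_eq_succ_pred (T \ R).card with h5 | h5
    · rw [show k + 1 - R.card = 0 by omega, hm.Sg_zero hwR.1, Pi.zero_apply, C.tw_zero, smul_zero]
    · rw [Nat.succ_eq_add_one, Nat.pred_eq_sub_one] at h5
      rw [hm.bs (by omega) (hA _ (by omega)) h5 hwR (by omega), C.tw_zero, smul_zero]

theorem Mono.sig_off (h : G.Ok C) (hm : G.Mono C e Y c) {y : Zg n M} (hy : y ∈ Y) {p : ℕ}
    (hp : p.Prime) (hD : ¬ (p : ℤ) ∣ 30 * G.Df) (hn : ∀ i, p ≠ G.pr i (y i)) : c y (sig p) = 0 :=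
  (hm.lf y hy).1.unr p hp fun k => ((h.dvd_D hp y).1 k).elim hD fun ⟨i, hi⟩ => hn i hi

theorem Mono.sig_ne (h : G.Ok C) (hm : G.Mono C e Y c) {y : Zg n M} (hy : y ∈ Y) {i : Sx n}
    {s : Fin (M + 1)} (hs : y i ≠ s) : c y (sig (G.pr i s)) = 0 :=
  hm.sig_off h hy (h.prime _ _) (h.cop _ _) fun j k => by
    obtain ⟨rfl, rfl⟩ := h.inj _ _ _ _ k
    exact hs rfl

theorem Mono.sig_pr (h : G.Ok C) (hm : G.Mono C e Y c) (i : Sx n) (s : Fin (M + 1)) :
    ∃ P : C.A, 2 ^ (n + 1) • P = 0 ∧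
      ∀ y ∈ Y, c y (sig (G.pr i s)) = if y i = s then P else 0 := by
  by_cases hY : Y.Nonempty
  · obtain ⟨y0, h0⟩ := hY
    refine ⟨_, (hm.lf y0 h0).1.tors (sig (G.pr i (y0 i))), fun y hy => ?_⟩
    split_ifs with k
    · rw [← k, hm.ram y hy y0 h0]
    · exact hm.sig_ne h hy k
  · exact ⟨0, smul_zero _, fun y hy => (hY ⟨y, hy⟩).elim⟩

theorem Mono.unr (h : G.Ok C) (hm : G.Mono C e Y c) {k : ℕ}
    {T : Finset (Sx n)} (hT : T.card = k + 1) (hc : ic ∉ T) {w : Zg n M → ℤ} (hw : Lam Y T w)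
    {p : ℕ} (hp : p.Prime) (hD : ¬ (p : ℤ) ∣ 30 * G.Df) :
    Sg C c (k + 1) w (sig p) = G.tA C (G.ph T w (sig p)) := by
  have h2 : p ≠ 2 := by
    rintro rfl
    exact hD (dvd_mul_of_dvd_left (by norm_num) _)
  have hoff : (∀ t, p ≠ G.pr ia t) → G.ph T w (sig p) = 0 := fun hp' =>
    ph_zero hw fun s s' => h.kit.unr s s' p hp h2 hp'
  rw [Sg_apply]
  by_cases hq : ∃ i s, p = G.pr i s
  swap
  · rw [hoff fun t k => hq ⟨_, t, k⟩, map_zero]
    exact sum_zero hw.1 fun y hy => by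
      rw [hm.sig_off h hy hp hD fun i k => hq ⟨_, _, k⟩, smul_zero]
  obtain ⟨i, s, rfl⟩ := hq
  by_cases h1 : ∃ i' ∈ T, i' ≠ i
  · obtain ⟨i', hi', hne⟩ := h1
    obtain ⟨P, hP, h3⟩ := hm.sig_pr h i s
    rw [sum_supp hw.1 (u := fun y => 2 ^ (n + 1 - (k + 1)) • if y i = s then P else 0)
      fun y hy => by rw [h3 y hy], (hw.2 i' hi').sum (fun y t => by rw [update_of_ne hne.symm])
      fun y => by split_ifs <;> simp [smul_comm (2 ^ (n + 1)), hP]]
    by_cases hi : i = ia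
    · by_cases ha : ia ∈ T
      · rw [ph_pos ha, sum_eq_zero fun y _ => ?_, map_zero]
        rcases i' with j | _ | _
        · rw [Phi, sum_eq_zero fun γ _ => ?_, smul_zero]
          rw [hi, h.kit.ram]
          split_ifs with h4
          · rw [h4.2, prod_eq_zero (i := j) (by simpa using hi') (mu_zero _ _), mul_zero]
          · exact zero_mul _
        · exact (hc hi').elim
        · exact (hne hi.symm).elim
      · rw [ph_neg ha, map_zero]
    · rw [hoff fun t k => hi (h.inj _ _ _ _ k).1, map_zero]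
  · have h3 : T ⊆ {i} := fun j hj => mem_singleton.2 (by_contra fun k => h1 ⟨j, hj, k⟩)
    have h4 := card_le_card h3
    rw [card_singleton] at h4
    obtain rfl : k = 0 := by omega
    obtain rfl : T = {i} := eq_of_subset_of_card_le h3 (by rw [card_singleton, hT])
    rw [sum_supp hw.1 (u := fun y => if y i = s then C.pt2 (G.al i) (G.be i) else 0)
      fun y hy => ?_]
    · rcases i with j | _ | _
      · simp [(h.hU j).1, (h.hU j).2, C.pt2_zero, ph]
      · exact (hc (mem_singleton_self _)).elim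
      · rw [ph_pos (mem_singleton_self _), map_sum]
        refine sum_congr rfl fun y _ => ?_
        rw [map_zsmul]
        by_cases h5 : y ia = s <;> simp [Phi, h.kit.ram, h5, tA_apply, C.pt2_zero]
    · split_ifs with h5
      · rw [← h5, ← h.a_sig, ← (hm.lf y hy).2.1]
        rfl
      · rw [hm.sig_ne h hy h5, smul_zero]

theorem Mono.loc (h : G.Ok C) (hm : G.Mono C e Y c) (x : Zg n M) (k : ℕ) {w : Zg n M → ℤ}
    (hw : ∀ y, w y ≠ 0 → y ∈ Y) {v : ℕ} (hv : v = 0 ∨ (v.Prime ∧ (v : ℤ) ∣ 30 * G.Df))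
    (hJ : v ∉ (G.J : Set ℕ)) : C.Loc v (G.D x) (Sg C c k w) := by
  refine Cv.loc_sum _ _ _ fun y _ hy => ?_
  rw [← natCast_zsmul]
  exact (((hm.lf y (hw y hy)).1.loc v (hv.imp_right fun k =>
    ⟨k.1, (h.dvd_D k.1 y).2 (Or.inl k.2)⟩) hJ).congr (h.chi_fix x y hv) fun _ _ => rfl).zsmul _

theorem Mono.as (h : G.Ok C) (hm : G.Mono C e Y c) {k : ℕ} (hk : k ≤ n + 1) : AS G C Y c k := by
  induction k using Nat.strong_induction_on with
  | _ k ih =>
  intro T hT hc w hw g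
  rcases k with _ | k
  · rw [card_eq_zero.1 hT, hm.Sg_zero hw.1, ph_neg (notMem_empty _), map_zero, Pi.zero_apply]
  obtain ⟨d1, d2, s1, s2, hd⟩ := hm.hom h hk (fun j hj => ih j (by omega) (by omega)) hT hc hw
  have hd' : ∀ g, C.kum d1 d2 g = Sg C c (k + 1) w g - G.tA C (G.ph T w g) := fun g =>
    (congrFun hd g).symm
  obtain ⟨i, hi⟩ : T.Nonempty := card_pos.1 (by omega)
  have ht : ∀ g ∈ G.tests, C.kum d1 d2 g = 0 := fun g hg => by
    rw [hd', Sg_apply, sum_mono hw.1 (hw.2 i hi) (fun y hy y' hy' => by rw [hm.val y hy y' hy' g hg])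
      fun y hy => hm.tors hy _ _]
    by_cases ha : ia ∈ T
    · rw [ph_pos ha, sum_mono hw.1 (hw.2 i hi) (fun y hy y' hy' => hm.phi y hy y' hy' g hg _)
        fun _ _ => pow_F2 _ _, map_zero, sub_zero]
    · rw [ph_neg ha, map_zero, sub_zero]
  have h0 := h.det 0 (C.kum d1 d2) ⟨fun g => by rw [pow_one, C.two_kum],
    fun g g' => by rw [C.kum_hom, C.tw_two _ _ (C.two_kum _ _ _)], C.lc_kum _ _, fun v hv _ => ?_,
    fun _ hv => hv.elim, fun p hp hD => ?_⟩ fun q hq =>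
      ht _ (mem_union_right _ (mem_image_of_mem _ hq))
  · exact sub_eq_zero.1 ((hd' g).symm.trans (congrFun h0 g))
  · by_cases hq : v ∈ G.J ∪ univ.image fun i => G.pr i 0
    · have h1 : v.Prime ∧ v ≠ 2 := by
        rcases mem_union.1 hq with h1 | h1
        · exact ⟨(h.hJ v h1).1, fun k => (h.hJ v h1).2.1 (k ▸ by norm_num)⟩
        · obtain ⟨j, -, rfl⟩ := mem_image.1 h1
          exact ⟨h.prime _ _, h.ne_two _ _⟩
      obtain ⟨a1, a2⟩ := C.pt2_eq_zero
        (ht _ (mem_union_left _ (mem_union_left _ (mem_image_of_mem _ hq))))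
      obtain ⟨a3, a4⟩ := C.pt2_eq_zero
        (ht _ (mem_union_left _ (mem_union_right _ (mem_image_of_mem _ hq))))
      refine (C.loc_zero v _).congr (fun _ _ => rfl) fun g hg => ?_
      rw [Cv.kum, chi_Gv h1.1 h1.2 s1.ne_zero a1 a3 g hg, chi_Gv h1.1 h1.2 s2.ne_zero a2 a4 g hg,
        C.pt2_zero, Pi.zero_apply]
    · have h1 : v = 0 ∨ (v.Prime ∧ (v : ℤ) ∣ 30 * G.Df) := hv.imp_right fun k =>
        ⟨k.1, ((h.dvd_D k.1 0).1 k.2).resolve_right fun ⟨j, hj⟩ =>
          hq (mem_union_right _ (mem_image.2 ⟨j, mem_univ _, hj.symm⟩))⟩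
      refine (hm.loc h 0 (k + 1) hw.1 h1 fun k => hq (mem_union_left _ k)).congr
        (fun _ _ => rfl) fun g hg => ?_
      rw [hd', ph_zero hw fun s s' => h.kit.fix s s' v h1 g hg, map_zero, sub_zero]
  · rw [hd', hm.unr h hT hc hw hp fun k => hD ((h.dvd_D hp 0).2 (Or.inl k)), sub_self]

end Gd

end Pool.Agent.Lib.MP_696deb_nt.Sm
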