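import Pool.Agent.Lib.MP_696deb_nt.Sa.Samp
import Pool.Agent.Lib.MP_696deb_nt.Sa.Gen
import Pool.Agent.Lib.MP_696deb_nt.Sa.An

/-! Statements of the analytic parts . -/

set_option autoImplicit false

open scoped Classical
open Finset Function

namespace Pool.Agent.Lib.MP_696deb_nt.Sm

/-- Every Legendre matrix occurs about equally often. -/
theorem equi_main {ε : ℝ} (hε : 0 < ε) : ∃ c : ℕ, ∀ B : Box, B.Hyp c → ∀ a : B.Mat,
    |((B.fib a).card : ℝ) - B.pts.card / Fintype.card B.Mat| ≤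
      ε * (B.pts.card / Fintype.card B.Mat) :=
  equi_main' hε

/-- Most Legendre matrices are generic. -/
theorem gen_main {A1 B1 A2 B2 : ℤ} (h0 : A1 * B1 * A2 * B2 ≠ 0)
    (h30 : ∀ p : ℕ, p.Prime → (p : ℤ) ∣ A1 * B1 * A2 * B2 → p ∣ 30) (hB1 : IsSquare B1)
    (hAB : IsSquare (-(A1 * B2))) (hA2 : ¬ IsSquare (-A2)) {ε : ℝ} (hε : 0 < ε) :
    ∃ K c : ℕ, ∀ B : Box, B.Hyp c →
      (({a | ¬ B.Generic A1 B1 A2 B2 K a} : Finset B.Mat).card : ℝ) ≤ ε * Fintype.card B.Mat :=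
  gen_main' h0 h30 hB1 hAB hA2 hε

/-- Sampling of grids: an inequality that holds on every grid with a good label holds on the
whole fibre. -/
theorem samp_main (n M : ℕ) (hn : 1 ≤ n) {ε : ℝ} (hε : 0 < ε) : ∃ c : ℕ, ∀ B : Box, B.Hyp c →
    ∀ (a : B.Mat) (σ : Sx n → Fin B.r), Injective σ → (∀ j, σ (Sum.inl j) ∈ B.I 0) →
    σ ic ∈ B.I 1 → σ ia ∈ B.I 2 → ∀ (Bad : (Zg n M → F2) → Prop) (β η : ℝ), 0 ≤ η →
    (∀ Ph h i, i ≠ ic → (∀ y s, h (update y i s) = h y) → Bad (Ph + h) → Bad Ph) →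
    (({Ph | Bad Ph} : Finset (Zg n M → F2)).card : ℝ) ≤ β * 2 ^ Fintype.card (Zg n M) →
    ∀ Y1 Y2 : (Fin B.r → ℕ) → Prop,
    (∀ (x0 : Fin B.r → ℕ) (pr : Sx n → Fin (M + 1) → ℕ) (f : Fin (M + 1) → GQ → Gm n M → F2),
      (∀ i, Injective (pr i)) → (∀ y, gpt σ x0 pr y ∈ B.fib a) →
      FKit pr (B.D0 * ∏ j with j ∉ Set.range σ, (x0 j : ℤ)) f → ¬ Bad (label pr f) →
      (({y | Y1 (gpt σ x0 pr y)} : Finset (Zg n M)).card : ℝ) ≤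
        ({y | Y2 (gpt σ x0 pr y)} : Finset (Zg n M)).card / 2 + η * (M + 1) ^ (n + 2)) →
    (({x ∈ B.fib a | Y1 x} : Finset _).card : ℝ) ≤
      ({x ∈ B.fib a | Y2 x} : Finset _).card / 2 + (η + 2 * β + ε) * (B.fib a).card :=
  samp_main' n M hn hε

/-- Almost all squarefree numbers lie in good boxes. -/
theorem an_main (c : ℕ) {ε : ℝ} (hε : 0 < ε) : ∃ X0 : ℕ, ∀ X ≥ X0, ∀ s : ℤ, s = 1 ∨ s = -1 →
    ∃ (N : ℕ) (B : Fin N → Box), (∀ i, (B i).Hyp c) ∧ ∑ i, (B i).pts.card ≤ 2 * X ∧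
      (({m ∈ Icc 1 X | Squarefree m ∧ ¬ ∃ i, ∃ x ∈ (B i).pts, (B i).DD x = s * m} :
        Finset ℕ).card : ℝ) ≤ ε * X :=
  an_main' c hε

end Pool.Agent.Lib.MP_696deb_nt.Sm
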