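import Pool.Agent.Lib.MP_696deb_nt.Sm.Cnt

/-! Weighted grids: definitions and the basic decomposition. -/

set_option autoImplicit false

open Finset
open scoped Classical

namespace Pool.Agent.Lib.MP_696deb_nt.Sm

/-- Data for sampling grids. -/
structure SD (ι Γ κ : Type) (M : ℕ) where
  X : ι → Finset ℕ
  E : ι → ι → ℕ → ℕ → ZMod 2
  ia : ι
  ic : ι
  cls : (ι × Fin M → ℕ) → ℕ → κ
  w : (ι × Fin M → ℕ) → ℕ → ℕ → Γ → ZMod 2

/-- Points with all edge bits zero. -/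
noncomputable def XA {ι : Type} [Fintype ι] (X : ι → Finset ℕ) (E : ι → ι → ℕ → ℕ → ZMod 2) :
    Finset (ι → ℕ) :=
  (Fintype.piFinset X).filter fun x => ∀ i j, i ≠ j → E i j (x i) (x j) = 0

/-- Bit patterns with even fibres. -/
noncomputable def Par (M : ℕ) (Γ : Type) [Fintype Γ] : Finset (Fin M × Fin M × Γ → ZMod 2) :=
  univ.filter fun π => ∀ s t, ∑ γ, π (s, t, γ) = 0

namespace SD

variable {ι Γ κ : Type} [Fintype ι] [Fintype Γ] [Fintype κ] {M : ℕ} (D : SD ι Γ κ M)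

noncomputable def G : Finset (ι × Fin M → ℕ) := Fintype.piFinset fun v => D.X v.1

def In (v : ι × Fin M) : Prop := v.1 = D.ia ∨ v.1 = D.ic

noncomputable def G0 : Finset (ι × Fin M → ℕ) :=
  Fintype.piFinset fun v => if D.In v then {0} else D.X v.1

def AllE (x : ι × Fin M → ℕ) : Prop := ∀ v v', v.1 ≠ v'.1 → D.E v.1 v'.1 (x v) (x v') = 0

def IntE (x : ι × Fin M → ℕ) : Prop :=
  ∀ v v', ¬ D.In v → ¬ D.In v' → v.1 ≠ v'.1 → D.E v.1 v'.1 (x v) (x v') = 0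

def Comp (x : ι × Fin M → ℕ) (i : ι) (p : ℕ) : Prop := ∀ v, ¬ D.In v → D.E i v.1 p (x v) = 0

noncomputable def K (x : ι × Fin M → ℕ) (k : κ) : Finset ℕ :=
  (D.X D.ia).filter fun p => D.Comp x D.ia p ∧ D.cls x p = k

noncomputable def R (x : ι × Fin M → ℕ) : Finset ℕ := (D.X D.ic).filter fun r => D.Comp x D.ic r

def Same (x : ι × Fin M → ℕ) : Prop := ∀ s s', D.cls x (x (D.ia, s)) = D.cls x (x (D.ia, s'))

noncomputable def om [NeZero M] (x : ι × Fin M → ℕ) : ℝ :=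
  if D.AllE x ∧ D.Same x then
    (((D.X D.ia).card : ℝ) / (D.K x (D.cls x (x (D.ia, 0)))).card) ^ (M - 1) else 0

def Inj (x : ι × Fin M → ℕ) : Prop := ∀ j s s', x (j, s) = x (j, s') → s = s'

def InjO (x : ι × Fin M → ℕ) : Prop :=
  ∀ j s s', j ≠ D.ia → j ≠ D.ic → x (j, s) = x (j, s') → s = s'

def pat (x : ι × Fin M → ℕ) (e : Fin M × Fin M × Γ) : ZMod 2 :=
  D.w x (x (D.ia, e.1)) (x (D.ic, e.2.1)) e.2.2

def pt (x : ι × Fin M → ℕ) (z : ι → Fin M) (j : ι) : ℕ := x (j, z j)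

noncomputable def X' (ξ : ι × Fin M → ℕ) (k : κ) (v : ι × Fin M) : Finset ℕ :=
  if v.1 = D.ia then D.K ξ k else if v.1 = D.ic then D.R ξ else {ξ v}

/-- Pointer copies that are not in the point. -/
def Dum (z : ι → Fin M) (v : ι × Fin M) : Prop := v.1 = D.ia ∧ v.2 ≠ z D.ia

/-- The edges that remain after the first count. -/
def Keep (z : ι → Fin M) (v v' : ι × Fin M) : Prop :=
  v.1 ≠ v'.1 ∧ ¬ D.Dum z v ∧ ¬ D.Dum z v' ∧ ¬ (v.1 = D.ia ∧ v'.1 = D.ic ∧ v'.2 ≠ z D.ic) ∧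
    ¬ (v'.1 = D.ia ∧ v.1 = D.ic ∧ v.2 ≠ z D.ic)

def E2 (z : ι → Fin M) (y : ι × Fin M → ℕ) : Prop :=
  ∀ v v', D.Keep z v v' → D.E v.1 v'.1 (y v) (y v') = 0

structure OK (δ : ℝ) : Prop where
  hac : D.ia ≠ D.ic
  sym : ∀ i j p q, D.E i j p q = D.E j i q p
  dep : ∀ x x', (∀ v, ¬ D.In v → x v = x' v) → D.cls x = D.cls x' ∧ D.w x = D.w x'
  d0 : 0 ≤ δ
  bil : ∀ i j, i ≠ j → ∀ a b : ℕ → ℝ, (∀ p, |a p| ≤ 1) → (∀ q, |b q| ≤ 1) →
    |∑ p ∈ D.X i, ∑ q ∈ D.X j, a p * b q * sg (D.E i j p q)| ≤ δ * (D.X i).card * (D.X j).card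
  bilac : ∀ a b : ℕ → ℝ, (∀ p, |a p| ≤ 1) → (∀ q, |b q| ≤ 1) → (Fintype.card κ : ℝ) *
    |∑ p ∈ D.X D.ia, ∑ q ∈ D.X D.ic, a p * b q * sg (D.E D.ia D.ic p q)| ≤
      δ * (D.X D.ia).card * (D.X D.ic).card
  big : ∀ j, 1 ≤ δ * (D.X j).card
  bigK : (Fintype.card κ : ℝ) ≤ δ * (D.X D.ia).card
  wsum : ∀ x p r, ∑ γ, D.w x p r γ = D.E D.ia D.ic p r
  lbil : ∀ x ∈ D.G0, D.InjO x → D.IntE x → ∀ (k : κ) (F : Finset Γ), F.Nonempty →
    ∀ a b : ℕ → ℝ, (∀ p, |a p| ≤ 1) → (∀ q, |b q| ≤ 1) → (Fintype.card κ : ℝ) *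
    |∑ p ∈ D.K x k, ∑ r ∈ D.R x, a p * b r * sg (∑ γ ∈ F, D.w x p r γ)| ≤
      δ * (D.X D.ia).card * (D.X D.ic).card

variable {D} {δ : ℝ}

theorem om_nonneg [NeZero M] (x : ι × Fin M → ℕ) : 0 ≤ D.om x := by
  unfold om
  split_ifs <;> positivity

theorem sampd_prod (f : ι → ℝ) : ∏ v : ι × Fin M, f v.1 = (∏ j, f j) ^ M := by
  rw [Fintype.prod_prod_type, ← prod_pow]
  simp

theorem card_G (h : D.ia ≠ D.ic) : (D.G.card : ℝ) =
    D.G0.card * ((D.X D.ia).card : ℝ) ^ M * ((D.X D.ic).card : ℝ) ^ M := by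
  have e : ∀ v : ι × Fin M, (((if D.In v then {0} else D.X v.1 : Finset ℕ).card : ℕ) : ℝ) =
      if v.1 = D.ia ∨ v.1 = D.ic then 1 else ((D.X v.1).card : ℝ) := fun v => by
    by_cases hv : D.In v
    · rw [if_pos hv, if_pos (show v.1 = D.ia ∨ v.1 = D.ic from hv), card_singleton, Nat.cast_one]
    · rw [if_neg hv, if_neg (show ¬ (v.1 = D.ia ∨ v.1 = D.ic) from hv)]
  rw [G, G0, Fintype.card_piFinset, Fintype.card_piFinset, Nat.cast_prod, Nat.cast_prod,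
    prod_congr rfl fun v _ => e v, sampd_prod fun j => ((D.X j).card : ℝ),
    sampd_prod fun j => if j = D.ia ∨ j = D.ic then 1 else ((D.X j).card : ℝ), ← mul_pow, ← mul_pow,
    ← Fintype.prod_ite_eq' D.ia fun j => ((D.X j).card : ℝ),
    ← Fintype.prod_ite_eq' D.ic fun j => ((D.X j).card : ℝ), ← prod_mul_distrib,
    ← prod_mul_distrib]
  refine congrArg (· ^ M) (prod_congr rfl fun j _ => ?_)
  by_cases h1 : j = D.ia
  · simp [h1, h]
  · by_cases h2 : j = D.ic <;> simp [h1, h2, h.symm]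

theorem card_G' : (D.G.card : ℝ) = ((Fintype.piFinset D.X).card : ℝ) ^ M := by
  rw [G, Fintype.card_piFinset, Fintype.card_piFinset, Nat.cast_prod, Nat.cast_prod,
    sampd_prod fun j => ((D.X j).card : ℝ)]

theorem sum_card_K (ξ : ι × Fin M → ℕ) : ∑ k, ((D.K ξ k).card : ℝ) ≤ (D.X D.ia).card := by
  rw [card_eq_sum_card_fiberwise (f := D.cls ξ) (s := D.X D.ia) (t := univ)
    fun _ _ => mem_univ _, Nat.cast_sum]
  exact sum_le_sum fun k _ => Nat.cast_le.2 (card_le_card fun p hp =>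
    mem_filter.2 ⟨(mem_filter.1 hp).1, (mem_filter.1 hp).2.2⟩)

theorem agree {ξ y : ι × Fin M → ℕ} {k : κ} (hy : y ∈ Fintype.piFinset (D.X' ξ k)) :
    ∀ v, ¬ D.In v → y v = ξ v := fun v hv => by
  have h := Fintype.mem_piFinset.1 hy v
  rwa [X', if_neg fun e => hv (Or.inl e), if_neg fun e => hv (Or.inr e), mem_singleton] at h

omit [Fintype ι] in
theorem sampd_pow (S : Finset (ι × Fin M)) (a : ι) (s : Fin M) (hS : ∀ u, (a, u) ∈ S ↔ u ≠ s)
    (x : ℝ) : ∏ v ∈ S, (if v.1 = a then x else 1) = x ^ (M - 1) := by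
  have e : S.filter (fun v => v.1 = a) =
      (univ.erase s).map ⟨fun u => (a, u), Prod.mk_right_injective a⟩ := by
    ext ⟨j, u⟩
    simp only [mem_filter, mem_map, mem_erase, mem_univ, and_true, Function.Embedding.coeFn_mk,
      Prod.mk.injEq]
    exact ⟨fun h => ⟨u, (hS u).1 (h.2 ▸ h.1), h.2.symm, rfl⟩, fun ⟨u', h1, h2, h3⟩ =>
      ⟨h2 ▸ h3 ▸ (hS u').2 h1, h2.symm⟩⟩
  rw [prod_ite, prod_const, prod_const_one, mul_one, e, card_map, card_erase_of_mem (mem_univ _),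
    card_univ, Fintype.card_fin]

/-- The product of the sizes of all sets but one pointer copy and one pivot copy. -/
theorem prod_X' (h : D.ia ≠ D.ic) (ξ : ι × Fin M → ℕ) (k : κ) (s t : Fin M) :
    ∏ v ∈ univ \ {(D.ia, s), (D.ic, t)}, ((D.X' ξ k v).card : ℝ) =
      ((D.K ξ k).card : ℝ) ^ (M - 1) * ((D.R ξ).card : ℝ) ^ (M - 1) := by
  rw [← sampd_pow (univ \ {(D.ia, s), (D.ic, t)}) D.ia s (fun u => by simp [h]),
    ← sampd_pow (univ \ {(D.ia, s), (D.ic, t)}) D.ic t (fun u => by simp [h.symm]),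
    ← prod_mul_distrib]
  refine prod_congr rfl fun v _ => ?_
  by_cases h1 : v.1 = D.ia
  · simp [X', h1, h]
  · by_cases h2 : v.1 = D.ic <;> simp [X', h1, h2, h.symm]

theorem sampd_fiber {V α : Type} [Fintype V] [i : DecidableEq V] (X : V → Finset α) (P : V → Prop)
    (o : α) (Φ : (V → α) → ℝ) : ∑ x ∈ Fintype.piFinset X, Φ x =
      ∑ ξ ∈ Fintype.piFinset (fun v => if P v then {o} else X v),
        ∑ y ∈ Fintype.piFinset (fun v => if P v then X v else {ξ v}), Φ y := by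
  obtain rfl : i = fun a b => Classical.propDecidable (a = b) := Subsingleton.elim _ _
  exact sum_fiber X P o Φ

theorem sampd_mem (h : D.ia ≠ D.ic) {ξ y : ι × Fin M → ℕ} {k : κ} :
    y ∈ Fintype.piFinset (D.X' ξ k) ↔ (∀ s, y (D.ia, s) ∈ D.K ξ k) ∧ (∀ s, y (D.ic, s) ∈ D.R ξ) ∧
      ∀ v, ¬ D.In v → y v = ξ v := by
  refine ⟨fun hy => ⟨fun s => ?_, fun s => ?_, agree hy⟩, fun hy => Fintype.mem_piFinset.2 ?_⟩
  · simpa [X'] using Fintype.mem_piFinset.1 hy (D.ia, s)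
  · simpa [X', h.symm] using Fintype.mem_piFinset.1 hy (D.ic, s)
  · rintro ⟨j, s⟩
    unfold X'
    split_ifs with h1 h2
    · obtain rfl : j = D.ia := h1
      exact hy.1 s
    · obtain rfl : j = D.ic := h2
      exact hy.2.1 s
    · exact mem_singleton.2 (hy.2.2 _ fun e => e.elim h1 h2)

theorem sampd_key [NeZero M] (h : D.OK δ) {ξ y : ι × Fin M → ℕ} (hX : ∀ v, D.In v → y v ∈ D.X v.1)
    (hy : ∀ v, ¬ D.In v → y v = ξ v) : D.AllE y ∧ D.Same y ↔ D.IntE ξ ∧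
      y ∈ Fintype.piFinset (D.X' ξ (D.cls ξ (y (D.ia, 0)))) ∧
        ∀ s t, D.E D.ia D.ic (y (D.ia, s)) (y (D.ic, t)) = 0 := by
  rw [sampd_mem h.hac, Same, (h.dep y ξ hy).1]
  refine ⟨fun ⟨A, S⟩ => ⟨fun v v' a b c => ?_, ⟨fun s => mem_filter.2 ⟨hX _ (Or.inl rfl),
    fun v a => ?_, S s 0⟩, fun s => mem_filter.2 ⟨hX _ (Or.inr rfl), fun v a => ?_⟩, hy⟩,
    fun s t => A (_, s) (_, t) h.hac⟩, fun ⟨I, ⟨m1, m2, _⟩, e⟩ => ⟨fun v v' c => ?_, fun s s' =>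
      (mem_filter.1 (m1 s)).2.2.trans (mem_filter.1 (m1 s')).2.2.symm⟩⟩
  · rw [← hy v a, ← hy v' b]
    exact A v v' c
  · rw [← hy v a]
    exact A (_, s) v fun e => a (Or.inl e.symm)
  · rw [← hy v a]
    exact A (_, s) v fun e => a (Or.inr e.symm)
  have hc : ∀ v v', D.In v → ¬ D.In v' → D.E v.1 v'.1 (y v) (y v') = 0 := by
    rintro ⟨j, s⟩ v' (a | a) b <;> obtain rfl : j = _ := a <;> rw [hy v' b]
    exacts [(mem_filter.1 (m1 s)).2.1 v' b, (mem_filter.1 (m2 s)).2 v' b]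
  by_cases a : D.In v <;> by_cases b : D.In v'
  · obtain ⟨j, s⟩ := v
    obtain ⟨j', s'⟩ := v'
    rcases a with a | a <;> obtain rfl : j = _ := a <;> rcases b with b | b <;>
      obtain rfl : j' = _ := b
    exacts [absurd rfl c, e s s', (h.sym _ _ _ _).trans (e s' s), absurd rfl c]
  · exact hc v v' a b
  · exact (h.sym _ _ _ _).trans (hc v' v b a)
  · rw [hy v a, hy v' b]
    exact I v v' a b c

theorem dec [NeZero M] (h : D.OK δ) (Φ : (ι × Fin M → ℕ) → ℝ) :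
    ∑ x ∈ D.G, D.om x * Φ x = ∑ ξ ∈ D.G0, if D.IntE ξ then
      ∑ k, (((D.X D.ia).card : ℝ) / (D.K ξ k).card) ^ (M - 1) *
        ∑ y ∈ Fintype.piFinset (D.X' ξ k),
          if ∀ s t, D.E D.ia D.ic (y (D.ia, s)) (y (D.ic, t)) = 0 then Φ y else 0
      else 0 := by
  rw [G, sampd_fiber _ D.In 0]
  refine sum_congr rfl fun ξ _ => ?_
  have hF : ∀ y ∈ Fintype.piFinset (fun v => if D.In v then D.X v.1 else {ξ v}),
      (∀ v, D.In v → y v ∈ D.X v.1) ∧ ∀ v, ¬ D.In v → y v = ξ v := fun y hy =>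
    ⟨fun v a => by simpa [a] using Fintype.mem_piFinset.1 hy v,
      fun v a => by simpa [a] using Fintype.mem_piFinset.1 hy v⟩
  split_ifs with hI
  swap
  · refine sum_eq_zero fun y hy => ?_
    rw [om, if_neg fun a => hI ((sampd_key h (hF y hy).1 (hF y hy).2).1 a).1, zero_mul]
  have hs : ∀ k, Fintype.piFinset (D.X' ξ k) ⊆
      Fintype.piFinset (fun v => if D.In v then D.X v.1 else {ξ v}) := fun k y hy => by
    obtain ⟨m1, m2, m3⟩ := (sampd_mem h.hac).1 hy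
    refine Fintype.mem_piFinset.2 fun ⟨j, s⟩ => ?_
    split_ifs with a
    · rcases a with a | a <;> obtain rfl : j = _ := a
      exacts [(mem_filter.1 (m1 s)).1, (mem_filter.1 (m2 s)).1]
    · exact mem_singleton.2 (m3 _ a)
  have e : ∀ k (g : (ι × Fin M → ℕ) → ℝ), ∑ y ∈ Fintype.piFinset (D.X' ξ k), g y =
      ∑ y ∈ Fintype.piFinset (fun v => if D.In v then D.X v.1 else {ξ v}),
        if y ∈ Fintype.piFinset (D.X' ξ k) then g y else 0 := fun k g => by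
    rw [sum_ite_mem, inter_eq_right.2 (hs k)]
  rw [sum_congr rfl fun k _ => (congrArg _ (e k _)).trans (mul_sum _ _ _), sum_comm]
  refine sum_congr rfl fun y hy => ?_
  obtain ⟨h1, h2⟩ := hF y hy
  have hK : D.K y = D.K ξ := funext fun k => filter_congr fun p _ => by
    rw [(h.dep y ξ h2).1]
    exact and_congr_left' (forall₂_congr fun v a => by rw [h2 v a])
  rw [sum_eq_single (D.cls ξ (y (D.ia, 0))) (fun k _ hk => by
    rw [if_neg fun a => hk (mem_filter.1 (((sampd_mem h.hac).1 a).1 0)).2.2.symm, mul_zero])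
    (fun a => absurd (mem_univ _) a), om, hK, (h.dep y ξ h2).1]
  by_cases a : D.AllE y ∧ D.Same y
  · obtain ⟨_, a1, a2⟩ := (sampd_key h h1 h2).1 a
    rw [if_pos a, if_pos a1, if_pos a2]
  · rw [if_neg a, zero_mul]
    split_ifs with a1 a2
    exacts [absurd ((sampd_key h h1 h2).2 ⟨hI, a1, a2⟩) a, (mul_zero _).symm, (mul_zero _).symm]

end SD

end Pool.Agent.Lib.MP_696deb_nt.Sm
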